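import Mathlib

/-!
Project PP15 (MP_87c685_nt), analytic block PPA: definitions and the interface.

`V` is a finite set of labels, every prime factor of a squarefree number `n` prime to `30` gets a
label; equivalently `n = ∏ D v`. The term of a labelling is a product of the signs
`(-1/D v), (2/D v), (3/D v), (5/D v)` (exponents `e v`) and of Jacobi symbols `(D v / D w)`
(exponents `φ v w`). The mean value of `N ^ (-ω n)` times the sum of the terms is computed.
-/

open Finset Filter Topology

namespace PPA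

/-- the four signs `(-1/t), (2/t), (3/t), (5/t)` -/
def sg (t : ℕ) : Fin 4 → ℤ :=
  ![jacobiSym (-1) t, jacobiSym 2 t, jacobiSym 3 t, jacobiSym 5 t]

/-- squarefree and prime to `30` -/
def Ok (n : ℕ) : Prop := Squarefree n ∧ n.Coprime 30

noncomputable instance (n : ℕ) : Decidable (Ok n) := Classical.dec _

/-- all `D : V → ℕ` with product `n` (for `n ≠ 0`) -/
def DD (V : Type) [Fintype V] [DecidableEq V] (n : ℕ) : Finset (V → ℕ) :=
  (Fintype.piFinset fun _ => n.divisors).filter fun D => ∏ v, D v = n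

/-- the support of `D` -/
def supp {V : Type} [Fintype V] [DecidableEq V] (D : V → ℕ) : Finset V :=
  univ.filter fun v => D v ≠ 1

/-- the term of `D` -/
def F {V : Type} [Fintype V] [DecidableEq V] (φ : V → V → ℕ) (e : V → Fin 4 → ℕ)
    (D : V → ℕ) : ℤ :=
  (∏ v, ∏ i, sg (D v) i ^ e v i) * ∏ v, ∏ w, jacobiSym (D v) (D w) ^ φ v w

/-- two labels are linked if `φ v w + φ w v` is odd -/
def Unlinked {V : Type} (φ : V → V → ℕ) (U : Finset V) : Prop :=
  ∀ v ∈ U, ∀ w ∈ U, (φ v w + φ w v) % 2 = 0

/-- all sign vectors -/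
def SV : Finset (Fin 4 → ℤ) := Fintype.piFinset fun _ => {1, -1}

/-- `1` if the first sign is `-1`, otherwise `0` -/
def neg1 (s : Fin 4 → ℤ) : ℕ := if s 0 = -1 then 1 else 0

/-- the term of `D` supported in an unlinked set, as a function of the sign vectors -/
def FU {V : Type} [Fintype V] [DecidableEq V] (φ : V → V → ℕ) (e : V → Fin 4 → ℕ)
    (U : Finset V) (s : V → Fin 4 → ℤ) : ℤ :=
  (∏ v ∈ U, ∏ i, s v i ^ e v i) *
    (-1) ^ ((∑ v ∈ U, ∑ w ∈ U, φ v w * neg1 (s v) * neg1 (s w)) / 2)

/-- the sign vectors on `U` (and `1` outside) with product `c` -/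
def SU {V : Type} [Fintype V] [DecidableEq V] (U : Finset V) (c : Fin 4 → ℤ) :
    Finset (V → Fin 4 → ℤ) :=
  (Fintype.piFinset fun v => if v ∈ U then SV else {1}).filter fun s => ∏ v, s v = c

/-- the mean value belonging to `U` -/
noncomputable def MU {V : Type} [Fintype V] [DecidableEq V] (φ : V → V → ℕ)
    (e : V → Fin 4 → ℕ) (c : Fin 4 → ℤ) (U : Finset V) : ℝ :=
  (∑ s ∈ SU U c, (FU φ e U s : ℝ)) / (SU U c).card

open Classical in
/-- the normalised sum of the terms of `n` -/
noncomputable def TT {V : Type} [Fintype V] [DecidableEq V] (φ : V → V → ℕ)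
    (e : V → Fin 4 → ℕ) (N : ℕ) (R : Finset V → Prop) (n : ℕ) : ℝ :=
  (∑ D ∈ (DD V n).filter fun D => R (supp D), (F φ e D : ℝ)) / (N : ℝ) ^ n.primeFactors.card

/-- the `z`-smooth part of a squarefree number -/
def sm (z n : ℕ) : ℕ := ∏ p ∈ n.primeFactors.filter (fun p => p ≤ z), p

/-- the `z`-rough part of a squarefree number -/
def rg (z n : ℕ) : ℕ := ∏ p ∈ n.primeFactors.filter (fun p => z < p), p

/-- all prime factors exceed `z` -/
def Rough (z n : ℕ) : Prop := ∀ p : ℕ, p.Prime → p ∣ n → z < p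

/-- the labels `v` for which `D v` has a prime factor `> z` -/
def rs {V : Type} [Fintype V] [DecidableEq V] (z : ℕ) (D : V → ℕ) : Finset V :=
  univ.filter fun v => rg z (D v) ≠ 1

/-- the weight `N ^ (-ω n)` -/
noncomputable def wt (N n : ℕ) : ℝ := 1 / (N : ℝ) ^ n.primeFactors.card

open Classical in
/-- all `D` with admissible product at most `x` -/
noncomputable def Dall (V : Type) [Fintype V] [DecidableEq V] (x : ℕ) : Finset (V → ℕ) :=
  (Fintype.piFinset fun _ => range (x + 1)).filter fun D => Ok (∏ v, D v) ∧ ∏ v, D v ≤ x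

open Classical in
/-- all `D` with admissible product at most `x` and sign vector `c` -/
noncomputable def Dx (V : Type) [Fintype V] [DecidableEq V] (c : Fin 4 → ℤ) (x : ℕ) :
    Finset (V → ℕ) :=
  (Dall V x).filter fun D => sg (∏ v, D v) = c

open Classical in
/-- the weighted term of `D` -/
noncomputable def G {V : Type} [Fintype V] [DecidableEq V] (φ : V → V → ℕ) (e : V → Fin 4 → ℕ)
    (N : ℕ) (R : Finset V → Prop) (D : V → ℕ) : ℝ :=
  if R (supp D) then (F φ e D : ℝ) * wt N (∏ v, D v) else 0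

open Classical in
/-- all rough `E` supported in `U` with product at most `x` -/
noncomputable def EE {V : Type} [Fintype V] [DecidableEq V] (U : Finset V) (z x : ℕ) :
    Finset (V → ℕ) :=
  (Dall V x).filter fun E => supp E ⊆ U ∧ Rough z (∏ v, E v)

/-- the cutting level `exp ((log x) ^ η)` -/
noncomputable def zz (η : ℝ) (x : ℕ) : ℕ := ⌊Real.exp ((Real.log x) ^ η)⌋₊

/-- the squarefree integer belonging to a character of sign vectors -/
def tt (θ : Fin 4 → Fin 2) : ℤ := ∏ i, (![-1, 2, 3, 5] : Fin 4 → ℤ) i ^ (θ i : ℕ)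

/-- all sign vectors on `U`, `1` outside -/
def SS {V : Type} [Fintype V] [DecidableEq V] (U : Finset V) : Finset (V → Fin 4 → ℤ) :=
  Fintype.piFinset fun v => if v ∈ U then SV else {1}

open Classical in
/-- Fourier coefficients of a function of the sign vectors on `U` -/
noncomputable def hat {V : Type} [Fintype V] [DecidableEq V] (U : Finset V)
    (H : (V → Fin 4 → ℤ) → ℝ) (θ : V → Fin 4 → Fin 2) : ℝ :=
  if ∀ v ∉ U, θ v = 0 then
    (∑ s ∈ SS U, H s * ∏ v ∈ U, ∏ i, (s v i : ℝ) ^ (θ v i : ℕ)) / 16 ^ U.card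
  else 0

end PPA
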