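import Pool.Agent.Lib.MP_87c685_nt_PPA.Defs

/-! Project PP15 (MP_87c685_nt), analytic block PPA, module Sgn. -/

open Finset Filter Topology

namespace PPA

theorem Sgn_eq (t : ℕ) (i : Fin 4) :
    sg t i = jacobiSym ((![-1, 2, 3, 5] : Fin 4 → ℤ) i) t := by
  fin_cases i <;> rfl

theorem sg_one : sg 1 = 1 := by
  funext i
  rw [Sgn_eq, jacobiSym.one_right]
  rfl

theorem sg_mul (a b : ℕ) (ha : a ≠ 0) (hb : b ≠ 0) : sg (a * b) = sg a * sg b := by
  funext i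
  rw [Pi.mul_apply, Sgn_eq, Sgn_eq, Sgn_eq, jacobiSym.mul_right' _ ha hb]

theorem sg_prod {ι : Type} (s : Finset ι) (f : ι → ℕ) (hf : ∀ i ∈ s, f i ≠ 0) :
    sg (∏ i ∈ s, f i) = ∏ i ∈ s, sg (f i) := by
  classical
  induction s using Finset.induction_on with
  | empty => exact sg_one
  | insert a s ha ih =>
    have h1 : ∀ i ∈ s, f i ≠ 0 := fun i hi => hf i (mem_insert_of_mem hi)
    rw [prod_insert ha, prod_insert ha, sg_mul _ _ (hf a (mem_insert_self a s))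
      (prod_ne_zero_iff.mpr h1), ih h1]

theorem sg_mem (t : ℕ) (ht : t.Coprime 30) : sg t ∈ SV := by
  unfold SV
  rw [Fintype.mem_piFinset]
  have h2 : t.Coprime 2 := Nat.Coprime.coprime_dvd_right (by norm_num) ht
  have h3 : t.Coprime 3 := Nat.Coprime.coprime_dvd_right (by norm_num) ht
  have h5 : t.Coprime 5 := Nat.Coprime.coprime_dvd_right (by norm_num) ht
  intro i
  rw [Sgn_eq, mem_insert, mem_singleton]
  apply jacobiSym.eq_one_or_neg_one
  fin_cases i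
  · show Int.gcd (-1) (t : ℤ) = 1
    simp
  · show Int.gcd 2 (t : ℤ) = 1
    exact (Nat.coprime_comm.mp h2 : Nat.gcd 2 t = 1)
  · show Int.gcd 3 (t : ℤ) = 1
    exact (Nat.coprime_comm.mp h3 : Nat.gcd 3 t = 1)
  · show Int.gcd 5 (t : ℤ) = 1
    exact (Nat.coprime_comm.mp h5 : Nat.gcd 5 t = 1)

theorem sg_tt (t : ℕ) (θ : Fin 4 → Fin 2) :
    ∏ i, sg t i ^ (θ i : ℕ) = jacobiSym (tt θ) t := by
  unfold tt
  simp only [Fin.prod_univ_four, jacobiSym.mul_left, jacobiSym.pow_left, Sgn_eq]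

theorem abs_sg_le (t : ℕ) (i : Fin 4) : |sg t i| ≤ 1 := by
  rw [Sgn_eq]
  rcases jacobiSym.trichotomy ((![-1, 2, 3, 5] : Fin 4 → ℤ) i) t with h | h | h <;>
    rw [h] <;> norm_num

end PPA
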