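import Pool.Agent.Lib.MP_87c685_nt_PPA.Defs

/-! Project PP15 (MP_87c685_nt), analytic block PPA, module AsyA. -/

open Finset Filter Topology

namespace PPA

theorem as1 (K : ℕ) (η : ℝ) (hη : 0 < η) : Tendsto (fun x : ℕ =>
    ((zz η x : ℕ) : ℝ) ^ (-(1 / 12) : ℝ) * (1 + Real.log x) ^ K) atTop (𝓝 0) := by
  sorry

theorem as2 (K N : ℕ) (hN : 0 < N) (η : ℝ) (hη : 0 < η) (h : 4 * η * K < 1 / N) :
    Tendsto (fun x : ℕ => (Real.log x) ^ (-(1 / (N : ℝ))) *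
      (1 + Real.log (zz (2 * η) x)) ^ K * (1 + Real.log (zz η x + 1)) ^ K) atTop (𝓝 0) := by
  sorry

end PPA
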