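import Pool.Agent.Lib.MP_87c685_nt_PPA.Defs

/-! Project PP15 (MP_87c685_nt), analytic block PPA, module AsyB. -/

open Finset Filter Topology

namespace PPA

theorem as3 (K : ℕ) (η : ℝ) (hη : 0 < η) : Tendsto (fun x : ℕ =>
    ((zz (2 * η) x : ℕ) : ℝ) ^ (-(1 / Real.log (zz η x))) * (1 + Real.log (zz η x + 1)) ^ K)
    atTop (𝓝 0) := by
  sorry

theorem as4 (η : ℝ) (hη : 0 < η) (h1 : 2 * η < 1) :
    ∀ᶠ x : ℕ in atTop, 3 ≤ zz η x ∧ 1 ≤ zz (2 * η) x ∧ zz (2 * η) x ^ 2 ≤ x := by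
  sorry

end PPA
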