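import Pool.Agent.Lib.MP_87c685_nt_PPA.Defs
import Pool.Agent.Lib.MP_87c685_nt_PPA.Sgn

/-! Project PP15 (MP_87c685_nt), analytic block PPA, module Cnt. -/

open Finset Filter Topology

namespace PPA

/-- the sign vector as a function of the residue classes -/
def Cnt_tab (n : ℕ) : Fin 4 → ℤ :=
  ![if n % 4 = 1 then 1 else -1, if n % 8 = 1 ∨ n % 8 = 7 then 1 else -1,
    if n % 12 = 1 ∨ n % 12 = 11 then 1 else -1, if n % 5 = 1 ∨ n % 5 = 4 then 1 else -1]

theorem Cnt_cop (n : ℕ) : n.Coprime 30 ↔ (n % 2 = 1 ∧ n % 3 ≠ 0 ∧ n % 5 ≠ 0) := by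
  have h30 : (30 : ℕ) = 2 * (3 * 5) := by norm_num
  rw [h30, Nat.coprime_mul_iff_right, Nat.coprime_mul_iff_right]
  have h2 : n.Coprime 2 ↔ n % 2 = 1 := by
    rw [Nat.coprime_comm, Nat.Prime.coprime_iff_not_dvd Nat.prime_two]
    omega
  have h3 : n.Coprime 3 ↔ n % 3 ≠ 0 := by
    rw [Nat.coprime_comm, Nat.Prime.coprime_iff_not_dvd Nat.prime_three]
    omega
  have h5 : n.Coprime 5 ↔ n % 5 ≠ 0 := by
    rw [Nat.coprime_comm, Nat.Prime.coprime_iff_not_dvd Nat.prime_five]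
    omega
  rw [h2, h3, h5]

theorem Cnt_sg (n : ℕ) (h : n.Coprime 30) : sg n = Cnt_tab n := by
  obtain ⟨h2, h3, h5⟩ := (Cnt_cop n).1 h
  have ho : Odd n := Nat.odd_iff.2 h2
  have e1 : jacobiSym (-1) n = if n % 4 = 1 then 1 else -1 := by
    rw [jacobiSym.mod_right (-1) ho]
    have : (4 * (-1 : ℤ).natAbs) = 4 := by norm_num
    rw [this]
    rcases (by omega : n % 4 = 1 ∨ n % 4 = 3) with h | h
    · rw [h]; norm_num
    · rw [h]; norm_num
  have e2 : jacobiSym 2 n = if n % 8 = 1 ∨ n % 8 = 7 then 1 else -1 := by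
    rw [jacobiSym.mod_right 2 ho]
    have : (4 * (2 : ℤ).natAbs) = 8 := by norm_num
    rw [this]
    rcases (by omega : n % 8 = 1 ∨ n % 8 = 3 ∨ n % 8 = 5 ∨ n % 8 = 7) with h | h | h | h
    · rw [h]; norm_num
    · rw [h]; norm_num
    · rw [h]; norm_num
    · rw [h]; norm_num
  have e3 : jacobiSym 3 n = if n % 12 = 1 ∨ n % 12 = 11 then 1 else -1 := by
    rw [jacobiSym.mod_right 3 ho]
    have : (4 * (3 : ℤ).natAbs) = 12 := by norm_num
    rw [this]
    rcases (by omega : n % 12 = 1 ∨ n % 12 = 5 ∨ n % 12 = 7 ∨ n % 12 = 11) with h | h | h | h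
    · rw [h]; norm_num
    · rw [h]; norm_num
    · rw [h]; norm_num
    · rw [h]; norm_num
  have e5 : jacobiSym 5 n = if n % 5 = 1 ∨ n % 5 = 4 then 1 else -1 := by
    rw [jacobiSym.mod_right 5 ho]
    have : (4 * (5 : ℤ).natAbs) = 20 := by norm_num
    rw [this]
    have h20 : n % 20 < 20 := Nat.mod_lt _ (by norm_num)
    have hm5 : n % 5 = n % 20 % 5 := by omega
    have hm2 : n % 20 % 2 = 1 := by omega
    have hm5' : n % 20 % 5 ≠ 0 := by omega
    rw [hm5]
    generalize n % 20 = m at h20 hm2 hm5' ⊢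
    interval_cases m <;> first | omega | norm_num
  unfold sg Cnt_tab
  rw [e1, e2, e3, e5]

theorem Cnt_tab_add (n : ℕ) : Cnt_tab (120 + n) = Cnt_tab n := by
  have h4 : (120 + n) % 4 = n % 4 := by omega
  have h8 : (120 + n) % 8 = n % 8 := by omega
  have h12 : (120 + n) % 12 = n % 12 := by omega
  have h5 : (120 + n) % 5 = n % 5 := by omega
  unfold Cnt_tab
  rw [h4, h8, h12, h5]

/-- the residue form of the condition -/
def Cnt_q (c : Fin 4 → ℤ) (n : ℕ) : Prop :=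
  (n % 2 = 1 ∧ n % 3 ≠ 0 ∧ n % 5 ≠ 0) ∧ Cnt_tab n = c

instance (c : Fin 4 → ℤ) : DecidablePred (Cnt_q c) := fun n => by
  unfold Cnt_q; infer_instance

theorem Cnt_q_iff (c : Fin 4 → ℤ) (n : ℕ) : (n.Coprime 30 ∧ sg n = c) ↔ Cnt_q c n := by
  unfold Cnt_q
  constructor
  · rintro ⟨h, h'⟩
    exact ⟨(Cnt_cop n).1 h, by rw [← Cnt_sg n h]; exact h'⟩
  · rintro ⟨h, h'⟩
    have hc := (Cnt_cop n).2 h
    exact ⟨hc, by rw [Cnt_sg n hc]; exact h'⟩

theorem Cnt_q_add (c : Fin 4 → ℤ) (n : ℕ) : Cnt_q c (120 + n) ↔ Cnt_q c n := by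
  unfold Cnt_q
  rw [Cnt_tab_add]
  have h2 : (120 + n) % 2 = n % 2 := by omega
  have h3 : (120 + n) % 3 = n % 3 := by omega
  have h5 : (120 + n) % 5 = n % 5 := by omega
  rw [h2, h3, h5]

theorem Cnt_120 (c : Fin 4 → ℤ) (hc : c ∈ SV) : Nat.count (Cnt_q c) 120 = 2 := by
  unfold SV at hc
  rw [Fintype.mem_piFinset] at hc
  have hcc : c = ![c 0, c 1, c 2, c 3] := by
    funext i; fin_cases i <;> rfl
  have h0 := hc 0
  have h1 := hc 1
  have h2 := hc 2
  have h3 := hc 3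
  rw [mem_insert, mem_singleton] at h0 h1 h2 h3
  rw [hcc]
  rcases h0 with h0 | h0 <;> rcases h1 with h1 | h1 <;> rcases h2 with h2 | h2 <;>
    rcases h3 with h3 | h3 <;> rw [h0, h1, h2, h3] <;> decide +kernel

theorem Cnt_step (c : Fin 4 → ℤ) (hc : c ∈ SV) (k r : ℕ) :
    Nat.count (Cnt_q c) (120 * k + r) = 2 * k + Nat.count (Cnt_q c) r := by
  induction k with
  | zero => simp
  | succ k ih =>
    have : 120 * (k + 1) + r = 120 + (120 * k + r) := by ring
    rw [this, Nat.count_add]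
    have h2 : Nat.count (fun j => Cnt_q c (120 + j)) (120 * k + r)
        = Nat.count (Cnt_q c) (120 * k + r) := by
      rw [Nat.count_eq_card_filter_range, Nat.count_eq_card_filter_range]
      congr 1
      ext j
      simp only [mem_filter, mem_range, Cnt_q_add]
    rw [h2, ih, Cnt_120 c hc]
    ring

/-- number of `n ≤ x` prime to `30` with sign vector `c` -/
def Cnt_A (c : Fin 4 → ℤ) (x : ℕ) : ℕ :=
  ((range (x + 1)).filter fun n => n.Coprime 30 ∧ sg n = c).card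

theorem Cnt_A_eq (c : Fin 4 → ℤ) (x : ℕ) : Cnt_A c x = Nat.count (Cnt_q c) (x + 1) := by
  unfold Cnt_A
  rw [Nat.count_eq_card_filter_range]
  congr 1
  ext j
  simp only [mem_filter, mem_range, Cnt_q_iff]

theorem Cnt_A_bd (c : Fin 4 → ℤ) (hc : c ∈ SV) (x : ℕ) :
    2 * ((x + 1) / 120) ≤ Cnt_A c x ∧ Cnt_A c x ≤ 2 * ((x + 1) / 120) + 2 := by
  rw [Cnt_A_eq]
  have h := Cnt_step c hc ((x + 1) / 120) ((x + 1) % 120)
  rw [Nat.div_add_mod] at h
  rw [h]
  have h2 : Nat.count (Cnt_q c) ((x + 1) % 120) ≤ 2 := by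
    rw [← Cnt_120 c hc]
    exact Nat.count_monotone _ (Nat.le_of_lt (Nat.mod_lt _ (by norm_num)))
  omega

theorem Cnt_A_real (c : Fin 4 → ℤ) (hc : c ∈ SV) (x : ℕ) :
    (x : ℝ) / 60 - 2 ≤ Cnt_A c x ∧ (Cnt_A c x : ℝ) ≤ (x : ℝ) / 60 + 3 := by
  obtain ⟨h1, h2⟩ := Cnt_A_bd c hc x
  have h3 : 120 * ((x + 1) / 120) + (x + 1) % 120 = x + 1 := Nat.div_add_mod _ _
  have h4 : (x + 1) % 120 < 120 := Nat.mod_lt _ (by norm_num)
  have h1' : (2 : ℝ) * ((x + 1) / 120 : ℕ) ≤ Cnt_A c x := by exact_mod_cast h1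
  have h2' : (Cnt_A c x : ℝ) ≤ 2 * ((x + 1) / 120 : ℕ) + 2 := by exact_mod_cast h2
  have h3' : (120 : ℝ) * ((x + 1) / 120 : ℕ) + ((x + 1) % 120 : ℕ) = x + 1 := by exact_mod_cast h3
  have h4' : (((x + 1) % 120 : ℕ) : ℝ) < 120 := by exact_mod_cast h4
  have h5' : (0 : ℝ) ≤ (((x + 1) % 120 : ℕ) : ℝ) := Nat.cast_nonneg _
  constructor
  · linarith
  · linarith

/-- `n ≤ x` prime to `30` with sign vector `c` and divisible by `d ^ 2` -/
def Cnt_B (c : Fin 4 → ℤ) (x d : ℕ) : ℕ :=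
  ((range (x + 1)).filter fun n => (n.Coprime 30 ∧ sg n = c) ∧ d ^ 2 ∣ n).card

theorem Cnt_B_le (c : Fin 4 → ℤ) (x d : ℕ) : Cnt_B c x d ≤ x / d ^ 2 := by
  rw [← Nat.card_multiples' x (d ^ 2)]
  unfold Cnt_B
  apply card_le_card
  intro n hn
  rw [mem_filter] at hn ⊢
  refine ⟨hn.1, ?_, hn.2.2⟩
  rintro rfl
  exact absurd hn.2.1.1 (by decide)

theorem Cnt_B_zero (c : Fin 4 → ℤ) (x d : ℕ) (h : x < d) : Cnt_B c x d = 0 := by
  have h1 := Cnt_B_le c x d
  have h2 : x / d ^ 2 = 0 := by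
    apply Nat.div_eq_of_lt
    nlinarith
  omega

theorem Cnt_B_ncop (c : Fin 4 → ℤ) (x d : ℕ) (h : ¬ d.Coprime 30) : Cnt_B c x d = 0 := by
  unfold Cnt_B
  rw [card_eq_zero, filter_eq_empty_iff]
  rintro n - ⟨⟨h1, -⟩, h2⟩
  exact h (Nat.Coprime.coprime_dvd_left (dvd_trans (dvd_pow_self d (by norm_num)) h2) h1)

theorem Cnt_sq (d : ℕ) (hd : d.Coprime 30) (m : ℕ) (hm : m ≠ 0) : sg (d ^ 2 * m) = sg m := by
  have hd0 : d ≠ 0 := by
    rintro rfl
    exact absurd hd (by decide)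
  rw [sg_mul _ _ (pow_ne_zero 2 hd0) hm, pow_two, sg_mul _ _ hd0 hd0]
  have h1 : sg d * sg d = 1 := by
    have h := sg_mem d hd
    unfold SV at h
    rw [Fintype.mem_piFinset] at h
    funext i
    have hi := h i
    rw [mem_insert, mem_singleton] at hi
    rw [Pi.mul_apply, Pi.one_apply]
    rcases hi with hi | hi <;> rw [hi] <;> norm_num
  rw [h1, one_mul]

theorem Cnt_B_cop (c : Fin 4 → ℤ) (x d : ℕ) (h : d.Coprime 30) :
    Cnt_B c x d = Cnt_A c (x / d ^ 2) := by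
  have hd0 : d ≠ 0 := by
    rintro rfl
    exact absurd h (by decide)
  have hd2 : 0 < d ^ 2 := Nat.pos_of_ne_zero (pow_ne_zero 2 hd0)
  unfold Cnt_B Cnt_A
  apply card_nbij' (fun n => n / d ^ 2) (fun m => d ^ 2 * m)
  · intro n hn
    rw [mem_coe, mem_filter, mem_range] at hn
    obtain ⟨h1, ⟨h2, h3⟩, m, rfl⟩ := hn
    have hm0 : m ≠ 0 := by
      rintro rfl
      rw [mul_zero] at h2
      exact absurd h2 (by decide)
    simp only [coe_filter, mem_range, Set.mem_ofPred_eq]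
    rw [Nat.mul_div_cancel_left _ hd2]
    refine ⟨?_, Nat.Coprime.coprime_mul_left h2, ?_⟩
    · have : m ≤ x / d ^ 2 := by
        rw [Nat.le_div_iff_mul_le hd2]
        nlinarith
      omega
    · rw [← Cnt_sq d h m hm0]; exact h3
  · intro m hm
    rw [mem_coe, mem_filter, mem_range] at hm
    obtain ⟨h1, h2, h3⟩ := hm
    have hm0 : m ≠ 0 := by
      rintro rfl
      exact absurd h2 (by decide)
    simp only [coe_filter, mem_range, Set.mem_ofPred_eq]
    refine ⟨?_, ⟨?_, ?_⟩, dvd_mul_right _ _⟩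
    · have h4 : m ≤ x / d ^ 2 := by omega
      rw [Nat.le_div_iff_mul_le hd2] at h4
      nlinarith
    · exact Nat.Coprime.mul_left (Nat.Coprime.pow_left 2 h) h2
    · rw [Cnt_sq d h m hm0]; exact h3
  · intro n hn
    rw [mem_coe, mem_filter] at hn
    exact Nat.mul_div_cancel' hn.2.2
  · intro m _
    exact Nat.mul_div_cancel_left _ hd2

open ArithmeticFunction in
theorem Cnt_mu (n N : ℕ) (hn : n ≠ 0) (hN : n ≤ N) :
    ∑ d ∈ (range (N + 1)).filter (fun d => d ^ 2 ∣ n), moebius d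
      = if Squarefree n then 1 else 0 := by
  obtain ⟨a, b, hab, ha⟩ := Nat.sq_mul_squarefree n
  have hb0 : b ≠ 0 := by
    rintro rfl
    apply hn
    rw [← hab]; simp
  have ha0 : a ≠ 0 := ha.ne_zero
  have hset : (range (N + 1)).filter (fun d => d ^ 2 ∣ n) = b.divisors := by
    ext d
    rw [mem_filter, mem_range, Nat.mem_divisors]
    constructor
    · rintro ⟨_, h⟩
      refine ⟨?_, hb0⟩
      rw [← hab] at h
      have hd0 : d ≠ 0 := by
        rintro rfl
        rw [zero_pow (by norm_num), zero_dvd_iff] at h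
        exact hn (by rw [← hab]; exact h)
      rw [← Nat.factorization_le_iff_dvd (pow_ne_zero 2 hd0)
        (mul_ne_zero (pow_ne_zero 2 hb0) ha0)] at h
      rw [← Nat.factorization_le_iff_dvd hd0 hb0]
      intro p
      have hp := h p
      rw [Nat.factorization_pow, Nat.factorization_mul (pow_ne_zero 2 hb0) ha0,
        Nat.factorization_pow] at hp
      have hap : a.factorization p ≤ 1 := Squarefree.natFactorization_le_one p ha
      simp only [Finsupp.smul_apply, Finsupp.add_apply, smul_eq_mul] at hp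
      omega
    · rintro ⟨h, _⟩
      constructor
      · have h1 : d ≤ b := Nat.le_of_dvd (Nat.pos_of_ne_zero hb0) h
        have h2 : b ≤ n := by
          rw [← hab]
          have : 1 ≤ a := Nat.pos_of_ne_zero ha0
          have : 1 ≤ b := Nat.pos_of_ne_zero hb0
          nlinarith [Nat.mul_le_mul (Nat.le_refl (b ^ 2)) (Nat.pos_of_ne_zero ha0)]
        omega
      · rw [← hab]
        exact dvd_mul_of_dvd_left (pow_dvd_pow_of_dvd h 2) a
  rw [hset, ← coe_mul_zeta_apply, moebius_mul_coe_zeta, one_apply]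
  have hiff : b = 1 ↔ Squarefree n := by
    constructor
    · rintro rfl
      rw [← hab, one_pow, one_mul]; exact ha
    · intro hs
      have := hs b (by rw [← hab, ← pow_two]; exact dvd_mul_right _ _)
      exact Nat.isUnit_iff.1 this
  simp only [hiff]

open ArithmeticFunction in
theorem Cnt_sum (c : Fin 4 → ℤ) (x : ℕ) :
    (((range (x + 1)).filter fun n => Ok n ∧ sg n = c).card : ℝ)
      = ∑ d ∈ range (x + 1), (moebius d : ℝ) * Cnt_B c x d := by
  have h1 : (((range (x + 1)).filter fun n => Ok n ∧ sg n = c).card : ℤ)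
      = ∑ n ∈ (range (x + 1)).filter (fun n => n.Coprime 30 ∧ sg n = c),
        (if Squarefree n then (1 : ℤ) else 0) := by
    rw [← sum_filter, sum_const, filter_filter, nsmul_eq_mul, mul_one]
    congr 2
    ext n
    rw [mem_filter, mem_filter]
    constructor
    · rintro ⟨h1, h2, h3⟩
      exact ⟨h1, ⟨h2.2, h3⟩, h2.1⟩
    · rintro ⟨h1, ⟨h2, h3⟩, h4⟩
      exact ⟨h1, ⟨h4, h2⟩, h3⟩
  have h2 : ∑ n ∈ (range (x + 1)).filter (fun n => n.Coprime 30 ∧ sg n = c),
        (if Squarefree n then (1 : ℤ) else 0)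
      = ∑ d ∈ range (x + 1), moebius d * (Cnt_B c x d : ℤ) := by
    have h3 : ∀ n ∈ (range (x + 1)).filter (fun n => n.Coprime 30 ∧ sg n = c),
        (if Squarefree n then (1 : ℤ) else 0)
          = ∑ d ∈ range (x + 1), if d ^ 2 ∣ n then moebius d else 0 := by
      intro n hn
      rw [mem_filter, mem_range] at hn
      have hn0 : n ≠ 0 := by
        rintro rfl
        exact absurd hn.2.1 (by decide)
      rw [← Cnt_mu n x hn0 (by omega), sum_filter]
    rw [sum_congr rfl h3, sum_comm]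
    apply sum_congr rfl
    intro d _
    rw [← sum_filter, sum_const, filter_filter, nsmul_eq_mul, mul_comm]
    rfl
  have h4 := h1.trans h2
  have h5 : ((((range (x + 1)).filter fun n => Ok n ∧ sg n = c).card : ℤ) : ℝ)
      = ((∑ d ∈ range (x + 1), moebius d * (Cnt_B c x d : ℤ) : ℤ) : ℝ) := by rw [h4]
  rw [Int.cast_natCast] at h5
  rw [h5]
  push_cast
  rfl

/-- the limit of the term `d` -/
noncomputable def Cnt_g (d : ℕ) : ℝ :=
  if d.Coprime 30 then (ArithmeticFunction.moebius d : ℝ) * (1 / (60 * (d : ℝ) ^ 2)) else 0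

theorem Cnt_mu_le (d : ℕ) : |((ArithmeticFunction.moebius d : ℤ) : ℝ)| ≤ 1 := by
  rw [← Int.cast_abs]
  exact_mod_cast ArithmeticFunction.abs_moebius_le_one

theorem Cnt_lim (c : Fin 4 → ℤ) (hc : c ∈ SV) (d : ℕ) :
    Tendsto (fun x : ℕ => (ArithmeticFunction.moebius d : ℝ) * Cnt_B c x d / x) atTop
      (𝓝 (Cnt_g d)) := by
  unfold Cnt_g
  split_ifs with h
  · have hd0 : d ≠ 0 := by
      rintro rfl
      exact absurd h (by decide)
    have hd1 : (0 : ℝ) < (d : ℝ) ^ 2 := by positivity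
    have key : Tendsto (fun x : ℕ => (Cnt_B c x d : ℝ) / x) atTop
        (𝓝 (1 / (60 * (d : ℝ) ^ 2))) := by
      have hlo : Tendsto (fun x : ℕ => 1 / (60 * (d : ℝ) ^ 2) - 3 * (1 / (x : ℝ))) atTop
          (𝓝 (1 / (60 * (d : ℝ) ^ 2))) := by
        have := (tendsto_const_nhds (x := 1 / (60 * (d : ℝ) ^ 2))).sub
          ((tendsto_one_div_atTop_nhds_zero_nat (𝕜 := ℝ)).const_mul 3)
        simpa using this
      have hhi : Tendsto (fun x : ℕ => 1 / (60 * (d : ℝ) ^ 2) + 3 * (1 / (x : ℝ))) atTop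
          (𝓝 (1 / (60 * (d : ℝ) ^ 2))) := by
        have := (tendsto_const_nhds (x := 1 / (60 * (d : ℝ) ^ 2))).add
          ((tendsto_one_div_atTop_nhds_zero_nat (𝕜 := ℝ)).const_mul 3)
        simpa using this
      refine tendsto_of_tendsto_of_tendsto_of_le_of_le' hlo hhi ?_ ?_
      · filter_upwards [eventually_gt_atTop 0] with x hx
        have hx' : (0 : ℝ) < x := by exact_mod_cast hx
        rw [Cnt_B_cop c x d h]
        obtain ⟨h1, _⟩ := Cnt_A_real c hc (x / d ^ 2)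
        have h2 : (x : ℝ) / (d : ℝ) ^ 2 - 1 ≤ ((x / d ^ 2 : ℕ) : ℝ) := by
          have h3 := Nat.lt_div_mul_add (a := x) (b := d ^ 2) (Nat.pos_of_ne_zero (pow_ne_zero 2 hd0))
          have h4 : (x : ℝ) < (x / d ^ 2 : ℕ) * (d : ℝ) ^ 2 + (d : ℝ) ^ 2 := by exact_mod_cast h3
          rw [sub_le_iff_le_add, div_le_iff₀ hd1]
          nlinarith
        rw [le_div_iff₀ hx']
        have h5 : (1 / (60 * (d : ℝ) ^ 2) - 3 * (1 / (x : ℝ))) * x
            = (x : ℝ) / (d : ℝ) ^ 2 / 60 - 3 := by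
          field_simp
        rw [h5]
        linarith
      · filter_upwards [eventually_gt_atTop 0] with x hx
        have hx' : (0 : ℝ) < x := by exact_mod_cast hx
        rw [Cnt_B_cop c x d h]
        obtain ⟨_, h1⟩ := Cnt_A_real c hc (x / d ^ 2)
        have h2 : ((x / d ^ 2 : ℕ) : ℝ) ≤ (x : ℝ) / (d : ℝ) ^ 2 := by
          have := @Nat.cast_div_le ℝ _ _ _ x (d ^ 2)
          push_cast at this
          exact this
        rw [div_le_iff₀ hx']
        have h5 : (1 / (60 * (d : ℝ) ^ 2) + 3 * (1 / (x : ℝ))) * x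
            = (x : ℝ) / (d : ℝ) ^ 2 / 60 + 3 := by
          field_simp
        rw [h5]
        linarith
    have := key.const_mul (ArithmeticFunction.moebius d : ℝ)
    refine this.congr fun x => ?_
    rw [mul_div_assoc]
  · refine tendsto_const_nhds.congr fun x => ?_
    rw [Cnt_B_ncop c x d h]
    simp

theorem Cnt_g_le (d : ℕ) : |Cnt_g d| ≤ 1 / (60 * (d : ℝ) ^ 2) := by
  unfold Cnt_g
  split_ifs with h
  · rw [abs_mul, abs_of_nonneg (by positivity : (0 : ℝ) ≤ 1 / (60 * (d : ℝ) ^ 2))]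
    exact mul_le_of_le_one_left (by positivity) (Cnt_mu_le d)
  · rw [abs_zero]; positivity

theorem Cnt_g_sum : Summable Cnt_g := by
  have h1 : Summable fun d : ℕ => (1 / 60 : ℝ) * (1 / (d : ℝ) ^ 2) :=
    (Real.summable_one_div_nat_pow.2 (by norm_num)).mul_left _
  refine Summable.of_norm_bounded h1 fun d => ?_
  rw [Real.norm_eq_abs]
  refine (Cnt_g_le d).trans (le_of_eq ?_)
  rw [one_div, mul_inv, one_div, one_div]

theorem Cnt_pos : 0 < ∑' d, Cnt_g d := by
  have hz : HasSum (fun d : ℕ => (1 / 60 : ℝ) * (1 / (d : ℝ) ^ 2)) (1 / 60 * (Real.pi ^ 2 / 6)) :=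
    hasSum_zeta_two.mul_left _
  have h1 : HasSum (fun d : ℕ => if d = 1 then (2 / 60 : ℝ) else 0) (2 / 60) :=
    hasSum_ite_eq 1 (2 / 60 : ℝ)
  have h2 := h1.sub hz
  have h3 : (2 / 60 : ℝ) - 1 / 60 * (Real.pi ^ 2 / 6) ≤ ∑' d, Cnt_g d := by
    rw [← h2.tsum_eq]
    refine h2.summable.tsum_le_tsum (fun d => ?_) Cnt_g_sum
    by_cases hd : d = 1
    · subst hd
      have h5 : Cnt_g 1 = 1 / 60 := by
        unfold Cnt_g
        rw [if_pos (by decide)]
        simp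
      rw [h5]
      norm_num
    · rw [if_neg hd, zero_sub]
      have := (abs_le.1 (Cnt_g_le d)).1
      have h6 : (1 / 60 : ℝ) * (1 / (d : ℝ) ^ 2) = 1 / (60 * (d : ℝ) ^ 2) := by
        rw [one_div, one_div, one_div, mul_inv]
      rw [h6]
      exact this
  have h4 : Real.pi ^ 2 < 12 := by
    have := Real.pi_lt_d2
    have := Real.pi_pos
    nlinarith
  linarith

/-- equidistribution of squarefree numbers prime to `30` over the sign vectors -/
theorem count' : ∃ κ : ℝ, 0 < κ ∧ ∀ c ∈ SV, Tendsto (fun x : ℕ =>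
    (((range (x + 1)).filter fun n => Ok n ∧ sg n = c).card : ℝ) / x) atTop (𝓝 κ) := by
  refine ⟨∑' d, Cnt_g d, Cnt_pos, fun c hc => ?_⟩
  have h1 : ∀ x : ℕ, (((range (x + 1)).filter fun n => Ok n ∧ sg n = c).card : ℝ) / x
      = ∑' d, (ArithmeticFunction.moebius d : ℝ) * Cnt_B c x d / x := by
    intro x
    rw [Cnt_sum, sum_div, tsum_eq_sum]
    intro d hd
    rw [mem_range, not_lt] at hd
    rw [Cnt_B_zero c x d (by omega)]
    simp
  simp only [h1]
  refine tendsto_tsum_of_dominated_convergence (bound := fun d : ℕ => 1 / (d : ℝ) ^ 2)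
    (Real.summable_one_div_nat_pow.2 (by norm_num)) (fun d => Cnt_lim c hc d) ?_
  filter_upwards [eventually_gt_atTop 0] with x hx
  intro d
  have hx' : (0 : ℝ) < x := by exact_mod_cast hx
  rw [Real.norm_eq_abs, abs_div, abs_mul, abs_of_nonneg (Nat.cast_nonneg _ : (0 : ℝ) ≤ (Cnt_B c x d : ℝ)),
    abs_of_pos hx', div_le_iff₀ hx']
  have h2 : (Cnt_B c x d : ℝ) ≤ (x : ℝ) / (d : ℝ) ^ 2 := by
    have h3 : (Cnt_B c x d : ℝ) ≤ ((x / d ^ 2 : ℕ) : ℝ) := by exact_mod_cast Cnt_B_le c x d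
    have := @Nat.cast_div_le ℝ _ _ _ x (d ^ 2)
    push_cast at this
    exact h3.trans this
  calc |((ArithmeticFunction.moebius d : ℤ) : ℝ)| * (Cnt_B c x d : ℝ)
      ≤ 1 * ((x : ℝ) / (d : ℝ) ^ 2) :=
        mul_le_mul (Cnt_mu_le d) h2 (Nat.cast_nonneg _) zero_le_one
    _ = 1 / (d : ℝ) ^ 2 * x := by ring

end PPA
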