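import Pool.Agent.Lib.MP_87c685_nt_PPA.Defs

/-! Project PP15 (MP_87c685_nt), analytic block PPA, module DT. -/

open Finset Filter Topology

namespace PPA

/-- refinement of two factorizations into three factors -/
theorem DT_ref (b₁ b₂ b₃ c₁ c₂ c₃ : ℕ) (hb : 0 < b₁ * b₂ * b₃)
    (h : b₁ * b₂ * b₃ = c₁ * c₂ * c₃) :
    ∃ x : Fin 3 × Fin 3 → ℕ, (∏ j, x (0, j)) = b₁ ∧ (∏ j, x (1, j)) = b₂ ∧
      (∏ j, x (2, j)) = b₃ ∧ (∏ i, x (i, 0)) = c₁ ∧ (∏ i, x (i, 1)) = c₂ ∧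
      (∏ i, x (i, 2)) = c₃ := by
  have split : ∀ a c₁ c₂ c₃ : ℕ, a ∣ c₁ * c₂ * c₃ →
      ∃ x y z d₁ d₂ d₃ : ℕ, a = x * y * z ∧ c₁ = x * d₁ ∧ c₂ = y * d₂ ∧ c₃ = z * d₃ := by
    intro a c₁ c₂ c₃ h
    obtain ⟨a₁, z, h1, ⟨d₃, h2⟩, h3⟩ := exists_dvd_and_dvd_of_dvd_mul h
    obtain ⟨x, y, ⟨d₁, h4⟩, ⟨d₂, h5⟩, h6⟩ := exists_dvd_and_dvd_of_dvd_mul h1
    exact ⟨x, y, z, d₁, d₂, d₃, by rw [h3, h6], h4, h5, h2⟩
  obtain ⟨x₁, x₂, x₃, d₁, d₂, d₃, e1, e2, e3, e4⟩ :=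
    split b₁ c₁ c₂ c₃ ⟨b₂ * b₃, by rw [← h]; ring⟩
  have hb1 : 0 < b₁ := by
    rcases Nat.eq_zero_or_pos b₁ with h0 | h0
    · rw [h0] at hb; simp at hb
    · exact h0
  have k1 : b₂ * b₃ = d₁ * d₂ * d₃ := by
    apply Nat.eq_of_mul_eq_mul_left hb1
    calc b₁ * (b₂ * b₃) = c₁ * c₂ * c₃ := by rw [← h]; ring
      _ = b₁ * (d₁ * d₂ * d₃) := by rw [e1, e2, e3, e4]; ring
  obtain ⟨y₁, y₂, y₃, f₁, f₂, f₃, g1, g2, g3, g4⟩ :=
    split b₂ d₁ d₂ d₃ ⟨b₃, by rw [← k1]⟩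
  have hb2 : 0 < b₂ := by
    rcases Nat.eq_zero_or_pos b₂ with h0 | h0
    · rw [h0] at hb; simp at hb
    · exact h0
  have k2 : b₃ = f₁ * f₂ * f₃ := by
    apply Nat.eq_of_mul_eq_mul_left hb2
    calc b₂ * b₃ = d₁ * d₂ * d₃ := k1
      _ = b₂ * (f₁ * f₂ * f₃) := by rw [g1, g2, g3, g4]; ring
  refine ⟨fun p => ![![x₁, x₂, x₃], ![y₁, y₂, y₃], ![f₁, f₂, f₃]] p.1 p.2, ?_, ?_, ?_, ?_, ?_, ?_⟩
  · simp [Fin.prod_univ_three, e1]
  · simp [Fin.prod_univ_three, g1]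
  · simp [Fin.prod_univ_three, k2]
  · simp only [Fin.prod_univ_three]
    simp [e2, g2, mul_assoc]
  · simp only [Fin.prod_univ_three]
    simp [e3, g3, mul_assoc]
  · simp only [Fin.prod_univ_three]
    simp [e4, g4, mul_assoc]

/-- the number of tuples with product at most `T` -/
theorem DT_count (ι : Type) [Fintype ι] [DecidableEq ι] (i₀ : ι) (T : ℕ) :
    ((((Fintype.piFinset fun _ : ι => Icc 1 T).filter fun f => ∏ i, f i ≤ T).card : ℕ) : ℝ) ≤
      T * (1 + Real.log T) ^ (Fintype.card ι - 1) := by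
  classical
  set S := (Fintype.piFinset fun _ : ι => Icc 1 T).filter fun f => ∏ i, f i ≤ T with hS
  set B := Fintype.piFinset fun _ : {i : ι // i ≠ i₀} => Icc 1 T with hB
  have hmap : ∀ f ∈ S, (fun i : {i : ι // i ≠ i₀} => f i) ∈ B := by
    intro f hf
    rw [hS, mem_filter, Fintype.mem_piFinset] at hf
    rw [hB, Fintype.mem_piFinset]
    intro i
    exact hf.1 i
  have hprod : ∀ f : ι → ℕ, ∏ i, f i = f i₀ * ∏ i : {i : ι // i ≠ i₀}, f i := by
    intro f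
    rw [← Finset.mul_prod_erase univ f (mem_univ i₀)]
    congr 1
    rw [← Finset.prod_coe_sort]
    refine Finset.prod_bij' (fun i _ => ⟨i.1, (mem_erase.mp i.2).1⟩)
      (fun i _ => ⟨i.1, mem_erase.mpr ⟨i.2, mem_univ _⟩⟩) ?_ ?_ ?_ ?_ ?_ <;> simp
  rw [Finset.card_eq_sum_card_fiberwise (t := B) (f := fun f => fun i : {i : ι // i ≠ i₀} => f i)
    (by intro f hf; exact hmap f hf)]
  have hfib : ∀ g ∈ B, (((S.filter fun f => (fun i : {i : ι // i ≠ i₀} => f i) = g).card : ℕ) : ℝ)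
      ≤ T * ∏ i, (1 / (g i : ℝ)) := by
    intro g hg
    rw [hB, Fintype.mem_piFinset] at hg
    have hpos : 0 < ∏ i, g i := Finset.prod_pos fun i _ => (mem_Icc.mp (hg i)).1
    have h1 : (S.filter fun f => (fun i : {i : ι // i ≠ i₀} => f i) = g).card ≤
        (Icc 1 (T / ∏ i, g i)).card := by
      refine Finset.card_le_card_of_injOn (fun f => f i₀) ?_ ?_
      · intro f hf
        rw [mem_coe, mem_filter, hS, mem_filter, Fintype.mem_piFinset] at hf
        rw [mem_coe, mem_Icc]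
        refine ⟨(mem_Icc.mp (hf.1.1 i₀)).1, ?_⟩
        rw [Nat.le_div_iff_mul_le hpos]
        have h2 := hf.1.2
        rw [hprod f] at h2
        have h3 : ∏ i : {i : ι // i ≠ i₀}, f i = ∏ i, g i := by
          refine Finset.prod_congr rfl fun i _ => ?_
          exact congrFun hf.2 i
        rwa [h3] at h2
      · intro f hf f' hf' he
        rw [mem_coe, mem_filter] at hf hf'
        funext i
        by_cases hi : i = i₀
        · rw [hi]; exact he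
        · have := hf.2.trans hf'.2.symm
          exact congrFun this ⟨i, hi⟩
    rw [Nat.card_Icc, Nat.add_sub_cancel] at h1
    calc (((S.filter fun f => (fun i : {i : ι // i ≠ i₀} => f i) = g).card : ℕ) : ℝ)
        ≤ ((T / ∏ i, g i : ℕ) : ℝ) := by exact_mod_cast h1
      _ ≤ (T : ℝ) / ((∏ i, g i : ℕ) : ℝ) := Nat.cast_div_le
      _ = T * ∏ i, (1 / (g i : ℝ)) := by
        rw [Finset.prod_div_distrib, Finset.prod_const_one, Nat.cast_prod]
        ring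
  push_cast
  refine (Finset.sum_le_sum hfib).trans ?_
  rw [← Finset.mul_sum]
  refine mul_le_mul_of_nonneg_left ?_ (Nat.cast_nonneg T)
  have h2 := Finset.prod_univ_sum (fun _ : {i : ι // i ≠ i₀} => Icc 1 T)
    (fun _ a => (1 / (a : ℝ)))
  rw [← h2, Finset.prod_const]
  have hc : (univ : Finset {i : ι // i ≠ i₀}).card = Fintype.card ι - 1 := by
    rw [Finset.card_univ, Fintype.card_subtype_compl, Fintype.card_subtype_eq]
  rw [hc]
  refine pow_le_pow_left₀ (Finset.sum_nonneg fun a _ => by positivity) ?_ _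
  have h3 := harmonic_le_one_add_log T
  rw [harmonic_eq_sum_Icc] at h3
  push_cast at h3
  simpa [one_div] using h3

/-- second moment of the divisor function `d_3` -/
theorem d3 (T : ℕ) : ∑ t ∈ Icc 1 T,
    ((((Icc 1 T ×ˢ Icc 1 T ×ˢ Icc 1 T).filter fun q => q.1 * q.2.1 * q.2.2 = t).card : ℝ)) ^ 2 ≤
    T * (1 + Real.log T) ^ 8 := by
  classical
  set R : ℕ → Finset (ℕ × ℕ × ℕ) := fun t =>
    (Icc 1 T ×ˢ Icc 1 T ×ˢ Icc 1 T).filter fun q => q.1 * q.2.1 * q.2.2 = t with hR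
  set M : ℕ → Finset (Fin 3 × Fin 3 → ℕ) := fun t =>
    (Fintype.piFinset fun _ : Fin 3 × Fin 3 => Icc 1 T).filter fun f => ∏ i, f i = t with hM
  have key : ∀ t ∈ Icc 1 T, (R t).card ^ 2 ≤ (M t).card := by
    intro t ht
    have hex : ∀ p : (ℕ × ℕ × ℕ) × (ℕ × ℕ × ℕ), p ∈ R t ×ˢ R t →
        ∃ x : Fin 3 × Fin 3 → ℕ, (∏ j, x (0, j)) = p.1.1 ∧ (∏ j, x (1, j)) = p.1.2.1 ∧
          (∏ j, x (2, j)) = p.1.2.2 ∧ (∏ i, x (i, 0)) = p.2.1 ∧ (∏ i, x (i, 1)) = p.2.2.1 ∧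
          (∏ i, x (i, 2)) = p.2.2.2 := by
      intro p hp
      rw [mem_product, hR] at hp
      simp only [mem_filter] at hp
      have h1 := hp.1.2
      have h2 := hp.2.2
      refine DT_ref _ _ _ _ _ _ ?_ (h1.trans h2.symm)
      rw [h1]; exact (mem_Icc.mp ht).1
    choose! X hX using hex
    rw [sq, ← Finset.card_product]
    refine Finset.card_le_card_of_injOn X ?_ ?_
    · intro p hp
      have hp' := hX p hp
      rw [mem_coe, mem_product, hR] at hp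
      simp only [mem_filter] at hp
      have hprod : ∏ i, X p i = t := by
        rw [Fintype.prod_prod_type, Fin.prod_univ_three, hp'.1, hp'.2.1, hp'.2.2.1]
        exact hp.1.2
      rw [mem_coe, hM]
      simp only [mem_filter, Fintype.mem_piFinset]
      refine ⟨fun i => ?_, hprod⟩
      have ht' := mem_Icc.mp ht
      have hd : X p i ∣ t := by
        rw [← hprod]; exact Finset.dvd_prod_of_mem _ (mem_univ i)
      rw [mem_Icc]
      exact ⟨Nat.pos_of_dvd_of_pos hd ht'.1, (Nat.le_of_dvd ht'.1 hd).trans ht'.2⟩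
    · intro p hp q hq he
      have h1 := hX p hp
      have h2 := hX q hq
      rw [he] at h1
      have e1 := h1.1.symm.trans h2.1
      have e2 := h1.2.1.symm.trans h2.2.1
      have e3 := h1.2.2.1.symm.trans h2.2.2.1
      have e4 := h1.2.2.2.1.symm.trans h2.2.2.2.1
      have e5 := h1.2.2.2.2.1.symm.trans h2.2.2.2.2.1
      have e6 := h1.2.2.2.2.2.symm.trans h2.2.2.2.2.2
      exact Prod.ext (Prod.ext e1 (Prod.ext e2 e3)) (Prod.ext e4 (Prod.ext e5 e6))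
  have hsum : ∑ t ∈ Icc 1 T, (R t).card ^ 2 ≤
      ((Fintype.piFinset fun _ : Fin 3 × Fin 3 => Icc 1 T).filter fun f => ∏ i, f i ≤ T).card := by
    refine (Finset.sum_le_sum key).trans ?_
    rw [Finset.card_eq_sum_card_fiberwise (t := Icc 1 T) (f := fun f => ∏ i, f i)]
    · refine Finset.sum_le_sum fun t ht => Finset.card_le_card ?_
      intro f hf
      rw [hM] at hf
      simp only [mem_filter] at hf ⊢
      exact ⟨⟨hf.1, by rw [hf.2]; exact (mem_Icc.mp ht).2⟩, hf.2⟩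
    · intro f hf
      rw [mem_coe, mem_filter, Fintype.mem_piFinset] at hf
      rw [mem_coe, mem_Icc]
      have h0 : 0 < ∏ i, f i := Finset.prod_pos fun i _ => (mem_Icc.mp (hf.1 i)).1
      exact ⟨h0, hf.2⟩
  have h8 := DT_count (Fin 3 × Fin 3) (0, 0) T
  have hc : Fintype.card (Fin 3 × Fin 3) - 1 = 8 := by simp
  rw [hc] at h8
  refine le_trans ?_ h8
  have := hsum
  exact_mod_cast this

end PPA
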