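import Pool.Agent.Lib.MP_87c685_nt_PPA.Defs

/-! Project PP15 (MP_87c685_nt), analytic block PPA, module ENeg. -/

open Finset Filter Topology

namespace PPA

private lemma ENeg_sq (a : ℤ) (r t : ℕ) (h : t.Coprime r) :
    jacobiSym (a * (r : ℤ) ^ 2) t = jacobiSym a t := by
  have h1 : jacobiSym ((r : ℤ) ^ 2) t = 1 := by
    rw [jacobiSym.pow_left]
    apply jacobiSym.sq_one
    rw [Int.gcd_natCast_natCast]
    exact h.symm
  rw [jacobiSym.mul_left, h1, mul_one]

/-- `t` congruent to `c` modulo `8` and prime to `n` -/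
private lemma ENeg_crt (n c : ℕ) (hn : n ≠ 0) (hc : Odd c) :
    ∃ t : ℕ, t % 8 = c % 8 ∧ t.Coprime n := by
  have hM : Nat.Coprime 2 (ordCompl[2] n) := Nat.coprime_ordCompl Nat.prime_two hn
  have h8 : Nat.Coprime 8 (ordCompl[2] n) := by
    have : (8 : ℕ) = 2 ^ 3 := by norm_num
    rw [this]
    exact Nat.Coprime.pow_left 3 hM
  obtain ⟨t, h1, h2⟩ := Nat.chineseRemainder h8 c 1
  refine ⟨t, h1, ?_⟩
  have h3 : t.Coprime 2 := by
    rw [Nat.coprime_two_right]
    have h4 : t % 8 = c % 8 := h1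
    rw [Nat.odd_iff] at hc ⊢
    omega
  have h4 : t.Coprime (ordCompl[2] n) := by
    have := h2.gcd_eq
    rw [Nat.gcd_one_left] at this
    exact this
  have h5 : n = 2 ^ n.factorization 2 * ordCompl[2] n := (Nat.ordProj_mul_ordCompl_eq_self n 2).symm
  rw [h5]
  exact Nat.Coprime.mul_right (Nat.Coprime.pow_right _ h3) h4

private lemma ENeg_one_mod (s t M : ℕ) (hs : s ≠ 0) (hM : 4 * s ∣ M) (ht : t ≡ 1 [MOD M]) (hodd : Odd t) :
    jacobiSym (s : ℤ) t = 1 := by
  rw [jacobiSym.mod_right (s : ℤ) hodd]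
  have h1 : t % (4 * (s : ℤ).natAbs) = 1 := by
    rw [Int.natAbs_natCast]
    have h2 : t ≡ 1 [MOD (4 * s)] := ht.of_dvd hM
    have h3 : t % (4 * s) = 1 % (4 * s) := h2
    rw [h3]
    apply Nat.mod_eq_of_lt
    omega
  rw [h1, jacobiSym.one_right]

/-- the case of an odd prime factor of the squarefree part -/
private lemma ENeg_prime (e : ℤ) (he : e = 1 ∨ e = -1) (p s r : ℕ) (hp : p.Prime) (hp2 : p ≠ 2)
    (hs : s ≠ 0) (hps : p.Coprime s) (hr : r ≠ 0) :
    ∃ t : ℕ, Odd t ∧ t.Coprime (p * s * r ^ 2) ∧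
      jacobiSym (e * (p * s : ℕ) * (r : ℤ) ^ 2) t = -1 := by
  have : Fact p.Prime := ⟨hp⟩
  obtain ⟨a, ha⟩ := FiniteField.exists_nonsquare (F := ZMod p) (by rwa [ZMod.ringChar_zmod_n])
  have hN : 4 * (p * s * r ^ 2) ≠ 0 := by
    have := hp.ne_zero
    positivity
  set M := ordCompl[p] (4 * (p * s * r ^ 2)) with hMdef
  have hMp : p.Coprime M := Nat.coprime_ordCompl hp hN
  have hNM : 4 * (p * s * r ^ 2) = p ^ (4 * (p * s * r ^ 2)).factorization p * M :=
    (Nat.ordProj_mul_ordCompl_eq_self _ p).symm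
  have hp4 : p.Coprime 4 := by
    have h : (4 : ℕ) = 2 ^ 2 := by norm_num
    rw [h]
    exact Nat.Coprime.pow_right 2 ((Nat.coprime_primes hp Nat.prime_two).2 hp2)
  have h4s : 4 * s ∣ M := by
    have h1 : 4 * s ∣ p ^ (4 * (p * s * r ^ 2)).factorization p * M := by
      rw [← hNM]
      exact ⟨p * r ^ 2, by ring⟩
    exact (Nat.Coprime.dvd_of_dvd_mul_left
      (Nat.Coprime.pow_right _ (Nat.Coprime.mul_left hp4.symm hps.symm)) h1)
  obtain ⟨t, h1, h2⟩ := Nat.chineseRemainder hMp a.val 1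
  have ht4 : t % 4 = 1 := by
    have h3 : t ≡ 1 [MOD 4] := h2.of_dvd ((Dvd.intro _ rfl).trans h4s)
    exact h3
  have hodd : Odd t := by
    rw [Nat.odd_iff]
    omega
  have htp : (t : ZMod p) = a := by
    have h3 : ((t : ℕ) : ZMod p) = ((a.val : ℕ) : ZMod p) := (ZMod.natCast_eq_natCast_iff _ _ _).2 h1
    rw [h3, ZMod.natCast_val, ZMod.cast_id', id]
  have htpne : (t : ZMod p) ≠ 0 := by
    rw [htp]
    rintro rfl
    exact ha ⟨0, by simp⟩
  have hcop : t.Coprime (4 * (p * s * r ^ 2)) := by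
    rw [hNM]
    refine Nat.Coprime.mul_right (Nat.Coprime.pow_right _ ?_) ?_
    · rw [Nat.coprime_comm, hp.coprime_iff_not_dvd]
      intro h
      exact htpne ((ZMod.natCast_eq_zero_iff _ _).2 h)
    · have := h2.gcd_eq
      rw [Nat.gcd_one_left] at this
      exact this
  have hcop1 : t.Coprime (p * s * r ^ 2) := hcop.coprime_mul_left_right
  have hcopr : t.Coprime r := by
    have h3 : t.Coprime (r ^ 2) := hcop1.coprime_mul_left_right
    exact h3.coprime_dvd_right (dvd_pow_self r two_ne_zero)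
  refine ⟨t, hodd, hcop1, ?_⟩
  rw [ENeg_sq _ _ _ hcopr, jacobiSym.mul_left]
  have he1 : jacobiSym e t = 1 := by
    rcases he with rfl | rfl
    · exact jacobiSym.one_left t
    · rw [jacobiSym.at_neg_one hodd, ZMod.χ₄_nat_one_mod_four ht4]
  have hps1 : jacobiSym ((p * s : ℕ) : ℤ) t = -1 := by
    rw [Nat.cast_mul, jacobiSym.mul_left, ENeg_one_mod s t M hs h4s h2 hodd, mul_one,
      jacobiSym.quadratic_reciprocity_one_mod_four' (hp.odd_of_ne_two hp2) ht4,
      ← jacobiSym.legendreSym.to_jacobiSym, legendreSym.eq_neg_one_iff]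
    have h3 : ((t : ℤ) : ZMod p) = a := by
      rw [Int.cast_natCast]
      exact htp
    rw [h3]
    exact ha
  rw [he1, hps1, one_mul]

/-- a non-square integer has a symbol `-1` -/
theorem exists_neg (m : ℤ) (hm : ¬ IsSquare m) :
    ∃ t : ℕ, Odd t ∧ t.Coprime m.natAbs ∧ jacobiSym m t = -1 := by
  have hm0 : m.natAbs ≠ 0 := by
    rw [Int.natAbs_ne_zero]
    rintro rfl
    exact hm ⟨0, by simp⟩
  obtain ⟨s, r, hsr, hsq⟩ := Nat.sq_mul_squarefree m.natAbs
  have hs0 : s ≠ 0 := by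
    rintro rfl
    exact hm0 (by rw [← hsr, mul_zero])
  have hr0 : r ≠ 0 := by
    rintro rfl
    exact hm0 (by rw [← hsr]; simp)
  obtain ⟨e, he, hme⟩ : ∃ e : ℤ, (e = 1 ∨ e = -1) ∧ m = e * (s : ℤ) * (r : ℤ) ^ 2 := by
    have h1 : ((m.natAbs : ℕ) : ℤ) = (r : ℤ) ^ 2 * (s : ℤ) := by
      rw [← hsr]
      push_cast
      ring
    rcases Int.natAbs_eq m with h | h
    · refine ⟨1, Or.inl rfl, ?_⟩
      rw [h, h1]
      ring
    · refine ⟨-1, Or.inr rfl, ?_⟩
      rw [h, h1]
      ring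
  by_cases hp : ∃ p : ℕ, p.Prime ∧ p ≠ 2 ∧ p ∣ s
  · obtain ⟨p, hp, hp2, s', rfl⟩ := hp
    have hs' : s' ≠ 0 := by
      rintro rfl
      exact hs0 (by simp)
    obtain ⟨t, ht1, ht2, ht3⟩ := ENeg_prime e he p s' r hp hp2 hs'
      (Nat.coprime_of_squarefree_mul hsq) hr0
    refine ⟨t, ht1, ?_, ?_⟩
    · rw [← hsr, mul_comm]
      exact ht2
    · rw [hme]
      exact ht3
  · push Not at hp
    have hs12 : s = 1 ∨ s = 2 := by
      by_cases h1 : s = 1
      · exact Or.inl h1
      · right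
        obtain ⟨q, hq, hqs⟩ := Nat.exists_prime_and_dvd h1
        have hq2 : q = 2 := by
          by_contra h
          exact hp q hq h hqs
        subst hq2
        obtain ⟨s', rfl⟩ := hqs
        have hc : Nat.Coprime 2 s' := Nat.coprime_of_squarefree_mul hsq
        have : s' = 1 := by
          by_contra h
          obtain ⟨q, hq, hqs⟩ := Nat.exists_prime_and_dvd h
          have hq2 : q ≠ 2 := by
            rintro rfl
            exact hq.one_lt.ne' (Nat.Coprime.eq_one_of_dvd hc hqs)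
          exact hp q hq hq2 (hqs.mul_left 2)
        rw [this]
    -- `t` with the right residue modulo `8`
    have key : ∀ c : ℕ, Odd c → ∀ a : ℤ, (4 * a.natAbs ∣ 8) → a = e * (s : ℤ) →
        jacobiSym a (c % (4 * a.natAbs)) = -1 →
        ∃ t : ℕ, Odd t ∧ t.Coprime m.natAbs ∧ jacobiSym m t = -1 := by
      intro c hc a ha8 ha hj
      obtain ⟨t, ht, htc⟩ := ENeg_crt m.natAbs c hm0 hc
      have hodd : Odd t := by
        rw [Nat.odd_iff] at hc ⊢
        omega
      have hcr : t.Coprime r := by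
        rw [← hsr] at htc
        exact (htc.coprime_mul_right_right).coprime_dvd_right (dvd_pow_self r two_ne_zero)
      refine ⟨t, hodd, htc, ?_⟩
      rw [hme, ENeg_sq _ _ _ hcr, ← ha, jacobiSym.mod_right a hodd]
      have h1 : t % (4 * a.natAbs) = c % (4 * a.natAbs) := by
        have h2 : t ≡ c [MOD 8] := ht
        exact h2.of_dvd ha8
      rw [h1, hj]
    rcases he with rfl | rfl <;> rcases hs12 with rfl | rfl
    · exact absurd ⟨(r : ℤ), by rw [hme]; push_cast; ring⟩ hm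
    · exact key 5 (by decide) 2 (by decide) (by norm_num) (by norm_num)
    · exact key 7 (by decide) (-1) (by decide) (by norm_num) (by norm_num)
    · exact key 7 (by decide) (-2) (by decide) (by norm_num) (by norm_num)

end PPA
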