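import Pool.Agent.Lib.MP_87c685_nt_PPA.Defs
import Pool.Agent.Lib.MP_87c685_nt_PPA.ENeg

/-! Project PP15 (MP_87c685_nt), analytic block PPA, module OSum. -/

open Finset Filter Topology

namespace PPA

/-- the symbol on odd numbers, `0` on even numbers -/
private def OSum_f (m : ℤ) (n : ℕ) : ℤ := if Odd n then jacobiSym m n else 0

private lemma OSum_mod (m : ℤ) (n : ℕ) : OSum_f m (n % (4 * m.natAbs)) = OSum_f m n := by
  have h1 : Even (4 * m.natAbs) := Even.mul_right (by decide) _
  unfold OSum_f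
  by_cases h : Odd n
  · rw [if_pos h, if_pos (h.mod_even h1), jacobiSym.mod_right m h]
  · have h2 : ¬ Odd (n % (4 * m.natAbs)) := by
      rw [Nat.not_odd_iff_even] at h ⊢
      exact h.mod_even h1
    rw [if_neg h, if_neg h2]

private lemma OSum_mul (m : ℤ) (t n : ℕ) (ht : Odd t) :
    OSum_f m (t * n) = jacobiSym m t * OSum_f m n := by
  unfold OSum_f
  by_cases h : Odd n
  · rw [if_pos h, if_pos (ht.mul h), jacobiSym.mul_right' m (by rintro rfl; simp at ht)
      (by rintro rfl; simp at h)]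
  · have h2 : ¬ Odd (t * n) := fun h3 => h (Nat.odd_mul.1 h3).2
    rw [if_neg h, if_neg h2, mul_zero]

private lemma OSum_period (m : ℤ) (hm : ¬ IsSquare m) :
    ∑ n ∈ range (4 * m.natAbs), OSum_f m n = 0 := by
  obtain ⟨t, ht, htm, hneg⟩ := exists_neg m hm
  have hm0 : m ≠ 0 := by
    rintro rfl
    exact hm ⟨0, rfl⟩
  obtain ⟨M, hM⟩ : ∃ M, M = 4 * m.natAbs := ⟨_, rfl⟩
  have hMpos : 0 < M := by
    rw [hM]
    have := Int.natAbs_pos.2 hm0
    omega
  have htM : M.Coprime t := by
    rw [hM]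
    apply Nat.Coprime.mul_left
    · have h2 : Nat.Coprime 2 t := (Nat.coprime_two_left).2 ht
      have : Nat.Coprime (2 ^ 2) t := Nat.Coprime.pow_left 2 h2
      exact this
    · exact htm.symm
  have hinj : Set.InjOn (fun n => t * n % M) (range M : Set ℕ) := by
    intro a ha b hb hab
    have h1 : t * a ≡ t * b [MOD M] := hab
    have h2 : a ≡ b [MOD M] := Nat.ModEq.cancel_left_of_coprime htM h1
    have ha' : a < M := by simpa using ha
    have hb' : b < M := by simpa using hb
    exact Nat.ModEq.eq_of_lt_of_lt h2 ha' hb'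
  have himg : (range M).image (fun n => t * n % M) = range M := by
    apply Finset.eq_of_subset_of_card_le
    · intro x hx
      obtain ⟨y, -, rfl⟩ := Finset.mem_image.1 hx
      exact Finset.mem_range.2 (Nat.mod_lt _ hMpos)
    · rw [Finset.card_image_of_injOn hinj]
  have h3 : ∑ n ∈ range M, OSum_f m (t * n % M) = ∑ n ∈ range M, OSum_f m n := by
    conv_rhs => rw [← himg]
    rw [Finset.sum_image hinj]
  have h4 : ∀ n, OSum_f m (t * n % M) = - OSum_f m n := by
    intro n
    rw [hM, OSum_mod, OSum_mul m t n ht, hneg]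
    ring
  rw [← hM]
  have h5 : ∑ n ∈ range M, OSum_f m (t * n % M) = - ∑ n ∈ range M, OSum_f m n := by
    rw [← Finset.sum_neg_distrib]
    exact Finset.sum_congr rfl fun n _ => h4 n
  omega

private lemma OSum_blocks (m : ℤ) (hm : ¬ IsSquare m) (q r : ℕ) :
    ∑ n ∈ range (q * (4 * m.natAbs) + r), OSum_f m n = ∑ n ∈ range r, OSum_f m n := by
  have hp : ∀ q n : ℕ, OSum_f m (q * (4 * m.natAbs) + n) = OSum_f m n := by
    intro q n
    rw [← OSum_mod m (q * (4 * m.natAbs) + n), ← OSum_mod m n, Nat.mul_add_mod_self_right]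
  have h1 : ∀ q : ℕ, ∑ n ∈ range (q * (4 * m.natAbs)), OSum_f m n = 0 := by
    intro q
    induction q with
    | zero => simp
    | succ q ih =>
      rw [Nat.succ_mul, Finset.sum_range_add, ih, zero_add]
      rw [Finset.sum_congr rfl fun n _ => hp q n]
      exact OSum_period m hm
  rw [Finset.sum_range_add, h1, zero_add]
  exact Finset.sum_congr rfl fun n _ => hp q n

private lemma OSum_abs (m : ℤ) (n : ℕ) : |OSum_f m n| ≤ 1 := by
  unfold OSum_f
  split_ifs
  · rcases jacobiSym.trichotomy m n with h | h | h <;> rw [h] <;> norm_num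
  · norm_num

/-- sums of the symbol over odd numbers are bounded by the period -/
theorem odd_sum_le (m : ℤ) (hm : ¬ IsSquare m) (X : ℕ) :
    |∑ n ∈ (range X).filter Odd, (jacobiSym m n : ℝ)| ≤ 4 * (m.natAbs : ℝ) := by
  have hm0 : m ≠ 0 := by
    rintro rfl
    exact hm ⟨0, rfl⟩
  have hMpos : 0 < 4 * m.natAbs := by
    have := Int.natAbs_pos.2 hm0
    omega
  have h1 : ∑ n ∈ (range X).filter Odd, (jacobiSym m n : ℝ) =
      ((∑ n ∈ range X, OSum_f m n : ℤ) : ℝ) := by
    rw [Finset.sum_filter, Int.cast_sum]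
    refine Finset.sum_congr rfl fun n _ => ?_
    unfold OSum_f
    split_ifs <;> simp
  have h2 : ∑ n ∈ range X, OSum_f m n = ∑ n ∈ range (X % (4 * m.natAbs)), OSum_f m n := by
    conv_lhs => rw [← Nat.div_add_mod' X (4 * m.natAbs)]
    exact OSum_blocks m hm _ _
  have h3 : |∑ n ∈ range X, OSum_f m n| ≤ ((4 * m.natAbs : ℕ) : ℤ) := by
    rw [h2]
    refine (Finset.abs_sum_le_sum_abs _ _).trans ?_
    refine (Finset.sum_le_card_nsmul _ _ 1 fun n _ => OSum_abs m n).trans ?_
    rw [Finset.card_range, nsmul_eq_mul, mul_one]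
    exact_mod_cast (Nat.mod_lt X hMpos).le
  rw [h1]
  have h4 : ((|∑ n ∈ range X, OSum_f m n| : ℤ) : ℝ) ≤ (((4 * m.natAbs : ℕ) : ℤ) : ℝ) := by
    exact_mod_cast h3
  rw [Int.cast_abs] at h4
  refine h4.trans (le_of_eq ?_)
  rw [Int.cast_natCast, Nat.cast_mul, Nat.cast_ofNat]

end PPA
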