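import Pool.Agent.Lib.MP_87c685_nt_PPA.Defs
import Pool.Agent.Lib.MP_87c685_nt_PPA.DT
import Pool.Agent.Lib.MP_87c685_nt_PPA.OSum

/-! Project PP15 (MP_87c685_nt), analytic block PPA, module BLS. -/

open Finset Filter Topology

namespace PPA

/-- two different squarefree numbers do not have a square product -/
theorem BLS_not_square {a b : ℕ} (ha : Squarefree a) (hb : Squarefree b) (hab : a ≠ b) :
    ¬ IsSquare ((a : ℤ) * (b : ℤ)) := by
  rintro ⟨r, hr⟩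
  apply hab
  have h1 : a * b = r.natAbs * r.natAbs := by
    have := congrArg Int.natAbs hr
    rwa [Int.natAbs_mul, Int.natAbs_mul, Int.natAbs_natCast, Int.natAbs_natCast] at this
  have ha0 : a ≠ 0 := ha.ne_zero
  have hb0 : b ≠ 0 := hb.ne_zero
  have hr0 : r.natAbs ≠ 0 := by
    intro h0
    rw [h0] at h1
    simp [ha0, hb0] at h1
  apply Nat.eq_of_factorization_eq ha0 hb0
  intro p
  have h2 := congrArg (fun n => n.factorization p) h1
  simp only [Nat.factorization_mul ha0 hb0, Nat.factorization_mul hr0 hr0,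
    Finsupp.add_apply] at h2
  have h3 := ha.natFactorization_le_one p
  have h4 := hb.natFactorization_le_one p
  omega

/-- the sum of the symbol of a product over the odd numbers -/
theorem BLS_inner (V N : ℕ) (a b : ℕ) (ha : Squarefree a) (hb : Squarefree b) (haV : a ≤ V)
    (hbV : b ≤ V) :
    |∑ t ∈ (Icc 1 N).filter Odd, ((jacobiSym a t : ℝ) * (jacobiSym b t : ℝ))| ≤
      (if a = b then (N : ℝ) else 0) + 4 * (V : ℝ) ^ 2 := by
  have hset : (Icc 1 N).filter Odd = (range (N + 1)).filter Odd := by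
    ext t
    simp only [mem_filter, mem_Icc, mem_range]
    constructor
    · rintro ⟨⟨h1, h2⟩, h3⟩
      exact ⟨by omega, h3⟩
    · rintro ⟨h1, h3⟩
      refine ⟨⟨?_, by omega⟩, h3⟩
      rcases Nat.eq_zero_or_pos t with h | h
      · subst h; simp at h3
      · exact h
  by_cases h : a = b
  · subst h
    rw [if_pos rfl]
    have h1 : |∑ t ∈ (Icc 1 N).filter Odd, ((jacobiSym a t : ℝ) * (jacobiSym a t : ℝ))| ≤
        ∑ t ∈ (Icc 1 N).filter Odd, (1 : ℝ) := by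
      refine (Finset.abs_sum_le_sum_abs _ _).trans (Finset.sum_le_sum fun t _ => ?_)
      rcases jacobiSym.trichotomy (a : ℤ) t with h | h | h <;> rw [h] <;> norm_num
    have h2 : ∑ t ∈ (Icc 1 N).filter Odd, (1 : ℝ) ≤ N := by
      rw [Finset.sum_const, nsmul_eq_mul, mul_one]
      have : ((Icc 1 N).filter Odd).card ≤ N := by
        refine (Finset.card_filter_le _ _).trans ?_
        simp
      exact_mod_cast this
    have h3 : (0 : ℝ) ≤ 4 * (V : ℝ) ^ 2 := by positivity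
    linarith
  · rw [if_neg h, zero_add]
    have h1 : ∑ t ∈ (Icc 1 N).filter Odd, ((jacobiSym a t : ℝ) * (jacobiSym b t : ℝ)) =
        ∑ t ∈ (range (N + 1)).filter Odd, (jacobiSym ((a : ℤ) * (b : ℤ)) t : ℝ) := by
      rw [hset]
      refine Finset.sum_congr rfl fun t _ => ?_
      rw [jacobiSym.mul_left]
      push_cast
      ring
    rw [h1]
    refine (odd_sum_le _ (BLS_not_square ha hb h) (N + 1)).trans ?_
    rw [Int.natAbs_mul, Int.natAbs_natCast, Int.natAbs_natCast]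
    push_cast
    have haR : (a : ℝ) ≤ V := by exact_mod_cast haV
    have hbR : (b : ℝ) ≤ V := by exact_mod_cast hbV
    have ha0 : (0 : ℝ) ≤ a := Nat.cast_nonneg a
    have hb0 : (0 : ℝ) ≤ b := Nat.cast_nonneg b
    nlinarith [mul_le_mul haR hbR hb0 (ha0.trans haR)]

/-- the mean square of `T` -/
theorem BLS_second (V W : ℕ) (hV : 1 ≤ V) (hVW : V ≤ W) (A : Finset ℕ)
    (hA : ∀ a ∈ A, Squarefree a ∧ a ≤ V) (hcard : A.card ≤ V) (c : ℕ → ℝ)
    (hc : ∀ a, |c a| ≤ 1) :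
    ∑ t ∈ (Icc 1 (W ^ 3)).filter Odd, (∑ a ∈ A, c a * (jacobiSym a t : ℝ)) ^ 2 ≤
      5 * (V : ℝ) * (W : ℝ) ^ 3 := by
  have h1 : ∑ t ∈ (Icc 1 (W ^ 3)).filter Odd, (∑ a ∈ A, c a * (jacobiSym a t : ℝ)) ^ 2 =
      ∑ a ∈ A, ∑ b ∈ A, (c a * c b) *
        ∑ t ∈ (Icc 1 (W ^ 3)).filter Odd, ((jacobiSym a t : ℝ) * (jacobiSym b t : ℝ)) := by
    simp_rw [Finset.mul_sum]
    rw [Finset.sum_comm' (s := A) (t := fun _ => A) (t' := A) (s' := fun _ => A) (by simp)]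
    rw [Finset.sum_comm' (s := A) (t := fun _ => A) (t' := A) (s' := fun _ => A) (by simp)]
    have h2 : ∀ t, (∑ a ∈ A, c a * (jacobiSym a t : ℝ)) ^ 2 =
        ∑ a ∈ A, ∑ b ∈ A, c a * c b * ((jacobiSym a t : ℝ) * (jacobiSym b t : ℝ)) := by
      intro t
      rw [sq, Finset.sum_mul_sum]
      refine Finset.sum_congr rfl fun a _ => Finset.sum_congr rfl fun b _ => by ring
    simp_rw [h2]
    rw [Finset.sum_comm]
    refine Finset.sum_congr rfl fun a _ => ?_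
    rw [Finset.sum_comm]
  rw [h1]
  have h3 : ∀ a ∈ A, ∀ b ∈ A, (c a * c b) *
      ∑ t ∈ (Icc 1 (W ^ 3)).filter Odd, ((jacobiSym a t : ℝ) * (jacobiSym b t : ℝ)) ≤
      (if a = b then ((W ^ 3 : ℕ) : ℝ) else 0) + 4 * (V : ℝ) ^ 2 := by
    intro a ha b hb
    have h4 := BLS_inner V (W ^ 3) a b (hA a ha).1 (hA b hb).1 (hA a ha).2 (hA b hb).2
    refine (le_abs_self _).trans ?_
    rw [abs_mul, abs_mul]
    have h5 : |c a| * |c b| ≤ 1 := by
      have := mul_le_mul (hc a) (hc b) (abs_nonneg _) zero_le_one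
      simpa using this
    have h6 : 0 ≤ |c a| * |c b| := by positivity
    calc |c a| * |c b| * _ ≤ 1 * _ := mul_le_mul_of_nonneg_right h5 (abs_nonneg _)
      _ ≤ _ := by rw [one_mul]; exact h4
  refine (Finset.sum_le_sum fun a ha => Finset.sum_le_sum fun b hb => h3 a ha b hb).trans ?_
  have h7 : ∑ a ∈ A, ∑ b ∈ A, ((if a = b then ((W ^ 3 : ℕ) : ℝ) else 0) + 4 * (V : ℝ) ^ 2) =
      A.card * ((W ^ 3 : ℕ) : ℝ) + A.card * (A.card * (4 * (V : ℝ) ^ 2)) := by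
    simp_rw [Finset.sum_add_distrib]
    congr 1
    · rw [Finset.sum_congr rfl fun a ha => Finset.sum_ite_eq A a _]
      rw [Finset.sum_congr rfl fun a ha => if_pos ha]
      rw [Finset.sum_const, nsmul_eq_mul]
    · simp only [Finset.sum_const, nsmul_eq_mul]
  rw [h7]
  push_cast
  have hcR : (A.card : ℝ) ≤ V := by exact_mod_cast hcard
  have hc0 : (0 : ℝ) ≤ A.card := Nat.cast_nonneg _
  have hV0 : (1 : ℝ) ≤ V := by exact_mod_cast hV
  have hVWR : (V : ℝ) ≤ W := by exact_mod_cast hVW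
  have hW0 : (0 : ℝ) ≤ W := by linarith
  have k1 : (A.card : ℝ) * (W : ℝ) ^ 3 ≤ V * (W : ℝ) ^ 3 :=
    mul_le_mul_of_nonneg_right hcR (by positivity)
  have k2 : (A.card : ℝ) * (A.card * (4 * (V : ℝ) ^ 2)) ≤ V * (V * (4 * (V : ℝ) ^ 2)) := by
    apply mul_le_mul hcR _ (by positivity) (by linarith)
    exact mul_le_mul_of_nonneg_right hcR (by positivity)
  have k3 : (V : ℝ) ^ 3 ≤ (W : ℝ) ^ 3 := pow_le_pow_left₀ (by linarith) hVWR 3
  have k4 : (V : ℝ) * (V * (4 * (V : ℝ) ^ 2)) = 4 * V * (V : ℝ) ^ 3 := by ring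
  have k5 : 4 * (V : ℝ) * (V : ℝ) ^ 3 ≤ 4 * V * (W : ℝ) ^ 3 :=
    mul_le_mul_of_nonneg_left k3 (by linarith)
  linarith

/-- the cube of the sum -/
theorem BLS_cube (W : ℕ) (β : ℕ → ℝ) (hβ : ∀ b, β b ≠ 0 → Odd b) (a : ℕ) :
    (∑ b ∈ Icc 1 W, β b * (jacobiSym a b : ℝ)) ^ 3 =
      ∑ q ∈ Icc 1 W ×ˢ Icc 1 W ×ˢ Icc 1 W, (β q.1 * β q.2.1 * β q.2.2) *
        (if Odd (q.1 * q.2.1 * q.2.2) then (jacobiSym a (q.1 * q.2.1 * q.2.2) : ℝ) else 0) := by
  have h1 : (∑ b ∈ Icc 1 W, β b * (jacobiSym a b : ℝ)) ^ 3 =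
      ∑ q ∈ Icc 1 W ×ˢ Icc 1 W ×ˢ Icc 1 W, (β q.1 * (jacobiSym a q.1 : ℝ)) *
        ((β q.2.1 * (jacobiSym a q.2.1 : ℝ)) * (β q.2.2 * (jacobiSym a q.2.2 : ℝ))) := by
    rw [pow_succ, pow_two, mul_assoc, Finset.sum_mul_sum, Finset.sum_mul_sum,
      Finset.sum_product]
    refine Finset.sum_congr rfl fun b _ => ?_
    rw [Finset.sum_product]
    refine Finset.sum_congr rfl fun b' _ => ?_
    rw [Finset.mul_sum]
  rw [h1]
  refine Finset.sum_congr rfl fun q hq => ?_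
  rw [mem_product, mem_product, mem_Icc, mem_Icc, mem_Icc] at hq
  by_cases h0 : β q.1 = 0
  · rw [h0]; ring
  by_cases h2 : β q.2.1 = 0
  · rw [h2]; ring
  by_cases h3 : β q.2.2 = 0
  · rw [h3]; ring
  have o1 := hβ _ h0
  have o2 := hβ _ h2
  have o3 := hβ _ h3
  rw [if_pos ((o1.mul o2).mul o3), jacobiSym.mul_right' _ (by
      have := Nat.mul_pos (show 0 < q.1 by omega) (show 0 < q.2.1 by omega); omega) (by omega),
    jacobiSym.mul_right' _ (by omega) (by omega)]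
  push_cast
  ring

/-- the sum of the cubes -/
theorem BLS_Q (V W : ℕ) (hV : 1 ≤ V) (hVW : V ≤ W) (A : Finset ℕ)
    (hA : ∀ a ∈ A, Squarefree a ∧ a ≤ V) (hcard : A.card ≤ V) (c : ℕ → ℝ)
    (hc : ∀ a, |c a| ≤ 1) (β : ℕ → ℝ) (hβ1 : ∀ b, |β b| ≤ 1) (hβ : ∀ b, β b ≠ 0 → Odd b) :
    (∑ a ∈ A, c a * (∑ b ∈ Icc 1 W, β b * (jacobiSym a b : ℝ)) ^ 3) ^ 2 ≤
      ((W : ℝ) ^ 3 * (1 + 3 * Real.log W) ^ 8) * (5 * (V : ℝ) * (W : ℝ) ^ 3) := by
  classical
  set P : Finset (ℕ × ℕ × ℕ) := Icc 1 W ×ˢ Icc 1 W ×ˢ Icc 1 W with hP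
  set T : ℕ → ℝ := fun t => if Odd t then ∑ a ∈ A, c a * (jacobiSym a t : ℝ) else 0 with hT
  set r : ℕ → ℝ := fun t => ∑ q ∈ P.filter (fun q => q.1 * q.2.1 * q.2.2 = t),
    (β q.1 * β q.2.1 * β q.2.2) with hr
  have hW1 : 1 ≤ W := hV.trans hVW
  have h1 : ∑ a ∈ A, c a * (∑ b ∈ Icc 1 W, β b * (jacobiSym a b : ℝ)) ^ 3 =
      ∑ q ∈ P, (β q.1 * β q.2.1 * β q.2.2) * T (q.1 * q.2.1 * q.2.2) := by
    simp_rw [BLS_cube W β hβ, Finset.mul_sum]
    rw [Finset.sum_comm]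
    refine Finset.sum_congr rfl fun q _ => ?_
    rw [hT]
    simp only
    split_ifs with h
    · rw [Finset.mul_sum]
      refine Finset.sum_congr rfl fun a _ => by ring
    · simp
  have hmaps : ∀ q ∈ P, q.1 * q.2.1 * q.2.2 ∈ Icc 1 (W ^ 3) := by
    intro q hq
    rw [hP, mem_product, mem_product, mem_Icc, mem_Icc, mem_Icc] at hq
    rw [mem_Icc]
    constructor
    · exact Nat.mul_pos (Nat.mul_pos (by omega) (by omega)) (by omega)
    · calc q.1 * q.2.1 * q.2.2 ≤ W * W * W :=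
          Nat.mul_le_mul (Nat.mul_le_mul (by omega) (by omega)) (by omega)
        _ = W ^ 3 := by ring
  have h2 : ∑ q ∈ P, (β q.1 * β q.2.1 * β q.2.2) * T (q.1 * q.2.1 * q.2.2) =
      ∑ t ∈ Icc 1 (W ^ 3), r t * T t := by
    rw [← Finset.sum_fiberwise_of_maps_to hmaps]
    refine Finset.sum_congr rfl fun t _ => ?_
    rw [hr]
    simp only
    rw [Finset.sum_mul]
    refine Finset.sum_congr rfl fun q hq => ?_
    rw [mem_filter] at hq
    rw [hq.2]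
  rw [h1, h2]
  refine (Finset.sum_mul_sq_le_sq_mul_sq _ _ _).trans ?_
  have h3 : ∑ t ∈ Icc 1 (W ^ 3), r t ^ 2 ≤ (W : ℝ) ^ 3 * (1 + 3 * Real.log W) ^ 8 := by
    have h4 := d3 (W ^ 3)
    have h5 : (((W ^ 3 : ℕ) : ℝ)) * (1 + Real.log ((W ^ 3 : ℕ) : ℝ)) ^ 8 =
        (W : ℝ) ^ 3 * (1 + 3 * Real.log W) ^ 8 := by
      push_cast
      rw [Real.log_pow]
      norm_num
    rw [← h5]
    refine le_trans (Finset.sum_le_sum fun t _ => ?_) h4
    have h6 : |r t| ≤ (((Icc 1 (W ^ 3) ×ˢ Icc 1 (W ^ 3) ×ˢ Icc 1 (W ^ 3)).filter fun q =>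
        q.1 * q.2.1 * q.2.2 = t).card : ℝ) := by
      rw [hr]
      simp only
      refine (Finset.abs_sum_le_sum_abs _ _).trans ?_
      have h7 : ∑ q ∈ P.filter (fun q => q.1 * q.2.1 * q.2.2 = t),
          |β q.1 * β q.2.1 * β q.2.2| ≤
          ∑ q ∈ P.filter (fun q => q.1 * q.2.1 * q.2.2 = t), (1 : ℝ) := by
        refine Finset.sum_le_sum fun q _ => ?_
        rw [abs_mul, abs_mul]
        have k1 := mul_le_mul (hβ1 q.1) (hβ1 q.2.1) (abs_nonneg _) zero_le_one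
        rw [one_mul] at k1
        have k2 := mul_le_mul k1 (hβ1 q.2.2) (abs_nonneg _) zero_le_one
        rwa [one_mul] at k2
      refine h7.trans ?_
      rw [Finset.sum_const, nsmul_eq_mul, mul_one]
      have h8 : (P.filter (fun q => q.1 * q.2.1 * q.2.2 = t)).card ≤
          ((Icc 1 (W ^ 3) ×ˢ Icc 1 (W ^ 3) ×ˢ Icc 1 (W ^ 3)).filter fun q =>
            q.1 * q.2.1 * q.2.2 = t).card := by
        apply Finset.card_le_card
        apply Finset.filter_subset_filter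
        have hsub : Icc 1 W ⊆ Icc 1 (W ^ 3) := by
          apply Finset.Icc_subset_Icc le_rfl
          exact Nat.le_self_pow (by norm_num) W
        rw [hP]
        exact Finset.product_subset_product hsub (Finset.product_subset_product hsub hsub)
      exact_mod_cast h8
    have h9 := pow_le_pow_left₀ (abs_nonneg (r t)) h6 2
    rwa [sq_abs] at h9
  have h4 : ∑ t ∈ Icc 1 (W ^ 3), T t ^ 2 ≤ 5 * (V : ℝ) * (W : ℝ) ^ 3 := by
    have h5 : ∑ t ∈ Icc 1 (W ^ 3), T t ^ 2 =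
        ∑ t ∈ (Icc 1 (W ^ 3)).filter Odd, (∑ a ∈ A, c a * (jacobiSym a t : ℝ)) ^ 2 := by
      rw [Finset.sum_filter]
      refine Finset.sum_congr rfl fun t _ => ?_
      rw [hT]
      simp only
      split_ifs with h
      · rfl
      · norm_num
    rw [h5]
    exact BLS_second V W hV hVW A hA hcard c hc
  have hlog : 0 ≤ Real.log W := Real.log_nonneg (by exact_mod_cast hW1)
  exact mul_le_mul h3 h4 (Finset.sum_nonneg fun t _ => sq_nonneg _) (by positivity)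

/-- bilinear bound, first variable shorter -/
theorem bls : ∃ C : ℝ, 0 < C ∧ ∀ V W : ℕ, 1 ≤ V → V ≤ W → ∀ α β : ℕ → ℝ,
    (∀ a, |α a| ≤ 1) → (∀ b, |β b| ≤ 1) → (∀ a, α a ≠ 0 → Squarefree a ∧ Odd a) →
    (∀ b, β b ≠ 0 → Odd b) →
    |∑ a ∈ Icc 1 V, ∑ b ∈ Icc 1 W, α a * β b * (jacobiSym a b : ℝ)| ≤
      C * W * (V : ℝ) ^ (5 / 6 : ℝ) * (1 + Real.log W) ^ 4 := by
  classical
  refine ⟨6, by norm_num, ?_⟩
  intro V W hV hVW α β hα hβ1 hα2 hβ
  set A : Finset ℕ := (Icc 1 V).filter (fun a => α a ≠ 0) with hAdef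
  set S : ℕ → ℝ := fun a => ∑ b ∈ Icc 1 W, β b * (jacobiSym a b : ℝ) with hS
  set c : ℕ → ℝ := fun a => if 0 ≤ S a then 1 else -1 with hcdef
  have hA : ∀ a ∈ A, Squarefree a ∧ a ≤ V := by
    intro a ha
    rw [hAdef, mem_filter, mem_Icc] at ha
    exact ⟨(hα2 a ha.2).1, ha.1.2⟩
  have hcard : A.card ≤ V := by
    rw [hAdef]
    refine (Finset.card_filter_le _ _).trans ?_
    simp
  have hc : ∀ a, |c a| ≤ 1 := by
    intro a
    rw [hcdef]
    simp only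
    split_ifs <;> norm_num
  have hcS : ∀ a, c a * S a ^ 3 = |S a| ^ 3 := by
    intro a
    rw [hcdef]
    simp only
    split_ifs with h
    · rw [abs_of_nonneg h, one_mul]
    · rw [abs_of_neg (not_le.1 h)]
      ring
  have hW1 : 1 ≤ W := hV.trans hVW
  have hlog : 0 ≤ Real.log W := Real.log_nonneg (by exact_mod_cast hW1)
  have hQ := BLS_Q V W hV hVW A hA hcard c hc β hβ1 hβ
  have hQ' : ∑ a ∈ A, c a * (∑ b ∈ Icc 1 W, β b * (jacobiSym a b : ℝ)) ^ 3 =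
      ∑ a ∈ A, |S a| ^ 3 := Finset.sum_congr rfl fun a _ => hcS a
  rw [hQ'] at hQ
  set X : ℝ := ∑ a ∈ A, |S a| with hX
  have hX0 : 0 ≤ X := Finset.sum_nonneg fun a _ => abs_nonneg _
  have hfirst : |∑ a ∈ Icc 1 V, ∑ b ∈ Icc 1 W, α a * β b * (jacobiSym a b : ℝ)| ≤ X := by
    have h1 : ∑ a ∈ Icc 1 V, ∑ b ∈ Icc 1 W, α a * β b * (jacobiSym a b : ℝ) =
        ∑ a ∈ A, α a * S a := by
      rw [hAdef, Finset.sum_filter]
      refine Finset.sum_congr rfl fun a _ => ?_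
      split_ifs with h
      · rw [hS, Finset.mul_sum]
        refine Finset.sum_congr rfl fun b _ => by ring
      · rw [not_not] at h
        rw [h]
        simp
    rw [h1]
    refine (Finset.abs_sum_le_sum_abs _ _).trans (Finset.sum_le_sum fun a _ => ?_)
    rw [abs_mul]
    calc |α a| * |S a| ≤ 1 * |S a| := mul_le_mul_of_nonneg_right (hα a) (abs_nonneg _)
      _ = |S a| := one_mul _
  refine hfirst.trans ?_
  -- power mean
  have hpm : X ^ 3 ≤ (V : ℝ) ^ 2 * ∑ a ∈ A, |S a| ^ 3 := by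
    rcases Finset.eq_empty_or_nonempty A with hE | hE
    · rw [hX, hE]
      simp
    · have h1 := pow_sum_div_card_le_sum_pow (s := A) (f := fun a => |S a|)
        (fun a _ => abs_nonneg _) 2
      have hpos : (0 : ℝ) < (A.card : ℝ) ^ 2 := by
        have : 0 < A.card := Finset.card_pos.2 hE
        positivity
      rw [div_le_iff₀ hpos] at h1
      have h2 : (A.card : ℝ) ^ 2 ≤ (V : ℝ) ^ 2 :=
        pow_le_pow_left₀ (Nat.cast_nonneg _) (by exact_mod_cast hcard) 2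
      have h3 : 0 ≤ ∑ a ∈ A, |S a| ^ 3 := Finset.sum_nonneg fun a _ => by positivity
      have h4 : X ^ (2 + 1) ≤ (∑ a ∈ A, |S a| ^ (2 + 1)) * (A.card : ℝ) ^ 2 := h1
      calc X ^ 3 ≤ (∑ a ∈ A, |S a| ^ 3) * (A.card : ℝ) ^ 2 := h4
        _ ≤ (∑ a ∈ A, |S a| ^ 3) * (V : ℝ) ^ 2 := mul_le_mul_of_nonneg_left h2 h3
        _ = _ := by ring
  have hVpos : (0 : ℝ) ≤ V := Nat.cast_nonneg V
  have hWpos : (0 : ℝ) ≤ W := Nat.cast_nonneg W
  have h6 : X ^ 6 ≤ (6 * W * (V : ℝ) ^ (5 / 6 : ℝ) * (1 + Real.log W) ^ 4) ^ 6 := by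
    have h7 : X ^ 6 ≤ ((V : ℝ) ^ 2 * ∑ a ∈ A, |S a| ^ 3) ^ 2 := by
      have := pow_le_pow_left₀ (pow_nonneg hX0 3) hpm 2
      calc X ^ 6 = (X ^ 3) ^ 2 := by ring
        _ ≤ _ := this
    have h8 : ((V : ℝ) ^ 2 * ∑ a ∈ A, |S a| ^ 3) ^ 2 ≤ (V : ℝ) ^ 4 *
        (((W : ℝ) ^ 3 * (1 + 3 * Real.log W) ^ 8) * (5 * (V : ℝ) * (W : ℝ) ^ 3)) := by
      rw [mul_pow]
      have : ((V : ℝ) ^ 2) ^ 2 = (V : ℝ) ^ 4 := by ring
      rw [this]
      exact mul_le_mul_of_nonneg_left hQ (by positivity)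
    have h9 : ((V : ℝ) ^ (5 / 6 : ℝ)) ^ 6 = (V : ℝ) ^ 5 := by
      rw [← Real.rpow_natCast, ← Real.rpow_mul hVpos, ← Real.rpow_natCast]
      norm_num
    have h10 : (6 * W * (V : ℝ) ^ (5 / 6 : ℝ) * (1 + Real.log W) ^ 4) ^ 6 =
        46656 * (W : ℝ) ^ 6 * (V : ℝ) ^ 5 * (1 + Real.log W) ^ 24 := by
      have : (6 * W * (V : ℝ) ^ (5 / 6 : ℝ) * (1 + Real.log W) ^ 4) ^ 6 =
        46656 * (W : ℝ) ^ 6 * ((V : ℝ) ^ (5 / 6 : ℝ)) ^ 6 * (1 + Real.log W) ^ 24 := by ring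
      rw [this, h9]
    rw [h10]
    refine h7.trans (h8.trans ?_)
    have h11 : (1 + 3 * Real.log W) ^ 8 ≤ 6561 * (1 + Real.log W) ^ 24 := by
      have k1 : (1 + 3 * Real.log W) ^ 8 ≤ (3 * (1 + Real.log W)) ^ 8 :=
        pow_le_pow_left₀ (by positivity) (by linarith) 8
      have k2 : (1 + Real.log W) ^ 8 ≤ (1 + Real.log W) ^ 24 :=
        pow_le_pow_right₀ (by linarith) (by norm_num)
      calc (1 + 3 * Real.log W) ^ 8 ≤ (3 * (1 + Real.log W)) ^ 8 := k1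
        _ = 6561 * (1 + Real.log W) ^ 8 := by ring
        _ ≤ _ := by linarith
    calc (V : ℝ) ^ 4 * (((W : ℝ) ^ 3 * (1 + 3 * Real.log W) ^ 8) * (5 * (V : ℝ) * (W : ℝ) ^ 3))
        = (5 * (V : ℝ) ^ 5 * (W : ℝ) ^ 6) * (1 + 3 * Real.log W) ^ 8 := by ring
      _ ≤ (5 * (V : ℝ) ^ 5 * (W : ℝ) ^ 6) * (6561 * (1 + Real.log W) ^ 24) :=
          mul_le_mul_of_nonneg_left h11 (by positivity)
      _ = 32805 * ((W : ℝ) ^ 6 * (V : ℝ) ^ 5 * (1 + Real.log W) ^ 24) := by ring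
      _ ≤ 46656 * ((W : ℝ) ^ 6 * (V : ℝ) ^ 5 * (1 + Real.log W) ^ 24) :=
          mul_le_mul_of_nonneg_right (by norm_num) (by positivity)
      _ = _ := by ring
  exact (pow_le_pow_iff_left₀ hX0 (by positivity) (by norm_num)).1 h6

end PPA
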