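import Pool.Agent.Lib.MP_87c685_nt_PPA.Defs
import Pool.Agent.Lib.MP_87c685_nt_PPA.BLS

/-! Project PP15 (MP_87c685_nt), analytic block PPA, module BLT. -/

open Finset Filter Topology

namespace PPA

/-- the sign of quadratic reciprocity, separated in the two variables -/
theorem BLT_sign (m n : ℕ) :
    ((-1 : ℝ)) ^ (m * n) =
      (1 + (-1 : ℝ) ^ m + (-1 : ℝ) ^ n - (-1 : ℝ) ^ m * (-1 : ℝ) ^ n) / 2 := by
  rcases Nat.even_or_odd m with hm | hm <;> rcases Nat.even_or_odd n with hn | hn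
  · rw [(hm.mul_right n).neg_one_pow, hm.neg_one_pow, hn.neg_one_pow]; norm_num
  · rw [(hm.mul_right n).neg_one_pow, hm.neg_one_pow, hn.neg_one_pow]; norm_num
  · rw [(hn.mul_left m).neg_one_pow, hm.neg_one_pow, hn.neg_one_pow]; norm_num
  · rw [(hm.mul hn).neg_one_pow, hm.neg_one_pow, hn.neg_one_pow]; norm_num

/-- the sign has absolute value one -/
theorem BLT_abs (x : ℝ) (m : ℕ) (h : |x| ≤ 1) : |x * (-1 : ℝ) ^ m| ≤ 1 := by
  rw [abs_mul, abs_pow, abs_neg, abs_one, one_pow, mul_one]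
  exact h

/-- `M ^ (5/6) = M * M ^ (-1/6)` -/
theorem BLT_pow (M : ℕ) (hM : 1 ≤ M) :
    (M : ℝ) ^ (5 / 6 : ℝ) = M * (M : ℝ) ^ (-(1 / 6) : ℝ) := by
  have h0 : (0 : ℝ) < M := by exact_mod_cast hM
  have h1 : (M : ℝ) ^ (5 / 6 : ℝ) = (M : ℝ) ^ ((1 : ℝ) + (-(1 / 6) : ℝ)) := by norm_num
  rw [h1, Real.rpow_add h0, Real.rpow_one]

/-- bilinear bound, any lengths -/
theorem blt : ∃ C : ℝ, 0 < C ∧ ∀ V W : ℕ, 1 ≤ V → 1 ≤ W → ∀ α β : ℕ → ℝ,
    (∀ a, |α a| ≤ 1) → (∀ b, |β b| ≤ 1) → (∀ a, α a ≠ 0 → Squarefree a ∧ Odd a) →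
    (∀ b, β b ≠ 0 → Squarefree b ∧ Odd b) →
    |∑ a ∈ Icc 1 V, ∑ b ∈ Icc 1 W, α a * β b * (jacobiSym a b : ℝ)| ≤
      C * (V * W) * ((min V W : ℕ) : ℝ) ^ (-(1 / 6) : ℝ) * (1 + Real.log (V * W)) ^ 4 := by
  obtain ⟨C, hC, hb⟩ := bls
  refine ⟨2 * C, by positivity, ?_⟩
  intro V W hV hW α β hα hβ hα2 hβ2
  have hVR : (1 : ℝ) ≤ V := by exact_mod_cast hV
  have hWR : (1 : ℝ) ≤ W := by exact_mod_cast hW
  have hlV : 0 ≤ Real.log V := Real.log_nonneg hVR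
  have hlW : 0 ≤ Real.log W := Real.log_nonneg hWR
  have hl : Real.log (V * W) = Real.log V + Real.log W :=
    Real.log_mul (by positivity) (by positivity)
  rcases le_total V W with h | h
  · have h1 := hb V W hV h α β hα hβ hα2 (fun b hb0 => (hβ2 b hb0).2)
    refine h1.trans ?_
    rw [min_eq_left h, BLT_pow V hV]
    have h2 : (1 + Real.log W) ^ 4 ≤ (1 + Real.log (V * W)) ^ 4 :=
      pow_le_pow_left₀ (by linarith) (by linarith) 4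
    have h3 : (0 : ℝ) ≤ C * (V * W) * (V : ℝ) ^ (-(1 / 6) : ℝ) := by positivity
    calc C * W * (V * (V : ℝ) ^ (-(1 / 6) : ℝ)) * (1 + Real.log W) ^ 4
        = (C * (V * W) * (V : ℝ) ^ (-(1 / 6) : ℝ)) * (1 + Real.log W) ^ 4 := by ring
      _ ≤ (C * (V * W) * (V : ℝ) ^ (-(1 / 6) : ℝ)) * (1 + Real.log (V * W)) ^ 4 :=
          mul_le_mul_of_nonneg_left h2 h3
      _ ≤ 2 * ((C * (V * W) * (V : ℝ) ^ (-(1 / 6) : ℝ)) * (1 + Real.log (V * W)) ^ 4) := by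
          have : 0 ≤ (C * (V * W) * (V : ℝ) ^ (-(1 / 6) : ℝ)) * (1 + Real.log (V * W)) ^ 4 := by
            positivity
          linarith
      _ = _ := by ring
  · have key : ∀ f g : ℕ → ℝ, (∀ a, |f a| ≤ 1) → (∀ b, |g b| ≤ 1) →
        (∀ a, f a ≠ 0 → Odd a) → (∀ b, g b ≠ 0 → Squarefree b ∧ Odd b) →
        |∑ a ∈ Icc 1 V, ∑ b ∈ Icc 1 W, f a * g b * (jacobiSym b a : ℝ)| ≤
          C * V * (W : ℝ) ^ (5 / 6 : ℝ) * (1 + Real.log V) ^ 4 := by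
      intro f g hf hg hf2 hg2
      have h1 := hb W V hW h g f hg hf hg2 hf2
      rw [Finset.sum_comm] at h1
      refine le_trans (le_of_eq ?_) h1
      congr 1
      refine Finset.sum_congr rfl fun a _ => Finset.sum_congr rfl fun b _ => by ring
    have e : ∑ a ∈ Icc 1 V, ∑ b ∈ Icc 1 W, α a * β b * (jacobiSym a b : ℝ) =
        ((∑ a ∈ Icc 1 V, ∑ b ∈ Icc 1 W, α a * β b * (jacobiSym b a : ℝ)) +
        (∑ a ∈ Icc 1 V, ∑ b ∈ Icc 1 W, (α a * (-1 : ℝ) ^ (a / 2)) * β b * (jacobiSym b a : ℝ)) +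
        (∑ a ∈ Icc 1 V, ∑ b ∈ Icc 1 W, α a * (β b * (-1 : ℝ) ^ (b / 2)) * (jacobiSym b a : ℝ)) -
        (∑ a ∈ Icc 1 V, ∑ b ∈ Icc 1 W,
          (α a * (-1 : ℝ) ^ (a / 2)) * (β b * (-1 : ℝ) ^ (b / 2)) * (jacobiSym b a : ℝ))) / 2 := by
      simp only [← Finset.sum_add_distrib, ← Finset.sum_sub_distrib, Finset.sum_div]
      refine Finset.sum_congr rfl fun a _ => Finset.sum_congr rfl fun b _ => ?_
      by_cases ha : α a = 0
      · rw [ha]; ring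
      by_cases hb0 : β b = 0
      · rw [hb0]; ring
      have hJ := jacobiSym.quadratic_reciprocity (hα2 a ha).2 (hβ2 b hb0).2
      have hJ' : (jacobiSym a b : ℝ) = (-1 : ℝ) ^ (a / 2 * (b / 2)) * (jacobiSym b a : ℝ) := by
        rw [hJ]
        push_cast
        ring
      rw [hJ', BLT_sign]
      ring
    have hz1 : ∀ a, α a * (-1 : ℝ) ^ (a / 2) ≠ 0 → Odd a := fun a ha =>
      (hα2 a (left_ne_zero_of_mul ha)).2
    have hz2 : ∀ b, β b * (-1 : ℝ) ^ (b / 2) ≠ 0 → Squarefree b ∧ Odd b := fun b hb0 =>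
      hβ2 b (left_ne_zero_of_mul hb0)
    have k1 := key α β hα hβ (fun a ha => (hα2 a ha).2) hβ2
    have k2 := key (fun a => α a * (-1 : ℝ) ^ (a / 2)) β (fun a => BLT_abs _ _ (hα a)) hβ hz1 hβ2
    have k3 := key α (fun b => β b * (-1 : ℝ) ^ (b / 2)) hα (fun b => BLT_abs _ _ (hβ b))
      (fun a ha => (hα2 a ha).2) hz2
    have k4 := key (fun a => α a * (-1 : ℝ) ^ (a / 2)) (fun b => β b * (-1 : ℝ) ^ (b / 2))
      (fun a => BLT_abs _ _ (hα a)) (fun b => BLT_abs _ _ (hβ b)) hz1 hz2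
    beta_reduce at k2 k3 k4
    have hfin : |∑ a ∈ Icc 1 V, ∑ b ∈ Icc 1 W, α a * β b * (jacobiSym a b : ℝ)| ≤
        2 * (C * V * (W : ℝ) ^ (5 / 6 : ℝ) * (1 + Real.log V) ^ 4) := by
      rw [e]
      rw [abs_le] at k1 k2 k3 k4 ⊢
      constructor <;> linarith [k1.1, k1.2, k2.1, k2.2, k3.1, k3.2, k4.1, k4.2]
    refine hfin.trans ?_
    rw [min_eq_right h, BLT_pow W hW]
    have h2 : (1 + Real.log V) ^ 4 ≤ (1 + Real.log (V * W)) ^ 4 :=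
      pow_le_pow_left₀ (by linarith) (by linarith) 4
    have h3 : (0 : ℝ) ≤ 2 * C * (V * W) * (W : ℝ) ^ (-(1 / 6) : ℝ) := by positivity
    calc 2 * (C * V * (W * (W : ℝ) ^ (-(1 / 6) : ℝ)) * (1 + Real.log V) ^ 4)
        = (2 * C * (V * W) * (W : ℝ) ^ (-(1 / 6) : ℝ)) * (1 + Real.log V) ^ 4 := by ring
      _ ≤ _ := mul_le_mul_of_nonneg_left h2 h3

end PPA
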