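import Pool.Agent.Lib.MP_87c685_nt_PPA.Defs
import Pool.Agent.Lib.MP_87c685_nt_PPA.BLT

/-! Project PP15 (MP_87c685_nt), analytic block PPA, module BLH. -/

open Finset Filter Topology

namespace PPA

theorem BLH_log_ge {l : ℝ} (h0 : 0 < l) (h1 : l ≤ 1) : l / 2 ≤ Real.log (1 + l) := by
  have h2 := Real.one_sub_inv_le_log_of_pos (show 0 < 1 + l by linarith)
  have h3 : l / 2 ≤ 1 - (1 + l)⁻¹ := by
    have h4 : 1 - (1 + l)⁻¹ = l / (1 + l) := by
      field_simp
      ring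
    rw [h4]
    exact div_le_div_of_nonneg_left h0.le (by linarith) (by linarith)
  linarith

theorem BLH_idx {z : ℕ} {r : ℝ} (hz : 1 ≤ z) (hr : 1 < r) {a : ℕ} (ha : z < a) :
    (z : ℝ) * r ^ (⌊Real.log ((a : ℝ) / z) / Real.log r⌋₊) ≤ a ∧
      (a : ℝ) < z * r ^ (⌊Real.log ((a : ℝ) / z) / Real.log r⌋₊ + 1) := by
  have hz0 : (0 : ℝ) < z := by exact_mod_cast hz
  have ha' : (z : ℝ) < a := by exact_mod_cast ha
  have hlr : 0 < Real.log r := Real.log_pos hr
  have hr0 : 0 < r := by linarith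
  have haz : 1 ≤ (a : ℝ) / z := by
    rw [le_div_iff₀ hz0]
    linarith
  have haz0 : 0 < (a : ℝ) / z := by linarith
  have ht : 0 ≤ Real.log ((a : ℝ) / z) / Real.log r := div_nonneg (Real.log_nonneg haz) hlr.le
  set t := Real.log ((a : ℝ) / z) / Real.log r with htdef
  have h1 : (⌊t⌋₊ : ℝ) ≤ t := Nat.floor_le ht
  have h2 : t < ⌊t⌋₊ + 1 := Nat.lt_floor_add_one t
  have hexp : (a : ℝ) / z = Real.exp (t * Real.log r) := by
    rw [htdef, div_mul_cancel₀ _ hlr.ne', Real.exp_log haz0]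
  have hpow : ∀ k : ℕ, r ^ k = Real.exp (k * Real.log r) := by
    intro k
    rw [Real.exp_nat_mul, Real.exp_log hr0]
  have h3 : r ^ ⌊t⌋₊ ≤ (a : ℝ) / z := by
    rw [hexp, hpow]
    exact Real.exp_le_exp.mpr (mul_le_mul_of_nonneg_right h1 hlr.le)
  have h4 : (a : ℝ) / z < r ^ (⌊t⌋₊ + 1) := by
    rw [hexp, hpow]
    refine Real.exp_lt_exp.mpr (mul_lt_mul_of_pos_right ?_ hlr)
    push_cast
    exact h2
  constructor
  · rw [le_div_iff₀ hz0] at h3
    linarith
  · rw [div_lt_iff₀ hz0] at h4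
    linarith

theorem BLH_inner {z : ℕ} {g : ℕ → ℝ} (hg : ∀ b, |g b| ≤ 1) (hg0 : ∀ b, b ≤ z → g b = 0)
    {W Y : ℕ} (hWY : W ≤ Y) {l y : ℝ} (hl : 0 < l) (hlz : 1 ≤ l * z) (hY : (Y : ℝ) ≤ y)
    (hW : y / (1 + l) - 1 ≤ W) :
    |∑ b ∈ Icc 1 Y, g b - ∑ b ∈ Icc 1 W, g b| ≤ 2 * l * y := by
  have hy0 : 0 ≤ y := le_trans (Nat.cast_nonneg _) hY
  by_cases hYz : Y ≤ z
  · have h1 : ∑ b ∈ Icc 1 Y, g b = 0 := by
      apply sum_eq_zero
      intro b hb
      exact hg0 b ((mem_Icc.1 hb).2.trans hYz)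
    have h2 : ∑ b ∈ Icc 1 W, g b = 0 := by
      apply sum_eq_zero
      intro b hb
      exact hg0 b (((mem_Icc.1 hb).2.trans hWY).trans hYz)
    rw [h1, h2, sub_zero, abs_zero]
    positivity
  · rw [not_le] at hYz
    have hzY : (z : ℝ) < Y := by exact_mod_cast hYz
    have hly : 1 ≤ l * y := by
      have : l * z ≤ l * y := mul_le_mul_of_nonneg_left (by linarith) hl.le
      linarith
    have hsplit : ∑ b ∈ Icc 1 Y, g b - ∑ b ∈ Icc 1 W, g b = ∑ b ∈ Icc 1 Y \ Icc 1 W, g b := by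
      rw [← sum_sdiff (Icc_subset_Icc_right hWY)]
      ring
    rw [hsplit]
    have hcard : ((Icc 1 Y \ Icc 1 W).card : ℝ) = (Y : ℝ) - W := by
      rw [card_sdiff_of_subset (Icc_subset_Icc_right hWY)]
      simp only [Nat.card_Icc, Nat.add_sub_cancel]
      rw [Nat.cast_sub hWY]
    calc |∑ b ∈ Icc 1 Y \ Icc 1 W, g b| ≤ ∑ b ∈ Icc 1 Y \ Icc 1 W, |g b| := abs_sum_le_sum_abs _ _
      _ ≤ ∑ _b ∈ Icc 1 Y \ Icc 1 W, (1 : ℝ) := sum_le_sum fun b _ => hg b
      _ = (Y : ℝ) - W := by rw [sum_const, nsmul_eq_mul, mul_one, hcard]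
      _ ≤ y - (y / (1 + l) - 1) := by linarith
      _ = y * (l / (1 + l)) + 1 := by
          field_simp
          ring
      _ ≤ y * l + 1 := by
          have : l / (1 + l) ≤ l := div_le_self hl.le (by linarith)
          have := mul_le_mul_of_nonneg_left this hy0
          linarith
      _ ≤ 2 * l * y := by linarith

theorem BLH_harmonic (X : ℕ) : ∑ a ∈ Icc 1 X, (1 : ℝ) / a ≤ 1 + Real.log X := by
  have h := harmonic_le_one_add_log X
  rw [harmonic_eq_sum_Icc] at h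
  push_cast at h
  simpa [one_div] using h

/-- bilinear bound below a hyperbola -/
theorem blh : ∃ C : ℝ, 0 < C ∧ ∀ z X : ℕ, 1 ≤ z → 1 ≤ X → ∀ α β : ℕ → ℝ,
    (∀ a, |α a| ≤ 1) → (∀ b, |β b| ≤ 1) → (∀ a, α a ≠ 0 → Squarefree a ∧ Odd a ∧ z < a) →
    (∀ b, β b ≠ 0 → Squarefree b ∧ Odd b ∧ z < b) →
    |∑ a ∈ Icc 1 X, ∑ b ∈ Icc 1 (X / a), α a * β b * (jacobiSym a b : ℝ)| ≤
      C * X * (z : ℝ) ^ (-(1 / 12) : ℝ) * (1 + Real.log X) ^ 6 := by
  classical
  obtain ⟨C, hC, hblt⟩ := blt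
  refine ⟨2 + 2 * C, by positivity, ?_⟩
  intro z X hz hX α β hα hβ hαs hβs
  have hz' : (1 : ℝ) ≤ z := by exact_mod_cast hz
  have hz0 : (0 : ℝ) < z := by linarith
  have hX' : (1 : ℝ) ≤ X := by exact_mod_cast hX
  have hX0 : (0 : ℝ) < X := by linarith
  have hlogX : 0 ≤ Real.log X := Real.log_nonneg hX'
  set l : ℝ := (z : ℝ) ^ (-(1 / 12) : ℝ) with hldef
  have hl0 : 0 < l := Real.rpow_pos_of_pos hz0 _
  have hl1 : l ≤ 1 := Real.rpow_le_one_of_one_le_of_nonpos hz' (by norm_num)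
  have hlz : 1 ≤ l * z := by
    have h1 : l * z = (z : ℝ) ^ (11 / 12 : ℝ) := by
      have h2 : l * z = (z : ℝ) ^ (-(1 / 12) : ℝ) * (z : ℝ) ^ (1 : ℝ) := by rw [Real.rpow_one]
      rw [h2, ← Real.rpow_add hz0]
      norm_num
    rw [h1]
    exact Real.one_le_rpow hz' (by norm_num)
  have hl2 : (z : ℝ) ^ (-(1 / 6) : ℝ) = l * l := by
    rw [hldef, ← Real.rpow_add hz0]
    norm_num
  set r : ℝ := 1 + l with hrdef
  have hr1 : 1 < r := by linarith
  have hr0 : 0 < r := by linarith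
  have hlr : 0 < Real.log r := Real.log_pos hr1
  set idx : ℕ → ℕ := fun a => ⌊Real.log ((a : ℝ) / z) / Real.log r⌋₊ with hidx
  set Wf : ℕ → ℕ := fun j => ⌊(X : ℝ) / (z * r ^ (j + 1))⌋₊ with hWf
  set Vf : ℕ → ℕ := fun j => ⌊(z : ℝ) * r ^ (j + 1)⌋₊ with hVf
  set J : ℕ := ⌊Real.log X / Real.log r⌋₊ with hJ
  set f : ℕ → ℕ → ℝ := fun a b => α a * β b * (jacobiSym a b : ℝ) with hf
  have hjac : ∀ a b : ℕ, |(jacobiSym a b : ℝ)| ≤ 1 := by
    intro a b
    rcases jacobiSym.trichotomy (a : ℤ) b with h | h | h <;> rw [h] <;> norm_num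
  have hf1 : ∀ a b, |f a b| ≤ 1 := by
    intro a b
    simp only [hf]
    rw [abs_mul, abs_mul]
    exact mul_le_one₀ (mul_le_one₀ (hα a) (abs_nonneg _) (hβ b)) (abs_nonneg _) (hjac a b)
  have hf0 : ∀ a b, b ≤ z → f a b = 0 := by
    intro a b hb
    have : β b = 0 := by
      by_contra h
      exact absurd (hβs b h).2.2 (not_lt.mpr hb)
    simp only [hf]
    rw [this]
    ring
  -- first step: change the lengths of the inner sums
  have hstep : |∑ a ∈ Icc 1 X, ∑ b ∈ Icc 1 (X / a), f a b -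
      ∑ a ∈ Icc 1 X, ∑ b ∈ Icc 1 (Wf (idx a)), f a b| ≤ 2 * l * X * (1 + Real.log X) := by
    rw [← sum_sub_distrib]
    have h1 : ∀ a ∈ Icc 1 X, |∑ b ∈ Icc 1 (X / a), f a b - ∑ b ∈ Icc 1 (Wf (idx a)), f a b| ≤
        2 * l * X * (1 / (a : ℝ)) := by
      intro a ha
      have ha1 : 1 ≤ a := (mem_Icc.1 ha).1
      have ha0 : (0 : ℝ) < a := by exact_mod_cast ha1
      by_cases hαa : α a = 0
      · have h2 : ∀ b, f a b = 0 := by
          intro b
          simp only [hf]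
          rw [hαa]
          ring
        simp only [h2, sum_const_zero, sub_zero, abs_zero]
        positivity
      · have hza : z < a := (hαs a hαa).2.2
        obtain ⟨h3, h4⟩ := BLH_idx hz hr1 hza
        have hpos : 0 < (z : ℝ) * r ^ (idx a + 1) := by positivity
        have h5 : (X : ℝ) / (z * r ^ (idx a + 1)) ≤ X / a :=
          div_le_div_of_nonneg_left hX0.le ha0 h4.le
        have h6 : (z : ℝ) * r ^ (idx a + 1) ≤ a * r := by
          have := mul_le_mul_of_nonneg_right h3 hr0.le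
          calc (z : ℝ) * r ^ (idx a + 1) = z * r ^ (idx a) * r := by rw [pow_succ]; ring
            _ ≤ a * r := this
        have h7 := BLH_inner (z := z) (g := f a) (hf1 a) (hf0 a) (W := Wf (idx a)) (Y := X / a)
          (by
            rw [← Nat.floor_div_eq_div (K := ℝ) X a]
            exact Nat.floor_le_floor h5)
          (l := l) (y := (X : ℝ) / a) hl0 hlz Nat.cast_div_le
          (by
            have h8 : (X : ℝ) / a / (1 + l) ≤ X / (z * r ^ (idx a + 1)) := by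
              rw [div_div]
              exact div_le_div_of_nonneg_left hX0.le hpos h6
            have h9 := Nat.lt_floor_add_one ((X : ℝ) / (z * r ^ (idx a + 1)))
            have h10 : ((Wf (idx a) : ℕ) : ℝ) = (⌊(X : ℝ) / (z * r ^ (idx a + 1))⌋₊ : ℝ) := rfl
            rw [h10]
            linarith)
        calc _ ≤ 2 * l * ((X : ℝ) / a) := h7
          _ = 2 * l * X * (1 / (a : ℝ)) := by ring
    calc _ ≤ ∑ a ∈ Icc 1 X, |∑ b ∈ Icc 1 (X / a), f a b - ∑ b ∈ Icc 1 (Wf (idx a)), f a b| :=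
          abs_sum_le_sum_abs _ _
      _ ≤ ∑ a ∈ Icc 1 X, 2 * l * X * (1 / (a : ℝ)) := sum_le_sum h1
      _ = 2 * l * X * ∑ a ∈ Icc 1 X, (1 : ℝ) / a := by rw [mul_sum]
      _ ≤ 2 * l * X * (1 + Real.log X) :=
          mul_le_mul_of_nonneg_left (BLH_harmonic X) (by positivity)
  -- second step: the separated sums
  have hfib : ∑ a ∈ Icc 1 X, ∑ b ∈ Icc 1 (Wf (idx a)), f a b =
      ∑ j ∈ range (J + 1), ∑ a ∈ Icc 1 X with idx a = j, ∑ b ∈ Icc 1 (Wf j), f a b := by
    rw [← sum_fiberwise_of_maps_to (g := idx) (t := range (J + 1))]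
    · refine sum_congr rfl fun j _ => sum_congr rfl fun a ha => ?_
      rw [(mem_filter.1 ha).2]
    · intro a ha
      have ha1 : 1 ≤ a := (mem_Icc.1 ha).1
      have ha0 : (0 : ℝ) < a := by exact_mod_cast ha1
      have haX : (a : ℝ) ≤ X := by exact_mod_cast (mem_Icc.1 ha).2
      rw [mem_range]
      refine Nat.lt_succ_of_le (Nat.floor_le_floor ?_)
      refine div_le_div_of_nonneg_right ?_ hlr.le
      refine Real.log_le_log (by positivity) ?_
      exact (div_le_self ha0.le hz').trans haX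
  have hpiece : ∀ j ∈ range (J + 1),
      |∑ a ∈ Icc 1 X with idx a = j, ∑ b ∈ Icc 1 (Wf j), f a b| ≤
        C * X * (l * l) * (1 + Real.log X) ^ 4 := by
    intro j _
    by_cases hWz : Wf j ≤ z
    · have h1 : ∑ a ∈ Icc 1 X with idx a = j, ∑ b ∈ Icc 1 (Wf j), f a b = 0 := by
        apply sum_eq_zero
        intro a _
        apply sum_eq_zero
        intro b hb
        exact hf0 a b ((mem_Icc.1 hb).2.trans hWz)
      rw [h1, abs_zero]
      positivity
    · rw [not_le] at hWz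
      have hrj : 1 ≤ r ^ (j + 1) := one_le_pow₀ hr1.le
      have hzr : (z : ℝ) ≤ z * r ^ (j + 1) := by
        have := mul_le_mul_of_nonneg_left hrj hz0.le
        linarith
      have hVz : z ≤ Vf j := Nat.le_floor hzr
      have hV1 : 1 ≤ Vf j := hz.trans hVz
      have hW1 : 1 ≤ Wf j := by omega
      set αj : ℕ → ℝ := fun a => if a ≤ X ∧ idx a = j then α a else 0 with hαj
      have hsum : ∑ a ∈ Icc 1 X with idx a = j, ∑ b ∈ Icc 1 (Wf j), f a b =
          ∑ a ∈ Icc 1 (Vf j), ∑ b ∈ Icc 1 (Wf j), αj a * β b * (jacobiSym a b : ℝ) := by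
        have h1 : ∀ a, ∑ b ∈ Icc 1 (Wf j), αj a * β b * (jacobiSym a b : ℝ) =
            if a ≤ X ∧ idx a = j then ∑ b ∈ Icc 1 (Wf j), f a b else 0 := by
          intro a
          by_cases h : a ≤ X ∧ idx a = j
          · simp only [hαj, h, hf]
            simp
          · simp only [hαj, h, if_false, zero_mul, sum_const_zero]
        rw [sum_congr rfl fun a _ => h1 a, ← sum_filter]
        symm
        apply sum_subset
        · intro a ha
          rw [mem_filter, mem_Icc] at ha ⊢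
          exact ⟨⟨ha.1.1, ha.2.1⟩, ha.2.2⟩
        · intro a ha hna
          rw [mem_filter, mem_Icc] at ha hna
          apply sum_eq_zero
          intro b _
          by_cases hαa : α a = 0
          · simp only [hf]
            rw [hαa]
            ring
          · exfalso
            apply hna
            refine ⟨⟨ha.1.1, ?_⟩, ha.1.2, ha.2⟩
            have hza : z < a := (hαs a hαa).2.2
            obtain ⟨-, h4⟩ := BLH_idx hz hr1 hza
            have h5 : ⌊Real.log ((a : ℝ) / z) / Real.log r⌋₊ = j := ha.2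
            rw [h5] at h4
            exact Nat.le_floor h4.le
      rw [hsum]
      have h2 := hblt (Vf j) (Wf j) hV1 hW1 αj β
        (by
          intro a
          by_cases h : a ≤ X ∧ idx a = j
          · simp only [hαj, h]
            simpa using hα a
          · simp only [hαj, h, if_false, abs_zero]
            exact zero_le_one)
        hβ
        (by
          intro a ha
          have h : α a ≠ 0 := by
            intro h0
            apply ha
            simp only [hαj, h0, ite_self]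
          exact ⟨(hαs a h).1, (hαs a h).2.1⟩)
        (fun b hb => ⟨(hβs b hb).1, (hβs b hb).2.1⟩)
      refine h2.trans ?_
      have hVW : ((Vf j : ℕ) : ℝ) * ((Wf j : ℕ) : ℝ) ≤ X := by
        have hp : 0 < (z : ℝ) * r ^ (j + 1) := by positivity
        have h3 : ((Vf j : ℕ) : ℝ) ≤ z * r ^ (j + 1) := Nat.floor_le hp.le
        have h4 : ((Wf j : ℕ) : ℝ) ≤ X / (z * r ^ (j + 1)) := Nat.floor_le (by positivity)
        calc ((Vf j : ℕ) : ℝ) * ((Wf j : ℕ) : ℝ) ≤
            (z * r ^ (j + 1)) * (X / (z * r ^ (j + 1))) :=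
              mul_le_mul h3 h4 (Nat.cast_nonneg _) hp.le
          _ = X := by field_simp
      have hVW1 : 1 ≤ ((Vf j : ℕ) : ℝ) * ((Wf j : ℕ) : ℝ) := by
        have h3 : (1 : ℝ) ≤ (Vf j : ℕ) := by exact_mod_cast hV1
        have h4 : (1 : ℝ) ≤ (Wf j : ℕ) := by exact_mod_cast hW1
        exact one_le_mul_of_one_le_of_one_le h3 h4
      have hmin : ((min (Vf j) (Wf j) : ℕ) : ℝ) ^ (-(1 / 6) : ℝ) ≤ l * l := by
        rw [← hl2]
        have h3 : (z : ℝ) ≤ ((min (Vf j) (Wf j) : ℕ) : ℝ) := by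
          exact_mod_cast le_min hVz hWz.le
        exact Real.rpow_le_rpow_of_nonpos hz0 h3 (by norm_num)
      have hlog : (1 + Real.log (((Vf j : ℕ) : ℝ) * ((Wf j : ℕ) : ℝ))) ^ 4 ≤
          (1 + Real.log X) ^ 4 := by
        have h3 : 0 ≤ Real.log (((Vf j : ℕ) : ℝ) * ((Wf j : ℕ) : ℝ)) := Real.log_nonneg hVW1
        have h4 : Real.log (((Vf j : ℕ) : ℝ) * ((Wf j : ℕ) : ℝ)) ≤ Real.log X :=
          Real.log_le_log (by linarith) hVW
        exact pow_le_pow_left₀ (by linarith) (by linarith) 4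
      have hmin0 : 0 ≤ ((min (Vf j) (Wf j) : ℕ) : ℝ) ^ (-(1 / 6) : ℝ) :=
        Real.rpow_nonneg (Nat.cast_nonneg _) _
      have hlog0 : 0 ≤ (1 + Real.log (((Vf j : ℕ) : ℝ) * ((Wf j : ℕ) : ℝ))) ^ 4 := by positivity
      exact mul_le_mul (mul_le_mul (mul_le_mul_of_nonneg_left hVW hC.le) hmin hmin0
        (by positivity)) hlog hlog0 (by positivity)
  have hmain : |∑ a ∈ Icc 1 X, ∑ b ∈ Icc 1 (Wf (idx a)), f a b| ≤
      2 * C * X * l * (1 + Real.log X) ^ 5 := by
    rw [hfib]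
    have hJ1 : ((J : ℕ) : ℝ) + 1 ≤ 2 * (1 + Real.log X) / l := by
      have h1 : ((J : ℕ) : ℝ) ≤ Real.log X / Real.log r :=
        Nat.floor_le (div_nonneg hlogX hlr.le)
      have h2 : Real.log X / Real.log r ≤ Real.log X / (l / 2) :=
        div_le_div_of_nonneg_left hlogX (by positivity) (BLH_log_ge hl0 hl1)
      have h3 : Real.log X / (l / 2) = 2 * Real.log X / l := by
        field_simp
      have h4 : 1 ≤ 2 / l := by
        rw [le_div_iff₀ hl0]
        linarith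
      have h5 : 2 * (1 + Real.log X) / l = 2 / l + 2 * Real.log X / l := by ring
      rw [h5]
      linarith
    calc |∑ j ∈ range (J + 1), ∑ a ∈ Icc 1 X with idx a = j, ∑ b ∈ Icc 1 (Wf j), f a b| ≤
        ∑ j ∈ range (J + 1), |∑ a ∈ Icc 1 X with idx a = j, ∑ b ∈ Icc 1 (Wf j), f a b| :=
          abs_sum_le_sum_abs _ _
      _ ≤ ∑ _j ∈ range (J + 1), C * X * (l * l) * (1 + Real.log X) ^ 4 := sum_le_sum hpiece
      _ = (((J : ℕ) : ℝ) + 1) * (C * X * (l * l) * (1 + Real.log X) ^ 4) := by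
          rw [sum_const, card_range, nsmul_eq_mul]
          push_cast
          ring
      _ ≤ (2 * (1 + Real.log X) / l) * (C * X * (l * l) * (1 + Real.log X) ^ 4) :=
          mul_le_mul_of_nonneg_right hJ1 (by positivity)
      _ = 2 * C * X * l * (1 + Real.log X) ^ 5 := by
          field_simp
  have h1L : 1 ≤ 1 + Real.log X := by linarith
  have hp1 : (1 + Real.log X) ≤ (1 + Real.log X) ^ 6 := le_self_pow₀ h1L (by norm_num)
  have hp5 : (1 + Real.log X) ^ 5 ≤ (1 + Real.log X) ^ 6 := pow_le_pow_right₀ h1L (by norm_num)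
  have hfin : |∑ a ∈ Icc 1 X, ∑ b ∈ Icc 1 (X / a), f a b| ≤
      2 * l * X * (1 + Real.log X) + 2 * C * X * l * (1 + Real.log X) ^ 5 := by
    have := abs_sub_abs_le_abs_sub (∑ a ∈ Icc 1 X, ∑ b ∈ Icc 1 (X / a), f a b)
      (∑ a ∈ Icc 1 X, ∑ b ∈ Icc 1 (Wf (idx a)), f a b)
    linarith
  refine hfin.trans ?_
  calc 2 * l * X * (1 + Real.log X) + 2 * C * X * l * (1 + Real.log X) ^ 5 ≤
      2 * l * X * (1 + Real.log X) ^ 6 + 2 * C * X * l * (1 + Real.log X) ^ 6 :=
        add_le_add (mul_le_mul_of_nonneg_left hp1 (by positivity))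
          (mul_le_mul_of_nonneg_left hp5 (by positivity))
    _ = (2 + 2 * C) * X * l * (1 + Real.log X) ^ 6 := by ring

end PPA
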