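import Pool.Agent.Lib.MP_87c685_nt_PPA.Defs
import Pool.Agent.Lib.MP_87c685_nt_PPA.Sgn

/-! Project PP15 (MP_87c685_nt), analytic block PPA, module EIi. -/

open Finset Filter Topology

namespace PPA

/-! ### Basic lemmas on smooth and rough parts -/

theorem EIi_sm_mul_rg (z n : ℕ) (hn : Squarefree n) : sm z n * rg z n = n := by
  unfold sm rg
  have h := Finset.prod_filter_mul_prod_filter_not n.primeFactors (fun p => p ≤ z) (fun p => p)
  simp only [not_le] at h
  rw [h]
  exact Nat.prod_primeFactors_of_squarefree hn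

theorem EIi_primeFactors_sm (z n : ℕ) :
    (sm z n).primeFactors = n.primeFactors.filter (fun p => p ≤ z) := by
  unfold sm
  exact Nat.primeFactors_prod fun p hp => Nat.prime_of_mem_primeFactors (mem_filter.1 hp).1

theorem EIi_primeFactors_rg (z n : ℕ) :
    (rg z n).primeFactors = n.primeFactors.filter (fun p => z < p) := by
  unfold rg
  exact Nat.primeFactors_prod fun p hp => Nat.prime_of_mem_primeFactors (mem_filter.1 hp).1

theorem EIi_sm_pos (z n : ℕ) : 0 < sm z n :=
  Finset.prod_pos fun _ hp => (Nat.prime_of_mem_primeFactors (mem_filter.1 hp).1).pos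

theorem EIi_rg_pos (z n : ℕ) : 0 < rg z n :=
  Finset.prod_pos fun _ hp => (Nat.prime_of_mem_primeFactors (mem_filter.1 hp).1).pos

theorem EIi_rough_rg (z n : ℕ) : Rough z (rg z n) := by
  intro p hp hd
  have h : p ∈ (rg z n).primeFactors :=
    Nat.mem_primeFactors.2 ⟨hp, hd, (EIi_rg_pos z n).ne'⟩
  rw [EIi_primeFactors_rg] at h
  exact (mem_filter.1 h).2

theorem EIi_rg_one (z : ℕ) : rg z 1 = 1 := by simp [rg]

theorem EIi_sm_one (z : ℕ) : sm z 1 = 1 := by simp [sm]

theorem EIi_rg_mul (z n m : ℕ) (h : n.Coprime m) : rg z (n * m) = rg z n * rg z m := by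
  unfold rg
  rw [h.primeFactors_mul, filter_union, prod_union]
  exact (h.disjoint_primeFactors).mono (filter_subset _ _) (filter_subset _ _)

theorem EIi_sm_mul (z n m : ℕ) (h : n.Coprime m) : sm z (n * m) = sm z n * sm z m := by
  unfold sm
  rw [h.primeFactors_mul, filter_union, prod_union]
  exact (h.disjoint_primeFactors).mono (filter_subset _ _) (filter_subset _ _)

theorem EIi_rg_rough (z n : ℕ) (hn : Squarefree n) (hr : Rough z n) : rg z n = n := by
  unfold rg
  rw [filter_true_of_mem fun p hp => hr p (Nat.prime_of_mem_primeFactors hp)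
    (Nat.dvd_of_mem_primeFactors hp)]
  exact Nat.prod_primeFactors_of_squarefree hn

theorem EIi_sm_rough (z n : ℕ) (hr : Rough z n) : sm z n = 1 := by
  unfold sm
  rw [filter_false_of_mem fun p hp => not_le.2 (hr p (Nat.prime_of_mem_primeFactors hp)
    (Nat.dvd_of_mem_primeFactors hp))]
  exact prod_empty

theorem EIi_sm_rg (z n : ℕ) : sm z (rg z n) = 1 := EIi_sm_rough z _ (EIi_rough_rg z n)

theorem EIi_rg_sm (z n : ℕ) : rg z (sm z n) = 1 := by
  unfold rg
  rw [EIi_primeFactors_sm, filter_false_of_mem]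
  · exact prod_empty
  · intro p hp
    exact not_lt.2 (mem_filter.1 hp).2

theorem EIi_sm_of_rg (z n : ℕ) (hn : Squarefree n) (h : rg z n = 1) : sm z n = n := by
  have h2 := EIi_sm_mul_rg z n hn
  rwa [h, mul_one] at h2

theorem EIi_coprime (z n : ℕ) : (sm z n).Coprime (rg z n) := by
  rw [← Nat.disjoint_primeFactors (EIi_sm_pos z n).ne' (EIi_rg_pos z n).ne',
    EIi_primeFactors_sm, EIi_primeFactors_rg, disjoint_left]
  intro p hp hq
  exact absurd (mem_filter.1 hp).2 (not_le.2 (mem_filter.1 hq).2)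

theorem EIi_sm_dvd (z n : ℕ) : sm z n ∣ n := by
  by_cases h0 : n = 0
  · subst h0; exact dvd_zero _
  · exact (Finset.prod_dvd_prod_of_subset _ _ _ (filter_subset _ _)).trans
      (Nat.prod_primeFactors_dvd n)

theorem EIi_rg_dvd (z n : ℕ) : rg z n ∣ n := by
  by_cases h0 : n = 0
  · subst h0; exact dvd_zero _
  · exact (Finset.prod_dvd_prod_of_subset _ _ _ (filter_subset _ _)).trans
      (Nat.prod_primeFactors_dvd n)

/-- divisors of admissible numbers are admissible -/
theorem EIi_ok_dvd {n m : ℕ} (h : Ok n) (hd : m ∣ n) : Ok m :=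
  ⟨h.1.squarefree_of_dvd hd, h.2.coprime_dvd_left hd⟩

theorem EIi_ok_pos {n : ℕ} (h : Ok n) : 0 < n := Nat.pos_of_ne_zero h.1.ne_zero

/-- insertion of `a` at `v₀` and `b` at `w₀` -/
def ins {V : Type} [DecidableEq V] (v₀ w₀ : V) (a b : ℕ) (y : V → ℕ) : V → ℕ :=
  fun v => if v = v₀ then y v * a else if v = w₀ then y v * b else y v

open Classical in
/-- the fixed variables: `y v₀`, `y w₀` are `z`-smooth -/
noncomputable def YY {V : Type} [Fintype V] [DecidableEq V] (S : Finset V) (v₀ w₀ : V)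
    (z x : ℕ) : Finset (V → ℕ) :=
  (Fintype.piFinset fun _ => range (x + 1)).filter fun y =>
    Ok (∏ v, y v) ∧ ∏ v, y v ≤ x ∧ rs z y = (S.erase v₀).erase w₀

theorem EIi_prod_ins {V : Type} [Fintype V] [DecidableEq V] (v₀ w₀ : V) (hne : v₀ ≠ w₀)
    (a b : ℕ) (y : V → ℕ) : ∏ v, ins v₀ w₀ a b y v = (∏ v, y v) * a * b := by
  have h : ∀ v, ins v₀ w₀ a b y v =
      y v * (if v = v₀ then a else 1) * (if v = w₀ then b else 1) := by
    intro v
    unfold ins
    by_cases h1 : v = v₀
    · have h2 : ¬ v = w₀ := fun h2 => hne (h1.symm.trans h2)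
      simp [h1, hne]
    · by_cases h2 : v = w₀
      · have h3 : ¬ w₀ = v₀ := fun h => hne h.symm
        simp [h2, h3]
      · simp [h1, h2]
  simp only [h, prod_mul_distrib, prod_ite_eq', mem_univ, if_true]

/-- the fixed variables of `D` -/
def EIi_y {V : Type} [DecidableEq V] (v₀ w₀ : V) (z : ℕ) (D : V → ℕ) : V → ℕ :=
  fun v => if v = v₀ then sm z (D v) else if v = w₀ then sm z (D v) else D v

theorem EIi_ins_y {V : Type} [DecidableEq V] (v₀ w₀ : V) (z : ℕ)
    (D : V → ℕ) (hD : ∀ v, Squarefree (D v)) :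
    ins v₀ w₀ (rg z (D v₀)) (rg z (D w₀)) (EIi_y v₀ w₀ z D) = D := by
  funext v
  unfold ins EIi_y
  by_cases h1 : v = v₀
  · simp only [h1, if_true]
    exact EIi_sm_mul_rg z _ (hD _)
  · by_cases h2 : v = w₀
    · simp only [h2, if_true]
      by_cases h3 : w₀ = v₀
      · exact absurd (h2.trans h3) h1
      · simp only [h3, if_false]
        exact EIi_sm_mul_rg z _ (hD _)
    · simp only [h1, h2, if_false]

open Classical in
/-- splitting off the rough parts of `D v₀` and `D w₀` -/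
theorem e1_index {V : Type} [Fintype V] [DecidableEq V] (c : Fin 4 → ℤ) (S : Finset V)
    (v₀ w₀ : V) (hne : v₀ ≠ w₀) (hv : v₀ ∈ S) (hw : w₀ ∈ S) (z x : ℕ) (g : (V → ℕ) → ℝ) :
    ∑ D ∈ (Dx V c x).filter (fun D => rs z D = S), g D =
      ∑ y ∈ YY S v₀ w₀ z x, ∑ a ∈ Icc 1 (x / ∏ v, y v), ∑ b ∈ Icc 1 (x / (∏ v, y v) / a),
        if 1 < a ∧ Rough z a ∧ 1 < b ∧ Rough z b ∧ Ok ((∏ v, y v) * a * b) ∧
          sg ((∏ v, y v) * a * b) = c then g (ins v₀ w₀ a b y) else 0 := by
  simp only [← Finset.sum_filter]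
  rw [Finset.sum_sigma', Finset.sum_sigma']
  refine Finset.sum_nbij' (fun D => ⟨⟨EIi_y v₀ w₀ z D, rg z (D v₀)⟩, rg z (D w₀)⟩)
    (fun t => ins v₀ w₀ t.1.2 t.2 t.1.1) ?_ ?_ ?_ ?_ ?_
  · -- maps to
    intro D hD
    simp only [mem_filter, Dx, Dall, Fintype.mem_piFinset, mem_range] at hD
    obtain ⟨⟨⟨hr, hok, hle⟩, hsg⟩, hrs⟩ := hD
    have hsq : ∀ v, Squarefree (D v) := fun v =>
      hok.1.squarefree_of_dvd (Finset.dvd_prod_of_mem _ (mem_univ v))
    have hins := EIi_ins_y v₀ w₀ z D hsq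
    have hprod := EIi_prod_ins v₀ w₀ hne (rg z (D v₀)) (rg z (D w₀)) (EIi_y v₀ w₀ z D)
    rw [hins] at hprod
    have hrgv : rg z (D v₀) ≠ 1 := by
      have : v₀ ∈ rs z D := by rw [hrs]; exact hv
      exact (mem_filter.1 this).2
    have hrgw : rg z (D w₀) ≠ 1 := by
      have : w₀ ∈ rs z D := by rw [hrs]; exact hw
      exact (mem_filter.1 this).2
    have ha1 : 1 < rg z (D v₀) := lt_of_le_of_ne (EIi_rg_pos _ _) (Ne.symm hrgv)
    have hb1 : 1 < rg z (D w₀) := lt_of_le_of_ne (EIi_rg_pos _ _) (Ne.symm hrgw)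
    set y := EIi_y v₀ w₀ z D with hy
    set a := rg z (D v₀) with ha
    set b := rg z (D w₀) with hb
    have hyd : (∏ v, y v) ∣ ∏ v, D v := by
      rw [hprod, mul_assoc]; exact dvd_mul_right _ _
    have hoky : Ok (∏ v, y v) := EIi_ok_dvd hok hyd
    have hypos : 0 < ∏ v, y v := EIi_ok_pos hoky
    have hyle : ∏ v, y v ≤ x := (Nat.le_of_dvd (EIi_ok_pos hok) hyd).trans hle
    have hle' : (∏ v, y v) * a * b ≤ x := by rw [← hprod]; exact hle
    have hrsy : rs z y = (S.erase v₀).erase w₀ := by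
      ext v
      rw [mem_erase, mem_erase, ← hrs]
      simp only [rs, mem_filter, mem_univ, true_and]
      by_cases h1 : v = v₀
      · have : y v = sm z (D v) := by rw [hy]; unfold EIi_y; rw [if_pos h1]
        rw [this, EIi_rg_sm]
        simp [h1]
      · by_cases h2 : v = w₀
        · have : y v = sm z (D v) := by
            rw [hy]; unfold EIi_y; rw [if_neg h1, if_pos h2]
          rw [this, EIi_rg_sm]
          simp [h2]
        · have : y v = D v := by rw [hy]; unfold EIi_y; rw [if_neg h1, if_neg h2]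
          rw [this]
          simp [h1, h2]
    simp only [mem_sigma, mem_filter, YY, Fintype.mem_piFinset, mem_range, mem_Icc]
    refine ⟨⟨⟨fun v => ?_, hoky, hyle, hrsy⟩, ha1.le, ?_⟩, ⟨hb1.le, ?_⟩, ha1, EIi_rough_rg _ _,
      hb1, EIi_rough_rg _ _, ?_, ?_⟩
    · exact Nat.lt_succ_of_le ((Nat.le_of_dvd hypos
        (Finset.dvd_prod_of_mem _ (mem_univ v))).trans hyle)
    · rw [Nat.le_div_iff_mul_le hypos]
      calc a * ∏ v, y v = (∏ v, y v) * a * 1 := by ring
        _ ≤ (∏ v, y v) * a * b := Nat.mul_le_mul_left _ hb1.le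
        _ ≤ x := hle'
    · rw [Nat.le_div_iff_mul_le (lt_trans Nat.zero_lt_one ha1), Nat.le_div_iff_mul_le hypos]
      calc b * a * ∏ v, y v = (∏ v, y v) * a * b := by ring
        _ ≤ x := hle'
    · rw [← hprod]; exact hok
    · rw [← hprod]; exact hsg
  · -- maps back
    rintro ⟨⟨y, a⟩, b⟩ ht
    simp only [mem_sigma, mem_filter, YY, Fintype.mem_piFinset, mem_range, mem_Icc] at ht
    obtain ⟨⟨⟨hyr, hoky, hyle, hrsy⟩, ha0, hax⟩, ⟨hb0, hbx⟩, ha1, hra, hb1, hrb, hok, hsg⟩ := ht
    have hypos : 0 < ∏ v, y v := EIi_ok_pos hoky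
    have hprod := EIi_prod_ins v₀ w₀ hne a b y
    have hle : (∏ v, y v) * a * b ≤ x := by
      rw [Nat.le_div_iff_mul_le (lt_trans Nat.zero_lt_one ha1),
        Nat.le_div_iff_mul_le hypos] at hbx
      calc (∏ v, y v) * a * b = b * a * ∏ v, y v := by ring
        _ ≤ x := hbx
    have hDsq : ∀ v, Squarefree (ins v₀ w₀ a b y v) := fun v =>
      (hprod ▸ hok : Ok (∏ v, ins v₀ w₀ a b y v)).1.squarefree_of_dvd
        (Finset.dvd_prod_of_mem _ (mem_univ v))
    have hnv : rg z (y v₀) = 1 := by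
      by_contra h
      have : v₀ ∈ rs z y := mem_filter.2 ⟨mem_univ _, h⟩
      rw [hrsy] at this
      simp at this
    have hnw : rg z (y w₀) = 1 := by
      by_contra h
      have : w₀ ∈ rs z y := mem_filter.2 ⟨mem_univ _, h⟩
      rw [hrsy] at this
      simp at this
    have hne' : ¬ w₀ = v₀ := fun h => hne h.symm
    have hiv : ins v₀ w₀ a b y v₀ = y v₀ * a := by simp [ins]
    have hiw : ins v₀ w₀ a b y w₀ = y w₀ * b := by simp [ins, hne']
    have hcv : (y v₀).Coprime a := by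
      have := hDsq v₀
      rw [hiv] at this
      exact Nat.coprime_of_squarefree_mul this
    have hcw : (y w₀).Coprime b := by
      have := hDsq w₀
      rw [hiw] at this
      exact Nat.coprime_of_squarefree_mul this
    have hsa : Squarefree a := by
      have := hDsq v₀
      rw [hiv] at this
      exact this.squarefree_of_dvd (dvd_mul_left _ _)
    have hsb : Squarefree b := by
      have := hDsq w₀
      rw [hiw] at this
      exact this.squarefree_of_dvd (dvd_mul_left _ _)
    simp only [mem_filter, Dx, Dall, Fintype.mem_piFinset, mem_range]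
    rw [hprod]
    refine ⟨⟨⟨fun v => ?_, hok, hle⟩, hsg⟩, ?_⟩
    · refine Nat.lt_succ_of_le ((Nat.le_of_dvd (EIi_ok_pos hok) ?_).trans hle)
      rw [← hprod]
      exact Finset.dvd_prod_of_mem _ (mem_univ v)
    · ext v
      simp only [rs, mem_filter, mem_univ, true_and]
      by_cases h1 : v = v₀
      · rw [h1, hiv, EIi_rg_mul z _ _ hcv, hnv, one_mul, EIi_rg_rough z a hsa hra]
        exact ⟨fun _ => hv, fun _ => ha1.ne'⟩
      · by_cases h2 : v = w₀
        · rw [h2, hiw, EIi_rg_mul z _ _ hcw, hnw, one_mul, EIi_rg_rough z b hsb hrb]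
          exact ⟨fun _ => hw, fun _ => hb1.ne'⟩
        · have : ins v₀ w₀ a b y v = y v := by simp [ins, h1, h2]
          rw [this]
          have h3 : rg z (y v) ≠ 1 ↔ v ∈ rs z y := by simp [rs]
          rw [h3, hrsy, mem_erase, mem_erase]
          simp [h1, h2]
  · -- left inverse
    intro D hD
    simp only [mem_filter, Dx, Dall, Fintype.mem_piFinset, mem_range] at hD
    obtain ⟨⟨⟨hr, hok, hle⟩, hsg⟩, hrs⟩ := hD
    have hsq : ∀ v, Squarefree (D v) := fun v =>
      hok.1.squarefree_of_dvd (Finset.dvd_prod_of_mem _ (mem_univ v))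
    exact EIi_ins_y v₀ w₀ z D hsq
  · -- right inverse
    rintro ⟨⟨y, a⟩, b⟩ ht
    simp only [mem_sigma, mem_filter, YY, Fintype.mem_piFinset, mem_range, mem_Icc] at ht
    obtain ⟨⟨⟨hyr, hoky, hyle, hrsy⟩, ha0, hax⟩, ⟨hb0, hbx⟩, ha1, hra, hb1, hrb, hok, hsg⟩ := ht
    have hprod := EIi_prod_ins v₀ w₀ hne a b y
    have hDsq : ∀ v, Squarefree (ins v₀ w₀ a b y v) := fun v =>
      (hprod ▸ hok : Ok (∏ v, ins v₀ w₀ a b y v)).1.squarefree_of_dvd
        (Finset.dvd_prod_of_mem _ (mem_univ v))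
    have hnv : rg z (y v₀) = 1 := by
      by_contra h
      have : v₀ ∈ rs z y := mem_filter.2 ⟨mem_univ _, h⟩
      rw [hrsy] at this
      simp at this
    have hnw : rg z (y w₀) = 1 := by
      by_contra h
      have : w₀ ∈ rs z y := mem_filter.2 ⟨mem_univ _, h⟩
      rw [hrsy] at this
      simp at this
    have hne' : ¬ w₀ = v₀ := fun h => hne h.symm
    have hiv : ins v₀ w₀ a b y v₀ = y v₀ * a := by simp [ins]
    have hiw : ins v₀ w₀ a b y w₀ = y w₀ * b := by simp [ins, hne']
    have hcv : (y v₀).Coprime a := by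
      have := hDsq v₀
      rw [hiv] at this
      exact Nat.coprime_of_squarefree_mul this
    have hcw : (y w₀).Coprime b := by
      have := hDsq w₀
      rw [hiw] at this
      exact Nat.coprime_of_squarefree_mul this
    have hsa : Squarefree a := by
      have := hDsq v₀
      rw [hiv] at this
      exact this.squarefree_of_dvd (dvd_mul_left _ _)
    have hsb : Squarefree b := by
      have := hDsq w₀
      rw [hiw] at this
      exact this.squarefree_of_dvd (dvd_mul_left _ _)
    have hsyv : Squarefree (y v₀) := by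
      have := hDsq v₀
      rw [hiv] at this
      exact this.squarefree_of_dvd (dvd_mul_right _ _)
    have hsyw : Squarefree (y w₀) := by
      have := hDsq w₀
      rw [hiw] at this
      exact this.squarefree_of_dvd (dvd_mul_right _ _)
    have e1 : rg z (ins v₀ w₀ a b y v₀) = a := by
      rw [hiv, EIi_rg_mul z _ _ hcv, hnv, one_mul, EIi_rg_rough z a hsa hra]
    have e2 : rg z (ins v₀ w₀ a b y w₀) = b := by
      rw [hiw, EIi_rg_mul z _ _ hcw, hnw, one_mul, EIi_rg_rough z b hsb hrb]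
    have e3 : EIi_y v₀ w₀ z (ins v₀ w₀ a b y) = y := by
      funext v
      unfold EIi_y
      by_cases h1 : v = v₀
      · rw [if_pos h1, h1, hiv, EIi_sm_mul z _ _ hcv, EIi_sm_rough z a hra, mul_one,
          EIi_sm_of_rg z _ hsyv hnv]
      · by_cases h2 : v = w₀
        · rw [if_neg h1, if_pos h2, h2, hiw, EIi_sm_mul z _ _ hcw, EIi_sm_rough z b hrb, mul_one,
            EIi_sm_of_rg z _ hsyw hnw]
        · rw [if_neg h1, if_neg h2]
          simp [ins, h1, h2]
    simp only [e1, e2, e3]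
  · intro D hD
    simp only [mem_filter, Dx, Dall, Fintype.mem_piFinset, mem_range] at hD
    obtain ⟨⟨⟨hr, hok, hle⟩, hsg⟩, hrs⟩ := hD
    have hsq : ∀ v, Squarefree (D v) := fun v =>
      hok.1.squarefree_of_dvd (Finset.dvd_prod_of_mem _ (mem_univ v))
    simp only [EIi_ins_y v₀ w₀ z D hsq]

end PPA
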