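import Pool.Agent.Lib.MP_87c685_nt_PPA.Defs
import Pool.Agent.Lib.MP_87c685_nt_PPA.Sgn

/-! Project PP15 (MP_87c685_nt), analytic block PPA, module Recip. -/

open Finset Filter Topology

namespace PPA

/-- pairing the ordered pairs -/
theorem Recip_pairs {V : Type} [DecidableEq V] (f : V → V → ℤ) (g : V → V → ℕ) (U : Finset V)
    (h1 : ∀ v ∈ U, f v v = 1) (h2 : ∀ v ∈ U, g v v = 0)
    (h3 : ∀ v ∈ U, ∀ w ∈ U, g v w = g w v)
    (h4 : ∀ v ∈ U, ∀ w ∈ U, v ≠ w → f v w * f w v = (-1) ^ g v w) :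
    ∏ v ∈ U, ∏ w ∈ U, f v w = (-1) ^ ((∑ v ∈ U, ∑ w ∈ U, g v w) / 2) := by
  induction U using Finset.induction_on with
  | empty => simp
  | insert a U ha ih =>
    have ih' := ih (fun v hv => h1 v (mem_insert_of_mem hv))
      (fun v hv => h2 v (mem_insert_of_mem hv))
      (fun v hv w hw => h3 v (mem_insert_of_mem hv) w (mem_insert_of_mem hw))
      (fun v hv w hw => h4 v (mem_insert_of_mem hv) w (mem_insert_of_mem hw))
    have e1 : ∏ v ∈ insert a U, ∏ w ∈ insert a U, f v w =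
        (∏ w ∈ U, f a w * f w a) * ∏ v ∈ U, ∏ w ∈ U, f v w := by
      rw [prod_insert ha, prod_insert ha, h1 a (mem_insert_self a U), one_mul]
      have : ∏ v ∈ U, ∏ w ∈ insert a U, f v w = ∏ v ∈ U, (f v a * ∏ w ∈ U, f v w) :=
        prod_congr rfl fun v _ => prod_insert ha
      rw [this, prod_mul_distrib, prod_mul_distrib, mul_assoc]
    have e2 : ∑ v ∈ insert a U, ∑ w ∈ insert a U, g v w =
        2 * (∑ w ∈ U, g a w) + ∑ v ∈ U, ∑ w ∈ U, g v w := by
      rw [sum_insert ha, sum_insert ha, h2 a (mem_insert_self a U), zero_add]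
      have : ∑ v ∈ U, ∑ w ∈ insert a U, g v w = ∑ v ∈ U, (g a v + ∑ w ∈ U, g v w) := by
        refine sum_congr rfl fun v hv => ?_
        rw [sum_insert ha, h3 v (mem_insert_of_mem hv) a (mem_insert_self a U)]
      rw [this, sum_add_distrib]
      ring
    have e3 : ∏ w ∈ U, f a w * f w a = (-1) ^ ∑ w ∈ U, g a w := by
      rw [← prod_pow_eq_pow_sum]
      refine prod_congr rfl fun w hw => ?_
      refine h4 a (mem_insert_self a U) w (mem_insert_of_mem hw) ?_
      rintro rfl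
      exact ha hw
    rw [e1, e2, e3, ih', ← pow_add]
    congr 1
    omega

theorem Recip_neg1 {t : ℕ} (ht : Odd t) : (-1 : ℤ) ^ (t / 2) = (-1) ^ neg1 (sg t) := by
  have h0 : sg t 0 = jacobiSym (-1) t := rfl
  have h1 := ZMod.χ₄_eq_neg_one_pow (Nat.odd_iff.mp ht)
  have h2 := jacobiSym.at_neg_one ht
  unfold neg1
  rw [h0, h2, h1]
  rcases neg_one_pow_eq_or ℤ (t / 2) with h | h <;> rw [h] <;> norm_num

theorem Recip_pow {t s : ℕ} (ht : Odd t) (hs : Odd s) :
    (-1 : ℤ) ^ (t / 2 * (s / 2)) = (-1) ^ (neg1 (sg t) * neg1 (sg s)) := by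
  rw [pow_mul, Recip_neg1 ht, ← pow_mul, mul_comm, pow_mul, Recip_neg1 hs, ← pow_mul]
  congr 1
  ring

theorem Recip_pair {t s : ℕ} (ht : Odd t) (hs : Odd s) (h : Nat.Coprime t s) :
    jacobiSym t s * jacobiSym s t = (-1) ^ (neg1 (sg t) * neg1 (sg s)) := by
  have h1 := jacobiSym.quadratic_reciprocity ht hs
  have h2 : jacobiSym (s : ℤ) t ^ 2 = 1 := by
    apply jacobiSym.sq_one
    rw [Int.gcd_natCast_natCast]
    exact h.symm
  rw [h1, mul_assoc, ← sq, h2, mul_one, Recip_pow ht hs]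

/-- quadratic reciprocity on an unlinked set -/
theorem F_eq_FU {V : Type} [Fintype V] [DecidableEq V] (φ : V → V → ℕ) (e : V → Fin 4 → ℕ)
    (hφ : ∀ v w, φ v w ≤ 1) (h0 : ∀ v, φ v v = 0) (U : Finset V) (hU : Unlinked φ U)
    (D : V → ℕ) (hD : Ok (∏ v, D v)) (hs : supp D ⊆ U) :
    F φ e D = FU φ e U fun v => sg (D v) := by
  have hout : ∀ v, v ∉ U → D v = 1 := by
    intro v hv
    by_contra hne
    exact hv (hs (mem_filter.mpr ⟨mem_univ v, hne⟩))
  have hdvd : ∀ v, D v ∣ ∏ v, D v := fun v => dvd_prod_of_mem D (mem_univ v)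
  have hodd : ∀ v, Odd (D v) := by
    intro v
    have h1 : (D v).Coprime 30 := Nat.Coprime.coprime_dvd_left (hdvd v) hD.2
    have h2 : (D v).Coprime 2 := Nat.Coprime.coprime_dvd_right (by norm_num) h1
    exact Nat.coprime_two_right.mp h2
  have hcop : ∀ v w, v ≠ w → Nat.Coprime (D v) (D w) := by
    intro v w hvw
    have h1 : D v * D w ∣ ∏ v, D v := by
      have h2 : ∏ x ∈ ({v, w} : Finset V), D x ∣ ∏ x, D x :=
        prod_dvd_prod_of_subset _ _ _ (subset_univ _)
      rwa [prod_pair hvw] at h2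
    exact Nat.coprime_of_squarefree_mul (hD.1.squarefree_of_dvd h1)
  have hsym : ∀ v ∈ U, ∀ w ∈ U, φ v w = φ w v := by
    intro v hv w hw
    have h1 := hU v hv w hw
    have h2 := hφ v w
    have h3 := hφ w v
    omega
  unfold F FU
  congr 1
  · symm
    apply prod_subset (subset_univ U)
    intro v _ hv
    beta_reduce
    rw [hout v hv, sg_one]
    simp
  · have e1 : ∏ v, ∏ w, jacobiSym (D v) (D w) ^ φ v w =
        ∏ v ∈ U, ∏ w ∈ U, jacobiSym (D v) (D w) ^ φ v w := by
      symm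
      have e2 : ∀ v, ∏ w ∈ U, jacobiSym (D v) (D w) ^ φ v w =
          ∏ w, jacobiSym (D v) (D w) ^ φ v w := by
        intro v
        apply prod_subset (subset_univ U)
        intro w _ hw
        rw [hout w hw, jacobiSym.one_right, one_pow]
      rw [prod_congr rfl fun v _ => e2 v]
      apply prod_subset (subset_univ U)
      intro v _ hv
      rw [hout v hv]
      apply prod_eq_one
      intro w _
      rw [Nat.cast_one, jacobiSym.one_left, one_pow]
    rw [e1]
    apply Recip_pairs (fun v w => jacobiSym (D v) (D w) ^ φ v w)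
      (fun v w => φ v w * neg1 (sg (D v)) * neg1 (sg (D w))) U
    · intro v _
      rw [h0 v, pow_zero]
    · intro v _
      rw [h0 v, zero_mul, zero_mul]
    · intro v hv w hw
      rw [hsym v hv w hw]
      ring
    · intro v hv w hw hvw
      rw [hsym w hw v hv, ← mul_pow, Recip_pair (hodd v) (hodd w) (hcop v w hvw), ← pow_mul]
      congr 1
      ring

end PPA
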