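import Pool.Agent.Lib.MP_87c685_nt_PPA.Defs
import Pool.Agent.Lib.MP_87c685_nt_PPA.Sgn
import Pool.Agent.Lib.MP_87c685_nt_PPA.Recip

/-! Project PP15 (MP_87c685_nt), analytic block PPA, module FMul. -/

open Finset Filter Topology

namespace PPA

theorem F_mul {V : Type} [Fintype V] [DecidableEq V] (φ : V → V → ℕ) (e : V → Fin 4 → ℕ)
    (D E : V → ℕ) (hD : ∀ v, D v ≠ 0) (hE : ∀ v, E v ≠ 0) :
    F φ e (fun v => D v * E v) = F φ e D * F φ e E *
      ∏ v, ∏ w, (jacobiSym (D v) (E w) * jacobiSym (E v) (D w)) ^ φ v w := by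
  have h1 : ∀ v, ∏ i, sg (D v * E v) i ^ e v i =
      (∏ i, sg (D v) i ^ e v i) * ∏ i, sg (E v) i ^ e v i := by
    intro v
    rw [← prod_mul_distrib]
    refine prod_congr rfl fun i _ => ?_
    rw [sg_mul _ _ (hD v) (hE v), Pi.mul_apply, mul_pow]
  have h2 : ∀ v w, jacobiSym ((D v * E v : ℕ) : ℤ) (D w * E w) ^ φ v w =
      jacobiSym (D v) (D w) ^ φ v w * jacobiSym (E v) (E w) ^ φ v w *
        (jacobiSym (D v) (E w) * jacobiSym (E v) (D w)) ^ φ v w := by
    intro v w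
    rw [Nat.cast_mul, jacobiSym.mul_left, jacobiSym.mul_right' _ (hD w) (hE w),
      jacobiSym.mul_right' _ (hD w) (hE w), ← mul_pow, ← mul_pow]
    congr 1
    ring
  unfold F
  rw [prod_congr rfl fun v _ => h1 v, prod_mul_distrib,
    prod_congr rfl fun v _ => prod_congr rfl fun w _ => h2 v w]
  simp only [prod_mul_distrib]
  ring

private theorem FMul_abs_prod {ι : Type} (s : Finset ι) (f : ι → ℤ) (hf : ∀ i ∈ s, |f i| ≤ 1) :
    |∏ i ∈ s, f i| ≤ 1 := by
  rw [abs_prod]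
  exact prod_le_one (fun i _ => abs_nonneg _) hf

private theorem FMul_abs_pow {a : ℤ} (ha : |a| ≤ 1) (n : ℕ) : |a ^ n| ≤ 1 := by
  rw [abs_pow]
  exact pow_le_one₀ (abs_nonneg _) ha

private theorem FMul_abs_mul {a b : ℤ} (ha : |a| ≤ 1) (hb : |b| ≤ 1) : |a * b| ≤ 1 := by
  rw [abs_mul]
  exact mul_le_one₀ ha (abs_nonneg _) hb

private theorem FMul_abs_jac (a : ℤ) (b : ℕ) : |jacobiSym a b| ≤ 1 := by
  rcases jacobiSym.trichotomy a b with h | h | h <;> rw [h] <;> norm_num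

theorem F_le {V : Type} [Fintype V] [DecidableEq V] (φ : V → V → ℕ) (e : V → Fin 4 → ℕ)
    (D : V → ℕ) : |F φ e D| ≤ 1 := by
  unfold F
  refine FMul_abs_mul ?_ ?_
  · exact FMul_abs_prod _ _ fun v _ => FMul_abs_prod _ _ fun i _ =>
      FMul_abs_pow (abs_sg_le _ _) _
  · exact FMul_abs_prod _ _ fun v _ => FMul_abs_prod _ _ fun w _ =>
      FMul_abs_pow (FMul_abs_jac _ _) _

private theorem FMul_neg_one_pow (n : ℕ) : |(-1 : ℤ) ^ n| ≤ 1 := by
  rw [abs_pow]
  simp

private theorem FMul_FU_le {V : Type} [Fintype V] [DecidableEq V] (φ : V → V → ℕ)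
    (e : V → Fin 4 → ℕ) (U : Finset V) (s : V → Fin 4 → ℤ) (hs : ∀ v ∈ U, s v ∈ SV) :
    |FU φ e U s| ≤ 1 := by
  unfold FU
  refine FMul_abs_mul ?_ (FMul_neg_one_pow _)
  refine FMul_abs_prod _ _ fun v hv => FMul_abs_prod _ _ fun i _ => FMul_abs_pow ?_ _
  have h1 := hs v hv
  unfold SV at h1
  rw [Fintype.mem_piFinset] at h1
  have h2 := h1 i
  rw [mem_insert, mem_singleton] at h2
  rcases h2 with h | h <;> rw [h] <;> norm_num

private theorem FMul_jac_prod {ι : Type} (s : Finset ι) (f : ι → ℕ) (b : ℕ) :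
    jacobiSym ((∏ i ∈ s, f i : ℕ) : ℤ) b = ∏ i ∈ s, jacobiSym (f i) b := by
  classical
  induction s using Finset.induction_on with
  | empty => simp [jacobiSym.one_left]
  | insert a s ha ih =>
    rw [prod_insert ha, prod_insert ha, Nat.cast_mul, jacobiSym.mul_left, ih]

private theorem FMul_flip {t s : ℕ} (ht : Odd t) (hs : Odd s) (h : Nat.Coprime t s) :
    jacobiSym t s = (-1) ^ (neg1 (sg t) * neg1 (sg s)) * jacobiSym s t := by
  have h1 := Recip_pair ht hs h
  have h2 : jacobiSym (s : ℤ) t ^ 2 = 1 := by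
    apply jacobiSym.sq_one
    rw [Int.gcd_natCast_natCast]
    exact h.symm
  rw [← h1, mul_assoc, ← sq, h2, mul_one]

/-- the sign -/
private def FMul_sgn {V : Type} [Fintype V] (φ : V → V → ℕ) (U : Finset V) (d : V → ℕ)
    (s : V → Fin 4 → ℤ) : ℤ :=
  ∏ u ∈ U, (-1) ^ ∑ w, neg1 (s u) * neg1 (sg (d w)) * φ u w

/-- the third factor -/
private theorem FMul_third {V : Type} [Fintype V] [DecidableEq V] (φ : V → V → ℕ)
    (U : Finset V) (d E : V → ℕ) (hd : ∀ v, Odd (d v)) (hE : ∀ v, Odd (E v))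
    (hcop : ∀ v w, Nat.Coprime (E v) (d w)) (hout : ∀ v, v ∉ U → E v = 1) :
    ∏ v, ∏ w, (jacobiSym (d v) (E w) * jacobiSym (E v) (d w)) ^ φ v w =
      FMul_sgn φ U d (fun v => sg (E v)) *
        ∏ u ∈ U, jacobiSym ((∏ v, d v ^ (φ v u + φ u v) : ℕ) : ℤ) (E u) := by
  simp only [mul_pow, prod_mul_distrib]
  have e1 : ∏ v, ∏ w, jacobiSym (d v) (E w) ^ φ v w =
      ∏ u ∈ U, ∏ v, jacobiSym (d v) (E u) ^ φ v u := by
    have e0 : ∏ v, ∏ w, jacobiSym (d v) (E w) ^ φ v w =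
        ∏ w, ∏ v, jacobiSym (d v) (E w) ^ φ v w := prod_comm
    rw [e0]
    symm
    apply prod_subset (subset_univ U)
    intro w _ hw
    rw [hout w hw]
    apply prod_eq_one
    intro v _
    rw [jacobiSym.one_right, one_pow]
  have e2 : ∏ v, ∏ w, jacobiSym (E v) (d w) ^ φ v w =
      ∏ u ∈ U, ∏ w, jacobiSym (E u) (d w) ^ φ u w := by
    symm
    apply prod_subset (subset_univ U)
    intro v _ hv
    rw [hout v hv]
    apply prod_eq_one
    intro w _
    rw [Nat.cast_one, jacobiSym.one_left, one_pow]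
  rw [e1, e2, FMul_sgn, ← prod_mul_distrib, ← prod_mul_distrib]
  refine prod_congr rfl fun u _ => ?_
  rw [FMul_jac_prod, ← prod_pow_eq_pow_sum, ← prod_mul_distrib, ← prod_mul_distrib]
  refine prod_congr rfl fun v _ => ?_
  rw [FMul_flip (hE u) (hd v) (hcop u v), mul_pow, ← pow_mul, Nat.cast_pow,
    jacobiSym.pow_left, pow_add]
  ring

/-- the term of `d * E` as a function of `E` supported in an unlinked set -/
theorem F_expand {V : Type} [Fintype V] [DecidableEq V] (φ : V → V → ℕ) (e : V → Fin 4 → ℕ)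
    (hφ : ∀ v w, φ v w ≤ 1) (h0 : ∀ v, φ v v = 0) (U : Finset V) (hU : Unlinked φ U)
    (d : V → ℕ) (hd : Ok (∏ v, d v)) :
    ∃ H : (V → Fin 4 → ℤ) → ℝ, (∀ s, |H s| ≤ 1) ∧ ∀ E : V → ℕ, Ok (∏ v, d v * E v) →
      supp E ⊆ U → (F φ e (fun v => d v * E v) : ℝ) = H (fun v => sg (E v)) *
        ∏ u ∈ U, (jacobiSym ((∏ v, d v ^ (φ v u + φ u v) : ℕ) : ℤ) (E u) : ℝ) := by
  classical
  refine ⟨fun s => ((if ∀ v ∈ U, s v ∈ SV then F φ e d * FU φ e U s * FMul_sgn φ U d s
    else 0 : ℤ) : ℝ), ?_, ?_⟩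
  · intro s
    have h1 : |(if ∀ v ∈ U, s v ∈ SV then F φ e d * FU φ e U s * FMul_sgn φ U d s
        else 0 : ℤ)| ≤ 1 := by
      split_ifs with h
      · refine FMul_abs_mul (FMul_abs_mul (F_le φ e d) (FMul_FU_le φ e U s h)) ?_
        exact FMul_abs_prod _ _ fun u _ => FMul_neg_one_pow _
      · simp
    beta_reduce
    exact_mod_cast h1
  · intro E hE hs
    beta_reduce
    have hprod : ∏ v, d v * E v = (∏ v, d v) * ∏ v, E v := prod_mul_distrib
    have hE' : Ok (∏ v, E v) := by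
      have h1 : ∏ v, E v ∣ ∏ v, d v * E v := ⟨∏ v, d v, by rw [hprod, mul_comm]⟩
      exact ⟨hE.1.squarefree_of_dvd h1, Nat.Coprime.coprime_dvd_left h1 hE.2⟩
    have hodd : ∀ (n : ℕ), n.Coprime 30 → Odd n := by
      intro n h1
      have h2 : n.Coprime 2 := Nat.Coprime.coprime_dvd_right (by norm_num) h1
      exact Nat.coprime_two_right.mp h2
    have hcd : ∀ v, (d v).Coprime 30 := fun v =>
      Nat.Coprime.coprime_dvd_left (dvd_prod_of_mem d (mem_univ v)) hd.2
    have hcE : ∀ v, (E v).Coprime 30 := fun v =>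
      Nat.Coprime.coprime_dvd_left (dvd_prod_of_mem E (mem_univ v)) hE'.2
    have hd0 : ∀ v, d v ≠ 0 := fun v h => by
      have := hcd v
      rw [h] at this
      norm_num at this
    have hE0 : ∀ v, E v ≠ 0 := fun v h => by
      have := hcE v
      rw [h] at this
      norm_num at this
    have hout : ∀ v, v ∉ U → E v = 1 := by
      intro v hv
      by_contra hne
      exact hv (hs (mem_filter.mpr ⟨mem_univ v, hne⟩))
    have hcop : ∀ v w, Nat.Coprime (E v) (d w) := by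
      intro v w
      have h1 : E v * d w ∣ ∏ v, d v * E v := by
        by_cases hvw : v = w
        · subst hvw
          rw [mul_comm]
          exact dvd_prod_of_mem (fun v => d v * E v) (mem_univ v)
        · have h2 : ∏ x ∈ ({v, w} : Finset V), (d x * E x) ∣ ∏ x, (d x * E x) :=
            prod_dvd_prod_of_subset _ _ _ (subset_univ _)
          rw [prod_pair hvw] at h2
          exact (mul_dvd_mul (dvd_mul_left _ _) (dvd_mul_right _ _)).trans h2
      exact Nat.coprime_of_squarefree_mul (hE.1.squarefree_of_dvd h1)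
    have hSV : ∀ v ∈ U, sg (E v) ∈ SV := fun v _ => sg_mem _ (hcE v)
    rw [if_pos hSV, F_mul φ e d E hd0 hE0, F_eq_FU φ e hφ h0 U hU E hE' hs,
      FMul_third φ U d E (fun v => hodd _ (hcd v)) (fun v => hodd _ (hcE v)) hcop hout]
    push_cast
    ring

end PPA
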