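import Pool.Agent.Lib.MP_87c685_nt_PPA.Defs
import Pool.Agent.Lib.MP_87c685_nt_PPA.BLH
import Pool.Agent.Lib.MP_87c685_nt_PPA.FMul
import Pool.Agent.Lib.MP_87c685_nt_PPA.Sgn
import Pool.Agent.Lib.MP_87c685_nt_PPA.EIi

/-! Project PP15 (MP_87c685_nt), analytic block PPA, module EI. -/

open Finset Filter Topology

namespace PPA

/-- the mixed product of symbols of `D` and `E` -/
def EI_cr {V : Type} [Fintype V] (φ : V → V → ℕ) (D E : V → ℕ) : ℤ :=
  ∏ v, ∏ w, (jacobiSym (D v) (E w) * jacobiSym (E v) (D w)) ^ φ v w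

lemma EI_abs_jac (a : ℤ) (b : ℕ) : |jacobiSym a b| ≤ 1 := by
  rcases jacobiSym.trichotomy a b with h | h | h <;> rw [h] <;> norm_num

lemma EI_cr_le {V : Type} [Fintype V] (φ : V → V → ℕ) (D E : V → ℕ) : |EI_cr φ D E| ≤ 1 := by
  unfold EI_cr
  rw [Finset.abs_prod]
  refine Finset.prod_le_one (fun _ _ => abs_nonneg _) fun v _ => ?_
  rw [Finset.abs_prod]
  refine Finset.prod_le_one (fun _ _ => abs_nonneg _) fun w _ => ?_
  rw [abs_pow, abs_mul]
  exact pow_le_one₀ (by positivity) (mul_le_one₀ (EI_abs_jac _ _) (abs_nonneg _) (EI_abs_jac _ _))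

lemma EI_cr_mul {V : Type} [Fintype V] (φ : V → V → ℕ) (D E E' : V → ℕ) (hE : ∀ v, E v ≠ 0)
    (hE' : ∀ v, E' v ≠ 0) :
    EI_cr φ D (fun v => E v * E' v) = EI_cr φ D E * EI_cr φ D E' := by
  unfold EI_cr
  rw [← Finset.prod_mul_distrib]
  refine Finset.prod_congr rfl fun v _ => ?_
  rw [← Finset.prod_mul_distrib]
  refine Finset.prod_congr rfl fun w _ => ?_
  rw [jacobiSym.mul_right' _ (hE w) (hE' w), Nat.cast_mul, jacobiSym.mul_left, ← mul_pow]
  congr 1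
  ring

/-- `a` at `v`, `1` elsewhere -/
def EI_at {V : Type} [DecidableEq V] (v₀ : V) (a : ℕ) : V → ℕ := fun v => if v = v₀ then a else 1

lemma EI_at_ne {V : Type} [DecidableEq V] (v₀ : V) {a : ℕ} (ha : a ≠ 0) (v : V) :
    EI_at v₀ a v ≠ 0 := by
  unfold EI_at
  split_ifs
  · exact ha
  · exact one_ne_zero

lemma EI_at_same {V : Type} [DecidableEq V] (v₀ : V) (a : ℕ) : EI_at v₀ a v₀ = a := by
  unfold EI_at
  rw [if_pos rfl]

lemma EI_at_other {V : Type} [DecidableEq V] {v₀ v : V} (h : v ≠ v₀) (a : ℕ) :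
    EI_at v₀ a v = 1 := by
  unfold EI_at
  rw [if_neg h]

lemma EI_ins {V : Type} [DecidableEq V] {v₀ w₀ : V} (hne : v₀ ≠ w₀) (a b : ℕ) (y : V → ℕ) :
    ins v₀ w₀ a b y = fun v => y v * (EI_at v₀ a v * EI_at w₀ b v) := by
  funext v
  unfold ins EI_at
  by_cases h1 : v = v₀
  · have h2 : v ≠ w₀ := fun h => hne (h1.symm.trans h)
    rw [if_pos h1, if_pos h1, if_neg h2, mul_one]
  · rw [if_neg h1, if_neg h1]
    by_cases h2 : v = w₀
    · rw [if_pos h2, if_pos h2, one_mul]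
    · rw [if_neg h2, if_neg h2, mul_one, mul_one]

lemma EI_prod_at {V : Type} [Fintype V] [DecidableEq V] (v₀ : V) (a : ℕ) :
    ∏ v, EI_at v₀ a v = a := by
  unfold EI_at
  rw [Finset.prod_ite_eq' Finset.univ v₀ (fun _ => a), if_pos (Finset.mem_univ _)]

lemma EI_prod_ins {V : Type} [Fintype V] [DecidableEq V] {v₀ w₀ : V} (hne : v₀ ≠ w₀) (a b : ℕ)
    (y : V → ℕ) : ∏ v, ins v₀ w₀ a b y v = (∏ v, y v) * a * b := by
  rw [EI_ins hne, Finset.prod_mul_distrib, Finset.prod_mul_distrib, EI_prod_at, EI_prod_at,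
    mul_assoc]

lemma EI_supp {V : Type} [Fintype V] [DecidableEq V] {v₀ w₀ : V} {a b : ℕ}
    (ha : 1 < a) (hb : 1 < b) (y : V → ℕ) :
    supp (ins v₀ w₀ a b y) = insert v₀ (insert w₀ (supp y)) := by
  ext v
  unfold supp ins
  rw [Finset.mem_filter, Finset.mem_insert, Finset.mem_insert, Finset.mem_filter]
  by_cases h1 : v = v₀
  · rw [if_pos h1]
    refine ⟨fun _ => Or.inl h1, fun _ => ⟨Finset.mem_univ _, fun h => ?_⟩⟩
    exact ha.ne' (Nat.eq_one_of_mul_eq_one_left h)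
  · rw [if_neg h1]
    by_cases h2 : v = w₀
    · rw [if_pos h2]
      refine ⟨fun _ => Or.inr (Or.inl h2), fun _ => ⟨Finset.mem_univ _, fun h => ?_⟩⟩
      exact hb.ne' (Nat.eq_one_of_mul_eq_one_left h)
    · rw [if_neg h2]
      exact ⟨fun h => Or.inr (Or.inr h), fun h => (h.resolve_left h1).resolve_left h2⟩

/-- the mixed product of two one-point functions is one symbol -/
lemma EI_cr_at {V : Type} [Fintype V] [DecidableEq V] (φ : V → V → ℕ) {v₀ w₀ : V}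
    (hne : v₀ ≠ w₀) (h1 : φ v₀ w₀ = 1) (h2 : φ w₀ v₀ = 0) (a b : ℕ) :
    EI_cr φ (EI_at v₀ a) (EI_at w₀ b) = jacobiSym a b := by
  unfold EI_cr
  rw [Finset.prod_eq_single v₀]
  · rw [Finset.prod_eq_single w₀]
    · rw [EI_at_same, EI_at_same, EI_at_other hne, EI_at_other hne.symm, h1, pow_one,
        Nat.cast_one, jacobiSym.one_left, mul_one]
    · intro w _ hw
      rw [EI_at_other hw, EI_at_other hne, Nat.cast_one, jacobiSym.one_left,
        jacobiSym.one_right, one_mul, one_pow]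
    · intro h
      exact absurd (Finset.mem_univ _) h
  · intro v _ hv
    refine Finset.prod_eq_one fun w _ => ?_
    rw [EI_at_other hv, Nat.cast_one, jacobiSym.one_left, one_mul]
    by_cases hvw : v = w₀
    · by_cases hwv : w = v₀
      · rw [hvw, hwv, h2, pow_zero]
      · rw [EI_at_other hwv, jacobiSym.one_right, one_pow]
    · rw [EI_at_other hvw, Nat.cast_one, jacobiSym.one_left, one_pow]
  · intro h
    exact absurd (Finset.mem_univ _) h

lemma EI_F {V : Type} [Fintype V] [DecidableEq V] (φ : V → V → ℕ) (e : V → Fin 4 → ℕ)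
    {v₀ w₀ : V} (hne : v₀ ≠ w₀) (h1 : φ v₀ w₀ = 1) (h2 : φ w₀ v₀ = 0) {a b : ℕ} (ha : a ≠ 0)
    (hb : b ≠ 0) (y : V → ℕ) (hy : ∀ v, y v ≠ 0) :
    F φ e (ins v₀ w₀ a b y) = F φ e y * (F φ e (EI_at v₀ a) * EI_cr φ y (EI_at v₀ a)) *
      (F φ e (EI_at w₀ b) * EI_cr φ y (EI_at w₀ b)) * jacobiSym a b := by
  have ha' := EI_at_ne v₀ ha
  have hb' := EI_at_ne w₀ hb
  rw [EI_ins hne, F_mul φ e y (fun v => EI_at v₀ a v * EI_at w₀ b v) hy
    (fun v => mul_ne_zero (ha' v) (hb' v)), F_mul φ e _ _ ha' hb']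
  have h3 := EI_cr_mul φ y _ _ ha' hb'
  have h4 := EI_cr_at φ hne h1 h2 a b
  unfold EI_cr at h3 h4 ⊢
  rw [h3, h4]
  ring

lemma EI_wt_mul (N : ℕ) {a b : ℕ} (h : a.Coprime b) : wt N (a * b) = wt N a * wt N b := by
  unfold wt
  rw [h.primeFactors_mul, Finset.card_union_of_disjoint h.disjoint_primeFactors, pow_add,
    one_div_mul_one_div]

lemma EI_wt_le (N : ℕ) (hN : 0 < N) (a : ℕ) : |wt N a| ≤ 1 := by
  unfold wt
  have h1 : (1 : ℝ) ≤ (N : ℝ) ^ a.primeFactors.card := one_le_pow₀ (by exact_mod_cast hN)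
  rw [abs_of_nonneg (by positivity)]
  exact div_le_one_of_le₀ h1 (by positivity)

/-- the conditions on one large variable -/
def EI_P (z m a : ℕ) : Prop :=
  1 < a ∧ Rough z a ∧ Squarefree a ∧ a.Coprime 30 ∧ a.Coprime m

open Classical in
/-- the coefficients -/
noncomputable def EI_co {V : Type} [Fintype V] [DecidableEq V] (φ : V → V → ℕ)
    (e : V → Fin 4 → ℕ) (N z : ℕ) (y : V → ℕ) (v₀ : V) (r : Fin 4 → ℤ) (a : ℕ) : ℝ :=
  if EI_P z (∏ v, y v) a ∧ sg a = r then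
    (F φ e (EI_at v₀ a) : ℝ) * (EI_cr φ y (EI_at v₀ a) : ℝ) * wt N a else 0

lemma EI_co_le {V : Type} [Fintype V] [DecidableEq V] (φ : V → V → ℕ)
    (e : V → Fin 4 → ℕ) (N z : ℕ) (hN : 0 < N) (y : V → ℕ) (v₀ : V) (r : Fin 4 → ℤ) (a : ℕ) :
    |EI_co φ e N z y v₀ r a| ≤ 1 := by
  unfold EI_co
  split_ifs
  · rw [abs_mul, abs_mul]
    have h1 : |(F φ e (EI_at v₀ a) : ℝ)| ≤ 1 := by exact_mod_cast F_le φ e (EI_at v₀ a)
    have h2 : |(EI_cr φ y (EI_at v₀ a) : ℝ)| ≤ 1 := by exact_mod_cast EI_cr_le φ y (EI_at v₀ a)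
    exact mul_le_one₀ (mul_le_one₀ h1 (abs_nonneg _) h2) (abs_nonneg _) (EI_wt_le N hN a)
  · rw [abs_zero]
    exact zero_le_one

lemma EI_co_ne {V : Type} [Fintype V] [DecidableEq V] (φ : V → V → ℕ)
    (e : V → Fin 4 → ℕ) (N z : ℕ) (y : V → ℕ) (v₀ : V) (r : Fin 4 → ℤ) (a : ℕ)
    (h : EI_co φ e N z y v₀ r a ≠ 0) : Squarefree a ∧ Odd a ∧ z < a := by
  unfold EI_co at h
  split_ifs at h with h1
  · obtain ⟨⟨h2, h3, h4, h5, h6⟩, h7⟩ := h1
    refine ⟨h4, ?_, ?_⟩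
    · rw [← Nat.not_even_iff_odd, even_iff_two_dvd]
      intro h8
      have h9 : 2 ∣ Nat.gcd a 30 := Nat.dvd_gcd h8 (by norm_num)
      rw [h5] at h9
      omega
    · obtain ⟨p, hp, hpa⟩ := Nat.exists_prime_and_dvd h2.ne'
      exact (h3 p hp hpa).trans_le (Nat.le_of_dvd (by omega) hpa)
  · exact absurd rfl h

lemma EI_Ok {z m a b : ℕ} (hm : Ok m) (ha : EI_P z m a) (hb : EI_P z m b) (hab : a.Coprime b) :
    Ok (m * a * b) := by
  obtain ⟨a1, a2, a3, a4, a5⟩ := ha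
  obtain ⟨b1, b2, b3, b4, b5⟩ := hb
  refine ⟨?_, ?_⟩
  · rw [Nat.squarefree_mul_iff, Nat.squarefree_mul_iff]
    exact ⟨Nat.Coprime.mul_left b5.symm hab, ⟨a5.symm, hm.1, a3⟩, b3⟩
  · exact Nat.Coprime.mul_left (Nat.Coprime.mul_left hm.2 a4) b4

lemma EI_of_Ok {z m a b : ℕ} (h : Ok (m * a * b)) (ha : 1 < a) (hra : Rough z a) (hb : 1 < b)
    (hrb : Rough z b) : EI_P z m a ∧ EI_P z m b ∧ a.Coprime b := by
  obtain ⟨h1, h2⟩ := h
  rw [Nat.squarefree_mul_iff, Nat.squarefree_mul_iff] at h1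
  obtain ⟨h3, ⟨h4, h5, h6⟩, h7⟩ := h1
  rw [Nat.coprime_mul_iff_left, Nat.coprime_mul_iff_left] at h2
  rw [Nat.coprime_mul_iff_left] at h3
  exact ⟨⟨ha, hra, h6, h2.1.2, h4.symm⟩, ⟨hb, hrb, h7, h2.2, h3.1.symm⟩, h3.2⟩

lemma EI_SV_sq {s : Fin 4 → ℤ} (hs : s ∈ SV) : s * s = 1 := by
  unfold SV at hs
  rw [Fintype.mem_piFinset] at hs
  funext i
  have h := hs i
  rw [Finset.mem_insert, Finset.mem_singleton] at h
  rw [Pi.mul_apply, Pi.one_apply]
  rcases h with h | h <;> rw [h] <;> norm_num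

lemma EI_SV_card : SV.card = 16 := by
  unfold SV
  rw [Fintype.card_piFinset]
  simp

/-- the sign condition -/
lemma EI_sg {m a b : ℕ} {c : Fin 4 → ℤ} (hm : Ok m) (ha : Ok a) (hb : Ok b) :
    sg (m * a * b) = c ↔ sg b = c * sg m * sg a := by
  have hm0 : m ≠ 0 := hm.1.ne_zero
  have ha0 : a ≠ 0 := ha.1.ne_zero
  have hb0 : b ≠ 0 := hb.1.ne_zero
  rw [sg_mul _ _ (mul_ne_zero hm0 ha0) hb0, sg_mul _ _ hm0 ha0]
  have h1 := EI_SV_sq (sg_mem m hm.2)
  have h2 := EI_SV_sq (sg_mem a ha.2)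
  constructor
  · intro h
    rw [← h]
    have h3 : sg m * sg a * sg b * sg m * sg a = (sg m * sg m) * (sg a * sg a) * sg b := by ring
    rw [h3, h1, h2, one_mul, one_mul]
  · intro h
    rw [h]
    have h3 : sg m * sg a * (c * sg m * sg a) = (sg m * sg m) * (sg a * sg a) * c := by ring
    rw [h3, h1, h2, one_mul, one_mul]

open Classical in
/-- one term as a sum of products -/
lemma EI_term {V : Type} [Fintype V] [DecidableEq V] (φ : V → V → ℕ) (e : V → Fin 4 → ℕ)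
    (N : ℕ) (R : Finset V → Prop) (c : Fin 4 → ℤ) {v₀ w₀ : V} (hne : v₀ ≠ w₀)
    (h1 : φ v₀ w₀ = 1) (h2 : φ w₀ v₀ = 0) (z : ℕ) (y : V → ℕ) (hy : Ok (∏ v, y v)) {a b : ℕ}
    (ha : a ≠ 0) (hb : b ≠ 0) :
    (if 1 < a ∧ Rough z a ∧ 1 < b ∧ Rough z b ∧ Ok ((∏ v, y v) * a * b) ∧
          sg ((∏ v, y v) * a * b) = c then G φ e N R (ins v₀ w₀ a b y) else 0) =
      G φ e N (fun T => R (insert v₀ (insert w₀ T))) y * ∑ r ∈ SV, EI_co φ e N z y v₀ r a *
        EI_co φ e N z y w₀ (c * sg (∏ v, y v) * r) b * (jacobiSym a b : ℝ) := by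
  set m := ∏ v, y v with hm
  have hyv : ∀ v, y v ≠ 0 := by
    intro v h
    apply hy.1.ne_zero
    exact Finset.prod_eq_zero (Finset.mem_univ v) h
  by_cases hP : EI_P z m a ∧ EI_P z m b ∧ a.Coprime b
  · obtain ⟨hPa, hPb, hab⟩ := hP
    have hOk : Ok (m * a * b) := EI_Ok hy hPa hPb hab
    have hOa : Ok a := ⟨hPa.2.2.1, hPa.2.2.2.1⟩
    have hOb : Ok b := ⟨hPb.2.2.1, hPb.2.2.2.1⟩
    have hsg := EI_sg (c := c) hy hOa hOb
    rw [Finset.sum_eq_single (sg a)]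
    · by_cases hc : sg (m * a * b) = c
      · have hc2 := hsg.1 hc
        rw [if_pos ⟨hPa.1, hPa.2.1, hPb.1, hPb.2.1, hOk, hc⟩]
        unfold EI_co
        rw [if_pos ⟨hPa, rfl⟩, if_pos ⟨hPb, hc2⟩]
        unfold G
        rw [EI_supp hPa.1 hPb.1, EI_prod_ins hne, ← hm]
        by_cases hR : R (insert v₀ (insert w₀ (supp y)))
        · rw [if_pos hR, if_pos hR, EI_F φ e hne h1 h2 ha hb y hyv,
            EI_wt_mul N (Nat.Coprime.mul_left hPb.2.2.2.2.symm hab),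
            EI_wt_mul N hPa.2.2.2.2.symm]
          push_cast
          ring
        · rw [if_neg hR, if_neg hR, zero_mul]
      · rw [if_neg (fun h => hc h.2.2.2.2.2)]
        have : EI_co φ e N z y w₀ (c * sg m * sg a) b = 0 := by
          unfold EI_co
          rw [if_neg]
          intro h
          exact hc (hsg.2 h.2)
        rw [this, mul_zero, zero_mul, mul_zero]
    · intro r _ hr
      have : EI_co φ e N z y v₀ r a = 0 := by
        unfold EI_co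
        rw [if_neg]
        intro h
        exact hr h.2.symm
      rw [this, zero_mul, zero_mul]
    · intro h
      exact absurd (sg_mem a hPa.2.2.2.1) h
  · rw [if_neg]
    · symm
      apply mul_eq_zero_of_right
      refine Finset.sum_eq_zero fun r _ => ?_
      by_cases hPa : EI_P z m a
      · by_cases hPb : EI_P z m b
        · have hab : ¬ a.Coprime b := fun h => hP ⟨hPa, hPb, h⟩
          have hJ : jacobiSym (a : ℤ) b = 0 := by
            have : NeZero b := ⟨hb⟩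
            rw [jacobiSym.eq_zero_iff_not_coprime]
            exact hab
          rw [hJ, Int.cast_zero, mul_zero]
        · have : EI_co φ e N z y w₀ (c * sg m * r) b = 0 := by
            unfold EI_co
            rw [if_neg]
            intro h
            exact hPb h.1
          rw [this, mul_zero, zero_mul]
      · have : EI_co φ e N z y v₀ r a = 0 := by
          unfold EI_co
          rw [if_neg]
          intro h
          exact hPa h.1
        rw [this, zero_mul, zero_mul]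
    · rintro ⟨g1, g2, g3, g4, g5, _⟩
      exact hP (EI_of_Ok g5 g1 g2 g3 g4)

open Classical in
lemma EI_abs_G {V : Type} [Fintype V] [DecidableEq V] (φ : V → V → ℕ) (e : V → Fin 4 → ℕ)
    (N : ℕ) (hN : 0 < N) (R : Finset V → Prop) (D : V → ℕ) : |G φ e N R D| ≤ 1 := by
  unfold G
  split_ifs
  · rw [abs_mul]
    have h1 : |(F φ e D : ℝ)| ≤ 1 := by exact_mod_cast F_le φ e D
    exact mul_le_one₀ h1 (abs_nonneg _) (EI_wt_le N hN _)
  · rw [abs_zero]
    exact zero_le_one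

/-- the sum of the reciprocals of the products -/
lemma EI_recip {V : Type} [Fintype V] [DecidableEq V] (x : ℕ) (Y : Finset (V → ℕ))
    (hY : ∀ y ∈ Y, ∀ v, 1 ≤ y v ∧ y v ≤ x) :
    ∑ y ∈ Y, 1 / ((∏ v, y v : ℕ) : ℝ) ≤ (1 + Real.log x) ^ Fintype.card V := by
  have h1 : Y ⊆ Fintype.piFinset fun _ : V => Icc 1 x := by
    intro y hy
    rw [Fintype.mem_piFinset]
    intro v
    rw [Finset.mem_Icc]
    exact hY y hy v
  refine (Finset.sum_le_sum_of_subset_of_nonneg h1 fun y _ _ => by positivity).trans ?_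
  have h2 : ∑ y ∈ Fintype.piFinset fun _ : V => Icc 1 x, 1 / ((∏ v, y v : ℕ) : ℝ) =
      ∏ _v : V, ∑ t ∈ Icc 1 x, 1 / (t : ℝ) := by
    rw [Finset.prod_univ_sum]
    refine Finset.sum_congr rfl fun y _ => ?_
    rw [Nat.cast_prod, one_div, ← Finset.prod_inv_distrib]
    exact Finset.prod_congr rfl fun v _ => (one_div _).symm
  rw [h2, Finset.prod_const, Finset.card_univ]
  refine pow_le_pow_left₀ (Finset.sum_nonneg fun t _ => by positivity) ?_ _
  have h3 := harmonic_le_one_add_log x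
  rw [harmonic_eq_sum_Icc] at h3
  push_cast at h3
  simpa using h3

open Classical in
/-- both members of a linked pair have large prime factors -/
theorem e1 {V : Type} [Fintype V] [DecidableEq V] (φ : V → V → ℕ) (e : V → Fin 4 → ℕ)
    (hφ : ∀ v w, φ v w ≤ 1) (h0 : ∀ v, φ v v = 0) (N : ℕ) (hN : 0 < N) (R : Finset V → Prop)
    (c : Fin 4 → ℤ) (hc : c ∈ SV) (S : Finset V) (v₀ w₀ : V) (hv : v₀ ∈ S) (hw : w₀ ∈ S)
    (h1 : φ v₀ w₀ = 1) (h2 : φ w₀ v₀ = 0) :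
    ∃ C : ℝ, 0 < C ∧ ∃ K : ℕ, ∀ z x : ℕ, 3 ≤ x → 1 ≤ z →
    |∑ D ∈ (Dx V c x).filter (fun D => rs z D = S), G φ e N R D| ≤
      C * x * (z : ℝ) ^ (-(1 / 12) : ℝ) * (1 + Real.log x) ^ K := by
  obtain ⟨C, hC, hblh⟩ := blh
  have hne : v₀ ≠ w₀ := by
    rintro rfl
    rw [h0] at h1
    exact absurd h1 (by norm_num)
  refine ⟨16 * C, by positivity, 6 + Fintype.card V, ?_⟩
  intro z x hx hz
  rw [e1_index c S v₀ w₀ hne hv hw z x]
  have hlogx : 0 ≤ Real.log x := Real.log_natCast_nonneg x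
  have hzp : 0 ≤ (z : ℝ) ^ (-(1 / 12) : ℝ) := Real.rpow_nonneg (Nat.cast_nonneg z) _
  refine (Finset.abs_sum_le_sum_abs _ _).trans ?_
  have hYY : ∀ y ∈ YY S v₀ w₀ z x, Ok (∏ v, y v) ∧ ∏ v, y v ≤ x := by
    intro y hy
    unfold YY at hy
    rw [Finset.mem_filter] at hy
    exact ⟨hy.2.1, hy.2.2.1⟩
  have hmain : ∀ y ∈ YY S v₀ w₀ z x,
      |∑ a ∈ Icc 1 (x / ∏ v, y v), ∑ b ∈ Icc 1 (x / (∏ v, y v) / a),
        (if 1 < a ∧ Rough z a ∧ 1 < b ∧ Rough z b ∧ Ok ((∏ v, y v) * a * b) ∧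
          sg ((∏ v, y v) * a * b) = c then G φ e N R (ins v₀ w₀ a b y) else 0)| ≤
        (16 * C * x * (z : ℝ) ^ (-(1 / 12) : ℝ) * (1 + Real.log x) ^ 6) *
          (1 / ((∏ v, y v : ℕ) : ℝ)) := by
    intro y hy
    obtain ⟨hOk, hle⟩ := hYY y hy
    have hm1 : 1 ≤ ∏ v, y v := Nat.one_le_iff_ne_zero.2 hOk.1.ne_zero
    have hX1 : 1 ≤ x / ∏ v, y v := (Nat.one_le_div_iff hm1).2 hle
    have hXle : ((x / ∏ v, y v : ℕ) : ℝ) ≤ (x : ℝ) / ((∏ v, y v : ℕ) : ℝ) := Nat.cast_div_le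
    have hXlex : x / (∏ v, y v) ≤ x := Nat.div_le_self _ _
    have hlogX : Real.log ((x / ∏ v, y v : ℕ) : ℝ) ≤ Real.log x :=
      Real.log_le_log (by exact_mod_cast hX1) (by exact_mod_cast hXlex)
    have hlogX0 : 0 ≤ Real.log ((x / ∏ v, y v : ℕ) : ℝ) := Real.log_natCast_nonneg _
    set m := ∏ v, y v with hm
    set X := x / m with hX
    set K := G φ e N (fun T => R (insert v₀ (insert w₀ T))) y with hK
    have hK1 : |K| ≤ 1 := EI_abs_G φ e N hN _ y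
    have h3 : ∑ a ∈ Icc 1 X, ∑ b ∈ Icc 1 (X / a),
        (if 1 < a ∧ Rough z a ∧ 1 < b ∧ Rough z b ∧ Ok (m * a * b) ∧
          sg (m * a * b) = c then G φ e N R (ins v₀ w₀ a b y) else 0) =
        K * ∑ r ∈ SV, ∑ a ∈ Icc 1 X, ∑ b ∈ Icc 1 (X / a), EI_co φ e N z y v₀ r a *
          EI_co φ e N z y w₀ (c * sg m * r) b * (jacobiSym a b : ℝ) := by
      rw [Finset.sum_comm (s := SV), Finset.mul_sum]
      refine Finset.sum_congr rfl fun a ha => ?_
      rw [Finset.sum_comm (s := SV), Finset.mul_sum]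
      refine Finset.sum_congr rfl fun b hb => ?_
      rw [Finset.mem_Icc] at ha hb
      exact EI_term φ e N R c hne h1 h2 z y hOk (by omega) (by omega)
    rw [h3, abs_mul]
    have h4 : |∑ r ∈ SV, ∑ a ∈ Icc 1 X, ∑ b ∈ Icc 1 (X / a), EI_co φ e N z y v₀ r a *
          EI_co φ e N z y w₀ (c * sg m * r) b * (jacobiSym a b : ℝ)| ≤
        16 * (C * X * (z : ℝ) ^ (-(1 / 12) : ℝ) * (1 + Real.log X) ^ 6) := by
      refine (Finset.abs_sum_le_sum_abs _ _).trans ?_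
      have h5 : ∀ r ∈ SV, |∑ a ∈ Icc 1 X, ∑ b ∈ Icc 1 (X / a), EI_co φ e N z y v₀ r a *
          EI_co φ e N z y w₀ (c * sg m * r) b * (jacobiSym a b : ℝ)| ≤
          C * X * (z : ℝ) ^ (-(1 / 12) : ℝ) * (1 + Real.log X) ^ 6 := by
        intro r _
        exact hblh z X hz hX1 _ _ (fun a => EI_co_le φ e N z hN y v₀ r a)
          (fun b => EI_co_le φ e N z hN y w₀ _ b) (fun a => EI_co_ne φ e N z y v₀ r a)
          (fun b => EI_co_ne φ e N z y w₀ _ b)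
      refine (Finset.sum_le_sum h5).trans ?_
      rw [Finset.sum_const, EI_SV_card, nsmul_eq_mul]
      norm_num
    have h6 : C * X * (z : ℝ) ^ (-(1 / 12) : ℝ) * (1 + Real.log X) ^ 6 ≤
        C * (x / (m : ℝ)) * (z : ℝ) ^ (-(1 / 12) : ℝ) * (1 + Real.log x) ^ 6 := by
      gcongr
    calc |K| * _ ≤ 1 * (16 * (C * X * (z : ℝ) ^ (-(1 / 12) : ℝ) * (1 + Real.log X) ^ 6)) :=
          mul_le_mul hK1 h4 (abs_nonneg _) zero_le_one
      _ ≤ 1 * (16 * (C * (x / (m : ℝ)) * (z : ℝ) ^ (-(1 / 12) : ℝ) * (1 + Real.log x) ^ 6)) := by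
          linarith
      _ = _ := by ring
  refine (Finset.sum_le_sum hmain).trans ?_
  rw [← Finset.mul_sum]
  have hrec : ∑ y ∈ YY S v₀ w₀ z x, 1 / ((∏ v, y v : ℕ) : ℝ) ≤
      (1 + Real.log x) ^ Fintype.card V := by
    apply EI_recip
    intro y hy v
    obtain ⟨hOk, hle⟩ := hYY y hy
    have hne0 : ∀ w, y w ≠ 0 := by
      intro w h
      apply hOk.1.ne_zero
      exact Finset.prod_eq_zero (Finset.mem_univ w) h
    refine ⟨Nat.one_le_iff_ne_zero.2 (hne0 v), ?_⟩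
    exact (Nat.le_of_dvd (Nat.pos_of_ne_zero hOk.1.ne_zero)
      (Finset.dvd_prod_of_mem _ (Finset.mem_univ v))).trans hle
  calc _ ≤ (16 * C * x * (z : ℝ) ^ (-(1 / 12) : ℝ) * (1 + Real.log x) ^ 6) *
        (1 + Real.log x) ^ Fintype.card V := by
        refine mul_le_mul_of_nonneg_left hrec ?_
        have : 0 ≤ 1 + Real.log x := by linarith
        positivity
    _ = _ := by rw [pow_add]; ring

end PPA
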