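import Pool.Agent.Lib.MP_87c685_nt_PPA.Defs

/-! Project PP15 (MP_87c685_nt), analytic block PPA, module Lab. -/

open Finset Filter Topology

namespace PPA

/-- the product over all labels of the parts of a labelling -/
theorem Lab_prod {V : Type} [Fintype V] [DecidableEq V] (n : ℕ) (hn : Squarefree n)
    (α : n.primeFactors → V) :
    ∏ v, ∏ p ∈ (univ : Finset n.primeFactors).filter (fun p => α p = v), (p : ℕ) = n := by
  rw [Finset.prod_fiberwise (univ : Finset n.primeFactors) α (fun p => (p : ℕ))]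
  rw [Finset.prod_coe_sort n.primeFactors (fun p => p)]
  exact Nat.prod_primeFactors_of_squarefree hn

/-- the primes dividing the parts of a labelling -/
theorem Lab_dvd {V : Type} [DecidableEq V] (n : ℕ)
    (α : n.primeFactors → V) (v : V) (q : ℕ) (hq : q.Prime) :
    q ∣ ∏ p ∈ (univ : Finset n.primeFactors).filter (fun p => α p = v), (p : ℕ) ↔
      ∃ h : q ∈ n.primeFactors, α ⟨q, h⟩ = v := by
  rw [hq.prime.dvd_finsetProd_iff]
  constructor
  · rintro ⟨p, hp, hqp⟩
    have hpp : (p : ℕ).Prime := Nat.prime_of_mem_primeFactors p.2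
    have he : q = (p : ℕ) := (Nat.prime_dvd_prime_iff_eq hq hpp).1 hqp
    subst he
    refine ⟨p.2, ?_⟩
    simpa using hp
  · rintro ⟨h, hv⟩
    exact ⟨⟨q, h⟩, by simpa using hv, dvd_rfl⟩

/-- factorisations of a squarefree number are labellings of its prime factors -/
theorem sum_DD {V : Type} [Fintype V] [DecidableEq V] (n : ℕ) (hn : Squarefree n)
    (g : (V → ℕ) → ℝ) :
    ∑ D ∈ DD V n, g D = ∑ α : n.primeFactors → V,
      g (fun v => ∏ p ∈ (univ : Finset n.primeFactors).filter (fun p => α p = v), (p : ℕ)) := by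
  have hn0 : n ≠ 0 := hn.ne_zero
  symm
  refine Finset.sum_bij (fun α _ => fun v =>
    ∏ p ∈ (univ : Finset n.primeFactors).filter (fun p => α p = v), (p : ℕ)) ?_ ?_ ?_ ?_
  · intro α _
    unfold DD
    rw [Finset.mem_filter, Fintype.mem_piFinset]
    refine ⟨fun v => ?_, Lab_prod n hn α⟩
    rw [Nat.mem_divisors]
    refine ⟨?_, hn0⟩
    have h := Finset.dvd_prod_of_mem (fun v => ∏ p ∈ (univ : Finset n.primeFactors).filter
      (fun p => α p = v), (p : ℕ)) (Finset.mem_univ v)
    rw [Lab_prod n hn α] at h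
    exact h
  · intro α _ β _ hαβ
    funext p
    have hpp : (p : ℕ).Prime := Nat.prime_of_mem_primeFactors p.2
    have h1 : (p : ℕ) ∣ ∏ q ∈ (univ : Finset n.primeFactors).filter (fun q => α q = α p), (q : ℕ) :=
      (Lab_dvd n α (α p) p hpp).2 ⟨p.2, rfl⟩
    have h2 := congrFun hαβ (α p)
    rw [h2] at h1
    obtain ⟨_, h3⟩ := (Lab_dvd n β (α p) p hpp).1 h1
    exact h3.symm
  · intro D hD
    unfold DD at hD
    rw [Finset.mem_filter, Fintype.mem_piFinset] at hD
    obtain ⟨hD1, hD2⟩ := hD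
    have hex : ∀ p : n.primeFactors, ∃ v, (p : ℕ) ∣ D v := by
      intro p
      have hpp : (p : ℕ).Prime := Nat.prime_of_mem_primeFactors p.2
      have hpn : (p : ℕ) ∣ ∏ v, D v := by
        rw [hD2]
        exact Nat.dvd_of_mem_primeFactors p.2
      obtain ⟨v, _, hv⟩ := (hpp.prime.dvd_finsetProd_iff D).1 hpn
      exact ⟨v, hv⟩
    choose α hα using hex
    have huniq : ∀ (q : ℕ) (hq : q.Prime) (v w : V), q ∣ D v → q ∣ D w → v = w := by
      intro q hq v w hv hw
      by_contra hne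
      have h1 : D v * D w ∣ ∏ u, D u := by
        have h2 := Finset.mul_prod_erase univ D (Finset.mem_univ v)
        rw [← h2]
        refine Nat.mul_dvd_mul_left _ ?_
        exact Finset.dvd_prod_of_mem D (Finset.mem_erase.2 ⟨fun h => hne h.symm, Finset.mem_univ w⟩)
      rw [hD2] at h1
      have h3 : q * q ∣ n := (Nat.mul_dvd_mul hv hw).trans h1
      exact hq.one_lt.ne' (Nat.isUnit_iff.1 (hn q h3))
    refine ⟨α, Finset.mem_univ _, ?_⟩
    funext v
    have hDv : D v ∣ n := Nat.dvd_of_mem_divisors (hD1 v)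
    have hsq : Squarefree (D v) := hn.squarefree_of_dvd hDv
    have hsq2 : Squarefree (∏ p ∈ (univ : Finset n.primeFactors).filter (fun p => α p = v),
        (p : ℕ)) := by
      refine hn.squarefree_of_dvd ?_
      have h := Finset.dvd_prod_of_mem (fun v => ∏ p ∈ (univ : Finset n.primeFactors).filter
        (fun p => α p = v), (p : ℕ)) (Finset.mem_univ v)
      rw [Lab_prod n hn α] at h
      exact h
    rw [← Nat.prod_primeFactors_of_squarefree hsq, ← Nat.prod_primeFactors_of_squarefree hsq2]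
    congr 1
    ext q
    rw [Nat.mem_primeFactors, Nat.mem_primeFactors]
    constructor
    · rintro ⟨hq, hqd, _⟩
      obtain ⟨h, hv⟩ := (Lab_dvd n α v q hq).1 hqd
      have := hα ⟨q, h⟩
      rw [hv] at this
      exact ⟨hq, this, hsq.ne_zero⟩
    · rintro ⟨hq, hqd, _⟩
      have hmem : q ∈ n.primeFactors := Nat.mem_primeFactors.2 ⟨hq, hqd.trans hDv, hn0⟩
      refine ⟨hq, (Lab_dvd n α v q hq).2 ⟨hmem, ?_⟩, hsq2.ne_zero⟩
      exact huniq q hq _ _ (hα ⟨q, hmem⟩) hqd
  · intro α _
    rfl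

/-- a multiplicative function at a product of distinct primes -/
theorem Lab_mul (n : ℕ) (f : ℕ → ℝ) (h1 : f 1 = 1)
    (hm : ∀ a b, Nat.Coprime a b → f (a * b) = f a * f b) (s : Finset n.primeFactors) :
    f (∏ p ∈ s, (p : ℕ)) = ∏ p ∈ s, f (p : ℕ) := by
  classical
  induction s using Finset.induction_on with
  | empty => simp [h1]
  | insert a s ha ih =>
    rw [Finset.prod_insert ha, Finset.prod_insert ha, hm, ih]
    refine Nat.Coprime.prod_right ?_
    intro p hp
    have hap : (a : ℕ).Prime := Nat.prime_of_mem_primeFactors a.2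
    have hpp : (p : ℕ).Prime := Nat.prime_of_mem_primeFactors p.2
    refine (Nat.coprime_primes hap hpp).2 ?_
    intro h
    exact ha ((Subtype.ext h : a = p) ▸ hp)

/-- convolution of multiplicative functions -/
theorem sum_DD_mul {V : Type} [Fintype V] [DecidableEq V] (n : ℕ) (hn : Squarefree n)
    (f : V → ℕ → ℝ) (h1 : ∀ v, f v 1 = 1)
    (hm : ∀ v a b, Nat.Coprime a b → f v (a * b) = f v a * f v b) :
    ∑ D ∈ DD V n, ∏ v, f v (D v) = ∏ p ∈ n.primeFactors, ∑ v, f v p := by
  rw [sum_DD n hn (fun D => ∏ v, f v (D v))]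
  have hA : ∀ α : n.primeFactors → V,
      ∏ v, f v (∏ p ∈ (univ : Finset n.primeFactors).filter (fun p => α p = v), (p : ℕ))
        = ∏ p : n.primeFactors, f (α p) (p : ℕ) := by
    intro α
    rw [← Finset.prod_fiberwise (univ : Finset n.primeFactors) α (fun p => f (α p) (p : ℕ))]
    refine Finset.prod_congr rfl ?_
    intro v _
    rw [Lab_mul n (f v) (h1 v) (hm v)]
    refine Finset.prod_congr rfl ?_
    intro p hp
    rw [(Finset.mem_filter.1 hp).2]
  rw [Finset.sum_congr rfl (fun α _ => hA α)]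
  rw [← Finset.prod_coe_sort n.primeFactors (fun p => ∑ v, f v p)]
  rw [Finset.prod_univ_sum, Fintype.piFinset_univ]

/-- summation over `n` and over the factorisations of `n` -/
theorem sum_Dall {V : Type} [Fintype V] [DecidableEq V] (x : ℕ)
    (g : (V → ℕ) → ℝ) :
    ∑ D ∈ Dall V x, g D = ∑ n ∈ (range (x + 1)).filter Ok, ∑ D ∈ DD V n, g D := by
  classical
  have hmaps : ∀ D ∈ Dall V x, (∏ v, D v) ∈ (range (x + 1)).filter Ok := by
    intro D hD
    unfold Dall at hD
    rw [Finset.mem_filter] at hD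
    obtain ⟨_, h2, h3⟩ := hD
    rw [Finset.mem_filter, Finset.mem_range]
    exact ⟨Nat.lt_succ_of_le h3, h2⟩
  rw [← Finset.sum_fiberwise_of_maps_to hmaps g]
  refine Finset.sum_congr rfl ?_
  intro n hn
  rw [Finset.mem_filter, Finset.mem_range] at hn
  obtain ⟨hnx, hok⟩ := hn
  have hn0 : n ≠ 0 := hok.1.ne_zero
  refine Finset.sum_congr ?_ (fun _ _ => rfl)
  ext D
  unfold Dall DD
  simp only [Finset.mem_filter, Fintype.mem_piFinset, Finset.mem_range, Nat.mem_divisors]
  constructor
  · rintro ⟨⟨_, _, _⟩, hprod⟩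
    refine ⟨fun v => ⟨?_, hn0⟩, hprod⟩
    rw [← hprod]
    exact Finset.dvd_prod_of_mem D (Finset.mem_univ v)
  · rintro ⟨h1, hprod⟩
    refine ⟨⟨fun v => ?_, ?_, ?_⟩, hprod⟩
    · have := Nat.le_of_dvd (Nat.pos_of_ne_zero hn0) (h1 v).1
      omega
    · rw [hprod]
      exact hok
    · rw [hprod]
      omega

end PPA
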