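import Pool.Agent.Lib.MP_87c685_nt_PPA.Defs

/-! Project PP15 (MP_87c685_nt), analytic block PPA, module PSum. -/

open Finset Filter Topology

namespace PPA

/-- one step of the telescoping bound -/
theorem PSum_step {δ : ℝ} (hδ : 0 < δ) {n : ℕ} (hn : 2 ≤ n) :
    δ * (n : ℝ) ^ (-(1 + δ)) ≤ ((n : ℝ) - 1) ^ (-δ) - (n : ℝ) ^ (-δ) := by
  have h2 : (2 : ℝ) ≤ n := by exact_mod_cast hn
  have h0 : (0 : ℝ) < n := by linarith
  have h1 : (0 : ℝ) < 1 - 1 / (n : ℝ) := by
    rw [sub_pos, div_lt_one h0]; linarith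
  have e1 : (n : ℝ) - 1 = n * (1 - 1 / n) := by field_simp
  have e2 : (n : ℝ) ^ (-(1 + δ)) = (n : ℝ) ^ (-δ) * (1 / n) := by
    rw [show -(1 + δ) = -δ + (-1) by ring, Real.rpow_add h0, Real.rpow_neg_one, one_div]
  have hlog : Real.log (1 - 1 / (n : ℝ)) ≤ -(1 / n) := by
    have := Real.log_le_sub_one_of_pos h1
    linarith
  have e3 : 1 + δ * (1 / n) ≤ (1 - 1 / (n : ℝ)) ^ (-δ) := by
    rw [Real.rpow_def_of_pos h1]
    have h3 := Real.add_one_le_exp (Real.log (1 - 1 / (n : ℝ)) * -δ)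
    have h4 : δ * (1 / n) ≤ Real.log (1 - 1 / (n : ℝ)) * -δ := by
      nlinarith
    linarith
  rw [e1, Real.mul_rpow h0.le h1.le, e2]
  have hp : (0 : ℝ) < (n : ℝ) ^ (-δ) := Real.rpow_pos_of_pos h0 _
  nlinarith [mul_le_mul_of_nonneg_left e3 hp.le]

/-- partial sums of the zeta series -/
theorem PSum_partial {δ : ℝ} (hδ : 0 < δ) (N : ℕ) :
    δ * ∑ n ∈ range (N + 2), (n : ℝ) ^ (-(1 + δ)) ≤ δ + 1 - ((N : ℝ) + 1) ^ (-δ) := by
  induction N with
  | zero =>
      rw [Finset.sum_range_succ, Finset.sum_range_one]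
      have : ((0 : ℕ) : ℝ) ^ (-(1 + δ)) = 0 := by
        rw [Nat.cast_zero, Real.zero_rpow (by linarith)]
      rw [this]
      simp
  | succ N ih =>
      rw [Finset.sum_range_succ, mul_add]
      have h := PSum_step hδ (n := N + 2) (by omega)
      have e : (((N + 2 : ℕ) : ℝ) - 1) = (N : ℝ) + 1 := by push_cast; ring
      rw [e] at h
      have e2 : ((N + 1 : ℕ) : ℝ) + 1 = ((N + 2 : ℕ) : ℝ) := by push_cast; ring
      rw [e2]
      have e3 : N + 1 + 1 = N + 2 := rfl
      rw [e3]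
      linarith

theorem PSum_finset {δ : ℝ} (hδ : 0 < δ) (S : Finset ℕ) :
    ∑ n ∈ S, (n : ℝ) ^ (-(1 + δ)) ≤ 1 + 1 / δ := by
  obtain ⟨N, hN⟩ := S.exists_nat_subset_range
  have h1 : ∑ n ∈ S, (n : ℝ) ^ (-(1 + δ)) ≤ ∑ n ∈ range (N + 2), (n : ℝ) ^ (-(1 + δ)) := by
    apply Finset.sum_le_sum_of_subset_of_nonneg
    · intro n hn
      have := Finset.mem_range.mp (hN hn)
      exact Finset.mem_range.mpr (by omega)
    · intro n _ _
      exact Real.rpow_nonneg (Nat.cast_nonneg n) _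
  have h2 := PSum_partial hδ N
  have h3 : (0 : ℝ) < ((N : ℝ) + 1) ^ (-δ) := Real.rpow_pos_of_pos (by positivity) _
  have h4 : 1 + 1 / δ = (δ + 1) / δ := by field_simp
  rw [h4, le_div_iff₀ hδ]
  nlinarith [mul_le_mul_of_nonneg_left h1 hδ.le]

/-- the power function as a monoid homomorphism -/
noncomputable def PSum_f (s : ℝ) : ℕ →* ℝ where
  toFun n := (n : ℝ) ^ s
  map_one' := by simp
  map_mul' m n := by
    push_cast
    exact Real.mul_rpow (Nat.cast_nonneg m) (Nat.cast_nonneg n)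

theorem PSum_primes {δ : ℝ} (hδ : 0 < δ) (S : Finset ℕ) (hS : ∀ p ∈ S, p.Prime) :
    ∑ p ∈ S, (p : ℝ) ^ (-(1 + δ)) ≤ Real.log (1 + 1 / δ) := by
  have hlt : ∀ {p : ℕ}, p.Prime → ‖PSum_f (-(1 + δ)) p‖ < 1 := by
    intro p hp
    show ‖(p : ℝ) ^ (-(1 + δ))‖ < 1
    rw [Real.norm_of_nonneg (Real.rpow_nonneg (Nat.cast_nonneg p) _)]
    exact Real.rpow_lt_one_of_one_lt_of_neg (by exact_mod_cast hp.one_lt) (by linarith)
  have h := (EulerProduct.summable_and_hasSum_factoredNumbers_prod_filter_prime_geometric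
    (f := PSum_f (-(1 + δ))) hlt S).2
  have hfil : S.filter Nat.Prime = S := Finset.filter_true_of_mem hS
  rw [hfil] at h
  have hle : ∏ p ∈ S, (1 - PSum_f (-(1 + δ)) p)⁻¹ ≤ 1 + 1 / δ := by
    refine le_of_tendsto h ?_
    refine Filter.Eventually.of_forall fun T => ?_
    have := PSum_finset hδ (T.map (Function.Embedding.subtype _))
    rw [Finset.sum_map] at this
    exact this
  have hexp : Real.exp (∑ p ∈ S, (p : ℝ) ^ (-(1 + δ))) ≤ 1 + 1 / δ := by
    rw [Real.exp_sum]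
    refine le_trans (Finset.prod_le_prod (fun _ _ => (Real.exp_pos _).le) ?_) hle
    intro p hp
    have hy : (p : ℝ) ^ (-(1 + δ)) < 1 :=
      Real.rpow_lt_one_of_one_lt_of_neg (by exact_mod_cast (hS p hp).one_lt) (by linarith)
    show Real.exp ((p : ℝ) ^ (-(1 + δ))) ≤ (1 - (p : ℝ) ^ (-(1 + δ)))⁻¹
    rw [le_inv_comm₀ (Real.exp_pos _) (by linarith), ← Real.exp_neg]
    have := Real.add_one_le_exp (-((p : ℝ) ^ (-(1 + δ))))
    linarith
  exact (Real.le_log_iff_exp_le (by positivity)).mpr hexp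

/-- prime zeta function near `1` -/
theorem tsum_prime_le : ∃ C : ℝ, ∀ δ : ℝ, 0 < δ → δ ≤ 1 →
    ∑' p : Nat.Primes, ((p : ℕ) : ℝ) ^ (-(1 + δ)) ≤ Real.log (1 / δ) + C := by
  refine ⟨Real.log 2, fun δ hδ hδ1 => ?_⟩
  have hlog : Real.log (1 + 1 / δ) ≤ Real.log (1 / δ) + Real.log 2 := by
    rw [← Real.log_mul (by positivity) (by norm_num)]
    apply Real.log_le_log (by positivity)
    have : 1 ≤ 1 / δ := by rw [le_div_iff₀ hδ]; linarith
    linarith
  refine le_trans ?_ hlog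
  have hsum : Summable fun p : Nat.Primes => ((p : ℕ) : ℝ) ^ (-(1 + δ)) :=
    Nat.Primes.summable_rpow.mpr (by linarith)
  refine hsum.tsum_le_of_sum_le fun T => ?_
  have := PSum_primes hδ (T.image fun q : Nat.Primes => (q : ℕ)) (by
    intro p hp
    rw [Finset.mem_image] at hp
    obtain ⟨q, _, rfl⟩ := hp
    exact q.2)
  have hinj : Set.InjOn (fun q : Nat.Primes => (q : ℕ)) T := fun a _ b _ h => Subtype.ext h
  rw [Finset.sum_image hinj] at this
  exact this

/-- weak upper Mertens bound -/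
theorem prime_sum_le : ∃ C : ℝ, ∀ z : ℕ, ∑ p ∈ (range (z + 1)).filter Nat.Prime, 1 / (p : ℝ) ≤
    3 * Real.log (1 + Real.log (z + 1)) + C := by
  refine ⟨3 * Real.log 2 + 1, fun z => ?_⟩
  have hl0 : 0 ≤ Real.log ((z : ℝ) + 1) := Real.log_nonneg (by
    have : (0 : ℝ) ≤ z := Nat.cast_nonneg z
    linarith)
  have hR : 0 ≤ Real.log (1 + Real.log ((z : ℝ) + 1)) := Real.log_nonneg (by linarith)
  have h2pos : 0 ≤ Real.log 2 := Real.log_nonneg (by norm_num)
  rcases Nat.lt_or_ge z 3 with hz | hz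
  · have : ∑ p ∈ (range (z + 1)).filter Nat.Prime, 1 / (p : ℝ) ≤ 1 := by
      calc ∑ p ∈ (range (z + 1)).filter Nat.Prime, 1 / (p : ℝ)
          ≤ ∑ p ∈ ({2} : Finset ℕ), 1 / (p : ℝ) := by
            apply Finset.sum_le_sum_of_subset_of_nonneg
            · intro p hp
              rw [Finset.mem_filter, Finset.mem_range] at hp
              have := hp.2.two_le
              have : p = 2 := by omega
              simp [this]
            · intro p _ _
              positivity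
        _ ≤ 1 := by
            rw [Finset.sum_singleton]; norm_num
    linarith
  · have hz3 : (3 : ℝ) ≤ z := by exact_mod_cast hz
    have hlz : 1 ≤ Real.log z := by
      rw [Real.le_log_iff_exp_le (by linarith)]
      exact le_trans Real.exp_one_lt_d9.le (by linarith [hz3])
    have hlz0 : 0 < Real.log z := by linarith
    set δ : ℝ := 1 / Real.log z with hδd
    have hδ : 0 < δ := by positivity
    have hδ1 : δ ≤ 1 := by rw [hδd, div_le_one hlz0]; exact hlz
    have hP := PSum_primes hδ ((range (z + 1)).filter Nat.Prime) (fun p hp =>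
      (Finset.mem_filter.mp hp).2)
    have hinv : 1 / δ = Real.log z := by rw [hδd, one_div_one_div]
    rw [hinv] at hP
    have hterm : ∑ p ∈ (range (z + 1)).filter Nat.Prime, 1 / (p : ℝ) ≤
        Real.exp 1 * ∑ p ∈ (range (z + 1)).filter Nat.Prime, (p : ℝ) ^ (-(1 + δ)) := by
      rw [Finset.mul_sum]
      refine Finset.sum_le_sum fun p hp => ?_
      rw [Finset.mem_filter, Finset.mem_range] at hp
      have hp0 : (0 : ℝ) < p := by exact_mod_cast hp.2.pos
      have hpz : (p : ℝ) ≤ z := by exact_mod_cast (by omega : p ≤ z)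
      have hzd : (p : ℝ) ^ δ ≤ Real.exp 1 := by
        calc (p : ℝ) ^ δ ≤ (z : ℝ) ^ δ := Real.rpow_le_rpow hp0.le hpz hδ.le
          _ = Real.exp 1 := by
            rw [Real.rpow_def_of_pos (by linarith), hδd]
            congr 1
            field_simp
      have e : 1 / (p : ℝ) = (p : ℝ) ^ δ * (p : ℝ) ^ (-(1 + δ)) := by
        rw [← Real.rpow_add hp0, show δ + -(1 + δ) = -1 by ring, Real.rpow_neg_one, one_div]
      rw [e]
      exact mul_le_mul_of_nonneg_right hzd (Real.rpow_nonneg hp0.le _)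
    have hle2 : Real.log (1 + Real.log z) ≤ Real.log (1 + Real.log ((z : ℝ) + 1)) := by
      apply Real.log_le_log (by linarith)
      have := Real.log_le_log (by linarith : (0 : ℝ) < z) (by linarith : (z : ℝ) ≤ z + 1)
      linarith
    have hnn : 0 ≤ Real.log (1 + Real.log z) := Real.log_nonneg (by linarith)
    have he3 : Real.exp 1 ≤ 3 := le_trans Real.exp_one_lt_d9.le (by norm_num)
    have hepos : 0 < Real.exp 1 := Real.exp_pos 1
    calc ∑ p ∈ (range (z + 1)).filter Nat.Prime, 1 / (p : ℝ)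
        ≤ Real.exp 1 * Real.log (1 + Real.log z) :=
          le_trans hterm (mul_le_mul_of_nonneg_left hP hepos.le)
      _ ≤ 3 * Real.log (1 + Real.log z) := mul_le_mul_of_nonneg_right he3 hnn
      _ ≤ 3 * Real.log (1 + Real.log ((z : ℝ) + 1)) + (3 * Real.log 2 + 1) := by linarith

end PPA
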