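import Pool.Agent.Lib.MP_87c685_nt_PPA.Defs
import Pool.Agent.Lib.MP_87c685_nt_PPA.PSum
import Pool.Agent.Lib.MP_87c685_nt_PPA.Lab

/-! Project PP15 (MP_87c685_nt), analytic block PPA, module EIIIa. -/

open Finset Filter Topology

namespace PPA

open Classical in
/-- the multiplicative weight of the label `v` -/
noncomputable def EIIIa_f {V : Type} (N : ℕ) (U : Finset V) (z : ℕ) (α : ℝ) (v : V) (m : ℕ) : ℝ :=
  if v ∈ U ∨ rg z m = 1 then (sm z m : ℝ) ^ α * (1 / (N : ℝ)) ^ m.primeFactors.card else 0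

lemma EIIIa_f_nonneg {V : Type} (N : ℕ) (U : Finset V) (z : ℕ) (α : ℝ) (v : V) (m : ℕ) :
    0 ≤ EIIIa_f N U z α v m := by
  unfold EIIIa_f
  split_ifs
  · positivity
  · exact le_rfl

lemma EIIIa_sm_mul (z : ℕ) {a b : ℕ} (h : a.Coprime b) : sm z (a * b) = sm z a * sm z b := by
  unfold sm
  rw [h.primeFactors_mul, Finset.filter_union, Finset.prod_union]
  exact Finset.disjoint_filter_filter h.disjoint_primeFactors

lemma EIIIa_rg_mul (z : ℕ) {a b : ℕ} (h : a.Coprime b) : rg z (a * b) = rg z a * rg z b := by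
  unfold rg
  rw [h.primeFactors_mul, Finset.filter_union, Finset.prod_union]
  exact Finset.disjoint_filter_filter h.disjoint_primeFactors

lemma EIIIa_card_mul {a b : ℕ} (h : a.Coprime b) :
    (a * b).primeFactors.card = a.primeFactors.card + b.primeFactors.card := by
  rw [h.primeFactors_mul, Finset.card_union_of_disjoint h.disjoint_primeFactors]

lemma EIIIa_f_one {V : Type} (N : ℕ) (U : Finset V) (z : ℕ) (α : ℝ) (v : V) :
    EIIIa_f N U z α v 1 = 1 := by
  unfold EIIIa_f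
  have h1 : rg z 1 = 1 := by simp [rg]
  have h2 : sm z 1 = 1 := by simp [sm]
  rw [if_pos (Or.inr h1), h2]
  simp

lemma EIIIa_f_mul {V : Type} (N : ℕ) (U : Finset V) (z : ℕ) (α : ℝ) (v : V) (a b : ℕ)
    (h : a.Coprime b) :
    EIIIa_f N U z α v (a * b) = EIIIa_f N U z α v a * EIIIa_f N U z α v b := by
  unfold EIIIa_f
  rw [EIIIa_sm_mul z h, EIIIa_rg_mul z h, EIIIa_card_mul h]
  by_cases hv : v ∈ U
  · simp only [hv, true_or, if_true]
    rw [Nat.cast_mul, Real.mul_rpow (by positivity) (by positivity), pow_add]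
    ring
  · simp only [hv, false_or]
    by_cases ha : rg z a = 1
    · by_cases hb : rg z b = 1
      · rw [if_pos (by rw [ha, hb]), if_pos ha, if_pos hb,
          Nat.cast_mul, Real.mul_rpow (by positivity) (by positivity), pow_add]
        ring
      · rw [if_neg (by rw [ha, one_mul]; exact hb), if_neg hb, mul_zero]
    · rw [if_neg (fun h' => ha (Nat.eq_one_of_mul_eq_one_right h')), if_neg ha, zero_mul]

lemma EIIIa_f_prime_le {V : Type} (N : ℕ) (U : Finset V) (z : ℕ) (α : ℝ) (v : V) {p : ℕ}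
    (hp : p.Prime) (hz : p ≤ z) : EIIIa_f N U z α v p = (p : ℝ) ^ α / N := by
  unfold EIIIa_f
  have h1 : rg z p = 1 := by
    unfold rg
    rw [hp.primeFactors, Finset.filter_singleton, if_neg (by omega), Finset.prod_empty]
  have h2 : sm z p = p := by
    unfold sm
    rw [hp.primeFactors, Finset.filter_singleton, if_pos hz, Finset.prod_singleton]
  rw [if_pos (Or.inr h1), h2, hp.primeFactors, Finset.card_singleton, pow_one]
  ring

lemma EIIIa_f_prime_gt {V : Type} [DecidableEq V] (N : ℕ) (U : Finset V) (z : ℕ) (α : ℝ) (v : V)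
    {p : ℕ} (hp : p.Prime) (hz : z < p) :
    EIIIa_f N U z α v p = if v ∈ U then 1 / (N : ℝ) else 0 := by
  unfold EIIIa_f
  have h1 : rg z p = p := by
    unfold rg
    rw [hp.primeFactors, Finset.filter_singleton, if_pos hz, Finset.prod_singleton]
  have h2 : sm z p = 1 := by
    unfold sm
    rw [hp.primeFactors, Finset.filter_singleton, if_neg (by omega), Finset.prod_empty]
  have h3 : (v ∈ U ∨ rg z p = 1) ↔ v ∈ U := by
    rw [h1]
    exact ⟨fun h => h.resolve_right hp.one_lt.ne', Or.inl⟩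
  by_cases hv : v ∈ U
  · rw [if_pos (h3.2 hv), if_pos hv, h2, hp.primeFactors, Finset.card_singleton, pow_one]
    simp
  · rw [if_neg (fun h => hv (h3.1 h)), if_neg hv]

lemma EIIIa_card_prod {V : Type} [DecidableEq V] (D : V → ℕ) (s : Finset V)
    (h : Squarefree (∏ v ∈ s, D v)) :
    (∏ v ∈ s, D v).primeFactors.card = ∑ v ∈ s, (D v).primeFactors.card := by
  induction s using Finset.induction_on with
  | empty => simp
  | insert a s ha ih =>
    rw [Finset.prod_insert ha] at h ⊢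
    rw [Finset.sum_insert ha]
    obtain ⟨h1, h2, h3⟩ := Nat.squarefree_mul_iff.1 h
    rw [EIIIa_card_mul h1, ih h3]

/-- the sum over squarefree numbers of a multiplicative function of the smooth part -/
lemma EIIIa_smooth (c : ℕ → ℝ) (hc : ∀ p, 0 ≤ c p) (z x : ℕ) :
    ∑ n ∈ (range (x + 1)).filter Ok, ∏ p ∈ n.primeFactors.filter (fun p => p ≤ z), c p ≤
      x * ∏ p ∈ (range (z + 1)).filter Nat.Prime, (1 + c p / p) := by
  classical
  set P := (range (z + 1)).filter Nat.Prime with hP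
  have hPp : ∀ p ∈ P, p.Prime := fun p hp => (Finset.mem_filter.1 hp).2
  have h1 : ∀ n ∈ (range (x + 1)).filter Ok,
      ∏ p ∈ n.primeFactors.filter (fun p => p ≤ z), c p ≤
        ∑ T ∈ P.powerset, if (∏ p ∈ T, p) ∣ n then ∏ p ∈ T, c p else 0 := by
    intro n hn
    have hOk : Ok n := (Finset.mem_filter.1 hn).2
    have hsq : Squarefree n := hOk.1
    have hmem : n.primeFactors.filter (fun p => p ≤ z) ∈ P.powerset := by
      rw [Finset.mem_powerset]
      intro p hp
      rw [Finset.mem_filter] at hp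
      rw [hP, Finset.mem_filter, Finset.mem_range]
      exact ⟨by omega, Nat.prime_of_mem_primeFactors hp.1⟩
    have hdvd : (∏ p ∈ n.primeFactors.filter (fun p => p ≤ z), p) ∣ n := by
      conv_rhs => rw [← Nat.prod_primeFactors_of_squarefree hsq]
      exact Finset.prod_dvd_prod_of_subset _ _ _ (Finset.filter_subset _ _)
    have h2 := Finset.single_le_sum (s := P.powerset)
      (f := fun T => if (∏ p ∈ T, p) ∣ n then ∏ p ∈ T, c p else 0)
      (fun T _ => by
        show (0 : ℝ) ≤ if (∏ p ∈ T, p) ∣ n then ∏ p ∈ T, c p else 0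
        split_ifs
        · exact Finset.prod_nonneg fun p _ => hc p
        · exact le_rfl) hmem
    have h3 : (if (∏ p ∈ n.primeFactors.filter (fun p => p ≤ z), p) ∣ n then
        ∏ p ∈ n.primeFactors.filter (fun p => p ≤ z), c p else 0) =
        ∏ p ∈ n.primeFactors.filter (fun p => p ≤ z), c p := if_pos hdvd
    rw [← h3]
    exact h2
  refine (Finset.sum_le_sum h1).trans ?_
  rw [Finset.sum_comm]
  have h4 : ∀ T ∈ P.powerset,
      ∑ n ∈ (range (x + 1)).filter Ok, (if (∏ p ∈ T, p) ∣ n then ∏ p ∈ T, c p else 0) ≤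
        x * ∏ p ∈ T, (c p / p) := by
    intro T hT
    rw [Finset.mem_powerset] at hT
    have hpos : 0 < ∏ p ∈ T, p := Finset.prod_pos fun p hp => (hPp p (hT hp)).pos
    rw [← Finset.sum_filter, Finset.sum_const, nsmul_eq_mul, Finset.prod_div_distrib]
    have h5 : ((((range (x + 1)).filter Ok).filter fun n => (∏ p ∈ T, p) ∣ n).card : ℝ) ≤
        (x : ℝ) / (∏ p ∈ T, (p : ℝ)) := by
      have h6 : (((range (x + 1)).filter Ok).filter fun n => (∏ p ∈ T, p) ∣ n) ⊆
          (Finset.Ioc 0 x).filter fun n => (∏ p ∈ T, p) ∣ n := by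
        intro n hn
        rw [Finset.mem_filter, Finset.mem_filter, Finset.mem_range] at hn
        rw [Finset.mem_filter, Finset.mem_Ioc]
        refine ⟨⟨Nat.pos_of_ne_zero ?_, by omega⟩, hn.2⟩
        rintro rfl
        exact not_squarefree_zero hn.1.2.1
      have h7 : (((range (x + 1)).filter Ok).filter fun n => (∏ p ∈ T, p) ∣ n).card ≤
          x / ∏ p ∈ T, p := by
        refine (Finset.card_le_card h6).trans ?_
        rw [Nat.Ioc_filter_dvd_card_eq_div]
      calc ((((range (x + 1)).filter Ok).filter fun n => (∏ p ∈ T, p) ∣ n).card : ℝ)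
          ≤ ((x / ∏ p ∈ T, p : ℕ) : ℝ) := by exact_mod_cast h7
        _ ≤ (x : ℝ) / ((∏ p ∈ T, p : ℕ) : ℝ) := Nat.cast_div_le
        _ = (x : ℝ) / (∏ p ∈ T, (p : ℝ)) := by rw [Nat.cast_prod]
    calc _ ≤ (x : ℝ) / (∏ p ∈ T, (p : ℝ)) * ∏ p ∈ T, c p :=
          mul_le_mul_of_nonneg_right h5 (Finset.prod_nonneg fun p _ => hc p)
      _ = x * ((∏ p ∈ T, c p) / ∏ p ∈ T, (p : ℝ)) := by ring
  refine (Finset.sum_le_sum h4).trans ?_
  rw [← Finset.mul_sum, Finset.prod_one_add]

lemma EIIIa_rpow_le {z p : ℕ} (hz : 3 ≤ z) (hp : p ≤ z) (hp0 : 0 < p) :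
    (p : ℝ) ^ (1 / Real.log z) ≤ Real.exp 1 := by
  have hlog : 0 < Real.log z := Real.log_pos (by exact_mod_cast (by omega : 1 < z))
  rw [Real.rpow_def_of_pos (by exact_mod_cast hp0)]
  apply Real.exp_le_exp.2
  rw [mul_one_div, div_le_one hlog]
  exact Real.log_le_log (by exact_mod_cast hp0) (by exact_mod_cast hp)

open Classical in
/-- large smooth part -/
theorem e3a {V : Type} [Fintype V] [DecidableEq V] (N : ℕ) (hN : 0 < N)
    (U : Finset V) (hU : U.card ≤ N) :
    ∃ C : ℝ, 0 < C ∧ ∃ K : ℕ, ∀ z x D₀ : ℕ, 3 ≤ z → 1 ≤ D₀ →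
    ∑ D ∈ (Dall V x).filter (fun D => rs z D ⊆ U ∧ D₀ < ∏ v, sm z (D v)), wt N (∏ v, D v) ≤
      C * x * (D₀ : ℝ) ^ (-(1 / Real.log z)) * (1 + Real.log (z + 1)) ^ K := by
  obtain ⟨C₁, hC₁⟩ := prime_sum_le
  have hNr : (0 : ℝ) < N := by exact_mod_cast hN
  set κ : ℝ := (Fintype.card V : ℝ) / N * Real.exp 1 with hκ
  have hκ0 : 0 ≤ κ := by positivity
  refine ⟨Real.exp (κ * C₁), Real.exp_pos _, ⌈3 * κ⌉₊, ?_⟩
  intro z x D₀ hz hD₀
  have hlogz : 0 < Real.log z := Real.log_pos (by exact_mod_cast (by omega : 1 < z))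
  set α : ℝ := 1 / Real.log z with hα
  have hα0 : 0 ≤ α := by positivity
  have hD₀r : (0 : ℝ) < D₀ := by exact_mod_cast hD₀
  -- Rankin
  have h1 : ∀ D ∈ (Dall V x).filter (fun D => rs z D ⊆ U ∧ D₀ < ∏ v, sm z (D v)),
      wt N (∏ v, D v) ≤ (D₀ : ℝ) ^ (-α) * ∏ v, EIIIa_f N U z α v (D v) := by
    intro D hD
    rw [Finset.mem_filter] at hD
    obtain ⟨hD1, hD2, hD3⟩ := hD
    have hOk : Ok (∏ v, D v) := by
      rw [Dall, Finset.mem_filter] at hD1
      exact hD1.2.1
    have h2 : ∀ v, EIIIa_f N U z α v (D v) =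
        (sm z (D v) : ℝ) ^ α * (1 / (N : ℝ)) ^ (D v).primeFactors.card := by
      intro v
      unfold EIIIa_f
      rw [if_pos]
      by_cases hv : v ∈ U
      · exact Or.inl hv
      · right
        by_contra hne
        exact hv (hD2 (by rw [rs, Finset.mem_filter]; exact ⟨Finset.mem_univ _, hne⟩))
    have h3 : ∏ v, EIIIa_f N U z α v (D v) =
        ((∏ v, sm z (D v) : ℕ) : ℝ) ^ α * wt N (∏ v, D v) := by
      rw [Finset.prod_congr rfl fun v _ => h2 v, Finset.prod_mul_distrib,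
        Real.finsetProd_rpow _ _ (fun v _ => by positivity), Finset.prod_pow_eq_pow_sum,
        ← EIIIa_card_prod D univ hOk.1, wt, Nat.cast_prod, one_div_pow]
    have hwt : 0 ≤ wt N (∏ v, D v) := by
      unfold wt
      positivity
    have h4 : (1 : ℝ) ≤ (D₀ : ℝ) ^ (-α) * ((∏ v, sm z (D v) : ℕ) : ℝ) ^ α := by
      have h5 : (D₀ : ℝ) ^ α ≤ ((∏ v, sm z (D v) : ℕ) : ℝ) ^ α :=
        Real.rpow_le_rpow hD₀r.le (by exact_mod_cast hD3.le) hα0
      calc (1 : ℝ) = (D₀ : ℝ) ^ (-α) * (D₀ : ℝ) ^ α := by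
            rw [← Real.rpow_add hD₀r, neg_add_cancel, Real.rpow_zero]
        _ ≤ _ := mul_le_mul_of_nonneg_left h5 (by positivity)
    rw [h3, ← mul_assoc]
    calc wt N (∏ v, D v) = 1 * wt N (∏ v, D v) := (one_mul _).symm
      _ ≤ _ := mul_le_mul_of_nonneg_right h4 hwt
  refine (Finset.sum_le_sum h1).trans ?_
  have h6 : ∑ D ∈ (Dall V x).filter (fun D => rs z D ⊆ U ∧ D₀ < ∏ v, sm z (D v)),
      (D₀ : ℝ) ^ (-α) * ∏ v, EIIIa_f N U z α v (D v) ≤
      ∑ D ∈ Dall V x, (D₀ : ℝ) ^ (-α) * ∏ v, EIIIa_f N U z α v (D v) := by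
    refine Finset.sum_le_sum_of_subset_of_nonneg (Finset.filter_subset _ _) fun D _ _ => ?_
    exact mul_nonneg (by positivity) (Finset.prod_nonneg fun v _ => EIIIa_f_nonneg _ _ _ _ _ _)
  refine h6.trans ?_
  rw [← Finset.mul_sum, sum_Dall]
  -- the local factors
  set c : ℕ → ℝ := fun p => if p ≤ z ∧ 0 < p then κ else 0 with hc
  have hc0 : ∀ p, 0 ≤ c p := by
    intro p
    simp only [hc]
    split_ifs
    · exact hκ0
    · exact le_rfl
  have h7 : ∀ n ∈ (range (x + 1)).filter Ok, ∑ D ∈ DD V n, ∏ v, EIIIa_f N U z α v (D v) ≤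
      ∏ p ∈ n.primeFactors.filter (fun p => p ≤ z), c p := by
    intro n hn
    have hOk : Ok n := (Finset.mem_filter.1 hn).2
    rw [sum_DD_mul n hOk.1 (EIIIa_f N U z α) (EIIIa_f_one N U z α) (EIIIa_f_mul N U z α),
      Finset.prod_filter]
    refine Finset.prod_le_prod (fun p _ => Finset.sum_nonneg fun v _ =>
      EIIIa_f_nonneg _ _ _ _ _ _) fun p hp => ?_
    have hpp := Nat.prime_of_mem_primeFactors hp
    split_ifs with hpz
    · rw [Finset.sum_congr rfl fun v _ => EIIIa_f_prime_le N U z α v hpp hpz,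
        Finset.sum_const, nsmul_eq_mul, Finset.card_univ]
      simp only [hc]
      rw [if_pos ⟨hpz, hpp.pos⟩, hκ]
      have h8 := EIIIa_rpow_le hz hpz hpp.pos
      calc (Fintype.card V : ℝ) * ((p : ℝ) ^ α / N) = (Fintype.card V : ℝ) / N * (p : ℝ) ^ α := by
            ring
        _ ≤ _ := mul_le_mul_of_nonneg_left h8 (by positivity)
    · rw [Finset.sum_congr rfl fun v _ => EIIIa_f_prime_gt N U z α v hpp (by omega),
        Finset.sum_ite_mem, Finset.univ_inter, Finset.sum_const, nsmul_eq_mul, mul_one_div,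
        div_le_one hNr]
      exact_mod_cast hU
  have h9 := (Finset.sum_le_sum h7).trans (EIIIa_smooth c hc0 z x)
  have hL : (1 : ℝ) ≤ 1 + Real.log (z + 1) := by
    have : (0 : ℝ) ≤ Real.log (z + 1) := Real.log_nonneg (by
      have : (0 : ℝ) ≤ z := by positivity
      linarith)
    linarith
  have h10 : ∏ p ∈ (range (z + 1)).filter Nat.Prime, (1 + c p / p) ≤
      Real.exp (κ * C₁) * (1 + Real.log (z + 1)) ^ ⌈3 * κ⌉₊ := by
    calc ∏ p ∈ (range (z + 1)).filter Nat.Prime, (1 + c p / p)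
        ≤ ∏ p ∈ (range (z + 1)).filter Nat.Prime, Real.exp (κ * (1 / (p : ℝ))) := by
          refine Finset.prod_le_prod (fun p _ => by
            have := hc0 p
            positivity) fun p hp => ?_
          rw [Finset.mem_filter, Finset.mem_range] at hp
          simp only [hc]
          rw [if_pos ⟨by omega, hp.2.pos⟩, add_comm, div_eq_mul_one_div]
          exact Real.add_one_le_exp _
      _ = Real.exp (κ * ∑ p ∈ (range (z + 1)).filter Nat.Prime, 1 / (p : ℝ)) := by
          rw [← Real.exp_sum, Finset.mul_sum]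
      _ ≤ Real.exp (κ * (3 * Real.log (1 + Real.log (z + 1)) + C₁)) :=
          Real.exp_le_exp.2 (mul_le_mul_of_nonneg_left (hC₁ z) hκ0)
      _ = Real.exp (κ * C₁) * (1 + Real.log (z + 1)) ^ (3 * κ) := by
          rw [Real.rpow_def_of_pos (by linarith), ← Real.exp_add]
          congr 1
          ring
      _ ≤ Real.exp (κ * C₁) * (1 + Real.log (z + 1)) ^ ⌈3 * κ⌉₊ := by
          refine mul_le_mul_of_nonneg_left ?_ (Real.exp_pos _).le
          rw [← Real.rpow_natCast]
          exact Real.rpow_le_rpow_of_exponent_le hL (Nat.le_ceil _)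
  calc (D₀ : ℝ) ^ (-α) * ∑ n ∈ (range (x + 1)).filter Ok,
        ∑ D ∈ DD V n, ∏ v, EIIIa_f N U z α v (D v)
      ≤ (D₀ : ℝ) ^ (-α) * (x * (Real.exp (κ * C₁) * (1 + Real.log (z + 1)) ^ ⌈3 * κ⌉₊)) := by
        refine mul_le_mul_of_nonneg_left (h9.trans ?_) (by positivity)
        exact mul_le_mul_of_nonneg_left h10 (by positivity)
    _ = _ := by ring

end PPA
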