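import Pool.Agent.Lib.MP_87c685_nt_PPA.Defs

/-! Project PP15 (MP_87c685_nt), analytic block PPA, module Fou. -/

open Finset Filter Topology

namespace PPA

theorem Fou_mem_SS {V : Type} [Fintype V] [DecidableEq V] {U : Finset V}
    {s : V → Fin 4 → ℤ} (hs : s ∈ SS U) :
    (∀ v ∈ U, ∀ i, s v i = 1 ∨ s v i = -1) ∧ (∀ v, v ∉ U → s v = 1) := by
  rw [SS, Fintype.mem_piFinset] at hs
  constructor
  · intro v hv i
    have h := hs v
    rw [if_pos hv, SV, Fintype.mem_piFinset] at h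
    have h2 := h i
    rw [mem_insert, mem_singleton] at h2
    exact h2
  · intro v hv
    have h := hs v
    rw [if_neg hv, mem_singleton] at h
    exact h

theorem Fou_SV_card : SV.card = 16 := by
  rw [SV, Fintype.card_piFinset]
  have h : ∀ i : Fin 4, (({1, -1} : Finset ℤ)).card = 2 := fun _ => by decide
  rw [Finset.prod_congr rfl (fun i _ => h i)]
  simp

theorem Fou_SS_card {V : Type} [Fintype V] [DecidableEq V] (U : Finset V) :
    (SS U).card = 16 ^ U.card := by
  rw [SS, Fintype.card_piFinset]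
  have h : ∀ v : V, (if v ∈ U then SV else ({1} : Finset (Fin 4 → ℤ))).card
      = if v ∈ U then 16 else 1 := by
    intro v
    by_cases hv : v ∈ U
    · rw [if_pos hv, if_pos hv, Fou_SV_card]
    · rw [if_neg hv, if_neg hv, card_singleton]
  rw [Finset.prod_congr rfl (fun v _ => h v), Finset.prod_ite_mem, Finset.univ_inter,
    Finset.prod_const]

theorem Fou_SS_one {V : Type} [Fintype V] [DecidableEq V] (U : Finset V) :
    (1 : V → Fin 4 → ℤ) ∈ SS U := by
  rw [SS, Fintype.mem_piFinset]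
  intro v
  by_cases hv : v ∈ U
  · rw [if_pos hv, SV, Fintype.mem_piFinset]
    intro i
    simp
  · rw [if_neg hv, mem_singleton]
    rfl

/-- the sum over all exponents -/
theorem Fou_sum {V : Type} [Fintype V] [DecidableEq V] (U : Finset V)
    (a : V → Fin 4 → ℝ) :
    (∑ θ : V → Fin 4 → Fin 2, if ∀ v, v ∉ U → θ v = 0 then
      ∏ v ∈ U, ∏ i, a v i ^ (θ v i : ℕ) else 0) = ∏ v ∈ U, ∏ i, (1 + a v i) := by
  have key : ∀ θ : V → Fin 4 → Fin 2,
      (if ∀ v, v ∉ U → θ v = 0 then ∏ v ∈ U, ∏ i, a v i ^ (θ v i : ℕ) else 0)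
      = ∏ v, ∏ i, (if v ∈ U then a v i ^ (θ v i : ℕ) else if θ v i = 0 then (1 : ℝ) else 0) := by
    intro θ
    by_cases h : ∀ v, v ∉ U → θ v = 0
    · rw [if_pos h]
      rw [← Finset.prod_subset (Finset.subset_univ U)]
      · refine Finset.prod_congr rfl fun v hv => Finset.prod_congr rfl fun i _ => ?_
        rw [if_pos hv]
      · intro v _ hv
        refine Finset.prod_eq_one fun i _ => ?_
        rw [if_neg hv, h v hv]
        simp
    · rw [if_neg h]
      push Not at h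
      obtain ⟨v, hv, hθ⟩ := h
      obtain ⟨i, hi⟩ : ∃ i, θ v i ≠ 0 := by
        by_contra hc
        push Not at hc
        exact hθ (funext hc)
      symm
      refine Finset.prod_eq_zero (mem_univ v) (Finset.prod_eq_zero (mem_univ i) ?_)
      rw [if_neg hv, if_neg hi]
  rw [Finset.sum_congr rfl (fun θ _ => key θ)]
  have h1 : ∏ v : V, ∑ κ : Fin 4 → Fin 2,
      ∏ i, (if v ∈ U then a v i ^ (κ i : ℕ) else if κ i = 0 then (1 : ℝ) else 0)
      = ∑ θ : V → Fin 4 → Fin 2,
        ∏ v, ∏ i, (if v ∈ U then a v i ^ (θ v i : ℕ) else if θ v i = 0 then (1 : ℝ) else 0) := by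
    rw [Finset.prod_univ_sum]
    rw [Fintype.piFinset_univ]
  rw [← h1]
  have h2 : ∀ v : V, ∑ κ : Fin 4 → Fin 2,
      ∏ i, (if v ∈ U then a v i ^ (κ i : ℕ) else if κ i = 0 then (1 : ℝ) else 0)
      = if v ∈ U then ∏ i, (1 + a v i) else 1 := by
    intro v
    have h3 : ∏ i : Fin 4, ∑ k : Fin 2,
        (if v ∈ U then a v i ^ (k : ℕ) else if k = 0 then (1 : ℝ) else 0)
        = ∑ κ : Fin 4 → Fin 2,
          ∏ i, (if v ∈ U then a v i ^ (κ i : ℕ) else if κ i = 0 then (1 : ℝ) else 0) := by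
      rw [Finset.prod_univ_sum]
      rw [Fintype.piFinset_univ]
    rw [← h3]
    by_cases hv : v ∈ U
    · simp [hv, Fin.sum_univ_two]
    · simp [hv, Fin.sum_univ_two]
  rw [Finset.prod_congr rfl (fun v _ => h2 v), Finset.prod_ite_mem, Finset.univ_inter]

/-- orthogonality -/
theorem Fou_orth {V : Type} [Fintype V] [DecidableEq V] (U : Finset V)
    (s s1 : V → Fin 4 → ℤ) (hs : s ∈ SS U) (hs1 : s1 ∈ SS U) :
    ∏ v ∈ U, ∏ i, (1 + (s1 v i : ℝ) * (s v i : ℝ)) = if s1 = s then 16 ^ U.card else 0 := by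
  obtain ⟨ha, hb⟩ := Fou_mem_SS hs
  obtain ⟨ha1, hb1⟩ := Fou_mem_SS hs1
  by_cases h : s1 = s
  · rw [if_pos h, h]
    rw [Finset.prod_congr rfl (g := fun _ => (16 : ℝ))]
    · rw [Finset.prod_const]
    · intro v hv
      rw [Finset.prod_congr rfl (g := fun _ => (2 : ℝ))]
      · rw [Finset.prod_const, Finset.card_univ, Fintype.card_fin]; norm_num
      · intro i _
        rcases ha v hv i with h1 | h1 <;> rw [h1] <;> norm_num
  · rw [if_neg h]
    obtain ⟨v, hv⟩ : ∃ v, s1 v ≠ s v := by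
      by_contra hc
      push Not at hc
      exact h (funext hc)
    have hvU : v ∈ U := by
      by_contra hc
      exact hv (by rw [hb v hc, hb1 v hc])
    obtain ⟨i, hi⟩ : ∃ i, s1 v i ≠ s v i := by
      by_contra hc
      push Not at hc
      exact hv (funext hc)
    refine Finset.prod_eq_zero hvU (Finset.prod_eq_zero (mem_univ i) ?_)
    rcases ha v hvU i with h1 | h1 <;> rcases ha1 v hvU i with h2 | h2
    · exact absurd (h2.trans h1.symm) hi
    · rw [h1, h2]; norm_num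
    · rw [h1, h2]; norm_num
    · exact absurd (h2.trans h1.symm) hi

/-- Fourier expansion -/
theorem fourier {V : Type} [Fintype V] [DecidableEq V] (U : Finset V)
    (H : (V → Fin 4 → ℤ) → ℝ) (s : V → Fin 4 → ℤ) (hs : s ∈ SS U) :
    H s = ∑ θ : V → Fin 4 → Fin 2, hat U H θ * ∏ v ∈ U, ∏ i, (s v i : ℝ) ^ (θ v i : ℕ) := by
  have h1 : ∀ θ : V → Fin 4 → Fin 2,
      hat U H θ * ∏ v ∈ U, ∏ i, (s v i : ℝ) ^ (θ v i : ℕ)
      = (∑ s1 ∈ SS U, H s1 * (if ∀ v, v ∉ U → θ v = 0 then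
          ∏ v ∈ U, ∏ i, ((s1 v i : ℝ) * (s v i : ℝ)) ^ (θ v i : ℕ) else 0)) / 16 ^ U.card := by
    intro θ
    rw [hat]
    by_cases h : ∀ v, v ∉ U → θ v = 0
    · rw [if_pos h]
      simp only [if_pos h]
      rw [div_mul_eq_mul_div, Finset.sum_mul]
      congr 1
      refine Finset.sum_congr rfl fun s1 _ => ?_
      rw [mul_assoc, ← Finset.prod_mul_distrib]
      congr 1
      refine Finset.prod_congr rfl fun v _ => ?_
      rw [← Finset.prod_mul_distrib]
      refine Finset.prod_congr rfl fun i _ => ?_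
      rw [mul_pow]
    · rw [if_neg h]
      simp only [if_neg h]
      simp
  rw [Finset.sum_congr rfl (fun θ _ => h1 θ)]
  rw [← Finset.sum_div, Finset.sum_comm]
  have h2 : ∀ s1 ∈ SS U, ∑ θ : V → Fin 4 → Fin 2, H s1 * (if ∀ v, v ∉ U → θ v = 0 then
          ∏ v ∈ U, ∏ i, ((s1 v i : ℝ) * (s v i : ℝ)) ^ (θ v i : ℕ) else 0)
      = H s1 * if s1 = s then 16 ^ U.card else 0 := by
    intro s1 hs1
    rw [← Finset.mul_sum, Fou_sum U (fun v i => (s1 v i : ℝ) * (s v i : ℝ)),
      Fou_orth U s s1 hs hs1]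
  rw [Finset.sum_congr rfl h2]
  simp only [mul_ite, mul_zero]
  rw [Finset.sum_ite_eq' (SS U) s, if_pos hs]
  rw [mul_div_assoc, div_self (by positivity), mul_one]

theorem hat_le {V : Type} [Fintype V] [DecidableEq V] (U : Finset V)
    (H : (V → Fin 4 → ℤ) → ℝ) (C : ℝ) (hH : ∀ s ∈ SS U, |H s| ≤ C) (θ : V → Fin 4 → Fin 2) :
    |hat U H θ| ≤ C := by
  have hC : 0 ≤ C := le_trans (abs_nonneg _) (hH 1 (Fou_SS_one U))
  rw [hat]
  split_ifs with h
  · rw [abs_div, abs_of_pos (by positivity : (0 : ℝ) < 16 ^ U.card), div_le_iff₀ (by positivity)]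
    refine le_trans (Finset.abs_sum_le_sum_abs _ _) ?_
    have h1 : ∀ s ∈ SS U, |H s * ∏ v ∈ U, ∏ i, (s v i : ℝ) ^ (θ v i : ℕ)| ≤ C := by
      intro s hs
      obtain ⟨ha, _⟩ := Fou_mem_SS hs
      rw [abs_mul, Finset.abs_prod]
      rw [Finset.prod_eq_one, mul_one]
      · exact hH s hs
      · intro v hv
        rw [Finset.abs_prod]
        refine Finset.prod_eq_one fun i _ => ?_
        rw [abs_pow]
        rcases ha v hv i with h1 | h1 <;> rw [h1] <;> norm_num
    refine le_trans (Finset.sum_le_sum h1) ?_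
    rw [Finset.sum_const, Fou_SS_card, nsmul_eq_mul]
    push_cast
    rw [mul_comm]
  · rw [abs_zero]
    exact hC

/-- a function with mean value `0` on the sign vectors with a given product has no diagonal
Fourier coefficients -/
theorem hat_diag {V : Type} [Fintype V] [DecidableEq V] (U : Finset V) (c : Fin 4 → ℤ)
    (H : (V → Fin 4 → ℤ) → ℝ) (h1 : ∀ s ∈ SS U, ∏ v, s v ≠ c → H s = 0)
    (h2 : ∑ s ∈ SU U c, H s = 0) (θ : V → Fin 4 → Fin 2)
    (hθ : ∀ u ∈ U, ∀ w ∈ U, θ u = θ w) : hat U H θ = 0 := by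
  rw [hat]
  split_ifs with h
  · obtain ⟨κ, hκ⟩ : ∃ κ : Fin 4 → Fin 2, ∀ u ∈ U, θ u = κ := by
      rcases U.eq_empty_or_nonempty with h0 | ⟨u, hu⟩
      · exact ⟨0, fun u hu => by rw [h0] at hu; simp at hu⟩
      · exact ⟨θ u, fun w hw => hθ w hw u hu⟩
    have h3 : ∀ s ∈ SS U, H s * ∏ v ∈ U, ∏ i, (s v i : ℝ) ^ (θ v i : ℕ)
        = (if ∏ v, s v = c then H s else 0) * ∏ i, (c i : ℝ) ^ (κ i : ℕ) := by
      intro s hs
      obtain ⟨_, hb⟩ := Fou_mem_SS hs
      by_cases hp : ∏ v, s v = c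
      · rw [if_pos hp]
        congr 1
        rw [Finset.prod_congr rfl (g := fun v => ∏ i, (s v i : ℝ) ^ (κ i : ℕ))
          (fun v hv => by rw [hκ v hv])]
        rw [Finset.prod_comm]
        refine Finset.prod_congr rfl fun i _ => ?_
        rw [Finset.prod_pow]
        congr 1
        have h4 : c i = ∏ v ∈ U, s v i := by
          rw [← hp, Finset.prod_apply]
          symm
          refine Finset.prod_subset (Finset.subset_univ U) fun v _ hv => ?_
          rw [hb v hv]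
          rfl
        rw [h4]
        push_cast
        rfl
      · rw [if_neg hp, h1 s hs hp, zero_mul, zero_mul]
    rw [Finset.sum_congr rfl h3, ← Finset.sum_mul, ← Finset.sum_filter]
    have h5 : (SS U).filter (fun s => ∏ v, s v = c) = SU U c := rfl
    rw [h5, h2, zero_mul, zero_div]
  · rfl

end PPA
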