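import Pool.Agent.Lib.MP_87c685_nt_PPA.Defs

/-! Project PP15 (MP_87c685_nt), analytic block PPA, module HT. -/

open Finset Filter Topology

namespace PPA

/-- the product over the prime factors -/
noncomputable def HT_H (f : ℕ → ℝ) (n : ℕ) : ℝ := ∏ p ∈ n.primeFactors, f p

/-- the squarefree numbers up to `x` -/
def HT_A (x : ℕ) : Finset ℕ := (range (x + 1)).filter Squarefree

lemma HT_mem {x n : ℕ} : n ∈ HT_A x ↔ n ≤ x ∧ Squarefree n := by
  simp [HT_A]

lemma HT_nonneg {f : ℕ → ℝ} (hf : ∀ p, 0 ≤ f p) (n : ℕ) : 0 ≤ HT_H f n :=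
  Finset.prod_nonneg fun p _ => hf p

/-- splitting off a prime factor -/
lemma HT_split {f : ℕ → ℝ} {n p : ℕ} (hn : Squarefree n) (hp : p ∈ n.primeFactors) :
    HT_H f n = f p * HT_H f (n / p) := by
  have hpp := Nat.prime_of_mem_primeFactors hp
  have hdvd := Nat.dvd_of_mem_primeFactors hp
  obtain ⟨m, rfl⟩ := hdvd
  have hm0 : m ≠ 0 := by
    rintro rfl
    exact absurd hn (by simp)
  have hpm : ¬ p ∣ m := by
    intro h
    obtain ⟨k, rfl⟩ := h
    have h1 := hn p ⟨k, by ring⟩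
    exact hpp.one_lt.ne' (Nat.isUnit_iff.mp h1)
  rw [Nat.mul_div_cancel_left _ hpp.pos]
  unfold HT_H
  rw [Nat.primeFactors_mul hpp.ne_zero hm0, hpp.primeFactors, ← Finset.insert_eq,
    Finset.prod_insert]
  intro h
  exact hpm (Nat.dvd_of_mem_primeFactors h)

lemma HT_log {n : ℕ} (hn : Squarefree n) :
    Real.log n = ∑ p ∈ n.primeFactors, Real.log p := by
  conv_lhs => rw [← Nat.prod_primeFactors_of_squarefree hn]
  push_cast
  rw [Real.log_prod]
  intro p hp
  have := (Nat.prime_of_mem_primeFactors hp).ne_zero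
  exact_mod_cast this

/-- the sum with `log n` -/
lemma HT_one (κ : ℝ) (hκ : 0 ≤ κ) (f : ℕ → ℝ) (hf : ∀ p, 0 ≤ f p) (hf' : ∀ p, f p ≤ κ)
    (x : ℕ) :
    ∑ n ∈ HT_A x, HT_H f n * Real.log n ≤
      κ * Real.log 4 * x * ∑ m ∈ HT_A x, HT_H f m / m := by
  classical
  have h1 : ∑ n ∈ HT_A x, HT_H f n * Real.log n =
      ∑ q ∈ (HT_A x).sigma fun n => n.primeFactors,
        f q.2 * Real.log (q.2 : ℕ) * HT_H f (q.1 / q.2) := by
    rw [Finset.sum_sigma]
    refine Finset.sum_congr rfl fun n hn => ?_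
    have hn' := (HT_mem.mp hn).2
    rw [HT_log hn', Finset.mul_sum]
    refine Finset.sum_congr rfl fun p hp => ?_
    rw [HT_split hn' hp]
    ring
  have h2 : ∑ q ∈ (HT_A x).sigma fun n => n.primeFactors,
        f q.2 * Real.log (q.2 : ℕ) * HT_H f (q.1 / q.2) ≤
      ∑ m ∈ HT_A x, ∑ p ∈ (Ioc 0 ⌊(x : ℝ) / m⌋₊).filter Nat.Prime,
        κ * Real.log p * HT_H f m := by
    rw [Finset.sum_sigma' (HT_A x) fun m => (Ioc 0 ⌊(x : ℝ) / m⌋₊).filter Nat.Prime]
    set g : (Σ _ : ℕ, ℕ) → (Σ _ : ℕ, ℕ) := fun q => ⟨q.1 / q.2, q.2⟩ with hg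
    have hinj : Set.InjOn g ((HT_A x).sigma fun n => n.primeFactors : Finset (Σ _ : ℕ, ℕ)) := by
      rintro ⟨n, p⟩ hq ⟨n', p'⟩ hq' he
      simp only [Finset.coe_sigma, Set.mem_sigma_iff, Finset.mem_coe] at hq hq'
      simp only [hg, Sigma.mk.injEq, heq_eq_eq] at he
      obtain ⟨he1, rfl⟩ := he
      have a1 := Nat.div_mul_cancel (Nat.dvd_of_mem_primeFactors hq.2)
      have a2 := Nat.div_mul_cancel (Nat.dvd_of_mem_primeFactors hq'.2)
      rw [he1] at a1
      simp only [Sigma.mk.injEq, heq_eq_eq, and_true]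
      rw [← a1, a2]
    have hsub : ((HT_A x).sigma fun n => n.primeFactors).image g ⊆
        (HT_A x).sigma fun m => (Ioc 0 ⌊(x : ℝ) / m⌋₊).filter Nat.Prime := by
      intro r hr
      obtain ⟨⟨n, p⟩, hq, rfl⟩ := Finset.mem_image.mp hr
      rw [Finset.mem_sigma] at hq
      obtain ⟨hn, hp⟩ := hq
      simp only at hn hp
      have hnx := (HT_mem.mp hn).1
      have hsq := (HT_mem.mp hn).2
      have hpp := Nat.prime_of_mem_primeFactors hp
      have hdvd := Nat.dvd_of_mem_primeFactors hp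
      obtain ⟨m, rfl⟩ := hdvd
      have hm0 : m ≠ 0 := by
        rintro rfl
        exact absurd hsq (by simp)
      rw [Finset.mem_sigma]
      simp only [hg]
      rw [Nat.mul_div_cancel_left _ hpp.pos]
      refine ⟨HT_mem.mpr ⟨le_trans (Nat.le_mul_of_pos_left m hpp.pos) hnx,
        hsq.squarefree_of_dvd (Dvd.intro_left p rfl)⟩, ?_⟩
      rw [Finset.mem_filter, Finset.mem_Ioc]
      refine ⟨⟨hpp.pos, ?_⟩, hpp⟩
      apply Nat.le_floor
      rw [le_div_iff₀ (by exact_mod_cast Nat.pos_of_ne_zero hm0)]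
      exact_mod_cast hnx
    calc ∑ q ∈ (HT_A x).sigma fun n => n.primeFactors,
          f q.2 * Real.log (q.2 : ℕ) * HT_H f (q.1 / q.2)
        ≤ ∑ q ∈ (HT_A x).sigma fun n => n.primeFactors,
          κ * Real.log ((g q).2 : ℕ) * HT_H f (g q).1 := by
          refine Finset.sum_le_sum fun q hq => ?_
          rw [Finset.mem_sigma] at hq
          have hpp := Nat.prime_of_mem_primeFactors hq.2
          have hl : 0 ≤ Real.log (q.2 : ℕ) := Real.log_nonneg (by exact_mod_cast hpp.one_lt.le)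
          have hH := HT_nonneg hf (q.1 / q.2)
          simp only [hg]
          exact mul_le_mul_of_nonneg_right (mul_le_mul_of_nonneg_right (hf' _) hl) hH
      _ = ∑ r ∈ ((HT_A x).sigma fun n => n.primeFactors).image g,
          κ * Real.log (r.2 : ℕ) * HT_H f r.1 := by
          rw [Finset.sum_image hinj]
      _ ≤ _ := by
          refine Finset.sum_le_sum_of_subset_of_nonneg hsub fun r hr _ => ?_
          rw [Finset.mem_sigma, Finset.mem_filter] at hr
          have hl : 0 ≤ Real.log (r.2 : ℕ) :=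
            Real.log_nonneg (by exact_mod_cast hr.2.2.one_lt.le)
          exact mul_nonneg (mul_nonneg hκ hl) (HT_nonneg hf _)
  rw [h1]
  refine h2.trans ?_
  rw [Finset.mul_sum]
  refine Finset.sum_le_sum fun m _ => ?_
  have h3 : ∑ p ∈ (Ioc 0 ⌊(x : ℝ) / m⌋₊).filter Nat.Prime, κ * Real.log p * HT_H f m =
      κ * HT_H f m * Chebyshev.theta ((x : ℝ) / m) := by
    rw [Chebyshev.theta, Finset.mul_sum]
    exact Finset.sum_congr rfl fun p _ => by ring
  rw [h3]
  have h4 : Chebyshev.theta ((x : ℝ) / m) ≤ Real.log 4 * ((x : ℝ) / m) :=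
    Chebyshev.theta_le_log4_mul_x (by positivity)
  have h5 : 0 ≤ κ * HT_H f m := mul_nonneg hκ (HT_nonneg hf m)
  calc κ * HT_H f m * Chebyshev.theta ((x : ℝ) / m)
      ≤ κ * HT_H f m * (Real.log 4 * ((x : ℝ) / m)) := mul_le_mul_of_nonneg_left h4 h5
    _ = κ * Real.log 4 * x * (HT_H f m / m) := by ring

/-- the sum with `log (x / n)` -/
lemma HT_two (f : ℕ → ℝ) (hf : ∀ p, 0 ≤ f p) (x : ℕ) (hx : 3 ≤ x) :
    ∑ n ∈ HT_A x, HT_H f n * (Real.log x - Real.log n) ≤ x * ∑ m ∈ HT_A x, HT_H f m / m := by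
  rw [Finset.mul_sum]
  refine Finset.sum_le_sum fun n hn => ?_
  obtain ⟨hnx, hsq⟩ := HT_mem.mp hn
  have hn0 : (0 : ℝ) < n := by exact_mod_cast Nat.pos_of_ne_zero hsq.ne_zero
  have hx0 : (0 : ℝ) < x := by exact_mod_cast (by omega : 0 < x)
  rw [← Real.log_div hx0.ne' hn0.ne']
  have h1 : Real.log (x / n) ≤ x / n := (Real.log_le_sub_one_of_pos (by positivity)).trans (by linarith)
  calc HT_H f n * Real.log (x / n) ≤ HT_H f n * (x / n) :=
        mul_le_mul_of_nonneg_left h1 (HT_nonneg hf n)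
    _ = x * (HT_H f n / n) := by ring

lemma HT_sum (g : ℕ → ℝ) (hg0 : ∀ p, 0 ≤ g p) (hsum : Summable fun p : Nat.Primes => g p)
    (P : Finset Nat.Primes) : ∑ p ∈ P, g p ≤ ∑' p : Nat.Primes, g p :=
  hsum.sum_le_tsum P fun p _ => hg0 p

/-- Rankin and the Euler product -/
lemma HT_three (κ : ℝ) (f : ℕ → ℝ) (hf : ∀ p, 0 ≤ f p) (hf' : ∀ p, f p ≤ κ)
    (x : ℕ) (s : ℝ) (hs : 1 < s) :
    ∑ m ∈ HT_A x, HT_H f m * (m : ℝ) ^ (-s) ≤
      Real.exp (∑' p : Nat.Primes, f p * ((p : ℕ) : ℝ) ^ (-s)) := by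
  classical
  set g : ℕ → ℝ := fun p => f p * (p : ℝ) ^ (-s) with hg
  have hg0 : ∀ p, 0 ≤ g p := fun p => mul_nonneg (hf p) (by positivity)
  set P : Finset ℕ := (range (x + 1)).filter Nat.Prime with hP
  have h1 : ∑ m ∈ HT_A x, HT_H f m * (m : ℝ) ^ (-s) =
      ∑ m ∈ HT_A x, ∏ p ∈ m.primeFactors, g p := by
    refine Finset.sum_congr rfl fun m hm => ?_
    obtain ⟨_, hsq⟩ := HT_mem.mp hm
    simp only [hg]
    rw [Finset.prod_mul_distrib]
    unfold HT_H
    congr 1
    rw [Real.finsetProd_rpow _ _ (fun p _ => by positivity)]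
    congr 1
    conv_lhs => rw [← Nat.prod_primeFactors_of_squarefree hsq]
    push_cast
    rfl
  have hinj : Set.InjOn Nat.primeFactors (HT_A x : Finset ℕ) := by
    intro a ha b hb hab
    have ha' := (HT_mem.mp ha).2
    have hb' := (HT_mem.mp hb).2
    rw [← Nat.prod_primeFactors_of_squarefree ha', ← Nat.prod_primeFactors_of_squarefree hb', hab]
  have h2 : ∑ m ∈ HT_A x, ∏ p ∈ m.primeFactors, g p =
      ∑ t ∈ (HT_A x).image Nat.primeFactors, ∏ p ∈ t, g p := by
    rw [Finset.sum_image hinj]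
  have h3 : ∑ t ∈ (HT_A x).image Nat.primeFactors, ∏ p ∈ t, g p ≤
      ∑ t ∈ P.powerset, ∏ p ∈ t, g p := by
    refine Finset.sum_le_sum_of_subset_of_nonneg ?_ fun t _ _ =>
      Finset.prod_nonneg fun p _ => hg0 p
    intro t ht
    obtain ⟨m, hm, rfl⟩ := Finset.mem_image.mp ht
    obtain ⟨hmx, hsq⟩ := HT_mem.mp hm
    rw [Finset.mem_powerset]
    intro p hp
    rw [hP, Finset.mem_filter, Finset.mem_range]
    exact ⟨Nat.lt_succ_of_le (le_trans (Nat.le_of_mem_primeFactors hp) hmx),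
      Nat.prime_of_mem_primeFactors hp⟩
  have h4 : ∑ t ∈ P.powerset, ∏ p ∈ t, g p = ∏ p ∈ P, (1 + g p) :=
    (Finset.prod_one_add P).symm
  have h5 : ∏ p ∈ P, (1 + g p) ≤ Real.exp (∑ p ∈ P, g p) := by
    rw [Real.exp_sum]
    refine Finset.prod_le_prod (fun p _ => by have := hg0 p; linarith) fun p _ => ?_
    rw [add_comm]
    exact Real.add_one_le_exp _
  have hsum : Summable fun p : Nat.Primes => f p * ((p : ℕ) : ℝ) ^ (-s) := by
    have h6 : Summable fun p : Nat.Primes => ((p : ℕ) : ℝ) ^ (-s) :=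
      Nat.Primes.summable_rpow.mpr (by linarith)
    refine Summable.of_nonneg_of_le (fun p => hg0 p) (fun p => ?_) (h6.mul_left κ)
    exact mul_le_mul_of_nonneg_right (hf' _) (by positivity)
  have h7 : ∑ p ∈ P, g p ≤ ∑' p : Nat.Primes, f p * ((p : ℕ) : ℝ) ^ (-s) := by
    have h8 : ∑ p ∈ P, g p = ∑ p ∈ P.subtype Nat.Prime, g (p : ℕ) := by
      rw [Finset.sum_subtype_eq_sum_filter]
      congr 1
      rw [hP, Finset.filter_filter]
      congr 1
      ext p
      simp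
    rw [h8]
    exact HT_sum g hg0 hsum (P.subtype Nat.Prime)
  rw [h1, h2]
  exact h3.trans (h4.le.trans (h5.trans (Real.exp_le_exp.mpr h7)))

/-- mean values of multiplicative functions, upper bound -/
theorem ht (κ : ℝ) (hκ : 0 ≤ κ) : ∃ C : ℝ, 0 < C ∧ ∀ f : ℕ → ℝ, (∀ p, 0 ≤ f p) →
    (∀ p, f p ≤ κ) → ∀ x : ℕ, 3 ≤ x →
    ∑ n ∈ (range (x + 1)).filter Squarefree, ∏ p ∈ n.primeFactors, f p ≤
      C * (x / Real.log x) *
        Real.exp (∑' p : Nat.Primes, f p * ((p : ℕ) : ℝ) ^ (-(1 + 1 / Real.log x))) := by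
  have hl4 : 0 ≤ Real.log 4 := Real.log_nonneg (by norm_num)
  refine ⟨(1 + κ * Real.log 4) * Real.exp 1, by positivity, fun f hf hf' x hx => ?_⟩
  have hx0 : (0 : ℝ) < x := by exact_mod_cast (by omega : 0 < x)
  have hx1 : (1 : ℝ) < x := by exact_mod_cast (by omega : 1 < x)
  have hL : 0 < Real.log x := Real.log_pos hx1
  set M : ℝ := ∑ m ∈ HT_A x, HT_H f m / m with hM
  set S : ℝ := ∑ n ∈ HT_A x, HT_H f n with hS
  set E : ℝ := Real.exp (∑' p : Nat.Primes, f p * ((p : ℕ) : ℝ) ^ (-(1 + 1 / Real.log x)))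
    with hE
  have h1 := HT_one κ hκ f hf hf' x
  have h2 := HT_two f hf x hx
  have h3 := HT_three κ f hf hf' x (1 + 1 / Real.log x) (by
    have : 0 < 1 / Real.log x := by positivity
    linarith)
  have h4 : Real.log x * S ≤ (1 + κ * Real.log 4) * x * M := by
    have h5 : Real.log x * S = ∑ n ∈ HT_A x, HT_H f n * (Real.log x - Real.log n) +
        ∑ n ∈ HT_A x, HT_H f n * Real.log n := by
      rw [hS, Finset.mul_sum, ← Finset.sum_add_distrib]
      exact Finset.sum_congr rfl fun n _ => by ring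
    rw [h5]
    calc _ ≤ x * M + κ * Real.log 4 * x * M := add_le_add h2 h1
      _ = _ := by ring
  have h6 : M ≤ Real.exp 1 * E := by
    calc M ≤ Real.exp 1 * ∑ m ∈ HT_A x, HT_H f m * (m : ℝ) ^ (-(1 + 1 / Real.log x)) := by
          rw [hM, Finset.mul_sum]
          refine Finset.sum_le_sum fun m hm => ?_
          obtain ⟨hmx, hsq⟩ := HT_mem.mp hm
          have hm0 : (0 : ℝ) < m := by exact_mod_cast Nat.pos_of_ne_zero hsq.ne_zero
          have h7 : (m : ℝ) ^ (-(1 + 1 / Real.log x)) =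
              (m : ℝ)⁻¹ * ((m : ℝ) ^ (1 / Real.log x))⁻¹ := by
            rw [Real.rpow_neg hm0.le, Real.rpow_add hm0, Real.rpow_one, mul_inv]
          have h8 : (m : ℝ) ^ (1 / Real.log x) ≤ Real.exp 1 := by
            have h9 : (m : ℝ) ^ (1 / Real.log x) ≤ (x : ℝ) ^ (1 / Real.log x) :=
              Real.rpow_le_rpow hm0.le (by exact_mod_cast hmx) (by positivity)
            refine h9.trans (le_of_eq ?_)
            rw [Real.rpow_def_of_pos hx0, mul_one_div_cancel hL.ne']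
          have h10 : 0 < (m : ℝ) ^ (1 / Real.log x) := by positivity
          rw [h7]
          have h11 : 1 ≤ Real.exp 1 * ((m : ℝ) ^ (1 / Real.log x))⁻¹ := by
            rw [← div_eq_mul_inv, le_div_iff₀ h10]
            linarith
          have h12 : 0 ≤ HT_H f m / m := div_nonneg (HT_nonneg hf m) hm0.le
          calc HT_H f m / m ≤ HT_H f m / m * (Real.exp 1 * ((m : ℝ) ^ (1 / Real.log x))⁻¹) :=
                le_mul_of_one_le_right h12 h11
            _ = _ := by ring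
      _ ≤ Real.exp 1 * E := mul_le_mul_of_nonneg_left h3 (Real.exp_pos 1).le
  have h13 : 0 ≤ (1 + κ * Real.log 4) * x := by positivity
  have h14 : Real.log x * S ≤ (1 + κ * Real.log 4) * x * (Real.exp 1 * E) :=
    h4.trans (mul_le_mul_of_nonneg_left h6 h13)
  have h15 : S ≤ (1 + κ * Real.log 4) * Real.exp 1 * (x / Real.log x) * E := by
    have : (1 + κ * Real.log 4) * Real.exp 1 * (x / Real.log x) * E =
        ((1 + κ * Real.log 4) * x * (Real.exp 1 * E)) / Real.log x := by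
      field_simp
    rw [this, le_div_iff₀ hL]
    linarith
  exact h15

end PPA
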