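import Pool.Agent.Lib.MP_87c685_nt_PPA.Defs
import Pool.Agent.Lib.MP_87c685_nt_PPA.OSum

/-! Project PP15 (MP_87c685_nt), analytic block PPA, module LBa. -/

open Finset Filter Topology

namespace PPA

private noncomputable def LBa_f (m : ℤ) (n : ℕ) : ℝ := if Odd n then (jacobiSym m n : ℝ) else 0

private lemma LBa_f_abs (m : ℤ) (n : ℕ) : |LBa_f m n| ≤ 1 := by
  unfold LBa_f
  split_ifs
  · rcases jacobiSym.trichotomy m n with h | h | h <;> rw [h] <;> norm_num
  · norm_num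

private lemma LBa_F (m : ℤ) (hm : ¬ IsSquare m) (X : ℕ) :
    |∑ n ∈ range X, LBa_f m n| ≤ 4 * (m.natAbs : ℝ) := by
  have h := odd_sum_le m hm X
  rw [Finset.sum_filter] at h
  exact h

private lemma LBa_anti {s : ℝ} (hs : 0 < s) {n : ℕ} (hn : 1 ≤ n) :
    ((n + 1 : ℕ) : ℝ) ^ (-s) ≤ (n : ℝ) ^ (-s) := by
  apply Real.rpow_le_rpow_of_nonpos
  · exact_mod_cast hn
  · push_cast
    linarith
  · linarith

/-- Abel summation with a monotone weight -/
private lemma LBa_abel {f g : ℕ → ℝ} {M : ℝ} {q : ℕ}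
    (hF : ∀ X, |∑ n ∈ range X, f n| ≤ M) (hg : ∀ n, q ≤ n → g (n + 1) ≤ g n)
    (N : ℕ) (hN : q ≤ N) :
    (∑ n ∈ range N, f n * g n) - (∑ n ∈ range N, f n) * g N ≤
      (∑ n ∈ range q, f n * g n) - (∑ n ∈ range q, f n) * g q + M * (g q - g N) := by
  induction N, hN using Nat.le_induction with
  | base => simp
  | succ N hN ih =>
    have h1 := hg N hN
    have h2 := (abs_le.1 (hF (N + 1))).2
    have h3 : (∑ n ∈ range (N + 1), f n) * (g N - g (N + 1)) ≤ M * (g N - g (N + 1)) :=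
      mul_le_mul_of_nonneg_right h2 (by linarith)
    have h4 : ∑ n ∈ range (N + 1), f n * g n = ∑ n ∈ range N, f n * g n + f N * g N :=
      Finset.sum_range_succ _ _
    have h5 : ∑ n ∈ range (N + 1), f n = ∑ n ∈ range N, f n + f N := Finset.sum_range_succ _ _
    have h6 : (∑ n ∈ range (N + 1), f n) * g N = (∑ n ∈ range N, f n) * g N + f N * g N := by
      rw [h5]; ring
    rw [h4]
    linarith [mul_sub (∑ n ∈ range (N + 1), f n) (g N) (g (N + 1)),
      mul_sub M (g N) (g (N + 1)), mul_sub M (g q) (g N), mul_sub M (g q) (g (N + 1))]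

/-- upper bound for `L (1 + δ, (m / ·))` (odd part) -/
theorem lser_le (m : ℤ) (hm : ¬ IsSquare m) (δ : ℝ) (hδ : 0 < δ) (hδ1 : δ ≤ 1) :
    ∑' n : ℕ, (if Odd n then (jacobiSym m n : ℝ) else 0) * (n : ℝ) ^ (-(1 + δ)) ≤
      Real.log (4 * (m.natAbs : ℝ)) + 4 := by
  have hm0 : m ≠ 0 := by
    rintro rfl
    exact hm ⟨0, rfl⟩
  have hmpos : 0 < m.natAbs := Int.natAbs_pos.2 hm0
  obtain ⟨q, hq⟩ : ∃ q, q = 4 * m.natAbs := ⟨_, rfl⟩
  have hq1 : 1 ≤ q := by omega
  have hqr : (q : ℝ) = 4 * (m.natAbs : ℝ) := by rw [hq]; push_cast; ring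
  have hqr1 : (1 : ℝ) ≤ q := by exact_mod_cast hq1
  let g : ℕ → ℝ := fun n => (n : ℝ) ^ (-(1 + δ))
  have hg0 : ∀ n, 0 ≤ g n := fun n => Real.rpow_nonneg (Nat.cast_nonneg n) _
  change ∑' n : ℕ, LBa_f m n * g n ≤ _
  have hsum : Summable fun n : ℕ => LBa_f m n * g n := by
    have h1 : Summable g := Real.summable_nat_rpow.2 (by linarith)
    refine Summable.of_norm_bounded h1 fun n => ?_
    rw [Real.norm_eq_abs, abs_mul, abs_of_nonneg (hg0 n)]
    exact mul_le_of_le_one_left (hg0 n) (LBa_f_abs m n)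
  have hlim := hsum.hasSum.tendsto_sum_nat
  refine le_of_tendsto hlim ?_
  filter_upwards [eventually_ge_atTop (q + 1)] with N hN
  have hF : ∀ X, |∑ n ∈ range X, LBa_f m n| ≤ (q : ℝ) := by
    intro X
    rw [hqr]
    exact LBa_F m hm X
  have h1 := LBa_abel (g := g) hF
    (fun n (hn : q + 1 ≤ n) => LBa_anti (s := 1 + δ) (by linarith) (n := n) (by omega)) N hN
  -- bounds for `g`
  have hgq : (q : ℝ) * g (q + 1) ≤ 1 := by
    have h2 : g (q + 1) ≤ ((q + 1 : ℕ) : ℝ) ^ (-1 : ℝ) := by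
      apply Real.rpow_le_rpow_of_exponent_le
      · push_cast; linarith
      · linarith
    rw [Real.rpow_neg_one] at h2
    have h3 : (0 : ℝ) < ((q + 1 : ℕ) : ℝ) := by positivity
    calc (q : ℝ) * g (q + 1) ≤ q * (((q + 1 : ℕ) : ℝ))⁻¹ :=
          mul_le_mul_of_nonneg_left h2 (by linarith)
      _ ≤ 1 := by
          rw [← div_eq_mul_inv, div_le_one h3]
          push_cast; linarith
  -- the harmonic sum
  have hharm : ∑ n ∈ range (q + 1), LBa_f m n * g n ≤ 1 + Real.log q := by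
    rw [Finset.sum_range_succ']
    have h0 : LBa_f m 0 * g 0 = 0 := by
      have : LBa_f m 0 = 0 := by
        unfold LBa_f
        rw [if_neg (by decide)]
      rw [this, zero_mul]
    rw [h0, add_zero]
    have h2 := harmonic_le_one_add_log q
    refine le_trans ?_ h2
    rw [harmonic]
    push_cast
    refine Finset.sum_le_sum fun i _ => ?_
    have h3 : g (i + 1) ≤ ((i : ℝ) + 1)⁻¹ := by
      have h4 : g (i + 1) ≤ ((i + 1 : ℕ) : ℝ) ^ (-1 : ℝ) := by
        apply Real.rpow_le_rpow_of_exponent_le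
        · push_cast
          linarith [Nat.cast_nonneg (α := ℝ) i]
        · linarith
      rw [Real.rpow_neg_one] at h4
      push_cast at h4
      exact h4
    refine le_trans ?_ h3
    exact (mul_le_mul_of_nonneg_right (abs_le.1 (LBa_f_abs m (i + 1))).2 (hg0 _)).trans
      (by rw [one_mul])
  have h2 := (abs_le.1 (hF N)).2
  have h3 := (abs_le.1 (hF (q + 1))).1
  have h4 : (∑ n ∈ range N, LBa_f m n) * g N ≤ q * g N :=
    mul_le_mul_of_nonneg_right h2 (hg0 _)
  have h5 : -(q : ℝ) * g (q + 1) ≤ (∑ n ∈ range (q + 1), LBa_f m n) * g (q + 1) :=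
    mul_le_mul_of_nonneg_right h3 (hg0 _)
  rw [← hqr]
  linarith [mul_sub (q : ℝ) (g (q + 1)) (g N)]

end PPA
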