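import Pool.Agent.Lib.MP_87c685_nt_PPA.Defs

/-! Project PP15 (MP_87c685_nt), analytic block PPA, module LBb. -/

open Finset Filter Topology

namespace PPA

/-- Euler product bound -/
theorem exp_le_lser (m : ℤ) (δ : ℝ) (hδ : 0 < δ) :
    Real.exp (∑' p : Nat.Primes, (if (p : ℕ) = 2 then 0 else (jacobiSym m p : ℝ)) *
      ((p : ℕ) : ℝ) ^ (-(1 + δ))) ≤
    ∑' n : ℕ, (if Odd n then (jacobiSym m n : ℝ) else 0) * (n : ℝ) ^ (-(1 + δ)) := by
  sorry

end PPA
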