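import Pool.Agent.Lib.MP_87c685_nt_PPA.Defs
import Pool.Agent.Lib.MP_87c685_nt_PPA.LBa
import Pool.Agent.Lib.MP_87c685_nt_PPA.LBb

/-! Project PP15 (MP_87c685_nt), analytic block PPA, module LB. -/

open Finset Filter Topology

namespace PPA

private lemma LB_abs (m : ℤ) (n : ℕ) : |(jacobiSym m n : ℝ)| ≤ 1 := by
  have h : jacobiSym m n = 0 ∨ jacobiSym m n = 1 ∨ jacobiSym m n = -1 :=
    jacobiSym.trichotomy m n
  rcases h with h | h | h <;> rw [h] <;> norm_num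

private lemma LB_summable (c : Nat.Primes → ℝ) (hc : ∀ p, |c p| ≤ 1) (δ : ℝ)
    (hδ : 0 < δ) : Summable fun p : Nat.Primes => c p * ((p : ℕ) : ℝ) ^ (-(1 + δ)) := by
  have h1 : Summable fun p : Nat.Primes => ((p : ℕ) : ℝ) ^ (-(1 + δ)) :=
    Nat.Primes.summable_rpow.2 (by linarith)
  refine Summable.of_norm_bounded h1 fun p => ?_
  have h2 : 0 ≤ ((p : ℕ) : ℝ) ^ (-(1 + δ)) := by positivity
  rw [Real.norm_eq_abs, abs_mul, abs_of_nonneg h2]
  calc |c p| * ((p : ℕ) : ℝ) ^ (-(1 + δ)) ≤ 1 * ((p : ℕ) : ℝ) ^ (-(1 + δ)) :=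
        mul_le_mul_of_nonneg_right (hc p) h2
    _ = _ := one_mul _

/-- upper bound for the logarithm of `L (1 + δ, (m / ·))` -/
theorem lb : ∃ C : ℝ, ∀ m : ℤ, ¬ IsSquare m → ∀ δ : ℝ, 0 < δ → δ ≤ 1 →
    ∑' p : Nat.Primes, (jacobiSym m p : ℝ) * ((p : ℕ) : ℝ) ^ (-(1 + δ)) ≤
      Real.log (Real.log ((m.natAbs : ℝ) + 3)) + C := by
  refine ⟨Real.log 8 + 1 / 2, fun m hm δ hδ hδ1 => ?_⟩
  set g : Nat.Primes → ℝ := fun p => (if (p : ℕ) = 2 then 0 else (jacobiSym m p : ℝ)) *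
      ((p : ℕ) : ℝ) ^ (-(1 + δ)) with hg
  set h : Nat.Primes → ℝ := fun p => (if (p : ℕ) = 2 then (jacobiSym m p : ℝ) else 0) *
      ((p : ℕ) : ℝ) ^ (-(1 + δ)) with hh
  have hgs : Summable g := by
    refine LB_summable _ (fun p => ?_) δ hδ
    split_ifs
    · simp
    · exact LB_abs m p
  have hhs : Summable h := by
    refine LB_summable _ (fun p => ?_) δ hδ
    split_ifs
    · exact LB_abs m p
    · simp
  have hsum : ∑' p : Nat.Primes, (jacobiSym m p : ℝ) * ((p : ℕ) : ℝ) ^ (-(1 + δ)) =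
      ∑' p, g p + ∑' p, h p := by
    rw [← hgs.tsum_add hhs]
    refine tsum_congr fun p => ?_
    simp only [hg, hh]
    split_ifs <;> ring
  have hh2 : ∑' p, h p ≤ 1 / 2 := by
    have hex : ∃ q : Nat.Primes, (q : ℕ) = 2 := ⟨⟨2, Nat.prime_two⟩, rfl⟩
    obtain ⟨q, hq⟩ := hex
    have h20 : ∑' p, h p = h q := by
      refine tsum_eq_single q fun p hp => ?_
      have hp2 : (p : ℕ) ≠ 2 := fun h0 => hp (Subtype.ext (h0.trans hq.symm))
      simp [hh, hp2]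
    rw [h20]
    · simp only [hh, hq, if_true]
      have h3 : (0 : ℝ) ≤ ((2 : ℕ) : ℝ) ^ (-(1 + δ)) := by positivity
      have h4 : ((2 : ℕ) : ℝ) ^ (-(1 + δ)) ≤ 1 / 2 := by
        calc ((2 : ℕ) : ℝ) ^ (-(1 + δ)) ≤ ((2 : ℕ) : ℝ) ^ (-1 : ℝ) :=
              Real.rpow_le_rpow_of_exponent_le (by norm_num) (by linarith)
          _ = 1 / 2 := by rw [Real.rpow_neg_one]; norm_num
      have h5 : (jacobiSym m 2 : ℝ) ≤ 1 := (abs_le.1 (LB_abs m 2)).2
      calc (jacobiSym m 2 : ℝ) * ((2 : ℕ) : ℝ) ^ (-(1 + δ)) ≤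
            1 * ((2 : ℕ) : ℝ) ^ (-(1 + δ)) := mul_le_mul_of_nonneg_right h5 h3
        _ ≤ 1 / 2 := by rw [one_mul]; exact h4
  have h1 := exp_le_lser m δ hδ
  have h2 := lser_le m hm δ hδ hδ1
  have hm1 : 1 ≤ (m.natAbs : ℝ) := by
    have : m ≠ 0 := by
      rintro rfl
      exact hm ⟨0, rfl⟩
    exact_mod_cast Int.natAbs_pos.2 this
  set L := Real.log ((m.natAbs : ℝ) + 3) with hL
  have hL4 : 1 ≤ L := by
    have h6 : Real.log 4 ≤ L := Real.log_le_log (by norm_num) (by linarith)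
    have h7 : Real.log 4 = 2 * Real.log 2 := by
      rw [show (4 : ℝ) = 2 ^ 2 by norm_num, Real.log_pow]
      norm_num
    have h8 := Real.log_two_gt_d9
    linarith
  have h9 : Real.log (4 * (m.natAbs : ℝ)) + 4 ≤ 8 * L := by
    have h10 : Real.log (4 * (m.natAbs : ℝ)) ≤ 2 * L := by
      rw [Real.log_mul (by norm_num) (by linarith)]
      have h6 : Real.log 4 ≤ L := Real.log_le_log (by norm_num) (by linarith)
      have h7 : Real.log (m.natAbs : ℝ) ≤ L := Real.log_le_log (by linarith) (by linarith)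
      linarith
    linarith
  have h11 : ∑' p, g p ≤ Real.log (8 * L) := by
    rw [Real.le_log_iff_exp_le (by linarith)]
    exact (h1.trans h2).trans h9
  rw [hsum]
  rw [Real.log_mul (by norm_num) (by linarith)] at h11
  linarith

end PPA
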