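import Pool.Agent.Lib.MP_87c685_nt_PPA.Defs
import Pool.Agent.Lib.MP_87c685_nt_PPA.PSum
import Pool.Agent.Lib.MP_87c685_nt_PPA.HT
import Pool.Agent.Lib.MP_87c685_nt_PPA.LB

/-! Project PP15 (MP_87c685_nt), analytic block PPA, module KBz. -/

open Finset Filter Topology

namespace PPA

lemma KBz_abs_le_one (a : ℤ) (p : ℕ) : |(jacobiSym a p : ℝ)| ≤ 1 := by
  rcases jacobiSym.trichotomy a p with h | h | h <;> rw [h] <;> simp

lemma KBz_pair (a b : ℤ) (p : ℕ) :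
    |(jacobiSym a p : ℝ) + (jacobiSym b p : ℝ)| ≤ 1 + (jacobiSym (a * b) p : ℝ) := by
  rw [jacobiSym.mul_left]
  rcases jacobiSym.trichotomy a p with h | h | h <;>
  rcases jacobiSym.trichotomy b p with h' | h' | h' <;> rw [h, h'] <;> norm_num

lemma KBz_sum {V : Type} (U : Finset V) (m : V → ℤ) {u w : V} (hu : u ∈ U) (hw : w ∈ U)
    (huw : u ≠ w) (p : ℕ) :
    |∑ v ∈ U, (jacobiSym (m v) p : ℝ)| ≤
      (U.card : ℝ) - 1 + (jacobiSym (m u * m w) p : ℝ) := by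
  classical
  have hw' : w ∈ U.erase u := Finset.mem_erase.mpr ⟨huw.symm, hw⟩
  have h1 : ∑ v ∈ U, (jacobiSym (m v) p : ℝ) =
      ((jacobiSym (m u) p : ℝ) + (jacobiSym (m w) p : ℝ)) +
        ∑ v ∈ (U.erase u).erase w, (jacobiSym (m v) p : ℝ) := by
    rw [← Finset.add_sum_erase U _ hu, ← Finset.add_sum_erase (U.erase u) _ hw']
    ring
  have h2 : |∑ v ∈ (U.erase u).erase w, (jacobiSym (m v) p : ℝ)| ≤
      (((U.erase u).erase w).card : ℝ) := by
    refine (Finset.abs_sum_le_sum_abs _ _).trans ?_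
    refine (Finset.sum_le_card_nsmul _ _ 1 fun v _ => KBz_abs_le_one _ _).trans ?_
    simp
  have hc : (((U.erase u).erase w).card : ℝ) = (U.card : ℝ) - 2 := by
    have c1 := Finset.card_erase_add_one hw'
    have c2 := Finset.card_erase_add_one hu
    have : ((U.erase u).erase w).card + 2 = U.card := by omega
    rw [← this]
    push_cast
    ring
  have h3 := KBz_pair (m u) (m w) p
  rw [h1]
  refine (abs_add_le _ _).trans ?_
  linarith

open Classical in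
/-- the mean value of a proper average of real characters -/
theorem kb0 (N : ℕ) (hN : 0 < N) : ∃ C : ℝ, 0 < C ∧ ∀ {V : Type} (U : Finset V) (m : V → ℤ),
    U.card = N → ∀ u ∈ U, ∀ w ∈ U, ¬ IsSquare (m u * m w) → ∀ z x : ℕ, 3 ≤ x →
    ∑ n ∈ (range (x + 1)).filter (fun n => Squarefree n ∧ Rough z n),
      |∏ p ∈ n.primeFactors, (∑ v ∈ U, (jacobiSym (m v) p : ℝ)) / N| ≤
    C * x * (Real.log x) ^ (-(1 / (N : ℝ))) *
      (Real.log (((m u * m w).natAbs : ℝ) + 3)) ^ (1 / (N : ℝ)) * (1 + Real.log (z + 1)) ^ 3 := by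
  obtain ⟨C0, hC0, H0⟩ := ht 1 zero_le_one
  obtain ⟨C1, H1⟩ := tsum_prime_le
  obtain ⟨C3, H3⟩ := lb
  refine ⟨C0 * Real.exp (|C1| + |C3|), by positivity, ?_⟩
  intro V U m hU u hu w hw hsq z x hx
  have huw : u ≠ w := by
    rintro rfl
    exact hsq ⟨m u, rfl⟩
  have hN0 : (0 : ℝ) < N := by exact_mod_cast hN
  have hN2 : (2 : ℝ) ≤ N := by
    have : 1 < U.card := Finset.one_lt_card.mpr ⟨u, hu, w, hw, huw⟩
    rw [hU] at this
    exact_mod_cast this
  have hiN : 1 / (N : ℝ) ≤ 1 / 2 := one_div_le_one_div_of_le (by norm_num) hN2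
  have hiN0 : 0 < 1 / (N : ℝ) := by positivity
  set ψ : ℕ → ℝ := fun p => (jacobiSym (m u * m w) p : ℝ) with hψ
  have hψ1 : ∀ p, |ψ p| ≤ 1 := fun p => KBz_abs_le_one _ _
  set f : ℕ → ℝ := fun p => (1 - 1 / (N : ℝ)) + (1 / (N : ℝ)) * ψ p with hf
  have hf0 : ∀ p, 0 ≤ f p := by
    intro p
    have := (abs_le.mp (hψ1 p)).1
    simp only [hf]
    nlinarith
  have hf1 : ∀ p, f p ≤ 1 := by
    intro p
    have := (abs_le.mp (hψ1 p)).2
    simp only [hf]
    nlinarith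
  have hx0 : (0 : ℝ) < x := by exact_mod_cast (by omega : 0 < x)
  have hx3 : (3 : ℝ) ≤ x := by exact_mod_cast hx
  have hL1 : 1 ≤ Real.log x := by
    rw [Real.le_log_iff_exp_le hx0]
    exact le_trans Real.exp_one_lt_d9.le (by linarith)
  have hL0 : 0 < Real.log x := by linarith
  -- the pointwise bound
  have hpt : ∀ p : ℕ, |(∑ v ∈ U, (jacobiSym (m v) p : ℝ)) / N| ≤ f p := by
    intro p
    have h1 := KBz_sum U m hu hw huw p
    rw [hU] at h1
    rw [abs_div, abs_of_pos hN0, div_le_iff₀ hN0]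
    have : f p * N = (N : ℝ) - 1 + ψ p := by
      simp only [hf]
      field_simp
    rw [this]
    exact h1
  have hsum1 : ∑ n ∈ (range (x + 1)).filter (fun n => Squarefree n ∧ Rough z n),
      |∏ p ∈ n.primeFactors, (∑ v ∈ U, (jacobiSym (m v) p : ℝ)) / N| ≤
      ∑ n ∈ (range (x + 1)).filter Squarefree, ∏ p ∈ n.primeFactors, f p := by
    refine le_trans (Finset.sum_le_sum fun n _ => ?_)
      (Finset.sum_le_sum_of_subset_of_nonneg ?_ fun n _ _ => Finset.prod_nonneg fun p _ => hf0 p)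
    · rw [Finset.abs_prod]
      exact Finset.prod_le_prod (fun _ _ => abs_nonneg _) fun p _ => hpt p
    · intro n hn
      rw [Finset.mem_filter] at hn ⊢
      exact ⟨hn.1, hn.2.1⟩
  have hsum2 := H0 f hf0 hf1 x hx
  set δ : ℝ := 1 / Real.log x with hδ
  have hδ0 : 0 < δ := by positivity
  have hδ1 : δ ≤ 1 := by
    rw [hδ, div_le_one hL0]
    exact hL1
  have hS1 : Summable fun p : Nat.Primes => ((p : ℕ) : ℝ) ^ (-(1 + δ)) :=
    Nat.Primes.summable_rpow.mpr (by linarith)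
  have hS2 : Summable fun p : Nat.Primes => ψ p * ((p : ℕ) : ℝ) ^ (-(1 + δ)) := by
    refine Summable.of_norm_bounded hS1 fun p => ?_
    rw [norm_mul, Real.norm_eq_abs, Real.norm_of_nonneg (Real.rpow_nonneg (Nat.cast_nonneg _) _)]
    have := mul_le_mul_of_nonneg_right (hψ1 p)
      (Real.rpow_nonneg (Nat.cast_nonneg (p : ℕ)) (-(1 + δ)) : (0 : ℝ) ≤ _)
    linarith
  have htsum : ∑' p : Nat.Primes, f p * ((p : ℕ) : ℝ) ^ (-(1 + δ)) =
      (1 - 1 / (N : ℝ)) * ∑' p : Nat.Primes, ((p : ℕ) : ℝ) ^ (-(1 + δ)) +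
        (1 / (N : ℝ)) * ∑' p : Nat.Primes, ψ p * ((p : ℕ) : ℝ) ^ (-(1 + δ)) := by
    rw [← tsum_mul_left, ← tsum_mul_left, ← Summable.tsum_add (hS1.mul_left _) (hS2.mul_left _)]
    refine tsum_congr fun p => ?_
    simp only [hf]
    ring
  have hA := H1 δ hδ0 hδ1
  have hB := H3 (m u * m w) hsq δ hδ0 hδ1
  have h1δ : 1 / δ = Real.log x := by rw [hδ, one_div_one_div]
  rw [h1δ] at hA
  set M : ℝ := Real.log (((m u * m w).natAbs : ℝ) + 3) with hM
  have hM0 : 0 < M := Real.log_pos (by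
    have : (0 : ℝ) ≤ ((m u * m w).natAbs : ℝ) := Nat.cast_nonneg _
    linarith)
  have hexp : Real.exp (∑' p : Nat.Primes, f p * ((p : ℕ) : ℝ) ^ (-(1 + δ))) ≤
      Real.exp (|C1| + |C3|) * ((Real.log x) ^ (1 - 1 / (N : ℝ)) * M ^ (1 / (N : ℝ))) := by
    have e1 : (Real.log x) ^ (1 - 1 / (N : ℝ)) =
        Real.exp ((1 - 1 / (N : ℝ)) * Real.log (Real.log x)) := by
      rw [Real.rpow_def_of_pos hL0, mul_comm]
    have e2 : M ^ (1 / (N : ℝ)) = Real.exp ((1 / (N : ℝ)) * Real.log M) := by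
      rw [Real.rpow_def_of_pos hM0, mul_comm]
    rw [e1, e2, ← Real.exp_add, ← Real.exp_add, htsum]
    apply Real.exp_le_exp.mpr
    have a1 : (1 - 1 / (N : ℝ)) * ∑' p : Nat.Primes, ((p : ℕ) : ℝ) ^ (-(1 + δ)) ≤
        (1 - 1 / (N : ℝ)) * (Real.log (Real.log x) + C1) :=
      mul_le_mul_of_nonneg_left hA (by linarith)
    have a2 : (1 / (N : ℝ)) * ∑' p : Nat.Primes, ψ p * ((p : ℕ) : ℝ) ^ (-(1 + δ)) ≤
        (1 / (N : ℝ)) * (Real.log M + C3) :=
      mul_le_mul_of_nonneg_left hB hiN0.le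
    have a3 : (1 - 1 / (N : ℝ)) * C1 ≤ |C1| := by
      calc (1 - 1 / (N : ℝ)) * C1 ≤ (1 - 1 / (N : ℝ)) * |C1| :=
            mul_le_mul_of_nonneg_left (le_abs_self _) (by linarith)
        _ ≤ 1 * |C1| := mul_le_mul_of_nonneg_right (by linarith) (abs_nonneg _)
        _ = |C1| := one_mul _
    have a4 : (1 / (N : ℝ)) * C3 ≤ |C3| := by
      calc (1 / (N : ℝ)) * C3 ≤ (1 / (N : ℝ)) * |C3| :=
            mul_le_mul_of_nonneg_left (le_abs_self _) hiN0.le
        _ ≤ 1 * |C3| := mul_le_mul_of_nonneg_right (by linarith) (abs_nonneg _)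
        _ = |C3| := one_mul _
    nlinarith
  have hzl : 1 ≤ (1 + Real.log ((z : ℝ) + 1)) ^ 3 := by
    have : 0 ≤ Real.log ((z : ℝ) + 1) := Real.log_nonneg (by
      have : (0 : ℝ) ≤ z := Nat.cast_nonneg z
      linarith)
    exact one_le_pow₀ (by linarith)
  have hfin : C0 * (x / Real.log x) *
      Real.exp (∑' p : Nat.Primes, f p * ((p : ℕ) : ℝ) ^ (-(1 + δ))) ≤
      C0 * Real.exp (|C1| + |C3|) * x * (Real.log x) ^ (-(1 / (N : ℝ))) *
        M ^ (1 / (N : ℝ)) := by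
    have e3 : (Real.log x) ^ (1 - 1 / (N : ℝ)) =
        Real.log x * (Real.log x) ^ (-(1 / (N : ℝ))) := by
      rw [sub_eq_add_neg, Real.rpow_add hL0, Real.rpow_one]
    calc C0 * (x / Real.log x) *
          Real.exp (∑' p : Nat.Primes, f p * ((p : ℕ) : ℝ) ^ (-(1 + δ)))
        ≤ C0 * (x / Real.log x) * (Real.exp (|C1| + |C3|) *
          ((Real.log x) ^ (1 - 1 / (N : ℝ)) * M ^ (1 / (N : ℝ)))) :=
          mul_le_mul_of_nonneg_left hexp (by positivity)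
      _ = C0 * Real.exp (|C1| + |C3|) * x * (Real.log x) ^ (-(1 / (N : ℝ))) *
        M ^ (1 / (N : ℝ)) := by
          rw [e3]
          field_simp
  have hpos : 0 ≤ C0 * Real.exp (|C1| + |C3|) * x * (Real.log x) ^ (-(1 / (N : ℝ))) *
        M ^ (1 / (N : ℝ)) := by positivity
  calc _ ≤ _ := hsum1
    _ ≤ _ := hsum2
    _ ≤ _ := hfin
    _ ≤ _ := le_mul_of_one_le_right hpos hzl

end PPA
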