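import Pool.Agent.Lib.MP_87c685_nt_PPA.Defs

/-! Project PP15 (MP_87c685_nt), analytic block PPA, module SgT. -/

open Finset Filter Topology

namespace PPA

theorem SgT_expand (θ : Fin 4 → Fin 2) :
    tt θ = (-1) ^ (θ 0 : ℕ) * 2 ^ (θ 1 : ℕ) * 3 ^ (θ 2 : ℕ) * 5 ^ (θ 3 : ℕ) := by
  simp [tt, Fin.prod_univ_four]

theorem SgT_ne (θ : Fin 4 → Fin 2) : tt θ ≠ 0 := by
  rw [SgT_expand]
  have h1 : ((-1 : ℤ)) ^ (θ 0 : ℕ) ≠ 0 := pow_ne_zero _ (by norm_num)
  positivity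

theorem SgT_even {p : ℕ} (hp : p.Prime) {a c k : ℕ} (hc : ¬ p ∣ c)
    (h : p ^ a * c = k ^ 2) : Even a := by
  have hc0 : c ≠ 0 := by
    rintro rfl
    exact hc (dvd_zero _)
  have h1 : (p ^ a * c).factorization p = (k ^ 2).factorization p := by rw [h]
  rw [Nat.factorization_mul (pow_ne_zero _ hp.ne_zero) hc0, Nat.factorization_pow,
    Nat.factorization_pow] at h1
  simp only [Finsupp.coe_add, Finsupp.coe_smul, Pi.add_apply, Pi.smul_apply, smul_eq_mul,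
    hp.factorization_self, mul_one] at h1
  rw [Nat.factorization_eq_zero_of_not_dvd hc] at h1
  exact ⟨k.factorization p, by omega⟩

theorem SgT_eq {a b : Fin 2} (h : Even ((a : ℕ) + (b : ℕ))) : a = b := by
  revert h
  revert a b
  decide

/-- the integers of different characters differ by a non-square, also after multiplication with
a number prime to `30` -/
theorem tt_not_square (θ θ' : Fin 4 → Fin 2) (M : ℕ) (hM : M.Coprime 30)
    (h : θ ≠ θ' ∨ ¬ IsSquare M) : ¬ IsSquare (tt θ * tt θ' * M) := by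
  intro hsq
  obtain ⟨k, hk⟩ := hsq
  have hM0 : M ≠ 0 := by
    rintro rfl
    norm_num at hM
  have h2 : ¬ 2 ∣ M := fun hd => by
    have := Nat.dvd_gcd hd (show 2 ∣ 30 by norm_num)
    rw [hM] at this
    norm_num at this
  have h3 : ¬ 3 ∣ M := fun hd => by
    have := Nat.dvd_gcd hd (show 3 ∣ 30 by norm_num)
    rw [hM] at this
    norm_num at this
  have h5 : ¬ 5 ∣ M := fun hd => by
    have := Nat.dvd_gcd hd (show 5 ∣ 30 by norm_num)
    rw [hM] at this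
    norm_num at this
  have hprod : tt θ * tt θ' * (M : ℤ)
      = (-1) ^ ((θ 0 : ℕ) + (θ' 0 : ℕ)) * (2 ^ ((θ 1 : ℕ) + (θ' 1 : ℕ)) *
        3 ^ ((θ 2 : ℕ) + (θ' 2 : ℕ)) * 5 ^ ((θ 3 : ℕ) + (θ' 3 : ℕ)) * (M : ℤ)) := by
    rw [SgT_expand, SgT_expand]
    ring
  have hnat : 2 ^ ((θ 1 : ℕ) + (θ' 1 : ℕ)) *
      3 ^ ((θ 2 : ℕ) + (θ' 2 : ℕ)) * 5 ^ ((θ 3 : ℕ) + (θ' 3 : ℕ)) * M = k.natAbs ^ 2 := by
    have h6 := congrArg Int.natAbs (hprod.symm.trans hk)
    rw [Int.natAbs_mul, Int.natAbs_pow, Int.natAbs_neg, Int.natAbs_one, one_pow, one_mul,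
      Int.natAbs_mul k k] at h6
    simpa [Int.natAbs_mul, Int.natAbs_pow, sq] using h6
  have e1 : θ 1 = θ' 1 := by
    apply SgT_eq
    apply SgT_even Nat.prime_two (c := 3 ^ ((θ 2 : ℕ) + (θ' 2 : ℕ)) *
      5 ^ ((θ 3 : ℕ) + (θ' 3 : ℕ)) * M) (k := k.natAbs)
    · rw [Nat.prime_two.dvd_mul, Nat.prime_two.dvd_mul]
      rintro ((hd | hd) | hd)
      · have := Nat.prime_two.dvd_of_dvd_pow hd
        norm_num at this
      · have := Nat.prime_two.dvd_of_dvd_pow hd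
        norm_num at this
      · exact h2 hd
    · rw [← hnat]
      ring
  have e2 : θ 2 = θ' 2 := by
    apply SgT_eq
    apply SgT_even Nat.prime_three (c := 2 ^ ((θ 1 : ℕ) + (θ' 1 : ℕ)) *
      5 ^ ((θ 3 : ℕ) + (θ' 3 : ℕ)) * M) (k := k.natAbs)
    · rw [Nat.prime_three.dvd_mul, Nat.prime_three.dvd_mul]
      rintro ((hd | hd) | hd)
      · have := Nat.prime_three.dvd_of_dvd_pow hd
        norm_num at this
      · have := Nat.prime_three.dvd_of_dvd_pow hd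
        norm_num at this
      · exact h3 hd
    · rw [← hnat]
      ring
  have e3 : θ 3 = θ' 3 := by
    apply SgT_eq
    apply SgT_even Nat.prime_five (c := 2 ^ ((θ 1 : ℕ) + (θ' 1 : ℕ)) *
      3 ^ ((θ 2 : ℕ) + (θ' 2 : ℕ)) * M) (k := k.natAbs)
    · rw [Nat.prime_five.dvd_mul, Nat.prime_five.dvd_mul]
      rintro ((hd | hd) | hd)
      · have := Nat.prime_five.dvd_of_dvd_pow hd
        norm_num at this
      · have := Nat.prime_five.dvd_of_dvd_pow hd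
        norm_num at this
      · exact h5 hd
    · rw [← hnat]
      ring
  have e0 : θ 0 = θ' 0 := by
    apply SgT_eq
    by_contra hodd
    rw [Nat.not_even_iff_odd] at hodd
    rw [hprod, hodd.neg_one_pow] at hk
    have hpos : (0 : ℤ) < 2 ^ ((θ 1 : ℕ) + (θ' 1 : ℕ)) *
        3 ^ ((θ 2 : ℕ) + (θ' 2 : ℕ)) * 5 ^ ((θ 3 : ℕ) + (θ' 3 : ℕ)) * (M : ℤ) := by
      have : (0 : ℤ) < (M : ℤ) := by exact_mod_cast Nat.pos_of_ne_zero hM0
      positivity
    have := mul_self_nonneg k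
    linarith
  have hθ : θ = θ' := by
    funext i
    fin_cases i
    · exact e0
    · exact e1
    · exact e2
    · exact e3
  rcases h with h | h
  · exact h hθ
  · apply h
    subst hθ
    have hk2 : tt θ ^ 2 * (M : ℤ) = k ^ 2 := by
      rw [sq, sq]
      exact hk
    have hd : tt θ ∣ k := by
      rw [← Int.pow_dvd_pow_iff (two_ne_zero)]
      exact ⟨_, hk2.symm⟩
    obtain ⟨m, rfl⟩ := hd
    have hM2 : (M : ℤ) = m ^ 2 := by
      have h7 : tt θ ^ 2 * (M : ℤ) = tt θ ^ 2 * m ^ 2 := by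
        rw [hk2]
        ring
      exact mul_left_cancel₀ (pow_ne_zero 2 (SgT_ne θ)) h7
    refine ⟨m.natAbs, ?_⟩
    have h8 := congrArg Int.natAbs hM2
    rw [Int.natAbs_natCast, Int.natAbs_pow] at h8
    rw [h8, sq]

theorem tt_le (θ : Fin 4 → Fin 2) : (tt θ).natAbs ≤ 30 := by
  rw [SgT_expand, Int.natAbs_mul, Int.natAbs_mul, Int.natAbs_mul, Int.natAbs_pow,
    Int.natAbs_pow, Int.natAbs_pow, Int.natAbs_pow]
  have h0 : (Int.natAbs (-1)) ^ (θ 0 : ℕ) ≤ 1 := by simp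
  have h1 : (Int.natAbs 2) ^ (θ 1 : ℕ) ≤ 2 := by
    calc (Int.natAbs 2) ^ (θ 1 : ℕ) ≤ (Int.natAbs 2) ^ 1 :=
          Nat.pow_le_pow_right (by norm_num) (by omega)
      _ = 2 := rfl
  have h2 : (Int.natAbs 3) ^ (θ 2 : ℕ) ≤ 3 := by
    calc (Int.natAbs 3) ^ (θ 2 : ℕ) ≤ (Int.natAbs 3) ^ 1 :=
          Nat.pow_le_pow_right (by norm_num) (by omega)
      _ = 3 := rfl
  have h3 : (Int.natAbs 5) ^ (θ 3 : ℕ) ≤ 5 := by
    calc (Int.natAbs 5) ^ (θ 3 : ℕ) ≤ (Int.natAbs 5) ^ 1 :=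
          Nat.pow_le_pow_right (by norm_num) (by omega)
      _ = 5 := rfl
  calc _ ≤ 1 * 2 * 3 * 5 := by gcongr
    _ = 30 := by norm_num

theorem tt_ne_zero (θ : Fin 4 → Fin 2) : tt θ ≠ 0 := SgT_ne θ

end PPA
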