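import Pool.Agent.Lib.MP_87c685_nt_PPA.Defs
import Pool.Agent.Lib.MP_87c685_nt_PPA.KBz
import Pool.Agent.Lib.MP_87c685_nt_PPA.Lab
import Pool.Agent.Lib.MP_87c685_nt_PPA.Sgn
import Pool.Agent.Lib.MP_87c685_nt_PPA.SgT
import Pool.Agent.Lib.MP_87c685_nt_PPA.Fou

/-! Project PP15 (MP_87c685_nt), analytic block PPA, module KB. -/

open Finset Filter Topology

namespace PPA

/-- members of `EE` have sign vectors in `SS` -/
theorem KB_mem {V : Type} [Fintype V] [DecidableEq V] (U : Finset V) (z x : ℕ) (E : V → ℕ)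
    (hE : E ∈ EE U z x) : (fun v => sg (E v)) ∈ SS U := by
  classical
  rw [EE, Finset.mem_filter, Dall, Finset.mem_filter] at hE
  obtain ⟨⟨-, ⟨-, h30⟩, -⟩, hsupp, -⟩ := hE
  rw [SS, Fintype.mem_piFinset]
  intro v
  by_cases hv : v ∈ U
  · rw [if_pos hv]
    exact sg_mem _ (Nat.Coprime.coprime_dvd_left (Finset.dvd_prod_of_mem E (mem_univ v)) h30)
  · rw [if_neg hv, Finset.mem_singleton]
    have h1 : E v = 1 := by
      by_contra h
      exact hv (hsupp (by rw [supp, Finset.mem_filter]; exact ⟨mem_univ v, h⟩))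
    show sg (E v) = 1
    rw [h1, sg_one]

/-- the local factors -/
noncomputable def KB_f {V : Type} [DecidableEq V] (U : Finset V) (m : V → ℤ) (v : V) (n : ℕ) : ℝ :=
  if v ∈ U then (jacobiSym (m v) n : ℝ) else (if n = 1 then 1 else 0)

theorem KB_f_one {V : Type} [DecidableEq V] (U : Finset V) (m : V → ℤ) (v : V) :
    KB_f U m v 1 = 1 := by
  unfold KB_f
  by_cases hv : v ∈ U
  · rw [if_pos hv, jacobiSym.one_right]; norm_num
  · rw [if_neg hv, if_pos rfl]

theorem KB_f_mul {V : Type} [DecidableEq V] (U : Finset V) (m : V → ℤ) (v : V) (a b : ℕ)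
    (hab : Nat.Coprime a b) : KB_f U m v (a * b) = KB_f U m v a * KB_f U m v b := by
  unfold KB_f
  by_cases hv : v ∈ U
  · rw [if_pos hv, if_pos hv, if_pos hv]
    rcases Nat.eq_zero_or_pos a with ha | ha
    · subst ha
      rw [Nat.coprime_zero_left] at hab
      subst hab
      rw [mul_one, jacobiSym.one_right]
      norm_num
    · rcases Nat.eq_zero_or_pos b with hb | hb
      · subst hb
        rw [Nat.coprime_zero_right] at hab
        subst hab
        rw [one_mul, jacobiSym.one_right]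
        norm_num
      · have : NeZero a := ⟨ha.ne'⟩
        have : NeZero b := ⟨hb.ne'⟩
        rw [jacobiSym.mul_right]
        push_cast
        ring
  · rw [if_neg hv, if_neg hv, if_neg hv]
    by_cases h1 : a = 1
    · by_cases h2 : b = 1
      · simp [h1, h2]
      · simp [h1, h2]
    · have : a * b ≠ 1 := by
        intro h
        exact h1 (Nat.eq_one_of_mul_eq_one_right h)
      simp [h1, this]

open Classical in
/-- the inner sum is a sum over integers -/
theorem KB_inner {V : Type} [Fintype V] [DecidableEq V] (U : Finset V) (m : V → ℤ) (z x : ℕ) :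
    ∑ E ∈ EE U z x, wt U.card (∏ v, E v) * ∏ v ∈ U, (jacobiSym (m v) (E v) : ℝ) =
    ∑ n ∈ (range (x + 1)).filter (fun n => Ok n),
      (if Rough z n then 1 else 0) *
      ∏ p ∈ n.primeFactors, (∑ v ∈ U, (jacobiSym (m v) p : ℝ)) / U.card := by
  classical
  let g : (V → ℕ) → ℝ := fun E =>
    (if Rough z (∏ v, E v) then wt U.card (∏ v, E v) else 0) * ∏ v, KB_f U m v (E v)
  have h1 : ∑ E ∈ EE U z x, wt U.card (∏ v, E v) * ∏ v ∈ U, (jacobiSym (m v) (E v) : ℝ) =
      ∑ E ∈ Dall V x, g E := by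
    rw [EE, Finset.sum_filter]
    refine Finset.sum_congr rfl (fun E _ => ?_)
    have hsplit : ∏ v, KB_f U m v (E v) =
        (∏ v ∈ U, (jacobiSym (m v) (E v) : ℝ)) * ∏ v ∈ Uᶜ, (if E v = 1 then (1 : ℝ) else 0) := by
      rw [← Finset.prod_mul_prod_compl U (fun v => KB_f U m v (E v))]
      congr 1
      · refine Finset.prod_congr rfl (fun v hv => ?_)
        unfold KB_f
        rw [if_pos hv]
      · refine Finset.prod_congr rfl (fun v hv => ?_)
        unfold KB_f
        rw [if_neg (Finset.mem_compl.1 hv)]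
    have hcomp : ∏ v ∈ Uᶜ, (if E v = 1 then (1 : ℝ) else 0) = if supp E ⊆ U then 1 else 0 := by
      by_cases hs : supp E ⊆ U
      · rw [if_pos hs]
        refine Finset.prod_eq_one (fun v hv => ?_)
        rw [if_pos]
        by_contra h
        exact (Finset.mem_compl.1 hv) (hs (by rw [supp, Finset.mem_filter]; exact ⟨mem_univ v, h⟩))
      · rw [if_neg hs]
        obtain ⟨v, hv, hvU⟩ := Finset.not_subset.1 hs
        refine Finset.prod_eq_zero (Finset.mem_compl.2 hvU) ?_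
        rw [supp, Finset.mem_filter] at hv
        rw [if_neg hv.2]
    show _ = (if Rough z (∏ v, E v) then wt U.card (∏ v, E v) else 0) * ∏ v, KB_f U m v (E v)
    rw [hsplit, hcomp]
    by_cases hs : supp E ⊆ U
    · by_cases hr : Rough z (∏ v, E v)
      · rw [if_pos ⟨hs, hr⟩, if_pos hr, if_pos hs]
        ring
      · rw [if_neg (fun h => hr h.2), if_neg hr]
        ring
    · rw [if_neg (fun h => hs h.1), if_neg hs]
      ring
  rw [h1, sum_Dall]
  refine Finset.sum_congr rfl (fun n hn => ?_)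
  have hok : Ok n := (Finset.mem_filter.1 hn).2
  have h2 : ∑ D ∈ DD V n, g D =
      (if Rough z n then wt U.card n else 0) * ∑ D ∈ DD V n, ∏ v, KB_f U m v (D v) := by
    rw [Finset.mul_sum]
    refine Finset.sum_congr rfl (fun D hD => ?_)
    have hDn : ∏ v, D v = n := by
      rw [DD, Finset.mem_filter] at hD
      exact hD.2
    show (if Rough z (∏ v, D v) then wt U.card (∏ v, D v) else 0) * _ = _
    rw [hDn]
  rw [h2, sum_DD_mul n hok.1 (KB_f U m) (KB_f_one U m) (KB_f_mul U m)]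
  have h3 : ∏ p ∈ n.primeFactors, ∑ v, KB_f U m v p =
      ∏ p ∈ n.primeFactors, ∑ v ∈ U, (jacobiSym (m v) p : ℝ) := by
    refine Finset.prod_congr rfl (fun p hp => ?_)
    have hp1 : p ≠ 1 := (Nat.prime_of_mem_primeFactors hp).ne_one
    rw [← Finset.sum_add_sum_compl U]
    have h4 : ∑ v ∈ Uᶜ, KB_f U m v p = 0 := by
      refine Finset.sum_eq_zero (fun v hv => ?_)
      unfold KB_f
      rw [if_neg (Finset.mem_compl.1 hv), if_neg hp1]
    rw [h4, add_zero]
    refine Finset.sum_congr rfl (fun v hv => ?_)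
    unfold KB_f
    rw [if_pos hv]
  rw [h3, Finset.prod_div_distrib, Finset.prod_const, wt]
  split_ifs
  · ring
  · ring

/-- the sum over rough numbers with labels in `U` and characters which are not all equal -/
theorem kb {V : Type} [Fintype V] [DecidableEq V] (U : Finset V) (hU : U.Nonempty) :
    ∃ C : ℝ, 0 < C ∧ ∀ M : V → ℕ, (∀ u ∈ U, (M u).Coprime 30) → (∀ u ∈ U, M u ≠ 0) →
    ∀ u ∈ U, ∀ w ∈ U, ¬ IsSquare (M u * M w) → ∀ Q : ℕ, M u * M w ≤ Q →
    ∀ H : (V → Fin 4 → ℤ) → ℝ, (∀ s, |H s| ≤ 1) → ∀ z x : ℕ, 3 ≤ x →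
    |∑ E ∈ EE U z x, wt U.card (∏ v, E v) * H (fun v => sg (E v)) *
      ∏ v ∈ U, (jacobiSym (M v) (E v) : ℝ)| ≤
    C * x * (Real.log x) ^ (-(1 / (U.card : ℝ))) *
      (Real.log (900 * (Q : ℝ) + 3)) ^ (1 / (U.card : ℝ)) * (1 + Real.log (z + 1)) ^ 3 := by
  classical
  obtain ⟨C0, hC0, hk⟩ := kb0 U.card hU.card_pos
  have hKpos : 0 < (Fintype.card (V → Fin 4 → Fin 2) : ℝ) := by
    exact_mod_cast Fintype.card_pos
  refine ⟨(Fintype.card (V → Fin 4 → Fin 2) : ℝ) * C0, mul_pos hKpos hC0, ?_⟩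
  intro M hM hM0 u hu w hw hsq Q hQ H hH z x hx
  have hx1 : (1 : ℝ) ≤ x := by
    exact_mod_cast (show 1 ≤ x by omega)
  have hlogx : 0 ≤ Real.log x := Real.log_nonneg hx1
  have hlogz : 0 ≤ Real.log ((z : ℝ) + 1) := Real.log_nonneg (by
    have : (0 : ℝ) ≤ z := Nat.cast_nonneg z
    linarith)
  have hpow : (0 : ℝ) ≤ (Real.log x) ^ (-(1 / (U.card : ℝ))) := Real.rpow_nonneg hlogx _
  have key : ∀ θ : V → Fin 4 → Fin 2,
      |∑ E ∈ EE U z x, wt U.card (∏ v, E v) *
        (∏ v ∈ U, ∏ i, (sg (E v) i : ℝ) ^ (θ v i : ℕ)) *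
        ∏ v ∈ U, (jacobiSym (M v) (E v) : ℝ)| ≤
      C0 * x * (Real.log x) ^ (-(1 / (U.card : ℝ))) *
        (Real.log (900 * (Q : ℝ) + 3)) ^ (1 / (U.card : ℝ)) * (1 + Real.log (z + 1)) ^ 3 := by
    intro θ
    have e1 : ∑ E ∈ EE U z x, wt U.card (∏ v, E v) *
        (∏ v ∈ U, ∏ i, (sg (E v) i : ℝ) ^ (θ v i : ℕ)) *
        ∏ v ∈ U, (jacobiSym (M v) (E v) : ℝ) =
        ∑ E ∈ EE U z x, wt U.card (∏ v, E v) *
          ∏ v ∈ U, (jacobiSym (tt (θ v) * M v) (E v) : ℝ) := by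
      refine Finset.sum_congr rfl (fun E _ => ?_)
      rw [mul_assoc, ← Finset.prod_mul_distrib]
      congr 1
      refine Finset.prod_congr rfl (fun v _ => ?_)
      rw [jacobiSym.mul_left, ← sg_tt]
      push_cast
      rfl
    rw [e1, KB_inner U (fun v => tt (θ v) * (M v : ℤ)) z x]
    have hns : ¬ IsSquare ((tt (θ u) * (M u : ℤ)) * (tt (θ w) * (M w : ℤ))) := by
      have h1 := tt_not_square (θ u) (θ w) (M u * M w)
        (Nat.Coprime.mul_left (hM u hu) (hM w hw)) (Or.inr hsq)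
      have h2 : (tt (θ u) * (M u : ℤ)) * (tt (θ w) * (M w : ℤ)) =
          tt (θ u) * tt (θ w) * ((M u * M w : ℕ) : ℤ) := by
        push_cast
        ring
      rw [h2]
      exact h1
    have h3 := hk U (fun v => tt (θ v) * (M v : ℤ)) rfl u hu w hw hns z x hx
    have hnat : ((((tt (θ u) * (M u : ℤ)) * (tt (θ w) * (M w : ℤ))).natAbs : ℕ) : ℝ) ≤
        900 * (Q : ℝ) := by
      have h4 : ((tt (θ u) * (M u : ℤ)) * (tt (θ w) * (M w : ℤ))).natAbs ≤ 900 * Q := by
        rw [Int.natAbs_mul, Int.natAbs_mul, Int.natAbs_mul, Int.natAbs_natCast,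
          Int.natAbs_natCast]
        calc (tt (θ u)).natAbs * M u * ((tt (θ w)).natAbs * M w)
            ≤ 30 * M u * (30 * M w) :=
              Nat.mul_le_mul (Nat.mul_le_mul_right _ (tt_le _)) (Nat.mul_le_mul_right _ (tt_le _))
          _ = 900 * (M u * M w) := by ring
          _ ≤ 900 * Q := Nat.mul_le_mul_left _ hQ
      exact_mod_cast h4
    have hlog : (Real.log (((((tt (θ u) * (M u : ℤ)) * (tt (θ w) * (M w : ℤ))).natAbs : ℕ) : ℝ)
        + 3)) ^ (1 / (U.card : ℝ)) ≤ (Real.log (900 * (Q : ℝ) + 3)) ^ (1 / (U.card : ℝ)) := by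
      refine Real.rpow_le_rpow (Real.log_nonneg ?_) (Real.log_le_log ?_ ?_) (by positivity)
      · have : (0 : ℝ) ≤ ((((tt (θ u) * (M u : ℤ)) * (tt (θ w) * (M w : ℤ))).natAbs : ℕ) : ℝ) :=
          Nat.cast_nonneg _
        linarith
      · positivity
      · linarith
    refine le_trans (le_trans (Finset.abs_sum_le_sum_abs _ _) (le_trans ?_ h3)) ?_
    · rw [Finset.sum_filter, Finset.sum_filter]
      refine Finset.sum_le_sum (fun n _ => ?_)
      by_cases ho : Ok n
      · by_cases hr : Rough z n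
        · rw [if_pos ho, if_pos hr, if_pos ⟨ho.1, hr⟩, one_mul]
        · rw [if_pos ho, if_neg hr, if_neg (fun h => hr h.2), zero_mul, abs_zero]
      · rw [if_neg ho]
        split_ifs
        · exact abs_nonneg _
        · exact le_rfl
    · refine mul_le_mul_of_nonneg_right ?_ (by positivity)
      refine mul_le_mul_of_nonneg_left hlog ?_
      have : (0 : ℝ) ≤ C0 * x := by positivity
      exact mul_nonneg this hpow
  have hexp : ∑ E ∈ EE U z x, wt U.card (∏ v, E v) * H (fun v => sg (E v)) *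
      ∏ v ∈ U, (jacobiSym (M v) (E v) : ℝ) =
      ∑ θ : V → Fin 4 → Fin 2, hat U H θ * ∑ E ∈ EE U z x, wt U.card (∏ v, E v) *
        (∏ v ∈ U, ∏ i, (sg (E v) i : ℝ) ^ (θ v i : ℕ)) *
        ∏ v ∈ U, (jacobiSym (M v) (E v) : ℝ) := by
    simp_rw [Finset.mul_sum]
    rw [Finset.sum_comm]
    refine Finset.sum_congr rfl (fun E hE => ?_)
    rw [fourier U H _ (KB_mem U z x E hE), Finset.mul_sum, Finset.sum_mul]
    refine Finset.sum_congr rfl (fun θ _ => ?_)
    ring
  rw [hexp]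
  calc |∑ θ : V → Fin 4 → Fin 2, hat U H θ * ∑ E ∈ EE U z x, wt U.card (∏ v, E v) *
        (∏ v ∈ U, ∏ i, (sg (E v) i : ℝ) ^ (θ v i : ℕ)) *
        ∏ v ∈ U, (jacobiSym (M v) (E v) : ℝ)|
      ≤ ∑ θ : V → Fin 4 → Fin 2, |hat U H θ * ∑ E ∈ EE U z x, wt U.card (∏ v, E v) *
        (∏ v ∈ U, ∏ i, (sg (E v) i : ℝ) ^ (θ v i : ℕ)) *
        ∏ v ∈ U, (jacobiSym (M v) (E v) : ℝ)| := Finset.abs_sum_le_sum_abs _ _
    _ ≤ ∑ _θ : V → Fin 4 → Fin 2, 1 * (C0 * x * (Real.log x) ^ (-(1 / (U.card : ℝ))) *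
        (Real.log (900 * (Q : ℝ) + 3)) ^ (1 / (U.card : ℝ)) * (1 + Real.log (z + 1)) ^ 3) := by
        refine Finset.sum_le_sum (fun θ _ => ?_)
        rw [abs_mul]
        exact mul_le_mul (hat_le U H 1 (fun s _ => hH s) θ) (key θ) (abs_nonneg _) zero_le_one
    _ = _ := by
        rw [Finset.sum_const, Finset.card_univ, nsmul_eq_mul]
        ring

end PPA
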