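import Pool.Agent.Lib.MP_87c685_nt_PPA.Defs
import Pool.Agent.Lib.MP_87c685_nt_PPA.KBz
import Pool.Agent.Lib.MP_87c685_nt_PPA.Lab
import Pool.Agent.Lib.MP_87c685_nt_PPA.Sgn
import Pool.Agent.Lib.MP_87c685_nt_PPA.SgT
import Pool.Agent.Lib.MP_87c685_nt_PPA.Fou
import Pool.Agent.Lib.MP_87c685_nt_PPA.Recip
import Pool.Agent.Lib.MP_87c685_nt_PPA.FMul
import Pool.Agent.Lib.MP_87c685_nt_PPA.KB

/-! Project PP15 (MP_87c685_nt), analytic block PPA, module EU. -/

open Finset Filter Topology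

namespace PPA

open Classical in
/-- product of the local factors with trivial characters -/
theorem EU_ind {V : Type} [Fintype V] [DecidableEq V] (U : Finset V) (D : V → ℕ) :
    ∏ v, KB_f U (fun _ => (1 : ℤ)) v (D v) = if supp D ⊆ U then 1 else 0 := by
  by_cases hs : supp D ⊆ U
  · rw [if_pos hs]
    refine Finset.prod_eq_one (fun v _ => ?_)
    unfold KB_f
    by_cases hv : v ∈ U
    · rw [if_pos hv, jacobiSym.one_left]
      norm_num
    · rw [if_neg hv, if_pos]
      by_contra h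
      exact hv (hs (by rw [supp, Finset.mem_filter]; exact ⟨mem_univ v, h⟩))
  · rw [if_neg hs]
    obtain ⟨v, hv, hvU⟩ := Finset.not_subset.1 hs
    refine Finset.prod_eq_zero (Finset.mem_univ v) ?_
    rw [supp, Finset.mem_filter] at hv
    unfold KB_f
    rw [if_neg hvU, if_neg hv.2]

open Classical in
/-- the number of labellings with labels in `U` -/
theorem EU_count {V : Type} [Fintype V] [DecidableEq V] (U : Finset V) (n : ℕ)
    (hn : Squarefree n) :
    ∑ D ∈ DD V n, (if supp D ⊆ U then (1 : ℝ) else 0) = (U.card : ℝ) ^ n.primeFactors.card := by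
  have h1 : ∑ D ∈ DD V n, (if supp D ⊆ U then (1 : ℝ) else 0) =
      ∑ D ∈ DD V n, ∏ v, KB_f U (fun _ => (1 : ℤ)) v (D v) :=
    Finset.sum_congr rfl (fun D _ => (EU_ind U D).symm)
  rw [h1, sum_DD_mul n hn (KB_f U (fun _ => (1 : ℤ))) (KB_f_one U _) (KB_f_mul U _)]
  rw [← Finset.prod_const]
  refine Finset.prod_congr rfl (fun p hp => ?_)
  have hp1 : p ≠ 1 := (Nat.prime_of_mem_primeFactors hp).ne_one
  rw [← Finset.sum_add_sum_compl U]
  have h4 : ∑ v ∈ Uᶜ, KB_f U (fun _ => (1 : ℤ)) v p = 0 := by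
    refine Finset.sum_eq_zero (fun v hv => ?_)
    unfold KB_f
    rw [if_neg (Finset.mem_compl.1 hv), if_neg hp1]
  have h5 : ∑ v ∈ U, KB_f U (fun _ => (1 : ℤ)) v p = ∑ v ∈ U, (1 : ℝ) := by
    refine Finset.sum_congr rfl (fun v hv => ?_)
    unfold KB_f
    rw [if_pos hv, jacobiSym.one_left]
    norm_num
  rw [h4, h5, add_zero, Finset.sum_const, nsmul_eq_mul, mul_one]

theorem EU_rough (n : ℕ) : Rough 1 n := fun _ hp _ => hp.one_lt

theorem EU_sgprod {V : Type} [Fintype V] (D : V → ℕ) (h : Ok (∏ v, D v)) :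
    sg (∏ v, D v) = ∏ v, sg (D v) := by
  refine sg_prod univ D (fun v _ h0 => ?_)
  exact h.1.ne_zero (Finset.prod_eq_zero (Finset.mem_univ v) h0)

open Classical in
/-- the number of admissible integers as a weighted sum over labellings -/
theorem EU_card {V : Type} [Fintype V] [DecidableEq V] (U : Finset V) (hU : 0 < U.card)
    (c : Fin 4 → ℤ) (x : ℕ) :
    (((range (x + 1)).filter fun n => Ok n ∧ sg n = c).card : ℝ) =
    ∑ E ∈ EE U 1 x, (if ∏ v, sg (E v) = c then wt U.card (∏ v, E v) else 0) := by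
  have h1 : ∑ E ∈ EE U 1 x, (if ∏ v, sg (E v) = c then wt U.card (∏ v, E v) else 0) =
      ∑ E ∈ Dall V x, (if sg (∏ v, E v) = c then wt U.card (∏ v, E v) else 0) *
        (if supp E ⊆ U then (1 : ℝ) else 0) := by
    rw [EE, Finset.sum_filter]
    refine Finset.sum_congr rfl (fun E hE => ?_)
    rw [Dall, Finset.mem_filter] at hE
    rw [EU_sgprod E hE.2.1]
    by_cases hs : supp E ⊆ U
    · rw [if_pos ⟨hs, EU_rough _⟩, if_pos hs, mul_one]
    · rw [if_neg (fun h => hs h.1), if_neg hs, mul_zero]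
  rw [h1, sum_Dall]
  have h2 : ∀ n ∈ (range (x + 1)).filter Ok, ∑ D ∈ DD V n,
      (if sg (∏ v, D v) = c then wt U.card (∏ v, D v) else 0) *
        (if supp D ⊆ U then (1 : ℝ) else 0) = if sg n = c then 1 else 0 := by
    intro n hn
    have hok : Ok n := (Finset.mem_filter.1 hn).2
    have h3 : ∑ D ∈ DD V n, (if sg (∏ v, D v) = c then wt U.card (∏ v, D v) else 0) *
        (if supp D ⊆ U then (1 : ℝ) else 0) =
        (if sg n = c then wt U.card n else 0) * ∑ D ∈ DD V n,
        (if supp D ⊆ U then (1 : ℝ) else 0) := by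
      rw [Finset.mul_sum]
      refine Finset.sum_congr rfl (fun D hD => ?_)
      have hDn : ∏ v, D v = n := by
        rw [DD, Finset.mem_filter] at hD
        exact hD.2
      rw [hDn]
    rw [h3, EU_count U n hok.1]
    split_ifs
    · rw [wt, one_div, inv_mul_cancel₀]
      have : (0 : ℝ) < U.card := by exact_mod_cast hU
      positivity
    · rw [zero_mul]
  rw [Finset.sum_congr rfl h2, ← Finset.sum_filter, Finset.filter_filter, Finset.sum_const,
    nsmul_eq_mul, mul_one]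

open Classical in
/-- the centred function of the sign vectors -/
noncomputable def EU_H {V : Type} [Fintype V] [DecidableEq V] (φ : V → V → ℕ)
    (e : V → Fin 4 → ℕ) (U : Finset V) (c : Fin 4 → ℤ) (s : V → Fin 4 → ℤ) : ℝ :=
  if ∏ v, s v = c then (FU φ e U s : ℝ) - MU φ e c U else 0

open Classical in
/-- the numerator as a sum over labellings in `U` -/
theorem EU_num {V : Type} [Fintype V] [DecidableEq V] (φ : V → V → ℕ) (e : V → Fin 4 → ℕ)
    (hφ : ∀ v w, φ v w ≤ 1) (h0 : ∀ v, φ v v = 0) (c : Fin 4 → ℤ)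
    (U : Finset V) (hU : Unlinked φ U) (hcard : 0 < U.card) (x : ℕ) :
    ∑ D ∈ (Dx V c x).filter (fun D => supp D ⊆ U), (F φ e D : ℝ) * wt U.card (∏ v, D v) -
        ((range (x + 1)).filter fun n => Ok n ∧ sg n = c).card * MU φ e c U =
    ∑ E ∈ EE U 1 x, wt U.card (∏ v, E v) * EU_H φ e U c (fun v => sg (E v)) := by
  rw [EU_card U hcard c x, Finset.sum_mul]
  have h1 : ∑ D ∈ (Dx V c x).filter (fun D => supp D ⊆ U),
      (F φ e D : ℝ) * wt U.card (∏ v, D v) =
      ∑ E ∈ EE U 1 x, (if ∏ v, sg (E v) = c then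
        (FU φ e U (fun v => sg (E v)) : ℝ) * wt U.card (∏ v, E v) else 0) := by
    rw [Dx, EE, Finset.filter_filter, Finset.sum_filter, Finset.sum_filter]
    refine Finset.sum_congr rfl (fun E hE => ?_)
    rw [Dall, Finset.mem_filter] at hE
    have hok := hE.2.1
    by_cases hs : supp E ⊆ U
    · rw [if_pos (⟨hs, EU_rough _⟩ : supp E ⊆ U ∧ Rough 1 (∏ v, E v)), ← EU_sgprod E hok]
      by_cases hc : sg (∏ v, E v) = c
      · rw [if_pos ⟨hc, hs⟩, if_pos hc, F_eq_FU φ e hφ h0 U hU E hok hs]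
      · rw [if_neg (fun h => hc h.1), if_neg hc]
    · rw [if_neg (fun h => hs h.2), if_neg (fun h => hs h.1)]
  rw [h1, ← Finset.sum_sub_distrib]
  refine Finset.sum_congr rfl (fun E _ => ?_)
  unfold EU_H
  split_ifs
  · ring
  · ring

theorem EU_SU_nonempty {V : Type} [Fintype V] [DecidableEq V] (U : Finset V) (u : V)
    (hu : u ∈ U) (c : Fin 4 → ℤ) (hc : c ∈ SV) : (SU U c).Nonempty := by
  refine ⟨Function.update 1 u c, ?_⟩
  rw [SU, Finset.mem_filter, Fintype.mem_piFinset]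
  have h1 : (1 : Fin 4 → ℤ) ∈ SV := by
    rw [SV, Fintype.mem_piFinset]
    intro i
    simp
  constructor
  · intro v
    by_cases hv : v = u
    · subst hv
      rw [if_pos hu, Function.update_self]
      exact hc
    · rw [Function.update_of_ne hv]
      by_cases hvU : v ∈ U
      · rw [if_pos hvU]
        exact h1
      · rw [if_neg hvU, Finset.mem_singleton]
        rfl
  · rw [Fintype.prod_eq_single u]
    · rw [Function.update_self]
    · intro v hv
      rw [Function.update_of_ne hv]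
      rfl

theorem EU_sum_zero {V : Type} [Fintype V] [DecidableEq V] (φ : V → V → ℕ)
    (e : V → Fin 4 → ℕ) (U : Finset V) (c : Fin 4 → ℤ) (hc : c ∈ SV) (hcard : 0 < U.card) :
    ∑ s ∈ SU U c, EU_H φ e U c s = 0 := by
  obtain ⟨u, hu⟩ := Finset.card_pos.1 hcard
  have hne := (EU_SU_nonempty U u hu c hc).card_pos
  have hne' : ((SU U c).card : ℝ) ≠ 0 := by
    exact_mod_cast hne.ne'
  have h1 : ∀ s ∈ SU U c, EU_H φ e U c s = (FU φ e U s : ℝ) - MU φ e c U := by
    intro s hs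
    rw [SU, Finset.mem_filter] at hs
    unfold EU_H
    rw [if_pos hs.2]
  rw [Finset.sum_congr rfl h1, Finset.sum_sub_distrib, Finset.sum_const, nsmul_eq_mul, MU]
  field_simp
  ring

open Classical in
/-- the main term of an unlinked set -/
theorem eu {V : Type} [Fintype V] [DecidableEq V] (φ : V → V → ℕ) (e : V → Fin 4 → ℕ)
    (hφ : ∀ v w, φ v w ≤ 1) (h0 : ∀ v, φ v v = 0) (N : ℕ) (hN : 0 < N) (c : Fin 4 → ℤ)
    (hc : c ∈ SV) (U : Finset V) (hU : Unlinked φ U) (hcard : U.card = N) :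
    Tendsto (fun x : ℕ =>
      (∑ D ∈ (Dx V c x).filter (fun D => supp D ⊆ U), (F φ e D : ℝ) * wt N (∏ v, D v) -
        ((range (x + 1)).filter fun n => Ok n ∧ sg n = c).card * MU φ e c U) / x)
      atTop (𝓝 0) := by
  subst hcard
  obtain ⟨C0, hC0, hk⟩ := kb0 U.card hN
  set B : ℝ := ∑ s ∈ SS U, |EU_H φ e U c s| with hB
  have hB0 : 0 ≤ B := Finset.sum_nonneg (fun _ _ => abs_nonneg _)
  have hBs : ∀ s ∈ SS U, |EU_H φ e U c s| ≤ B := fun s hs =>
    Finset.single_le_sum (f := fun s => |EU_H φ e U c s|) (fun _ _ => abs_nonneg _) hs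
  set L : ℝ := (Real.log (900 + 3)) ^ (1 / (U.card : ℝ)) * (1 + Real.log ((1 : ℕ) + 1)) ^ 3
    with hL
  set K : ℝ := (Fintype.card (V → Fin 4 → Fin 2) : ℝ) with hK
  have key : ∀ θ : V → Fin 4 → Fin 2, ∀ x : ℕ, 3 ≤ x →
      |hat U (EU_H φ e U c) θ * ∑ E ∈ EE U 1 x, wt U.card (∏ v, E v) *
        (∏ v ∈ U, ∏ i, (sg (E v) i : ℝ) ^ (θ v i : ℕ))| ≤
      B * (C0 * x * (Real.log x) ^ (-(1 / (U.card : ℝ))) * L) := by
    intro θ x hx
    have hx1 : (1 : ℝ) ≤ x := by
      exact_mod_cast (show 1 ≤ x by omega)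
    have hlogx : 0 ≤ Real.log x := Real.log_nonneg hx1
    have hpow : (0 : ℝ) ≤ (Real.log x) ^ (-(1 / (U.card : ℝ))) := Real.rpow_nonneg hlogx _
    by_cases hθ : ∀ u ∈ U, ∀ w ∈ U, θ u = θ w
    · rw [hat_diag U c (EU_H φ e U c) (fun s _ hs => by
        unfold EU_H
        rw [if_neg hs]) (EU_sum_zero φ e U c hc hN) θ hθ, zero_mul, abs_zero]
      have hL0 : 0 ≤ L := by
        rw [hL]
        refine mul_nonneg (Real.rpow_nonneg (Real.log_nonneg (by norm_num)) _) ?_
        refine pow_nonneg ?_ 3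
        have := Real.log_nonneg (show (1 : ℝ) ≤ ((1 : ℕ) : ℝ) + 1 by norm_num)
        linarith
      have h9 : 0 ≤ C0 * (x : ℝ) := by positivity
      exact mul_nonneg hB0 (mul_nonneg (mul_nonneg h9 hpow) hL0)
    · push Not at hθ
      obtain ⟨u, hu, w, hw, hne⟩ := hθ
      rw [abs_mul]
      refine mul_le_mul (hat_le U _ B hBs θ) ?_ (abs_nonneg _) hB0
      have e1 : ∑ E ∈ EE U 1 x, wt U.card (∏ v, E v) *
          (∏ v ∈ U, ∏ i, (sg (E v) i : ℝ) ^ (θ v i : ℕ)) =
          ∑ E ∈ EE U 1 x, wt U.card (∏ v, E v) *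
            ∏ v ∈ U, (jacobiSym (tt (θ v)) (E v) : ℝ) := by
        refine Finset.sum_congr rfl (fun E _ => ?_)
        congr 1
        refine Finset.prod_congr rfl (fun v _ => ?_)
        rw [← sg_tt]
        push_cast
        rfl
      rw [e1, KB_inner U (fun v => tt (θ v)) 1 x]
      have hns : ¬ IsSquare (tt (θ u) * tt (θ w)) := by
        have h1 := tt_not_square (θ u) (θ w) 1 (by norm_num) (Or.inl hne)
        simpa using h1
      have h3 := hk U (fun v => tt (θ v)) rfl u hu w hw hns 1 x hx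
      have hnat : (((tt (θ u) * tt (θ w)).natAbs : ℕ) : ℝ) ≤ 900 := by
        have h4 : (tt (θ u) * tt (θ w)).natAbs ≤ 900 := by
          rw [Int.natAbs_mul]
          calc (tt (θ u)).natAbs * (tt (θ w)).natAbs
              ≤ 30 * 30 := Nat.mul_le_mul (tt_le _) (tt_le _)
            _ = 900 := by norm_num
        exact_mod_cast h4
      have hlog : (Real.log ((((tt (θ u) * tt (θ w)).natAbs : ℕ) : ℝ) + 3)) ^
          (1 / (U.card : ℝ)) ≤ (Real.log (900 + 3)) ^ (1 / (U.card : ℝ)) := by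
        refine Real.rpow_le_rpow (Real.log_nonneg ?_) (Real.log_le_log ?_ ?_) (by positivity)
        · have : (0 : ℝ) ≤ (((tt (θ u) * tt (θ w)).natAbs : ℕ) : ℝ) := Nat.cast_nonneg _
          linarith
        · positivity
        · linarith
      refine le_trans (le_trans (Finset.abs_sum_le_sum_abs _ _) (le_trans ?_ h3)) ?_
      · rw [Finset.sum_filter, Finset.sum_filter]
        refine Finset.sum_le_sum (fun n _ => ?_)
        by_cases ho : Ok n
        · rw [if_pos ho, if_pos (EU_rough n), if_pos ⟨ho.1, EU_rough n⟩, one_mul]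
        · rw [if_neg ho]
          split_ifs
          · exact abs_nonneg _
          · exact le_rfl
      · rw [hL, ← mul_assoc]
        have h10 : (0 : ℝ) ≤ (1 + Real.log (((1 : ℕ) : ℝ) + 1)) ^ 3 := by
          refine pow_nonneg ?_ 3
          have := Real.log_nonneg (show (1 : ℝ) ≤ ((1 : ℕ) : ℝ) + 1 by norm_num)
          linarith
        refine mul_le_mul_of_nonneg_right ?_ h10
        refine mul_le_mul_of_nonneg_left hlog ?_
        have : (0 : ℝ) ≤ C0 * x := by positivity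
        exact mul_nonneg this hpow
  have hexp : ∀ x : ℕ, ∑ E ∈ EE U 1 x, wt U.card (∏ v, E v) *
      EU_H φ e U c (fun v => sg (E v)) =
      ∑ θ : V → Fin 4 → Fin 2, hat U (EU_H φ e U c) θ * ∑ E ∈ EE U 1 x,
        wt U.card (∏ v, E v) * (∏ v ∈ U, ∏ i, (sg (E v) i : ℝ) ^ (θ v i : ℕ)) := by
    intro x
    simp_rw [Finset.mul_sum]
    rw [Finset.sum_comm]
    refine Finset.sum_congr rfl (fun E hE => ?_)
    rw [fourier U (EU_H φ e U c) _ (KB_mem U 1 x E hE), Finset.mul_sum]
    refine Finset.sum_congr rfl (fun θ _ => ?_)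
    ring
  have hbound : ∀ x : ℕ, 3 ≤ x →
      |(∑ D ∈ (Dx V c x).filter (fun D => supp D ⊆ U), (F φ e D : ℝ) * wt U.card (∏ v, D v) -
        ((range (x + 1)).filter fun n => Ok n ∧ sg n = c).card * MU φ e c U) / x| ≤
      K * B * C0 * L * (Real.log x) ^ (-(1 / (U.card : ℝ))) := by
    intro x hx
    have hx0 : (0 : ℝ) < x := by
      exact_mod_cast (show 0 < x by omega)
    rw [EU_num φ e hφ h0 c U hU hN x, hexp x, abs_div, abs_of_pos hx0, div_le_iff₀ hx0]
    calc _ ≤ ∑ θ : V → Fin 4 → Fin 2, |hat U (EU_H φ e U c) θ * ∑ E ∈ EE U 1 x,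
          wt U.card (∏ v, E v) * (∏ v ∈ U, ∏ i, (sg (E v) i : ℝ) ^ (θ v i : ℕ))| :=
          Finset.abs_sum_le_sum_abs _ _
      _ ≤ ∑ _θ : V → Fin 4 → Fin 2, B * (C0 * x * (Real.log x) ^ (-(1 / (U.card : ℝ))) * L) :=
          Finset.sum_le_sum (fun θ _ => key θ x hx)
      _ = _ := by
          rw [Finset.sum_const, Finset.card_univ, nsmul_eq_mul, ← hK]
          ring
  have hlim : Tendsto (fun x : ℕ => K * B * C0 * L * (Real.log x) ^ (-(1 / (U.card : ℝ))))
      atTop (𝓝 0) := by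
    have h1 : Tendsto (fun x : ℕ => (Real.log (x : ℝ)) ^ (-(1 / (U.card : ℝ)))) atTop (𝓝 0) := by
      have hpos : (0 : ℝ) < 1 / (U.card : ℝ) := by
        have : (0 : ℝ) < U.card := by exact_mod_cast hN
        positivity
      exact (tendsto_rpow_neg_atTop hpos).comp (Real.tendsto_log_atTop.comp
        tendsto_natCast_atTop_atTop)
    have h2 := h1.const_mul (K * B * C0 * L)
    rwa [mul_zero] at h2
  refine squeeze_zero_norm' ?_ hlim
  filter_upwards [eventually_ge_atTop 3] with x hx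
  rw [Real.norm_eq_abs]
  exact hbound x hx

end PPA
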