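import Pool.Agent.Lib.MP_87c685_nt_PPA.Defs
import Pool.Agent.Lib.MP_87c685_nt_PPA.Lab

/-! Project PP15 (MP_87c685_nt), analytic block PPA, module Split. -/

open Finset Filter Topology

namespace PPA

open Classical in
theorem Split_TT {V : Type} [Fintype V] [DecidableEq V] (φ : V → V → ℕ)
    (e : V → Fin 4 → ℕ) (N : ℕ) (R : Finset V → Prop) (n : ℕ) :
    TT φ e N R n = ∑ D ∈ DD V n, G φ e N R D := by
  rw [TT, Finset.sum_div, Finset.sum_filter]
  refine Finset.sum_congr rfl fun D hD => ?_
  have hp : ∏ v, D v = n := by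
    unfold DD at hD
    exact (Finset.mem_filter.1 hD).2
  unfold G wt
  rw [hp]
  split_ifs
  · rw [mul_one_div]
  · rfl

open Classical in
theorem split {V : Type} [Fintype V] [DecidableEq V] (φ : V → V → ℕ)
    (e : V → Fin 4 → ℕ) (N : ℕ) (R : Finset V → Prop) (c : Fin 4 → ℤ) (x : ℕ) :
    ∑ n ∈ (range (x + 1)).filter (fun n => Ok n ∧ sg n = c), TT φ e N R n =
      ∑ D ∈ Dx V c x, G φ e N R D := by
  unfold Dx
  rw [Finset.sum_filter (s := Dall V x), sum_Dall, ← Finset.filter_filter, Finset.sum_filter]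
  refine Finset.sum_congr (Finset.filter_congr fun _ _ => Iff.rfl) fun n _ => ?_
  split_ifs with h
  · rw [Split_TT]
    refine Finset.sum_congr rfl fun D hD => ?_
    have hp : ∏ v, D v = n := by
      unfold DD at hD
      exact (Finset.mem_filter.1 hD).2
    rw [hp, if_pos h]
  · symm
    refine Finset.sum_eq_zero fun D hD => ?_
    have hp : ∏ v, D v = n := by
      unfold DD at hD
      exact (Finset.mem_filter.1 hD).2
    rw [hp, if_neg h]

end PPA
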