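import Pool.Agent.Lib.MP_87c685_nt_PPA.EIIIb
import Pool.Agent.Lib.MP_87c685_nt_PPA.EIIIa
import Pool.Agent.Lib.MP_87c685_nt_PPA.EI
import Pool.Agent.Lib.MP_87c685_nt_PPA.EU
import Pool.Agent.Lib.MP_87c685_nt_PPA.AsyA
import Pool.Agent.Lib.MP_87c685_nt_PPA.AsyB
import Pool.Agent.Lib.MP_87c685_nt_PPA.Cnt
import Pool.Agent.Lib.MP_87c685_nt_PPA.Split

/-!
Project PP15 (MP_87c685_nt), analytic block PPA: the interface theorem.
-/

open Finset Filter Topology

namespace PPA

theorem Main_tend {a b : ℕ → ℝ} (C : ℝ) (h : ∀ᶠ x : ℕ in atTop, |a x| ≤ C * x * b x)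
    (hb : Tendsto b atTop (𝓝 0)) : Tendsto (fun x : ℕ => a x / x) atTop (𝓝 0) := by
  have h2 : Tendsto (fun x : ℕ => C * b x) atTop (𝓝 0) := by
    simpa using hb.const_mul C
  refine squeeze_zero_norm' ?_ h2
  filter_upwards [h, eventually_ge_atTop 1] with x hx h1
  have h3 : (0 : ℝ) < x := by exact_mod_cast h1
  rw [Real.norm_eq_abs, abs_div, abs_of_pos h3, div_le_iff₀ h3]
  linarith

theorem Main_biUnion {ι κ : Type} [DecidableEq κ] (s : Finset ι) (t : ι → Finset κ)
    (f : κ → ℝ) (hf : ∀ x, 0 ≤ f x) :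
    ∑ x ∈ s.biUnion t, f x ≤ ∑ i ∈ s, ∑ x ∈ t i, f x := by
  classical
  induction s using Finset.induction_on with
  | empty => simp
  | insert a s ha ih =>
    rw [Finset.biUnion_insert, Finset.sum_insert ha]
    have h := Finset.sum_union_inter (s₁ := t a) (s₂ := s.biUnion t) (f := f)
    have h2 : 0 ≤ ∑ x ∈ t a ∩ s.biUnion t, f x := Finset.sum_nonneg fun x _ => hf x
    linarith

theorem Main_wt_nonneg (N n : ℕ) : 0 ≤ wt N n := by
  unfold wt
  positivity

open Classical in
theorem Main_absG {V : Type} [Fintype V] [DecidableEq V] (φ : V → V → ℕ) (e : V → Fin 4 → ℕ)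
    (N : ℕ) (R : Finset V → Prop) (D : V → ℕ) : |G φ e N R D| ≤ wt N (∏ v, D v) := by
  unfold G
  split_ifs
  · rw [abs_mul, abs_of_nonneg (Main_wt_nonneg _ _)]
    have h1 : |(F φ e D : ℝ)| ≤ 1 := by exact_mod_cast F_le φ e D
    calc _ ≤ 1 * wt N (∏ v, D v) := mul_le_mul_of_nonneg_right h1 (Main_wt_nonneg _ _)
      _ = _ := one_mul _
  · rw [abs_zero]
    exact Main_wt_nonneg _ _

theorem Main_absF {V : Type} [Fintype V] [DecidableEq V] (φ : V → V → ℕ) (e : V → Fin 4 → ℕ)
    (N : ℕ) (D : V → ℕ) : |(F φ e D : ℝ) * wt N (∏ v, D v)| ≤ wt N (∏ v, D v) := by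
  rw [abs_mul, abs_of_nonneg (Main_wt_nonneg _ _)]
  have h1 : |(F φ e D : ℝ)| ≤ 1 := by exact_mod_cast F_le φ e D
  calc _ ≤ 1 * wt N (∏ v, D v) := mul_le_mul_of_nonneg_right h1 (Main_wt_nonneg _ _)
    _ = _ := one_mul _

theorem Main_small (K N : ℕ) (hN : 0 < N) : ∀ᶠ η : ℝ in 𝓝[>] 0,
    0 < η ∧ 4 * η * K < 1 / N ∧ 2 * η < 1 := by
  have h1 : Tendsto (fun η : ℝ => 4 * η * K) (𝓝[>] 0) (𝓝 (4 * 0 * K)) := by
    apply Tendsto.mono_left _ nhdsWithin_le_nhds
    exact (Continuous.tendsto (by fun_prop) 0)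
  have h2 : Tendsto (fun η : ℝ => 2 * η) (𝓝[>] 0) (𝓝 (2 * 0)) := by
    apply Tendsto.mono_left _ nhdsWithin_le_nhds
    exact (Continuous.tendsto (by fun_prop) 0)
  have hpos : (0 : ℝ) < 1 / N := by positivity
  have h3 := h1.eventually (gt_mem_nhds (show (4 * 0 * K : ℝ) < 1 / N by simpa using hpos))
  have h4 := h2.eventually (gt_mem_nhds (show (2 * 0 : ℝ) < 1 by norm_num))
  filter_upwards [h3, h4, self_mem_nhdsWithin] with η a b c
  exact ⟨c, a, b⟩

open Classical in
theorem Main_e2 {V : Type} [Fintype V] [DecidableEq V] (N : ℕ) (hN : 0 < N) (S : Finset V)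
    (hS : S.card < N) : ∀ᶠ η : ℝ in 𝓝[>] 0, Tendsto (fun x : ℕ =>
      (∑ D ∈ (Dall V x).filter (fun D => rs (zz η x) D ⊆ S), wt N (∏ v, D v)) / x)
      atTop (𝓝 0) := by
  obtain ⟨C, hC, K, h⟩ := e2 (V := V) N hN S hS
  filter_upwards [Main_small K N hN] with η hη
  refine Main_tend C ?_ (as2 K N hN η hη.1 hη.2.1)
  filter_upwards [eventually_ge_atTop 3, as4 η hη.1 hη.2.2] with x hx h4
  rw [abs_of_nonneg (Finset.sum_nonneg fun _ _ => Main_wt_nonneg _ _)]
  refine (h (zz η x) x hx).trans ?_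
  have h5 : (1 : ℝ) ≤ (1 + Real.log (zz (2 * η) x)) ^ K := by
    apply one_le_pow₀
    have : (1 : ℝ) ≤ (zz (2 * η) x : ℕ) := by exact_mod_cast h4.2.1
    linarith [Real.log_nonneg this]
  have h6 : 0 ≤ (Real.log x) ^ (-(1 / (N : ℝ))) := by
    apply Real.rpow_nonneg
    apply Real.log_nonneg
    exact_mod_cast (show 1 ≤ x by omega)
  have h7 : 0 ≤ (1 + Real.log ((zz η x : ℕ) + 1)) ^ K := by
    apply pow_nonneg
    have : (1 : ℝ) ≤ ((zz η x : ℕ) : ℝ) + 1 := by linarith [Nat.cast_nonneg (α := ℝ) (zz η x)]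
    linarith [Real.log_nonneg this]
  have h8 : 0 ≤ C * (x : ℝ) := by positivity
  have h9 : (Real.log x) ^ (-(1 / (N : ℝ))) ≤
      (Real.log x) ^ (-(1 / (N : ℝ))) * (1 + Real.log (zz (2 * η) x)) ^ K :=
    le_mul_of_one_le_right h6 h5
  calc C * x * (Real.log x) ^ (-(1 / (N : ℝ))) * (1 + Real.log ((zz η x : ℕ) + 1)) ^ K
      = C * x * ((Real.log x) ^ (-(1 / (N : ℝ))) * (1 + Real.log ((zz η x : ℕ) + 1)) ^ K) := by
        ring
    _ ≤ _ := by
        apply mul_le_mul_of_nonneg_left _ h8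
        exact mul_le_mul_of_nonneg_right h9 h7

open Classical in
theorem Main_e1 {V : Type} [Fintype V] [DecidableEq V] (φ : V → V → ℕ) (e : V → Fin 4 → ℕ)
    (hφ : ∀ v w, φ v w ≤ 1) (h0 : ∀ v, φ v v = 0) (N : ℕ) (hN : 0 < N) (R : Finset V → Prop)
    (c : Fin 4 → ℤ) (hc : c ∈ SV) (S : Finset V) (hS : ¬ Unlinked φ S) :
    ∀ᶠ η : ℝ in 𝓝[>] 0, Tendsto (fun x : ℕ =>
      (∑ D ∈ (Dx V c x).filter (fun D => rs (zz η x) D = S), G φ e N R D) / x)
      atTop (𝓝 0) := by
  have hS' : ∃ v ∈ S, ∃ w ∈ S, φ v w = 1 ∧ φ w v = 0 := by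
    unfold Unlinked at hS
    push Not at hS
    obtain ⟨v, hv, w, hw, h⟩ := hS
    have a := hφ v w
    have b := hφ w v
    rcases Nat.eq_zero_or_pos (φ v w) with h1 | h1
    · exact ⟨w, hw, v, hv, by omega, h1⟩
    · exact ⟨v, hv, w, hw, by omega, by omega⟩
  obtain ⟨v, hv, w, hw, h1, h2⟩ := hS'
  obtain ⟨C, hC, K, h⟩ := e1 φ e hφ h0 N hN R c hc S v w hv hw h1 h2
  filter_upwards [Main_small K N hN] with η hη
  refine Main_tend C ?_ (as1 K η hη.1)
  filter_upwards [eventually_ge_atTop 3, as4 η hη.1 hη.2.2] with x hx h4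
  refine (h (zz η x) x hx (by omega)).trans (le_of_eq ?_)
  ring

open Classical in
theorem Main_e3 {V : Type} [Fintype V] [DecidableEq V] (φ : V → V → ℕ) (e : V → Fin 4 → ℕ)
    (hφ : ∀ v w, φ v w ≤ 1) (h0 : ∀ v, φ v v = 0) (N : ℕ) (hN : 0 < N) (R : Finset V → Prop)
    (c : Fin 4 → ℤ) (hc : c ∈ SV) (U : Finset V) (hU : Unlinked φ U) (hcard : U.card = N)
    (h2 : ∀ v ∉ U, ∃ u ∈ U, ∃ w ∈ U, (φ v u + φ u v) % 2 ≠ (φ v w + φ w v) % 2) :
    ∀ᶠ η : ℝ in 𝓝[>] 0, Tendsto (fun x : ℕ =>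
      (∑ D ∈ (Dx V c x).filter (fun D => rs (zz η x) D = U ∧ ¬ supp D ⊆ U), G φ e N R D) / x)
      atTop (𝓝 0) := by
  obtain ⟨C, hC, K, h⟩ := e3b φ e hφ h0 N hN R c hc U hU hcard h2
  obtain ⟨C', hC', K', h'⟩ := e3a N hN U hcard.le
  filter_upwards [Main_small K N hN, Main_small K' N hN] with η hη hη'
  have hA : Tendsto (fun x : ℕ =>
      (∑ D ∈ (Dx V c x).filter (fun D => rs (zz η x) D = U ∧ ¬ supp D ⊆ U ∧
        ∏ v, sm (zz η x) (D v) ≤ zz (2 * η) x), G φ e N R D) / x) atTop (𝓝 0) := by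
    refine Main_tend C ?_ (as2 K N hN η hη.1 hη.2.1)
    filter_upwards [eventually_ge_atTop 100, as4 η hη.1 hη.2.2] with x hx h4
    refine (h (zz η x) x (zz (2 * η) x) hx (by omega) h4.2.1 h4.2.2).trans (le_of_eq ?_)
    ring
  have hB : Tendsto (fun x : ℕ =>
      (∑ D ∈ (Dx V c x).filter (fun D => rs (zz η x) D = U ∧ ¬ supp D ⊆ U ∧
        ¬ ∏ v, sm (zz η x) (D v) ≤ zz (2 * η) x), G φ e N R D) / x) atTop (𝓝 0) := by
    refine Main_tend C' ?_ (as3 K' η hη.1)
    filter_upwards [eventually_ge_atTop 100, as4 η hη.1 hη.2.2] with x hx h4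
    have h5 := h' (zz η x) x (zz (2 * η) x) h4.1 h4.2.1
    calc _ ≤ ∑ D ∈ (Dx V c x).filter (fun D => rs (zz η x) D = U ∧ ¬ supp D ⊆ U ∧
        ¬ ∏ v, sm (zz η x) (D v) ≤ zz (2 * η) x), |G φ e N R D| :=
          Finset.abs_sum_le_sum_abs _ _
      _ ≤ ∑ D ∈ (Dx V c x).filter (fun D => rs (zz η x) D = U ∧ ¬ supp D ⊆ U ∧
        ¬ ∏ v, sm (zz η x) (D v) ≤ zz (2 * η) x), wt N (∏ v, D v) :=
          Finset.sum_le_sum fun D _ => Main_absG φ e N R D
      _ ≤ ∑ D ∈ (Dall V x).filter (fun D => rs (zz η x) D ⊆ U ∧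
          zz (2 * η) x < ∏ v, sm (zz η x) (D v)), wt N (∏ v, D v) := by
          apply Finset.sum_le_sum_of_subset_of_nonneg
          · intro D hD
            rw [Finset.mem_filter] at hD ⊢
            refine ⟨Finset.mem_of_mem_filter D hD.1, hD.2.1.le, ?_⟩
            exact not_le.1 hD.2.2.2
          · intro D _ _
            exact Main_wt_nonneg _ _
      _ ≤ _ := h5
      _ = _ := by ring
  have hs := hA.add hB
  rw [add_zero] at hs
  refine hs.congr fun x => ?_
  rw [← add_div]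
  congr 1
  rw [← Finset.sum_filter_add_sum_filter_not ((Dx V c x).filter (fun D =>
    rs (zz η x) D = U ∧ ¬ supp D ⊆ U)) (fun D => ∏ v, sm (zz η x) (D v) ≤ zz (2 * η) x),
    Finset.filter_filter, Finset.filter_filter]
  congr 1
  · apply Finset.sum_congr _ fun _ _ => rfl
    apply Finset.filter_congr
    intro D _
    tauto
  · apply Finset.sum_congr _ fun _ _ => rfl
    apply Finset.filter_congr
    intro D _
    tauto

open Classical in
theorem Main_U {V : Type} [Fintype V] [DecidableEq V] (φ : V → V → ℕ) (e : V → Fin 4 → ℕ)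
    (hφ : ∀ v w, φ v w ≤ 1) (h0 : ∀ v, φ v v = 0) (N : ℕ) (hN : 0 < N) (R : Finset V → Prop)
    (c : Fin 4 → ℤ) (hc : c ∈ SV) (U : Finset V) (hU : Unlinked φ U) (hcard : U.card = N)
    (h2 : ∀ v ∉ U, ∃ u ∈ U, ∃ w ∈ U, (φ v u + φ u v) % 2 ≠ (φ v w + φ w v) % 2) :
    ∀ᶠ η : ℝ in 𝓝[>] 0, Tendsto (fun x : ℕ =>
      (∑ D ∈ (Dx V c x).filter (fun D => rs (zz η x) D = U), G φ e N R D -
        if R U then ((range (x + 1)).filter fun n => Ok n ∧ sg n = c).card * MU φ e c U
        else 0) / x) atTop (𝓝 0) := by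
  have hE : ∀ᶠ η : ℝ in 𝓝[>] 0, ∀ u : V, u ∈ U → Tendsto (fun x : ℕ =>
      (∑ D ∈ (Dall V x).filter (fun D => rs (zz η x) D ⊆ U.erase u), wt N (∏ v, D v)) / x)
      atTop (𝓝 0) := by
    rw [eventually_all]
    intro u
    by_cases hu : u ∈ U
    · have hc' : (U.erase u).card < N := by
        rw [Finset.card_erase_of_mem hu]
        omega
      filter_upwards [Main_e2 (V := V) N hN (U.erase u) hc'] with η h _
      exact h
    · exact Filter.Eventually.of_forall fun η h => absurd h hu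
  filter_upwards [Main_e3 φ e hφ h0 N hN R c hc U hU hcard h2, hE] with η hA hB
  have hU1 := eu φ e hφ h0 N hN c hc U hU hcard
  -- the part with few large labels
  have hS : Tendsto (fun x : ℕ => (∑ D ∈ (Dx V c x).filter
      (fun D => supp D ⊆ U ∧ ¬ rs (zz η x) D = U), (F φ e D : ℝ) * wt N (∏ v, D v)) / x)
      atTop (𝓝 0) := by
    have hsum : Tendsto (fun x : ℕ => ∑ u ∈ U,
        (∑ D ∈ (Dall V x).filter (fun D => rs (zz η x) D ⊆ U.erase u), wt N (∏ v, D v)) / x)
        atTop (𝓝 0) := by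
      have := tendsto_finsetSum (s := U) (a := fun _ => (0 : ℝ)) fun u hu => hB u hu
      simpa using this
    refine Main_tend 1 (b := fun x : ℕ => ∑ u ∈ U,
        (∑ D ∈ (Dall V x).filter (fun D => rs (zz η x) D ⊆ U.erase u), wt N (∏ v, D v)) / x)
        ?_ hsum
    filter_upwards [eventually_ge_atTop 1] with x hx
    have hx0 : (0 : ℝ) < x := by exact_mod_cast hx
    rw [one_mul, Finset.mul_sum]
    have e1 : ∀ u ∈ U, (x : ℝ) * ((∑ D ∈ (Dall V x).filter
        (fun D => rs (zz η x) D ⊆ U.erase u), wt N (∏ v, D v)) / x) =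
        ∑ D ∈ (Dall V x).filter (fun D => rs (zz η x) D ⊆ U.erase u), wt N (∏ v, D v) := by
      intro u _
      field_simp
    rw [Finset.sum_congr rfl e1]
    calc _ ≤ ∑ D ∈ (Dx V c x).filter (fun D => supp D ⊆ U ∧ ¬ rs (zz η x) D = U),
          |(F φ e D : ℝ) * wt N (∏ v, D v)| := Finset.abs_sum_le_sum_abs _ _
      _ ≤ ∑ D ∈ (Dx V c x).filter (fun D => supp D ⊆ U ∧ ¬ rs (zz η x) D = U),
          wt N (∏ v, D v) := Finset.sum_le_sum fun D _ => Main_absF φ e N D
      _ ≤ ∑ D ∈ U.biUnion (fun u => (Dall V x).filter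
            (fun D => rs (zz η x) D ⊆ U.erase u)), wt N (∏ v, D v) := by
          apply Finset.sum_le_sum_of_subset_of_nonneg
          · intro D hD
            rw [Finset.mem_filter] at hD
            rw [Finset.mem_biUnion]
            have h3 : rs (zz η x) D ⊆ U := by
              intro v hv
              apply hD.2.1
              unfold rs at hv
              unfold supp
              rw [Finset.mem_filter] at hv ⊢
              refine ⟨Finset.mem_univ _, fun h1 => hv.2 ?_⟩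
              rw [h1]
              simp [rg]
            obtain ⟨u, hu, hu'⟩ : ∃ u ∈ U, u ∉ rs (zz η x) D := by
              by_contra hcon
              push Not at hcon
              exact hD.2.2 (Finset.Subset.antisymm h3 hcon)
            refine ⟨u, hu, Finset.mem_filter.2 ⟨Finset.mem_of_mem_filter D hD.1, ?_⟩⟩
            intro v hv
            rw [Finset.mem_erase]
            exact ⟨fun h => hu' (h ▸ hv), h3 hv⟩
          · intro D _ _
            exact Main_wt_nonneg _ _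
      _ ≤ _ := Main_biUnion _ _ _ fun D => Main_wt_nonneg _ _
  by_cases hR : R U
  · have hT := (hA.add hU1).sub hS
    rw [add_zero, sub_zero] at hT
    refine hT.congr fun x => ?_
    rw [if_pos hR, ← add_div, ← sub_div]
    congr 1
    have e1 : ∑ D ∈ (Dx V c x).filter (fun D => rs (zz η x) D = U), G φ e N R D =
        ∑ D ∈ (Dx V c x).filter (fun D => rs (zz η x) D = U ∧ ¬ supp D ⊆ U), G φ e N R D +
        ∑ D ∈ (Dx V c x).filter (fun D => rs (zz η x) D = U ∧ supp D ⊆ U),
          (F φ e D : ℝ) * wt N (∏ v, D v) := by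
      rw [← Finset.sum_filter_add_sum_filter_not ((Dx V c x).filter
        (fun D => rs (zz η x) D = U)) (fun D => ¬ supp D ⊆ U), Finset.filter_filter,
        Finset.filter_filter]
      congr 1
      apply Finset.sum_congr
      · apply Finset.filter_congr
        intro D _
        rw [not_not]
      · intro D hD
        rw [Finset.mem_filter] at hD
        have h3 : supp D = U := by
          refine Finset.Subset.antisymm hD.2.2 ?_
          intro v hv
          rw [← hD.2.1] at hv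
          unfold rs at hv
          unfold supp
          rw [Finset.mem_filter] at hv ⊢
          refine ⟨Finset.mem_univ _, fun h1 => hv.2 ?_⟩
          rw [h1]
          simp [rg]
        unfold G
        rw [h3, if_pos hR]
    have e2 : ∑ D ∈ (Dx V c x).filter (fun D => supp D ⊆ U), (F φ e D : ℝ) * wt N (∏ v, D v) =
        ∑ D ∈ (Dx V c x).filter (fun D => rs (zz η x) D = U ∧ supp D ⊆ U),
          (F φ e D : ℝ) * wt N (∏ v, D v) +
        ∑ D ∈ (Dx V c x).filter (fun D => supp D ⊆ U ∧ ¬ rs (zz η x) D = U),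
          (F φ e D : ℝ) * wt N (∏ v, D v) := by
      rw [← Finset.sum_filter_add_sum_filter_not ((Dx V c x).filter
        (fun D => supp D ⊆ U)) (fun D => rs (zz η x) D = U), Finset.filter_filter,
        Finset.filter_filter]
      congr 1
      apply Finset.sum_congr _ fun _ _ => rfl
      apply Finset.filter_congr
      intro D _
      exact and_comm
    rw [e1, e2]
    ring
  · refine hA.congr fun x => ?_
    rw [if_neg hR, sub_zero]
    congr 1
    apply Finset.sum_subset
    · intro D hD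
      rw [Finset.mem_filter] at hD ⊢
      exact ⟨hD.1, hD.2.1⟩
    · intro D hD hD'
      rw [Finset.mem_filter] at hD hD'
      have h4 : supp D ⊆ U := by
        by_contra h
        exact hD' ⟨hD.1, hD.2, h⟩
      have h3 : supp D = U := by
        refine Finset.Subset.antisymm h4 ?_
        intro v hv
        rw [← hD.2] at hv
        unfold rs at hv
        unfold supp
        rw [Finset.mem_filter] at hv ⊢
        refine ⟨Finset.mem_univ _, fun h1 => hv.2 ?_⟩
        rw [h1]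
        simp [rg]
      unfold G
      rw [h3, if_neg hR]

open Classical in
/-- Interface: the mean value of `TT` over the squarefree numbers prime to `30` with sign vector `c`
is the sum of `MU` over the unlinked sets of `N` elements. -/
theorem main {V : Type} [Fintype V] [DecidableEq V] (φ : V → V → ℕ) (e : V → Fin 4 → ℕ)
    (N : ℕ) (hN : 0 < N) (hφ : ∀ v w, φ v w ≤ 1) (h0 : ∀ v, φ v v = 0)
    (h1 : ∀ U : Finset V, Unlinked φ U → U.card ≤ N)
    (h2 : ∀ U : Finset V, Unlinked φ U → U.card = N → ∀ v ∉ U, ∃ u ∈ U, ∃ w ∈ U,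
      (φ v u + φ u v) % 2 ≠ (φ v w + φ w v) % 2)
    (R : Finset V → Prop) (c : Fin 4 → ℤ) (hc : c ∈ SV) :
    Tendsto (fun x : ℕ => (∑ n ∈ (range (x + 1)).filter (fun n => Ok n ∧ sg n = c),
      (TT φ e N R n - ∑ U ∈ univ.filter (fun U : Finset V => Unlinked φ U ∧ U.card = N ∧ R U),
        MU φ e c U)) / x) atTop (𝓝 0) := by
  have key : ∀ᶠ η : ℝ in 𝓝[>] 0, ∀ S : Finset V, Tendsto (fun x : ℕ =>
      (∑ D ∈ (Dx V c x).filter (fun D => rs (zz η x) D = S), G φ e N R D -
        if Unlinked φ S ∧ S.card = N ∧ R S then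
          ((range (x + 1)).filter fun n => Ok n ∧ sg n = c).card * MU φ e c S
        else 0) / x) atTop (𝓝 0) := by
    rw [eventually_all]
    intro S
    by_cases hS : Unlinked φ S
    · rcases (h1 S hS).lt_or_eq with hlt | heq
      · filter_upwards [Main_e2 (V := V) N hN S hlt] with η h
        have hn : ¬ (Unlinked φ S ∧ S.card = N ∧ R S) := fun h => by omega
        simp only [if_neg hn, sub_zero]
        refine Main_tend 1 (b := fun x : ℕ => (∑ D ∈ (Dall V x).filter
          (fun D => rs (zz η x) D ⊆ S), wt N (∏ v, D v)) / x) ?_ h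
        filter_upwards [eventually_ge_atTop 1] with x hx
        have hx0 : (0 : ℝ) < x := by exact_mod_cast hx
        have e3 : 1 * (x : ℝ) * ((∑ D ∈ (Dall V x).filter
          (fun D => rs (zz η x) D ⊆ S), wt N (∏ v, D v)) / x) = ∑ D ∈ (Dall V x).filter
          (fun D => rs (zz η x) D ⊆ S), wt N (∏ v, D v) := by field_simp
        rw [e3]
        calc _ ≤ ∑ D ∈ (Dx V c x).filter (fun D => rs (zz η x) D = S), |G φ e N R D| :=
              Finset.abs_sum_le_sum_abs _ _
          _ ≤ ∑ D ∈ (Dx V c x).filter (fun D => rs (zz η x) D = S), wt N (∏ v, D v) :=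
              Finset.sum_le_sum fun D _ => Main_absG φ e N R D
          _ ≤ _ := by
              apply Finset.sum_le_sum_of_subset_of_nonneg
              · intro D hD
                rw [Finset.mem_filter] at hD ⊢
                exact ⟨Finset.mem_of_mem_filter D hD.1, hD.2.le⟩
              · intro D _ _
                exact Main_wt_nonneg _ _
      · filter_upwards [Main_U φ e hφ h0 N hN R c hc S hS heq (h2 S hS heq)] with η h
        refine h.congr fun x => ?_
        congr 2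
        by_cases hR : R S
        · rw [if_pos hR, if_pos ⟨hS, heq, hR⟩]
        · rw [if_neg hR, if_neg fun h => hR h.2.2]
    · filter_upwards [Main_e1 φ e hφ h0 N hN R c hc S hS] with η h
      have hn : ¬ (Unlinked φ S ∧ S.card = N ∧ R S) := fun h => hS h.1
      simp only [if_neg hn, sub_zero]
      exact h
  obtain ⟨η, hη⟩ := key.exists
  have hsum := tendsto_finsetSum (s := (univ : Finset (Finset V))) (a := fun _ => (0 : ℝ))
    fun S _ => hη S
  rw [Finset.sum_const_zero] at hsum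
  refine hsum.congr fun x => ?_
  rw [← Finset.sum_div]
  congr 1
  rw [Finset.sum_sub_distrib, Finset.sum_sub_distrib, split]
  congr 1
  · exact (Finset.sum_fiberwise (Dx V c x) (fun D => rs (zz η x) D) _)
  · rw [Finset.sum_const, nsmul_eq_mul, Finset.mul_sum, Finset.sum_filter]

/-- the squarefree numbers prime to `30` are equidistributed over the sixteen sign vectors -/
theorem count : ∃ κ : ℝ, 0 < κ ∧ ∀ c ∈ SV, Tendsto (fun x : ℕ =>
    (((range (x + 1)).filter fun n => Ok n ∧ sg n = c).card : ℝ) / x) atTop (𝓝 κ) :=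
  count'

end PPA
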