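import Pool.Agent.Lib.MP_87c685_nt_PPA.EIIIb
import Pool.Agent.Lib.MP_87c685_nt_PPA.EIIIa
import Pool.Agent.Lib.MP_87c685_nt_PPA.EI
import Pool.Agent.Lib.MP_87c685_nt_PPA.EU
import Pool.Agent.Lib.MP_87c685_nt_PPA.AsyA
import Pool.Agent.Lib.MP_87c685_nt_PPA.AsyB
import Pool.Agent.Lib.MP_87c685_nt_PPA.Cnt
import Pool.Agent.Lib.MP_87c685_nt_PPA.Split
import Pool.Agent.Lib.MP_87c685_nt_PPA.Main
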