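import Pool.Agent.Lib.MP_87c685_nt_PPA.Defs
import Pool.Agent.Lib.MP_87c685_nt_PPA.PSum
import Pool.Agent.Lib.MP_87c685_nt_PPA.HT
import Pool.Agent.Lib.MP_87c685_nt_PPA.Lab

/-! Project PP15 (MP_87c685_nt), analytic block PPA, module EII. -/

open Finset Filter Topology

namespace PPA

theorem EII_rg_mul (z a b : ℕ) (h : Nat.Coprime a b) : rg z (a * b) = rg z a * rg z b := by
  unfold rg
  rw [Nat.Coprime.primeFactors_mul h, Finset.filter_union, Finset.prod_union]
  exact Finset.disjoint_filter_filter (Nat.Coprime.disjoint_primeFactors h)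

theorem EII_rg_one (z : ℕ) : rg z 1 = 1 := by
  simp [rg]

theorem EII_rg_prime (z p : ℕ) (hp : p.Prime) : rg z p = 1 ↔ p ≤ z := by
  unfold rg
  rw [Nat.Prime.primeFactors hp]
  by_cases h : p ≤ z
  · rw [Finset.filter_singleton, if_neg (by omega)]
    simp [h]
  · rw [Finset.filter_singleton, if_pos (by omega)]
    simp only [Finset.prod_singleton]
    constructor
    · intro h1
      exact absurd h1 hp.one_lt.ne'
    · intro h1
      exact absurd h1 h

open Classical in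
/-- the indicator of smoothness outside `S` -/
noncomputable def EII_f {V : Type} (S : Finset V) (z : ℕ) (v : V) (n : ℕ) : ℝ :=
  if v ∈ S then 1 else if rg z n = 1 then 1 else 0

theorem EII_f_mul {V : Type} (S : Finset V) (z : ℕ) (v : V) (a b : ℕ) (h : Nat.Coprime a b) :
    EII_f S z v (a * b) = EII_f S z v a * EII_f S z v b := by
  unfold EII_f
  by_cases hv : v ∈ S
  · simp [hv]
  · simp only [hv, if_false]
    rw [EII_rg_mul z a b h]
    by_cases ha : rg z a = 1
    · by_cases hb : rg z b = 1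
      · simp [ha, hb]
      · simp [ha, hb]
    · have : rg z a * rg z b ≠ 1 := by
        intro h1
        exact ha (Nat.eq_one_of_mul_eq_one_right h1)
      simp [ha, this]

theorem EII_ind {V : Type} [Fintype V] [DecidableEq V] (S : Finset V) (z : ℕ) (D : V → ℕ) :
    (∏ v, EII_f S z v (D v)) = if rs z D ⊆ S then 1 else 0 := by
  by_cases h : rs z D ⊆ S
  · rw [if_pos h]
    apply Finset.prod_eq_one
    intro v _
    unfold EII_f
    by_cases hv : v ∈ S
    · simp [hv]
    · have : rg z (D v) = 1 := by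
        by_contra h1
        exact hv (h (by simp [rs, h1]))
      simp [this]
  · rw [if_neg h]
    rw [Finset.not_subset] at h
    obtain ⟨v, hv, hvS⟩ := h
    apply Finset.prod_eq_zero (Finset.mem_univ v)
    unfold EII_f
    have : rg z (D v) ≠ 1 := by
      simpa [rs] using hv
    simp [hvS, this]

theorem EII_sumf {V : Type} [Fintype V] [DecidableEq V] (S : Finset V) (z p : ℕ)
    (hp : p.Prime) :
    ∑ v, EII_f S z v p = if p ≤ z then (Fintype.card V : ℝ) else (S.card : ℝ) := by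
  by_cases h : p ≤ z
  · rw [if_pos h]
    have h1 : rg z p = 1 := (EII_rg_prime z p hp).2 h
    have : ∀ v ∈ (univ : Finset V), EII_f S z v p = 1 := by
      intro v _
      unfold EII_f
      simp [h1]
    rw [Finset.sum_congr rfl this]
    simp
  · rw [if_neg h]
    have h1 : ¬ rg z p = 1 := fun h2 => h ((EII_rg_prime z p hp).1 h2)
    have : ∀ v ∈ (univ : Finset V), EII_f S z v p = if v ∈ S then 1 else 0 := by
      intro v _
      unfold EII_f
      simp [h1]
    rw [Finset.sum_congr rfl this]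
    simp

/-- the weights at the primes -/
noncomputable def EII_g (N a b z : ℕ) (p : ℕ) : ℝ := (if p ≤ z then (a : ℝ) else (b : ℝ)) / N

theorem EII_mem_DD {V : Type} [Fintype V] [DecidableEq V] {n : ℕ} {D : V → ℕ}
    (h : D ∈ DD V n) : ∏ v, D v = n := by
  unfold DD at h
  exact (Finset.mem_filter.1 h).2

open Classical in
theorem EII_sum {V : Type} [Fintype V] [DecidableEq V] (N : ℕ)
    (S : Finset V) (z x : ℕ) :
    ∑ D ∈ (Dall V x).filter (fun D => rs z D ⊆ S), wt N (∏ v, D v) ≤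
      ∑ n ∈ (range (x + 1)).filter Squarefree, ∏ p ∈ n.primeFactors,
        EII_g N (Fintype.card V) S.card z p := by
  have h1 : ∑ D ∈ (Dall V x).filter (fun D => rs z D ⊆ S), wt N (∏ v, D v) =
      ∑ D ∈ Dall V x, wt N (∏ v, D v) * ∏ v, EII_f S z v (D v) := by
    rw [Finset.sum_filter]
    apply Finset.sum_congr rfl
    intro D _
    rw [EII_ind]
    by_cases h : rs z D ⊆ S
    · simp [h]
    · simp [h]
  rw [h1, sum_Dall]
  have h2 : ∀ n ∈ (range (x + 1)).filter Ok,
      ∑ D ∈ DD V n, wt N (∏ v, D v) * ∏ v, EII_f S z v (D v) =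
        ∏ p ∈ n.primeFactors, EII_g N (Fintype.card V) S.card z p := by
    intro n hn
    have hsq : Squarefree n := (Finset.mem_filter.1 hn).2.1
    have h3 : ∑ D ∈ DD V n, wt N (∏ v, D v) * ∏ v, EII_f S z v (D v) =
        ∑ D ∈ DD V n, wt N n * ∏ v, EII_f S z v (D v) := by
      apply Finset.sum_congr rfl
      intro D hD
      rw [EII_mem_DD hD]
    rw [h3, ← Finset.mul_sum, sum_DD_mul n hsq (fun v => EII_f S z v)
      (fun v => by simp [EII_f, EII_rg_one]) (fun v a b h => EII_f_mul S z v a b h)]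
    unfold wt EII_g
    rw [Finset.prod_div_distrib, Finset.prod_const]
    have h4 : ∏ p ∈ n.primeFactors, ∑ v, EII_f S z v p =
        ∏ p ∈ n.primeFactors, (if p ≤ z then (Fintype.card V : ℝ) else (S.card : ℝ)) := by
      apply Finset.prod_congr rfl
      intro p hp
      exact EII_sumf S z p (Nat.prime_of_mem_primeFactors hp)
    rw [h4]
    ring
  rw [Finset.sum_congr rfl h2]
  apply Finset.sum_le_sum_of_subset_of_nonneg
  · intro n hn
    rw [Finset.mem_filter] at hn ⊢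
    exact ⟨hn.1, hn.2.1⟩
  · intro n _ _
    apply Finset.prod_nonneg
    intro p _
    unfold EII_g
    split_ifs <;> positivity

theorem EII_tsum (N a b : ℕ) (hN : 0 < N) (hb : b < N) :
    ∃ C : ℝ, 0 ≤ C ∧ ∀ z : ℕ, ∀ δ : ℝ, 0 < δ → δ ≤ 1 →
      ∑' p : Nat.Primes, EII_g N a b z p * ((p : ℕ) : ℝ) ^ (-(1 + δ)) ≤
        (1 - 1 / (N : ℝ)) * Real.log (1 / δ) +
          3 * ((a : ℝ) / N) * Real.log (1 + Real.log (z + 1)) + C := by
  obtain ⟨C1, hC1⟩ := tsum_prime_le
  obtain ⟨C2, hC2⟩ := prime_sum_le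
  have hNr : (0 : ℝ) < N := by exact_mod_cast hN
  have hN1 : (1 : ℝ) ≤ N := by exact_mod_cast hN
  have hinv : 1 / (N : ℝ) ≤ 1 := by
    rw [div_le_one hNr]
    exact hN1
  have ha0 : 0 ≤ (a : ℝ) / N := by positivity
  refine ⟨|C1| + (a : ℝ) / N * |C2|, by positivity, ?_⟩
  intro z δ hδ hδ1
  have hs : Summable (fun p : Nat.Primes => ((p : ℕ) : ℝ) ^ (-(1 + δ))) := by
    rw [Nat.Primes.summable_rpow]
    linarith
  -- the part of the small primes
  have hs2 : Summable (fun p : Nat.Primes => (if (p : ℕ) ≤ z then ((p : ℕ) : ℝ) ^ (-(1 + δ))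
      else 0)) := by
    apply Summable.of_nonneg_of_le _ _ hs
    · intro p
      split_ifs
      · positivity
      · exact le_rfl
    · intro p
      split_ifs
      · exact le_rfl
      · positivity
  have hle : ∀ p : Nat.Primes, EII_g N a b z p * ((p : ℕ) : ℝ) ^ (-(1 + δ)) ≤
      (1 - 1 / (N : ℝ)) * ((p : ℕ) : ℝ) ^ (-(1 + δ)) +
        (a : ℝ) / N * (if (p : ℕ) ≤ z then ((p : ℕ) : ℝ) ^ (-(1 + δ)) else 0) := by
    intro p
    have hp0 : 0 ≤ ((p : ℕ) : ℝ) ^ (-(1 + δ)) := by positivity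
    unfold EII_g
    by_cases h : (p : ℕ) ≤ z
    · simp only [h, if_true]
      have : 0 ≤ (1 - 1 / (N : ℝ)) * ((p : ℕ) : ℝ) ^ (-(1 + δ)) :=
        mul_nonneg (by linarith) hp0
      linarith
    · simp only [h, if_false, mul_zero, add_zero]
      apply mul_le_mul_of_nonneg_right _ hp0
      rw [div_le_iff₀ hNr, sub_mul, one_div, inv_mul_cancel₀ hNr.ne', one_mul]
      have : (b : ℝ) + 1 ≤ N := by exact_mod_cast hb
      linarith
  have hs3 : Summable (fun p : Nat.Primes => (1 - 1 / (N : ℝ)) * ((p : ℕ) : ℝ) ^ (-(1 + δ)) +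
        (a : ℝ) / N * (if (p : ℕ) ≤ z then ((p : ℕ) : ℝ) ^ (-(1 + δ)) else 0)) :=
    (hs.mul_left _).add (hs2.mul_left _)
  have hs1 : Summable (fun p : Nat.Primes => EII_g N a b z p * ((p : ℕ) : ℝ) ^ (-(1 + δ))) := by
    apply Summable.of_nonneg_of_le _ hle hs3
    intro p
    apply mul_nonneg _ (by positivity)
    unfold EII_g
    split_ifs <;> positivity
  have h1 := Summable.tsum_le_tsum hle hs1 hs3
  rw [Summable.tsum_add (hs.mul_left _) (hs2.mul_left _), tsum_mul_left, tsum_mul_left] at h1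
  -- small primes: comparison with the finite sum
  have h2 : ∑' p : Nat.Primes, (if (p : ℕ) ≤ z then ((p : ℕ) : ℝ) ^ (-(1 + δ)) else 0) ≤
      ∑ p ∈ (range (z + 1)).filter Nat.Prime, 1 / (p : ℝ) := by
    apply Summable.tsum_le_of_sum_le hs2
    intro s
    have h3 : ∑ p ∈ s, (if (p : ℕ) ≤ z then ((p : ℕ) : ℝ) ^ (-(1 + δ)) else 0) =
        ∑ p ∈ s.filter (fun p : Nat.Primes => (p : ℕ) ≤ z), ((p : ℕ) : ℝ) ^ (-(1 + δ)) := by
      rw [Finset.sum_filter]
    rw [h3]
    have h4 : ∑ p ∈ s.filter (fun p : Nat.Primes => (p : ℕ) ≤ z), ((p : ℕ) : ℝ) ^ (-(1 + δ)) ≤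
        ∑ p ∈ s.filter (fun p : Nat.Primes => (p : ℕ) ≤ z), 1 / ((p : ℕ) : ℝ) := by
      apply Finset.sum_le_sum
      intro p _
      have hp1 : (1 : ℝ) ≤ ((p : ℕ) : ℝ) := by exact_mod_cast p.2.one_lt.le
      rw [one_div, ← Real.rpow_neg_one]
      apply Real.rpow_le_rpow_of_exponent_le hp1
      linarith
    refine h4.trans ?_
    have h5 : ∑ p ∈ s.filter (fun p : Nat.Primes => (p : ℕ) ≤ z), 1 / ((p : ℕ) : ℝ) =
        ∑ p ∈ (s.filter (fun p : Nat.Primes => (p : ℕ) ≤ z)).image (fun p : Nat.Primes => (p : ℕ)),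
          1 / (p : ℝ) := by
      rw [Finset.sum_image]
      intro p _ q _ hpq
      exact Subtype.ext hpq
    rw [h5]
    apply Finset.sum_le_sum_of_subset_of_nonneg
    · intro p hp
      rw [Finset.mem_image] at hp
      obtain ⟨q, hq, rfl⟩ := hp
      rw [Finset.mem_filter] at hq
      rw [Finset.mem_filter, Finset.mem_range]
      exact ⟨by omega, q.2⟩
    · intro p _ _
      positivity
  have h6 := hC1 δ hδ hδ1
  have h7 := hC2 z
  have h8 : (1 - 1 / (N : ℝ)) * ∑' p : Nat.Primes, ((p : ℕ) : ℝ) ^ (-(1 + δ)) ≤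
      (1 - 1 / (N : ℝ)) * (Real.log (1 / δ) + C1) :=
    mul_le_mul_of_nonneg_left h6 (by linarith)
  have h9 : (a : ℝ) / N * ∑' p : Nat.Primes, (if (p : ℕ) ≤ z then ((p : ℕ) : ℝ) ^ (-(1 + δ))
      else 0) ≤ (a : ℝ) / N * (3 * Real.log (1 + Real.log (z + 1)) + C2) :=
    mul_le_mul_of_nonneg_left (h2.trans h7) ha0
  have h10 : (1 - 1 / (N : ℝ)) * C1 ≤ |C1| := by
    calc (1 - 1 / (N : ℝ)) * C1 ≤ (1 - 1 / (N : ℝ)) * |C1| :=
          mul_le_mul_of_nonneg_left (le_abs_self _) (by linarith)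
      _ ≤ 1 * |C1| := by
          apply mul_le_mul_of_nonneg_right _ (abs_nonneg _)
          have : 0 ≤ 1 / (N : ℝ) := by positivity
          linarith
      _ = |C1| := one_mul _
  have h11 : (a : ℝ) / N * C2 ≤ (a : ℝ) / N * |C2| :=
    mul_le_mul_of_nonneg_left (le_abs_self _) ha0
  have e1 : (1 - 1 / (N : ℝ)) * (Real.log (1 / δ) + C1) =
      (1 - 1 / (N : ℝ)) * Real.log (1 / δ) + (1 - 1 / (N : ℝ)) * C1 := by ring
  have e2 : (a : ℝ) / N * (3 * Real.log (1 + Real.log (z + 1)) + C2) =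
      3 * ((a : ℝ) / N) * Real.log (1 + Real.log (z + 1)) + (a : ℝ) / N * C2 := by ring
  rw [e1] at h8
  rw [e2] at h9
  linarith

open Classical in
/-- fewer than `N` labels have large prime factors -/
theorem e2 {V : Type} [Fintype V] [DecidableEq V] (N : ℕ) (hN : 0 < N)
    (S : Finset V) (hS : S.card < N) :
    ∃ C : ℝ, 0 < C ∧ ∃ K : ℕ, ∀ z x : ℕ, 3 ≤ x →
    ∑ D ∈ (Dall V x).filter (fun D => rs z D ⊆ S), wt N (∏ v, D v) ≤
      C * x * (Real.log x) ^ (-(1 / (N : ℝ))) * (1 + Real.log (z + 1)) ^ K := by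
  set a := Fintype.card V with ha
  have hNr : (0 : ℝ) < N := by exact_mod_cast hN
  set κ : ℝ := (a : ℝ) / N + 1 with hκ
  have hκ0 : 0 ≤ κ := by positivity
  obtain ⟨C, hC, hht⟩ := ht κ hκ0
  obtain ⟨C1, hC1, hts⟩ := EII_tsum N a S.card hN hS
  refine ⟨C * Real.exp C1, by positivity, ⌈3 * ((a : ℝ) / N)⌉₊, ?_⟩
  intro z x hx
  have hx3 : (3 : ℝ) ≤ x := by exact_mod_cast hx
  have hx0 : (0 : ℝ) < x := by linarith
  have hlog : 1 < Real.log x := by
    rw [Real.lt_log_iff_exp_lt hx0]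
    have := Real.exp_one_lt_d9
    linarith
  have hlog0 : 0 < Real.log x := by linarith
  have h1 := EII_sum N S z x
  have h2 := hht (EII_g N a S.card z) (by
      intro p
      unfold EII_g
      split_ifs <;> positivity) (by
      intro p
      unfold EII_g
      split_ifs
      · rw [hκ]
        linarith
      · have h3 : (S.card : ℝ) / N ≤ 1 := by
          rw [div_le_one hNr]
          exact_mod_cast hS.le
        have h4 : 0 ≤ (a : ℝ) / N := by positivity
        rw [hκ]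
        linarith) x hx
  have h3 := hts z (1 / Real.log x) (by positivity) (by
      rw [div_le_one hlog0]
      exact hlog.le)
  rw [one_div_one_div] at h3
  have h4 := Real.exp_le_exp.2 h3
  set L : ℝ := 1 + Real.log ((z : ℝ) + 1) with hL
  have hz1 : 0 ≤ Real.log ((z : ℝ) + 1) := Real.log_nonneg (by
    have : (0 : ℝ) ≤ z := by positivity
    linarith)
  have hL1 : 1 ≤ L := by linarith
  have hL0 : 0 < L := by linarith
  have h5 : Real.exp ((1 - 1 / (N : ℝ)) * Real.log (Real.log x) +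
      3 * ((a : ℝ) / N) * Real.log L + C1) =
      (Real.log x) ^ (1 - 1 / (N : ℝ)) * L ^ (3 * ((a : ℝ) / N)) * Real.exp C1 := by
    rw [Real.exp_add, Real.exp_add, Real.rpow_def_of_pos hlog0, Real.rpow_def_of_pos hL0]
    rw [mul_comm (1 - 1 / (N : ℝ)), mul_comm (3 * ((a : ℝ) / N)) (Real.log L)]
  rw [h5] at h4
  have h6 : L ^ (3 * ((a : ℝ) / N)) ≤ L ^ ⌈3 * ((a : ℝ) / N)⌉₊ := by
    rw [← Real.rpow_natCast]
    exact Real.rpow_le_rpow_of_exponent_le hL1 (Nat.le_ceil _)
  have h7 : (x : ℝ) / Real.log x * (Real.log x) ^ (1 - 1 / (N : ℝ)) =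
      x * (Real.log x) ^ (-(1 / (N : ℝ))) := by
    have : (1 : ℝ) - 1 / (N : ℝ) = 1 + -(1 / (N : ℝ)) := by ring
    rw [this, Real.rpow_add hlog0, Real.rpow_one]
    field_simp
  calc ∑ D ∈ (Dall V x).filter (fun D => rs z D ⊆ S), wt N (∏ v, D v)
      ≤ C * (x / Real.log x) * Real.exp (∑' p : Nat.Primes, EII_g N a S.card z p *
          ((p : ℕ) : ℝ) ^ (-(1 + 1 / Real.log x))) := h1.trans h2
    _ ≤ C * (x / Real.log x) * ((Real.log x) ^ (1 - 1 / (N : ℝ)) * L ^ (3 * ((a : ℝ) / N)) *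
          Real.exp C1) := mul_le_mul_of_nonneg_left h4 (by positivity)
    _ = C * Real.exp C1 * (x / Real.log x * (Real.log x) ^ (1 - 1 / (N : ℝ))) *
          L ^ (3 * ((a : ℝ) / N)) := by ring
    _ = C * Real.exp C1 * (x * (Real.log x) ^ (-(1 / (N : ℝ)))) *
          L ^ (3 * ((a : ℝ) / N)) := by rw [h7]
    _ ≤ C * Real.exp C1 * (x * (Real.log x) ^ (-(1 / (N : ℝ)))) *
          L ^ ⌈3 * ((a : ℝ) / N)⌉₊ := mul_le_mul_of_nonneg_left h6 (by positivity)
    _ = C * Real.exp C1 * x * (Real.log x) ^ (-(1 / (N : ℝ))) *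
          L ^ ⌈3 * ((a : ℝ) / N)⌉₊ := by ring

end PPA
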