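import Pool.Agent.Lib.MP_87c685_nt_PPA.Defs
import Pool.Agent.Lib.MP_87c685_nt_PPA.Sgn

/-! Project PP15 (MP_87c685_nt), analytic block PPA, module EIIIi. -/

open Finset Filter Topology

namespace PPA

open Classical in
/-- the smooth parts -/
noncomputable def dd (V : Type) [Fintype V] [DecidableEq V] (z D₀ : ℕ) : Finset (V → ℕ) :=
  (Fintype.piFinset fun _ => range (D₀ + 1)).filter fun d =>
    Ok (∏ v, d v) ∧ ∏ v, d v ≤ D₀ ∧ ∀ v, rg z (d v) = 1

theorem EIIIi_small {z a p : ℕ} (h1 : rg z a = 1) (hp : p ∈ a.primeFactors) : p ≤ z := by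
  by_contra h
  have h2 : p ∣ rg z a :=
    Finset.dvd_prod_of_mem (fun q => q) (Finset.mem_filter.2 ⟨hp, not_le.1 h⟩)
  rw [h1] at h2
  exact (Nat.prime_of_mem_primeFactors hp).one_lt.ne' (Nat.dvd_one.1 h2)

theorem EIIIi_split {z n : ℕ} (hn : Squarefree n) : sm z n * rg z n = n := by
  unfold sm rg
  have h := Finset.prod_filter_mul_prod_filter_not n.primeFactors (fun p => p ≤ z) (fun p => p)
  simp only [not_le] at h
  rw [h]
  exact Nat.prod_primeFactors_of_squarefree hn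

theorem EIIIi_sm_dvd {z n : ℕ} (hn : Squarefree n) : sm z n ∣ n :=
  ⟨rg z n, (EIIIi_split hn).symm⟩

theorem EIIIi_rg_dvd {z n : ℕ} (hn : Squarefree n) : rg z n ∣ n :=
  ⟨sm z n, by rw [mul_comm]; exact (EIIIi_split hn).symm⟩

theorem EIIIi_rg_sm (z n : ℕ) : rg z (sm z n) = 1 := by
  unfold rg
  refine Finset.prod_eq_one fun p hp => ?_
  exfalso
  obtain ⟨hp1, hp2⟩ := Finset.mem_filter.1 hp
  have hpp := Nat.prime_of_mem_primeFactors hp1
  have hd : p ∣ sm z n := Nat.dvd_of_mem_primeFactors hp1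
  unfold sm at hd
  obtain ⟨q, hq, hpq⟩ := (Prime.dvd_finsetProd_iff hpp.prime _).1 hd
  obtain ⟨hq1, hq2⟩ := Finset.mem_filter.1 hq
  have := (Nat.prime_dvd_prime_iff_eq hpp (Nat.prime_of_mem_primeFactors hq1)).1 hpq
  omega

theorem EIIIi_rough (z n : ℕ) : Rough z (rg z n) := by
  intro p hp hd
  unfold rg at hd
  obtain ⟨q, hq, hpq⟩ := (Prime.dvd_finsetProd_iff hp.prime _).1 hd
  obtain ⟨hq1, hq2⟩ := Finset.mem_filter.1 hq
  have := (Nat.prime_dvd_prime_iff_eq hp (Nat.prime_of_mem_primeFactors hq1)).1 hpq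
  omega

theorem EIIIi_mul {z a b : ℕ} (ha : Squarefree a) (hb : Squarefree b) (h1 : rg z a = 1)
    (h2 : Rough z b) : sm z (a * b) = a ∧ rg z (a * b) = b := by
  have hbig : ∀ p ∈ b.primeFactors, z < p := fun p hp =>
    h2 p (Nat.prime_of_mem_primeFactors hp) (Nat.dvd_of_mem_primeFactors hp)
  have hsmall : ∀ p ∈ a.primeFactors, p ≤ z := fun p hp => EIIIi_small h1 hp
  have hu := Nat.primeFactors_mul ha.ne_zero hb.ne_zero
  constructor
  · unfold sm
    rw [hu]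
    have : (a.primeFactors ∪ b.primeFactors).filter (fun p => p ≤ z) = a.primeFactors := by
      ext p
      rw [Finset.mem_filter, Finset.mem_union]
      constructor
      · rintro ⟨h | h, h3⟩
        · exact h
        · exact absurd (hbig p h) (not_lt.2 h3)
      · intro h
        exact ⟨Or.inl h, hsmall p h⟩
    rw [this]
    exact Nat.prod_primeFactors_of_squarefree ha
  · unfold rg
    rw [hu]
    have : (a.primeFactors ∪ b.primeFactors).filter (fun p => z < p) = b.primeFactors := by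
      ext p
      rw [Finset.mem_filter, Finset.mem_union]
      constructor
      · rintro ⟨h | h, h3⟩
        · exact absurd h3 (not_lt.2 (hsmall p h))
        · exact h
      · intro h
        exact ⟨Or.inr h, hbig p h⟩
    rw [this]
    exact Nat.prod_primeFactors_of_squarefree hb

theorem EIIIi_ok_dvd {m n : ℕ} (hn : Ok n) (h : m ∣ n) : Ok m :=
  ⟨hn.1.squarefree_of_dvd h, Nat.Coprime.coprime_dvd_left h hn.2⟩

theorem EIIIi_rough_dvd {z m n : ℕ} (hn : Rough z n) (h : m ∣ n) : Rough z m :=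
  fun p hp hd => hn p hp (hd.trans h)

theorem EIIIi_mem_Dall {V : Type} [Fintype V] [DecidableEq V] (x : ℕ) (D : V → ℕ)
    (h1 : Ok (∏ v, D v)) (h2 : ∏ v, D v ≤ x) : D ∈ Dall V x := by
  unfold Dall
  rw [Finset.mem_filter, Fintype.mem_piFinset]
  refine ⟨fun v => ?_, h1, h2⟩
  rw [Finset.mem_range, Nat.lt_succ_iff]
  exact (Nat.le_of_dvd (Nat.pos_of_ne_zero h1.1.ne_zero)
    (Finset.dvd_prod_of_mem D (Finset.mem_univ v))).trans h2

theorem EIIIi_mem_dd {V : Type} [Fintype V] [DecidableEq V] (z D₀ : ℕ) (d : V → ℕ)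
    (h1 : Ok (∏ v, d v)) (h2 : ∏ v, d v ≤ D₀) (h3 : ∀ v, rg z (d v) = 1) : d ∈ dd V z D₀ := by
  unfold dd
  rw [Finset.mem_filter, Fintype.mem_piFinset]
  refine ⟨fun v => ?_, h1, h2, h3⟩
  rw [Finset.mem_range, Nat.lt_succ_iff]
  exact (Nat.le_of_dvd (Nat.pos_of_ne_zero h1.1.ne_zero)
    (Finset.dvd_prod_of_mem d (Finset.mem_univ v))).trans h2

theorem EIIIi_of_dd {V : Type} [Fintype V] [DecidableEq V] {z D₀ : ℕ} {d : V → ℕ}
    (hd : d ∈ dd V z D₀) : Ok (∏ v, d v) ∧ ∏ v, d v ≤ D₀ ∧ ∀ v, rg z (d v) = 1 := by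
  unfold dd at hd
  exact (Finset.mem_filter.1 hd).2

theorem EIIIi_of_EE {V : Type} [Fintype V] [DecidableEq V] {U : Finset V} {z X : ℕ} {E : V → ℕ}
    (hE : E ∈ EE U z X) :
    Ok (∏ v, E v) ∧ ∏ v, E v ≤ X ∧ supp E ⊆ U ∧ Rough z (∏ v, E v) := by
  simp only [EE, Dall, Finset.mem_filter] at hE
  exact ⟨hE.1.2.1, hE.1.2.2, hE.2.1, hE.2.2⟩

theorem EIIIi_comb {V : Type} [Fintype V] [DecidableEq V] {U : Finset V} {z D₀ X : ℕ}
    {d E : V → ℕ} (hd : d ∈ dd V z D₀) (hE : E ∈ EE U z X) :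
    (∀ v, sm z (d v * E v) = d v ∧ rg z (d v * E v) = E v) ∧
      Nat.Coprime (∏ v, d v) (∏ v, E v) ∧ Ok (∏ v, d v * E v) := by
  obtain ⟨d1, d2, d3⟩ := EIIIi_of_dd hd
  obtain ⟨e1, e2, e3, e4⟩ := EIIIi_of_EE hE
  have hcop : Nat.Coprime (∏ v, d v) (∏ v, E v) := by
    rw [Nat.coprime_iff_gcd_eq_one]
    by_contra hne
    obtain ⟨p, hp, hpd⟩ := Nat.exists_prime_and_dvd hne
    have h1 : p ∣ ∏ v, d v := hpd.trans (Nat.gcd_dvd_left _ _)
    have h2 : p ∣ ∏ v, E v := hpd.trans (Nat.gcd_dvd_right _ _)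
    obtain ⟨v, _, hv⟩ := (Prime.dvd_finsetProd_iff hp.prime _).1 h1
    have h3 : d v ≠ 0 := by
      intro h0
      exact d1.1.ne_zero (Finset.prod_eq_zero (Finset.mem_univ v) h0)
    have h4 := EIIIi_small (d3 v) (Nat.mem_primeFactors.2 ⟨hp, hv, h3⟩)
    have h5 := e4 p hp h2
    omega
  refine ⟨fun v => ?_, hcop, ?_⟩
  · exact EIIIi_mul
      (d1.1.squarefree_of_dvd (Finset.dvd_prod_of_mem d (Finset.mem_univ v)))
      (e1.1.squarefree_of_dvd (Finset.dvd_prod_of_mem E (Finset.mem_univ v))) (d3 v)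
      (EIIIi_rough_dvd e4 (Finset.dvd_prod_of_mem E (Finset.mem_univ v)))
  · rw [Finset.prod_mul_distrib]
    exact ⟨(Nat.squarefree_mul hcop).2 ⟨d1.1, e1.1⟩, Nat.Coprime.mul_left d1.2 e1.2⟩

open Classical in
/-- splitting into smooth and rough parts -/
theorem e3_index {V : Type} [Fintype V] [DecidableEq V] (U : Finset V) (z x D₀ : ℕ)
    (g : (V → ℕ) → ℝ) :
    ∑ D ∈ (Dall V x).filter (fun D => rs z D ⊆ U ∧ ∏ v, sm z (D v) ≤ D₀), g D =
      ∑ d ∈ dd V z D₀, ∑ E ∈ EE U z (x / ∏ v, d v), g (fun v => d v * E v) := by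
  rw [Finset.sum_sigma']
  refine Finset.sum_bij'
    (i := fun (D : V → ℕ) _ => (⟨fun v => sm z (D v), fun v => rg z (D v)⟩ :
      (_ : V → ℕ) × (V → ℕ)))
    (j := fun (p : (_ : V → ℕ) × (V → ℕ)) _ => fun v => p.1 v * p.2 v) ?_ ?_ ?_ ?_ ?_
  · intro D hD
    obtain ⟨h1, h2, h3⟩ := Finset.mem_filter.1 hD
    unfold Dall at h1
    obtain ⟨_, h4, h5⟩ := Finset.mem_filter.1 h1
    have hsq : ∀ v, Squarefree (D v) := fun v =>
      h4.1.squarefree_of_dvd (Finset.dvd_prod_of_mem D (Finset.mem_univ v))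
    have hd1 : (∏ v, sm z (D v)) ∣ ∏ v, D v :=
      Finset.prod_dvd_prod_of_dvd _ _ fun v _ => EIIIi_sm_dvd (hsq v)
    have hd2 : (∏ v, rg z (D v)) ∣ ∏ v, D v :=
      Finset.prod_dvd_prod_of_dvd _ _ fun v _ => EIIIi_rg_dvd (hsq v)
    have hok1 := EIIIi_ok_dvd h4 hd1
    have hok2 := EIIIi_ok_dvd h4 hd2
    rw [Finset.mem_sigma]
    refine ⟨EIIIi_mem_dd z D₀ _ hok1 h3 fun v => EIIIi_rg_sm z _, ?_⟩
    show (fun v => rg z (D v)) ∈ EE U z (x / ∏ v, sm z (D v))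
    unfold EE
    rw [Finset.mem_filter]
    refine ⟨EIIIi_mem_Dall _ _ hok2 ?_, ?_, ?_⟩
    · rw [Nat.le_div_iff_mul_le (Nat.pos_of_ne_zero hok1.1.ne_zero), ← Finset.prod_mul_distrib]
      refine le_trans (le_of_eq ?_) h5
      refine Finset.prod_congr rfl fun v _ => ?_
      rw [mul_comm]
      exact EIIIi_split (hsq v)
    · intro v hv
      refine h2 ?_
      unfold supp at hv
      unfold rs
      exact hv
    · intro p hp hpd
      obtain ⟨v, _, hv⟩ := (Prime.dvd_finsetProd_iff hp.prime _).1 hpd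
      exact EIIIi_rough z _ p hp hv
  · rintro ⟨d, E⟩ hp
    rw [Finset.mem_sigma] at hp
    obtain ⟨hd, hE⟩ := hp
    change d ∈ dd V z D₀ at hd
    change E ∈ EE U z (x / ∏ v, d v) at hE
    obtain ⟨d1, d2, d3⟩ := EIIIi_of_dd hd
    obtain ⟨e1, e2, e3, e4⟩ := EIIIi_of_EE hE
    obtain ⟨c1, c2, c3⟩ := EIIIi_comb hd hE
    show (fun v => d v * E v) ∈ _
    rw [Finset.mem_filter]
    refine ⟨EIIIi_mem_Dall _ _ c3 ?_, ?_, ?_⟩
    · rw [Finset.prod_mul_distrib, mul_comm]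
      exact (Nat.le_div_iff_mul_le (Nat.pos_of_ne_zero d1.1.ne_zero)).1 e2
    · intro v hv
      refine e3 ?_
      unfold rs at hv
      unfold supp
      rw [Finset.mem_filter] at hv ⊢
      rw [← (c1 v).2]
      exact hv
    · refine le_trans (le_of_eq ?_) d2
      exact Finset.prod_congr rfl fun v _ => (c1 v).1
  · intro D hD
    obtain ⟨h1, h2, h3⟩ := Finset.mem_filter.1 hD
    unfold Dall at h1
    obtain ⟨_, h4, h5⟩ := Finset.mem_filter.1 h1
    funext v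
    exact EIIIi_split (h4.1.squarefree_of_dvd (Finset.dvd_prod_of_mem D (Finset.mem_univ v)))
  · rintro ⟨d, E⟩ hp
    rw [Finset.mem_sigma] at hp
    obtain ⟨hd, hE⟩ := hp
    change d ∈ dd V z D₀ at hd
    change E ∈ EE U z (x / ∏ v, d v) at hE
    obtain ⟨c1, c2, c3⟩ := EIIIi_comb hd hE
    show (⟨fun v => sm z (d v * E v), fun v => rg z (d v * E v)⟩ : (_ : V → ℕ) × (V → ℕ)) = ⟨d, E⟩
    have h1 : (fun v => sm z (d v * E v)) = d := funext fun v => (c1 v).1
    have h2 : (fun v => rg z (d v * E v)) = E := funext fun v => (c1 v).2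
    rw [h1, h2]
  · intro D hD
    obtain ⟨h1, h2, h3⟩ := Finset.mem_filter.1 hD
    unfold Dall at h1
    obtain ⟨_, h4, h5⟩ := Finset.mem_filter.1 h1
    congr 1
    funext v
    exact (EIIIi_split
      (h4.1.squarefree_of_dvd (Finset.dvd_prod_of_mem D (Finset.mem_univ v)))).symm

/-- properties of the splitting -/
theorem e3_props {V : Type} [Fintype V] [DecidableEq V] (U : Finset V) (z x D₀ : ℕ)
    (d E : V → ℕ) (hd : d ∈ dd V z D₀) (hE : E ∈ EE U z (x / ∏ v, d v)) :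
    Ok (∏ v, d v * E v) ∧ rs z (fun v => d v * E v) = supp E ∧
      supp (fun v => d v * E v) = supp d ∪ supp E ∧
      (∏ v, d v * E v).primeFactors.card =
        (∏ v, d v).primeFactors.card + (∏ v, E v).primeFactors.card := by
  obtain ⟨c1, c2, c3⟩ := EIIIi_comb hd hE
  refine ⟨c3, ?_, ?_, ?_⟩
  · ext v
    unfold rs supp
    rw [Finset.mem_filter, Finset.mem_filter, (c1 v).2]
  · ext v
    unfold supp
    rw [Finset.mem_union, Finset.mem_filter, Finset.mem_filter, Finset.mem_filter]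
    simp only [Finset.mem_univ, true_and, ne_eq, mul_eq_one]
    tauto
  · rw [Finset.prod_mul_distrib, c2.primeFactors_mul,
      Finset.card_union_of_disjoint c2.disjoint_primeFactors]

end PPA
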