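import Pool.Agent.Lib.MP_87c685_nt_PPA.Defs
import Pool.Agent.Lib.MP_87c685_nt_PPA.EII
import Pool.Agent.Lib.MP_87c685_nt_PPA.KB
import Pool.Agent.Lib.MP_87c685_nt_PPA.FMul
import Pool.Agent.Lib.MP_87c685_nt_PPA.Sgn
import Pool.Agent.Lib.MP_87c685_nt_PPA.EIIIi

/-! Project PP15 (MP_87c685_nt), analytic block PPA, module EIIIb. -/

open Finset Filter Topology

namespace PPA

theorem EIIIb_harm (n : ℕ) : ∑ t ∈ Icc 1 n, (1 / (t : ℝ)) ≤ 1 + Real.log n := by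
  have h := harmonic_le_one_add_log n
  have e : ((harmonic n : ℚ) : ℝ) = ∑ t ∈ Icc 1 n, (1 / (t : ℝ)) := by
    rw [harmonic_eq_sum_Icc]
    push_cast
    refine Finset.sum_congr rfl fun t _ => ?_
    rw [one_div]
  rw [← e]
  exact h

theorem EIIIb_ne {V : Type} [Fintype V] [DecidableEq V] {d : V → ℕ} (hd : Ok (∏ v, d v)) (v : V) :
    d v ≠ 0 := by
  intro h
  have h0 : ∏ v, d v = 0 := Finset.prod_eq_zero (Finset.mem_univ v) h
  have := hd.1.ne_zero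
  exact this h0

theorem EIIIb_sum_inv {V : Type} [Fintype V] [DecidableEq V] (z D₀ : ℕ) :
    ∑ d ∈ dd V z D₀, (1 / ((∏ v, d v : ℕ) : ℝ)) ≤ (1 + Real.log D₀) ^ Fintype.card V := by
  classical
  have h1 : ∑ d ∈ dd V z D₀, (1 / ((∏ v, d v : ℕ) : ℝ)) ≤
      ∑ d ∈ Fintype.piFinset (fun _ : V => Icc 1 D₀), (1 / ((∏ v, d v : ℕ) : ℝ)) := by
    refine Finset.sum_le_sum_of_subset_of_nonneg ?_ fun d _ _ => by positivity
    intro d hd
    unfold dd at hd
    rw [Finset.mem_filter, Fintype.mem_piFinset] at hd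
    rw [Fintype.mem_piFinset]
    intro v
    have h2 := EIIIb_ne hd.2.1 v
    have h3 := hd.1 v
    rw [Finset.mem_range] at h3
    rw [Finset.mem_Icc]
    omega
  have h2 : ∑ d ∈ Fintype.piFinset (fun _ : V => Icc 1 D₀), (1 / ((∏ v, d v : ℕ) : ℝ)) =
      ∏ _v : V, ∑ t ∈ Icc 1 D₀, (1 / (t : ℝ)) := by
    rw [Finset.prod_univ_sum]
    refine Finset.sum_congr rfl fun d _ => ?_
    push_cast
    rw [Finset.prod_div_distrib]
    simp
  rw [h2] at h1
  refine h1.trans ?_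
  rw [Finset.prod_const, Finset.card_univ]
  exact pow_le_pow_left₀ (Finset.sum_nonneg fun t _ => by positivity) (EIIIb_harm D₀) _

theorem EIIIb_nonsq {V : Type} [Fintype V] [DecidableEq V] (φ : V → V → ℕ)
    (d : V → ℕ) (hd : Squarefree (∏ v, d v)) (v₁ : V) (hv : d v₁ ≠ 1) (u w : V)
    (hodd : (φ v₁ u + φ u v₁) % 2 ≠ (φ v₁ w + φ w v₁) % 2) :
    ¬ IsSquare ((∏ v, d v ^ (φ v u + φ u v)) * ∏ v, d v ^ (φ v w + φ w v)) := by
  rintro ⟨r, hr⟩
  have hne : ∀ v, d v ≠ 0 := by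
    intro v h
    have h0 : ∏ v, d v = 0 := Finset.prod_eq_zero (Finset.mem_univ v) h
    exact hd.ne_zero h0
  obtain ⟨p, hp, hpd⟩ := Nat.exists_prime_and_dvd hv
  have hdv : Squarefree (d v₁) :=
    hd.squarefree_of_dvd (Finset.dvd_prod_of_mem d (Finset.mem_univ v₁))
  have hf1 : (d v₁).factorization p = 1 := by
    have h1 := hdv.natFactorization_le_one p
    have h2 : 1 ≤ (d v₁).factorization p := (hp.dvd_iff_one_le_factorization (hne v₁)).mp hpd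
    omega
  have hf0 : ∀ v, v ≠ v₁ → (d v).factorization p = 0 := by
    intro v hvv
    apply Nat.factorization_eq_zero_of_not_dvd
    intro hpv
    have h1 : d v * d v₁ ∣ ∏ v, d v := by
      have h2 : ∏ t ∈ ({v, v₁} : Finset V), d t ∣ ∏ v, d v :=
        Finset.prod_dvd_prod_of_subset _ _ _ (Finset.subset_univ _)
      rwa [Finset.prod_pair hvv] at h2
    have h3 : p * p ∣ ∏ v, d v := (mul_dvd_mul hpv hpd).trans h1
    have h4 := hd p h3
    exact hp.one_lt.ne' (Nat.isUnit_iff.mp h4)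
  have hprod : ∀ t : V, (∏ v, d v ^ (φ v t + φ t v)).factorization p = φ v₁ t + φ t v₁ := by
    intro t
    rw [Nat.factorization_prod fun v _ => pow_ne_zero _ (hne v), Finset.sum_apply']
    rw [Finset.sum_eq_single v₁]
    · rw [Nat.factorization_pow]
      simp [hf1]
    · intro v _ hvv
      rw [Nat.factorization_pow]
      simp [hf0 v hvv]
    · intro h
      exact absurd (Finset.mem_univ v₁) h
  have hnz : ∀ t : V, (∏ v, d v ^ (φ v t + φ t v)) ≠ 0 := fun t =>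
    Finset.prod_ne_zero_iff.mpr fun v _ => pow_ne_zero _ (hne v)
  have hr0 : r ≠ 0 := by
    rintro rfl
    have := mul_ne_zero (hnz u) (hnz w)
    rw [hr] at this
    simp at this
  have h5 := congrArg (fun n => Nat.factorization n p) hr
  beta_reduce at h5
  rw [Nat.factorization_mul (hnz u) (hnz w), Nat.factorization_mul hr0 hr0] at h5
  simp only [Finsupp.add_apply] at h5
  rw [hprod u, hprod w] at h5
  omega

open Classical in
/-- the summand -/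
noncomputable def EIIIb_g {V : Type} [Fintype V] [DecidableEq V] (φ : V → V → ℕ)
    (e : V → Fin 4 → ℕ) (N : ℕ) (R : Finset V → Prop) (c : Fin 4 → ℤ) (U : Finset V) (z : ℕ)
    (D : V → ℕ) : ℝ :=
  if rs z D = U ∧ ¬ supp D ⊆ U ∧ sg (∏ v, D v) = c then G φ e N R D else 0

open Classical in
/-- the unweighted summand -/
noncomputable def EIIIb_T {V : Type} [Fintype V] [DecidableEq V] (φ : V → V → ℕ)
    (e : V → Fin 4 → ℕ) (N : ℕ) (c : Fin 4 → ℤ) (d E : V → ℕ) : ℝ :=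
  (if sg (∏ v, d v * E v) = c then (F φ e (fun v => d v * E v) : ℝ) else 0) * wt N (∏ v, E v)

open Classical in
theorem EIIIb_rewrite {V : Type} [Fintype V] [DecidableEq V] (φ : V → V → ℕ)
    (e : V → Fin 4 → ℕ) (N : ℕ) (R : Finset V → Prop) (c : Fin 4 → ℤ) (U : Finset V)
    (z x D₀ : ℕ) :
    ∑ D ∈ (Dx V c x).filter (fun D => rs z D = U ∧ ¬ supp D ⊆ U ∧ ∏ v, sm z (D v) ≤ D₀),
      G φ e N R D =
    ∑ d ∈ dd V z D₀, ∑ E ∈ EE U z (x / ∏ v, d v),
      EIIIb_g φ e N R c U z (fun v => d v * E v) := by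
  rw [← e3_index U z x D₀ (EIIIb_g φ e N R c U z)]
  unfold Dx EIIIb_g
  rw [Finset.filter_filter, Finset.sum_filter, Finset.sum_filter]
  refine Finset.sum_congr rfl fun D _ => ?_
  by_cases h1 : rs z D = U
  · by_cases h2 : supp D ⊆ U
    · simp [h2]
    · by_cases h3 : ∏ v, sm z (D v) ≤ D₀
      · by_cases h4 : sg (∏ v, D v) = c
        · simp [h1, h2, h3, h4]
        · simp [h4]
      · simp [h3]
  · simp [h1]

theorem EIIIb_wt_mul (N a b c : ℕ) (h : c.primeFactors.card = a.primeFactors.card +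
    b.primeFactors.card) : wt N c = wt N a * wt N b := by
  unfold wt
  rw [h, pow_add, one_div_mul_one_div]

theorem EIIIb_wt_nonneg (N a : ℕ) : 0 ≤ wt N a := by
  unfold wt
  positivity

theorem EIIIb_wt_le (N a : ℕ) (hN : 0 < N) : wt N a ≤ 1 := by
  unfold wt
  have h1 : (1 : ℝ) ≤ (N : ℝ) := by exact_mod_cast hN
  have h2 : (1 : ℝ) ≤ (N : ℝ) ^ a.primeFactors.card := one_le_pow₀ h1
  exact (div_le_one (by positivity)).mpr h2

open Classical in
theorem EIIIb_val {V : Type} [Fintype V] [DecidableEq V] (φ : V → V → ℕ)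
    (e : V → Fin 4 → ℕ) (N : ℕ) (R : Finset V → Prop) (c : Fin 4 → ℤ) (U : Finset V)
    (z x D₀ : ℕ) (d E : V → ℕ) (hd : d ∈ dd V z D₀) (hE : E ∈ EE U z (x / ∏ v, d v)) :
    EIIIb_g φ e N R c U z (fun v => d v * E v) =
      if ¬ supp d ⊆ U ∧ R (supp d ∪ U) then
        wt N (∏ v, d v) * (if supp E = U then EIIIb_T φ e N c d E else 0) else 0 := by
  obtain ⟨_, h2, h3, h4⟩ := e3_props U z x D₀ d E hd hE
  have hw := EIIIb_wt_mul N _ _ _ h4
  unfold EIIIb_g EIIIb_T G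
  rw [h2, h3, hw]
  by_cases hs : supp E = U
  · rw [hs]
    by_cases h5 : supp d ⊆ U
    · have h5' : supp d ∪ U ⊆ U := Finset.union_subset h5 subset_rfl
      simp [h5, h5']
    · have h5' : ¬ supp d ∪ U ⊆ U := fun h => h5 (Finset.subset_union_left.trans h)
      by_cases h6 : R (supp d ∪ U)
      · by_cases h7 : sg (∏ v, d v * E v) = c
        · rw [if_pos ⟨rfl, h5', h7⟩, if_pos h6, if_pos ⟨h5, h6⟩, if_pos rfl, if_pos h7]
          ring
        · simp [h7]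
      · simp [h6]
  · simp [hs]

theorem EIIIb_F_le {V : Type} [Fintype V] [DecidableEq V] (φ : V → V → ℕ)
    (e : V → Fin 4 → ℕ) (D : V → ℕ) : |(F φ e D : ℝ)| ≤ 1 := by
  have h := F_le φ e D
  have h2 : ((|F φ e D| : ℤ) : ℝ) ≤ ((1 : ℤ) : ℝ) := Int.cast_le.mpr h
  rwa [Int.cast_abs, Int.cast_one] at h2

open Classical in
theorem EIIIb_T_le {V : Type} [Fintype V] [DecidableEq V] (φ : V → V → ℕ)
    (e : V → Fin 4 → ℕ) (N : ℕ) (c : Fin 4 → ℤ) (d E : V → ℕ) :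
    |EIIIb_T φ e N c d E| ≤ wt N (∏ v, E v) := by
  unfold EIIIb_T
  rw [abs_mul, abs_of_nonneg (EIIIb_wt_nonneg N _)]
  have h1 : |(if sg (∏ v, d v * E v) = c then (F φ e (fun v => d v * E v) : ℝ) else 0)| ≤ 1 := by
    by_cases h : sg (∏ v, d v * E v) = c
    · rw [if_pos h]
      exact EIIIb_F_le φ e _
    · rw [if_neg h]
      simp
  calc _ ≤ 1 * wt N (∏ v, E v) := mul_le_mul_of_nonneg_right h1 (EIIIb_wt_nonneg N _)
    _ = _ := one_mul _

open Classical in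
theorem EIIIb_abs {V : Type} [Fintype V] [DecidableEq V] (φ : V → V → ℕ)
    (e : V → Fin 4 → ℕ) (N : ℕ) (hN : 0 < N) (R : Finset V → Prop) (c : Fin 4 → ℤ)
    (U : Finset V) (z x D₀ : ℕ) (d : V → ℕ) (hd : d ∈ dd V z D₀) :
    |∑ E ∈ EE U z (x / ∏ v, d v), EIIIb_g φ e N R c U z (fun v => d v * E v)| ≤
      (if supp d ⊆ U then 0 else |∑ E ∈ EE U z (x / ∏ v, d v), EIIIb_T φ e N c d E|) +
      ∑ E ∈ EE U z (x / ∏ v, d v),
        (if rs z (fun v => d v * E v) = U then 0 else wt N (∏ v, d v * E v)) := by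
  have hsnd : 0 ≤ ∑ E ∈ EE U z (x / ∏ v, d v),
      (if rs z (fun v => d v * E v) = U then 0 else wt N (∏ v, d v * E v)) := by
    refine Finset.sum_nonneg fun E _ => ?_
    split_ifs
    · exact le_rfl
    · exact EIIIb_wt_nonneg N _
  have hfst : 0 ≤ (if supp d ⊆ U then 0 else
      |∑ E ∈ EE U z (x / ∏ v, d v), EIIIb_T φ e N c d E|) := by
    split_ifs
    · exact le_rfl
    · exact abs_nonneg _
  rw [Finset.sum_congr rfl fun E hE => EIIIb_val φ e N R c U z x D₀ d E hd hE]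
  by_cases hcond : ¬ supp d ⊆ U ∧ R (supp d ∪ U)
  · simp only [if_pos hcond]
    rw [if_neg hcond.1]
    have h1 : ∑ E ∈ EE U z (x / ∏ v, d v), wt N (∏ v, d v) *
        (if supp E = U then EIIIb_T φ e N c d E else 0) =
        wt N (∏ v, d v) * (∑ E ∈ EE U z (x / ∏ v, d v), EIIIb_T φ e N c d E) -
        ∑ E ∈ EE U z (x / ∏ v, d v), wt N (∏ v, d v) *
          (if supp E = U then 0 else EIIIb_T φ e N c d E) := by
      rw [Finset.mul_sum, ← Finset.sum_sub_distrib]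
      refine Finset.sum_congr rfl fun E _ => ?_
      split_ifs <;> ring
    rw [h1]
    refine (abs_sub _ _).trans ?_
    have h2 : |wt N (∏ v, d v) * ∑ E ∈ EE U z (x / ∏ v, d v), EIIIb_T φ e N c d E| ≤
        |∑ E ∈ EE U z (x / ∏ v, d v), EIIIb_T φ e N c d E| := by
      rw [abs_mul, abs_of_nonneg (EIIIb_wt_nonneg N _)]
      exact mul_le_of_le_one_left (abs_nonneg _) (EIIIb_wt_le N _ hN)
    refine add_le_add h2 ?_
    refine (Finset.abs_sum_le_sum_abs _ _).trans ?_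
    refine Finset.sum_le_sum fun E hE => ?_
    obtain ⟨_, h3, _, h4⟩ := e3_props U z x D₀ d E hd hE
    rw [h3, EIIIb_wt_mul N _ _ _ h4]
    by_cases hs : supp E = U
    · rw [if_pos hs, if_pos hs]
      simp
    · rw [if_neg hs, if_neg hs, abs_mul, abs_of_nonneg (EIIIb_wt_nonneg N _)]
      exact mul_le_mul_of_nonneg_left (EIIIb_T_le φ e N c d E) (EIIIb_wt_nonneg N _)
  · simp only [if_neg hcond]
    rw [Finset.sum_const_zero, abs_zero]
    exact add_nonneg hfst hsnd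

open Classical in
theorem EIIIb_second {V : Type} [Fintype V] [DecidableEq V] (N : ℕ) (hN : 0 < N)
    (U : Finset V) (hcard : U.card = N) :
    ∃ C : ℝ, 0 < C ∧ ∃ K : ℕ, ∀ z x D₀ : ℕ, 3 ≤ x →
      ∑ D ∈ (Dall V x).filter (fun D => rs z D ⊆ U ∧ ∏ v, sm z (D v) ≤ D₀),
        (if rs z D = U then 0 else wt N (∏ v, D v)) ≤
      C * x * (Real.log x) ^ (-(1 / (N : ℝ))) * (1 + Real.log (z + 1)) ^ K := by
  have h2 : ∀ u : V, ∃ C : ℝ, 0 < C ∧ ∃ K : ℕ, ∀ z x : ℕ, 3 ≤ x → u ∈ U →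
      ∑ D ∈ (Dall V x).filter (fun D => rs z D ⊆ U.erase u), wt N (∏ v, D v) ≤
      C * x * (Real.log x) ^ (-(1 / (N : ℝ))) * (1 + Real.log (z + 1)) ^ K := by
    intro u
    by_cases hu : u ∈ U
    · have hc : (U.erase u).card < N := by
        rw [Finset.card_erase_of_mem hu, hcard]
        omega
      obtain ⟨C, hC, K, hK⟩ := e2 N hN (U.erase u) hc
      exact ⟨C, hC, K, fun z x hx _ => hK z x hx⟩
    · exact ⟨1, one_pos, 0, fun z x _ h => absurd h hu⟩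
  choose C hC K hK using h2
  have hne : U.Nonempty := Finset.card_pos.mp (hcard ▸ hN)
  refine ⟨∑ u ∈ U, C u, Finset.sum_pos (fun u _ => hC u) hne, ∑ u ∈ U, K u, ?_⟩
  intro z x D₀ hx
  have hlog : 0 < Real.log x := Real.log_pos (by
    have : (3 : ℝ) ≤ x := by exact_mod_cast hx
    linarith)
  have hL : 0 ≤ (Real.log x) ^ (-(1 / (N : ℝ))) := Real.rpow_nonneg hlog.le _
  have hB : (1 : ℝ) ≤ 1 + Real.log (z + 1) := by
    have : 0 ≤ Real.log ((z : ℝ) + 1) := Real.log_nonneg (by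
      have : (0 : ℝ) ≤ z := Nat.cast_nonneg z
      linarith)
    linarith
  have hstep : ∑ D ∈ (Dall V x).filter (fun D => rs z D ⊆ U ∧ ∏ v, sm z (D v) ≤ D₀),
        (if rs z D = U then 0 else wt N (∏ v, D v)) ≤
      ∑ u ∈ U, ∑ D ∈ (Dall V x).filter (fun D => rs z D ⊆ U.erase u), wt N (∏ v, D v) := by
    rw [Finset.sum_filter]
    have e1 : ∀ u ∈ U, ∑ D ∈ (Dall V x).filter (fun D => rs z D ⊆ U.erase u), wt N (∏ v, D v) =
        ∑ D ∈ Dall V x, if rs z D ⊆ U.erase u then wt N (∏ v, D v) else 0 := by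
      intro u _
      rw [Finset.sum_filter]
    rw [Finset.sum_congr rfl e1, Finset.sum_comm]
    refine Finset.sum_le_sum fun D _ => ?_
    have hnn : 0 ≤ ∑ u ∈ U, (if rs z D ⊆ U.erase u then wt N (∏ v, D v) else 0) := by
      refine Finset.sum_nonneg fun u _ => ?_
      split_ifs
      · exact EIIIb_wt_nonneg N _
      · exact le_rfl
    by_cases h1 : rs z D ⊆ U ∧ ∏ v, sm z (D v) ≤ D₀
    · rw [if_pos h1]
      by_cases h2 : rs z D = U
      · rw [if_pos h2]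
        exact hnn
      · rw [if_neg h2]
        obtain ⟨u, hu, hu'⟩ : ∃ u ∈ U, u ∉ rs z D := by
          by_contra hcon
          push Not at hcon
          exact h2 (Finset.Subset.antisymm h1.1 hcon)
        have h3 : rs z D ⊆ U.erase u := by
          intro t ht
          rw [Finset.mem_erase]
          exact ⟨fun h => hu' (h ▸ ht), h1.1 ht⟩
        have h4 : (if rs z D ⊆ U.erase u then wt N (∏ v, D v) else 0) ≤
            ∑ u ∈ U, (if rs z D ⊆ U.erase u then wt N (∏ v, D v) else 0) :=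
          Finset.single_le_sum (f := fun u => if rs z D ⊆ U.erase u then wt N (∏ v, D v) else 0)
            (fun u _ => by
              split_ifs
              · exact EIIIb_wt_nonneg N _
              · exact le_rfl) hu
        rw [if_pos h3] at h4
        exact h4
    · rw [if_neg h1]
      exact hnn
  refine hstep.trans ?_
  rw [Finset.sum_mul, Finset.sum_mul, Finset.sum_mul]
  refine Finset.sum_le_sum fun u hu => (hK u z x hx hu).trans ?_
  have hx0 : (0 : ℝ) ≤ x := Nat.cast_nonneg x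
  have h5 : (1 + Real.log ((z : ℝ) + 1)) ^ K u ≤ (1 + Real.log ((z : ℝ) + 1)) ^ (∑ u ∈ U, K u) :=
    pow_le_pow_right₀ hB (Finset.single_le_sum (f := K) (fun _ _ => Nat.zero_le _) hu)
  exact mul_le_mul_of_nonneg_left h5 (mul_nonneg (mul_nonneg (hC u).le hx0) hL)

theorem EIIIb_num (x m D₀ : ℕ) (hx : 100 ≤ x) (hm : 0 < m) (hmD : m ≤ D₀) (hD : D₀ ^ 2 ≤ x) :
    3 ≤ x / m ∧ Real.log x / 4 ≤ Real.log ((x / m : ℕ) : ℝ) := by
  have h1 : m * m ≤ x := by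
    calc m * m ≤ D₀ * D₀ := Nat.mul_le_mul hmD hmD
      _ = D₀ ^ 2 := by ring
      _ ≤ x := hD
  have h2 : m ≤ x / m := (Nat.le_div_iff_mul_le hm).mpr h1
  have h3 : x < m * (x / m + 1) := Nat.lt_mul_div_succ x hm
  generalize x / m = X at h2 h3
  have h4 : x < X * (X + 1) := lt_of_lt_of_le h3 (Nat.mul_le_mul_right _ h2)
  have h5 : 10 ≤ X := by
    by_contra hcon
    have : X ≤ 9 := by omega
    have : X * (X + 1) ≤ 9 * 10 := Nat.mul_le_mul this (by omega)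
    omega
  refine ⟨by omega, ?_⟩
  have h6 : x ≤ X ^ 4 := by
    have h7 : X * (X + 1) ≤ X ^ 4 := by
      have : X + 1 ≤ X ^ 3 := by nlinarith [Nat.mul_le_mul h5 h5, Nat.mul_le_mul (Nat.mul_le_mul h5 h5) h5]
      calc X * (X + 1) ≤ X * X ^ 3 := Nat.mul_le_mul_left _ this
        _ = X ^ 4 := by ring
    omega
  have h8 : (x : ℝ) ≤ (X : ℝ) ^ 4 := by exact_mod_cast h6
  have h9 : Real.log x ≤ 4 * Real.log X := by
    have h10 : (0 : ℝ) < x := by
      have : (100 : ℝ) ≤ x := by exact_mod_cast hx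
      linarith
    calc Real.log x ≤ Real.log ((X : ℝ) ^ 4) := Real.log_le_log h10 h8
      _ = 4 * Real.log X := by
        rw [Real.log_pow]
        norm_num
  linarith

theorem EIIIb_rpow (N : ℕ) (hN : 0 < N) (a b : ℝ) (ha : 0 < a) (hab : a / 4 ≤ b) :
    b ^ (-(1 / (N : ℝ))) ≤ 4 * a ^ (-(1 / (N : ℝ))) := by
  have hN1 : (1 : ℝ) ≤ N := by exact_mod_cast hN
  have h1 : 1 / (N : ℝ) ≤ 1 := (div_le_one (by linarith)).mpr hN1
  have h0 : 0 ≤ 1 / (N : ℝ) := by positivity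
  have h2 : b ^ (-(1 / (N : ℝ))) ≤ (a / 4) ^ (-(1 / (N : ℝ))) :=
    Real.rpow_le_rpow_of_nonpos (by positivity) hab (by linarith)
  refine h2.trans ?_
  rw [Real.div_rpow ha.le (by norm_num), Real.rpow_neg (by norm_num : (0 : ℝ) ≤ 4),
    div_inv_eq_mul, mul_comm]
  have h3 : (4 : ℝ) ^ (1 / (N : ℝ)) ≤ 4 := by
    calc (4 : ℝ) ^ (1 / (N : ℝ)) ≤ (4 : ℝ) ^ (1 : ℝ) :=
          Real.rpow_le_rpow_of_exponent_le (by norm_num) h1
      _ = 4 := Real.rpow_one 4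
  exact mul_le_mul_of_nonneg_right h3 (Real.rpow_nonneg ha.le _)

theorem EIIIb_logQ (N D₀ : ℕ) (hN : 0 < N) (hD : 1 ≤ D₀) :
    (Real.log (900 * ((D₀ ^ 4 : ℕ) : ℝ) + 3)) ^ (1 / (N : ℝ)) ≤ 7 * (1 + Real.log D₀) := by
  have hN1 : (1 : ℝ) ≤ N := by exact_mod_cast hN
  have h1 : 1 / (N : ℝ) ≤ 1 := (div_le_one (by linarith)).mpr hN1
  have hD1 : (1 : ℝ) ≤ D₀ := by exact_mod_cast hD
  have hD4 : (1 : ℝ) ≤ (D₀ : ℝ) ^ 4 := one_le_pow₀ hD1
  have hlD : 0 ≤ Real.log D₀ := Real.log_nonneg hD1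
  push_cast
  have h3 : (1 : ℝ) ≤ Real.log (900 * (D₀ : ℝ) ^ 4 + 3) := by
    rw [Real.le_log_iff_exp_le (by positivity)]
    have := Real.exp_one_lt_d9
    linarith
  have h4 : (Real.log (900 * (D₀ : ℝ) ^ 4 + 3)) ^ (1 / (N : ℝ)) ≤
      Real.log (900 * (D₀ : ℝ) ^ 4 + 3) := by
    calc _ ≤ (Real.log (900 * (D₀ : ℝ) ^ 4 + 3)) ^ (1 : ℝ) :=
          Real.rpow_le_rpow_of_exponent_le h3 h1
      _ = _ := Real.rpow_one _
  refine h4.trans ?_
  have h5 : Real.log (900 * (D₀ : ℝ) ^ 4 + 3) ≤ Real.log (2 ^ 10 * (D₀ : ℝ) ^ 4) :=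
    Real.log_le_log (by positivity) (by nlinarith)
  refine h5.trans ?_
  rw [Real.log_mul (by positivity) (by positivity), Real.log_pow, Real.log_pow]
  have := Real.log_two_lt_d9
  push_cast
  nlinarith

open Classical in
theorem EIIIb_first {V : Type} [Fintype V] [DecidableEq V] (φ : V → V → ℕ) (e : V → Fin 4 → ℕ)
    (hφ : ∀ v w, φ v w ≤ 1) (h0 : ∀ v, φ v v = 0) (N : ℕ) (hN : 0 < N)
    (c : Fin 4 → ℤ) (U : Finset V) (hU : Unlinked φ U) (hcard : U.card = N)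
    (h2 : ∀ v ∉ U, ∃ u ∈ U, ∃ w ∈ U, (φ v u + φ u v) % 2 ≠ (φ v w + φ w v) % 2) :
    ∃ C : ℝ, 0 < C ∧ ∀ z x D₀ : ℕ, 100 ≤ x → 1 ≤ D₀ → D₀ ^ 2 ≤ x → ∀ d ∈ dd V z D₀,
      ¬ supp d ⊆ U → |∑ E ∈ EE U z (x / ∏ v, d v), EIIIb_T φ e N c d E| ≤
      C * x * (Real.log x) ^ (-(1 / (N : ℝ))) * (1 + Real.log D₀) *
        (1 + Real.log (z + 1)) ^ 3 * (1 / ((∏ v, d v : ℕ) : ℝ)) := by
  subst hcard
  have hne : U.Nonempty := Finset.card_pos.mp hN
  obtain ⟨C, hC, hkb⟩ := kb U hne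
  refine ⟨28 * C, by positivity, ?_⟩
  intro z x D₀ hx hD hDx d hd hds
  have hd' := hd
  unfold dd at hd'
  rw [Finset.mem_filter] at hd'
  obtain ⟨_, hok, hmD, _⟩ := hd'
  have hdne := EIIIb_ne hok
  have hm : 0 < ∏ v, d v := Nat.pos_of_ne_zero hok.1.ne_zero
  obtain ⟨hX3, hXlog⟩ := EIIIb_num x (∏ v, d v) D₀ hx hm hmD hDx
  obtain ⟨v₁, hv₁, hv₁U⟩ := Finset.not_subset.mp hds
  have hv₁' : d v₁ ≠ 1 := by
    unfold supp at hv₁
    rw [Finset.mem_filter] at hv₁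
    exact hv₁.2
  obtain ⟨u, hu, w, hw, hodd⟩ := h2 v₁ hv₁U
  have hns := EIIIb_nonsq φ d hok.1 v₁ hv₁' u w hodd
  have hcop : ∀ t ∈ U, (∏ v, d v ^ (φ v t + φ t v)).Coprime 30 := by
    intro t _
    refine Nat.Coprime.prod_left fun v _ => Nat.Coprime.pow_left _ ?_
    exact Nat.Coprime.coprime_dvd_left (Finset.dvd_prod_of_mem d (Finset.mem_univ v)) hok.2
  have hMne : ∀ t ∈ U, (∏ v, d v ^ (φ v t + φ t v)) ≠ 0 := fun t _ =>
    Finset.prod_ne_zero_iff.mpr fun v _ => pow_ne_zero _ (hdne v)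
  have hMle : ∀ t : V, (∏ v, d v ^ (φ v t + φ t v)) ≤ (∏ v, d v) ^ 2 := by
    intro t
    rw [← Finset.prod_pow]
    refine Finset.prod_le_prod' fun v _ => ?_
    refine Nat.pow_le_pow_right (Nat.pos_of_ne_zero (hdne v)) ?_
    have := hφ v t
    have := hφ t v
    omega
  have hQ : (∏ v, d v ^ (φ v u + φ u v)) * (∏ v, d v ^ (φ v w + φ w v)) ≤ D₀ ^ 4 := by
    calc _ ≤ (∏ v, d v) ^ 2 * (∏ v, d v) ^ 2 := Nat.mul_le_mul (hMle u) (hMle w)
      _ = (∏ v, d v) ^ 4 := by ring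
      _ ≤ D₀ ^ 4 := Nat.pow_le_pow_left hmD 4
  obtain ⟨H, hH, hF⟩ := F_expand φ e hφ h0 U hU d hok
  have hH1 : ∀ s : V → Fin 4 → ℤ,
      |(if sg (∏ v, d v) * ∏ v, s v = c then H s else 0)| ≤ 1 := by
    intro s
    split_ifs
    · exact hH s
    · simp
  have key := hkb (fun t => ∏ v, d v ^ (φ v t + φ t v)) hcop hMne u hu w hw hns (D₀ ^ 4) hQ
    (fun s => if sg (∏ v, d v) * ∏ v, s v = c then H s else 0) hH1 z (x / ∏ v, d v) hX3
  have hsum : ∑ E ∈ EE U z (x / ∏ v, d v), EIIIb_T φ e U.card c d E =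
      ∑ E ∈ EE U z (x / ∏ v, d v), wt U.card (∏ v, E v) *
        (fun s : V → Fin 4 → ℤ => if sg (∏ v, d v) * ∏ v, s v = c then H s else 0)
          (fun v => sg (E v)) *
        ∏ v ∈ U, (jacobiSym (((fun t => ∏ v, d v ^ (φ v t + φ t v)) v : ℕ) : ℤ) (E v) : ℝ) := by
    refine Finset.sum_congr rfl fun E hE => ?_
    obtain ⟨hok2, _, _, _⟩ := e3_props U z x D₀ d E hd hE
    have hE' := hE
    unfold EE Dall at hE'
    rw [Finset.mem_filter, Finset.mem_filter] at hE'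
    have hEne := EIIIb_ne hE'.1.2.1
    have hEm : ∏ v, E v ≠ 0 := hE'.1.2.1.1.ne_zero
    have hsg : sg (∏ v, d v * E v) = sg (∏ v, d v) * ∏ v, sg (E v) := by
      rw [Finset.prod_mul_distrib, sg_mul _ _ hm.ne' hEm, sg_prod _ _ fun v _ => hEne v]
    unfold EIIIb_T
    rw [hsg]
    beta_reduce
    by_cases hcc : sg (∏ v, d v) * ∏ v, sg (E v) = c
    · rw [if_pos hcc, if_pos hcc, hF E hok2 hE'.2.1]
      ring
    · rw [if_neg hcc, if_neg hcc]
      ring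
  rw [hsum]
  refine key.trans ?_
  have hxr : (100 : ℝ) ≤ x := by exact_mod_cast hx
  have hlog : 0 < Real.log x := Real.log_pos (by linarith)
  have hL : 0 ≤ (Real.log x) ^ (-(1 / (U.card : ℝ))) := Real.rpow_nonneg hlog.le _
  have hA : 0 ≤ 1 + Real.log D₀ := by
    have : 0 ≤ Real.log D₀ := Real.log_nonneg (by exact_mod_cast hD)
    linarith
  have hB : 0 ≤ 1 + Real.log ((z : ℝ) + 1) := by
    have : 0 ≤ Real.log ((z : ℝ) + 1) := Real.log_nonneg (by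
      have : (0 : ℝ) ≤ z := Nat.cast_nonneg z
      linarith)
    linarith
  have n1 := EIIIb_rpow U.card hN _ _ hlog hXlog
  have n2 := EIIIb_logQ U.card D₀ hN hD
  have n3 : (((x / ∏ v, d v : ℕ)) : ℝ) ≤ (x : ℝ) * (1 / ((∏ v, d v : ℕ) : ℝ)) := by
    have := @Nat.cast_div_le ℝ _ _ _ x (∏ v, d v)
    calc _ ≤ (x : ℝ) / ((∏ v, d v : ℕ) : ℝ) := this
      _ = _ := by ring
  have hm1 : 0 ≤ 1 / ((∏ v, d v : ℕ) : ℝ) := by positivity
  have hLX : 0 ≤ (Real.log (((x / ∏ v, d v : ℕ)) : ℝ)) ^ (-(1 / (U.card : ℝ))) :=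
    Real.rpow_nonneg (by linarith) _
  have hLQ : 0 ≤ (Real.log (900 * ((D₀ ^ 4 : ℕ) : ℝ) + 3)) ^ (1 / (U.card : ℝ)) :=
    Real.rpow_nonneg (Real.log_nonneg (by
      have : (0 : ℝ) ≤ ((D₀ ^ 4 : ℕ) : ℝ) := Nat.cast_nonneg _
      linarith)) _
  generalize (Real.log (((x / ∏ v, d v : ℕ)) : ℝ)) ^ (-(1 / (U.card : ℝ))) = LX at n1 hLX ⊢
  generalize (Real.log (900 * ((D₀ ^ 4 : ℕ) : ℝ) + 3)) ^ (1 / (U.card : ℝ)) = LQ at n2 hLQ ⊢
  generalize (Real.log x) ^ (-(1 / (U.card : ℝ))) = L at n1 hL ⊢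
  generalize (1 / ((∏ v, d v : ℕ) : ℝ)) = m' at n3 hm1 ⊢
  generalize (((x / ∏ v, d v : ℕ)) : ℝ) = X at n3 ⊢
  have hB3 : 0 ≤ (1 + Real.log ((z : ℝ) + 1)) ^ 3 := pow_nonneg hB 3
  generalize (1 + Real.log ((z : ℝ) + 1)) ^ 3 = B3 at hB3 ⊢
  generalize 1 + Real.log D₀ = A at n2 hA ⊢
  have s1 : C * X * LX * LQ ≤ C * (x * m') * (4 * L) * (7 * A) := by
    have hx0 : (0 : ℝ) ≤ x := Nat.cast_nonneg x
    have t1 : C * X * LX ≤ C * (x * m') * (4 * L) := by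
      calc C * X * LX ≤ C * (x * m') * LX :=
            mul_le_mul_of_nonneg_right (mul_le_mul_of_nonneg_left n3 hC.le) hLX
        _ ≤ C * (x * m') * (4 * L) :=
            mul_le_mul_of_nonneg_left n1 (mul_nonneg hC.le (mul_nonneg hx0 hm1))
    calc C * X * LX * LQ ≤ C * (x * m') * (4 * L) * LQ :=
          mul_le_mul_of_nonneg_right t1 hLQ
      _ ≤ C * (x * m') * (4 * L) * (7 * A) :=
          mul_le_mul_of_nonneg_left n2 (mul_nonneg (mul_nonneg hC.le (mul_nonneg hx0 hm1))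
            (mul_nonneg (by norm_num) hL))
  calc C * X * LX * LQ * B3 ≤ C * (x * m') * (4 * L) * (7 * A) * B3 :=
        mul_le_mul_of_nonneg_right s1 hB3
    _ = 28 * C * x * L * A * B3 * m' := by ring

open Classical in
/-- some small prime has a label outside `U` -/
theorem e3b {V : Type} [Fintype V] [DecidableEq V] (φ : V → V → ℕ) (e : V → Fin 4 → ℕ)
    (hφ : ∀ v w, φ v w ≤ 1) (h0 : ∀ v, φ v v = 0) (N : ℕ) (hN : 0 < N) (R : Finset V → Prop)
    (c : Fin 4 → ℤ) (hc : c ∈ SV) (U : Finset V) (hU : Unlinked φ U) (hcard : U.card = N)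
    (h2 : ∀ v ∉ U, ∃ u ∈ U, ∃ w ∈ U, (φ v u + φ u v) % 2 ≠ (φ v w + φ w v) % 2) :
    ∃ C : ℝ, 0 < C ∧ ∃ K : ℕ, ∀ z x D₀ : ℕ, 100 ≤ x → 1 ≤ z → 1 ≤ D₀ → D₀ ^ 2 ≤ x →
    |∑ D ∈ (Dx V c x).filter (fun D => rs z D = U ∧ ¬ supp D ⊆ U ∧ ∏ v, sm z (D v) ≤ D₀),
      G φ e N R D| ≤
      C * x * (Real.log x) ^ (-(1 / (N : ℝ))) * (1 + Real.log D₀) ^ K *
        (1 + Real.log (z + 1)) ^ K := by
  obtain ⟨C₁, hC₁, hK₁⟩ := EIIIb_first φ e hφ h0 N hN c U hU hcard h2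
  obtain ⟨C₂, hC₂, K₂, hK₂⟩ := EIIIb_second N hN U hcard
  refine ⟨C₁ + C₂, by positivity, (Fintype.card V + 1) + 3 + K₂, ?_⟩
  intro z x D₀ hx hz hD hDx
  rw [EIIIb_rewrite]
  refine (Finset.abs_sum_le_sum_abs _ _).trans ?_
  refine (Finset.sum_le_sum fun d hd => EIIIb_abs φ e N hN R c U z x D₀ d hd).trans ?_
  rw [Finset.sum_add_distrib]
  have hxr : (100 : ℝ) ≤ x := by exact_mod_cast hx
  have hlog : 0 < Real.log x := Real.log_pos (by linarith)
  have hL : 0 ≤ (Real.log x) ^ (-(1 / (N : ℝ))) := Real.rpow_nonneg hlog.le _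
  have hA : 1 ≤ 1 + Real.log D₀ := by
    have : 0 ≤ Real.log D₀ := Real.log_nonneg (by exact_mod_cast hD)
    linarith
  have hB : 1 ≤ 1 + Real.log ((z : ℝ) + 1) := by
    have : 0 ≤ Real.log ((z : ℝ) + 1) := Real.log_nonneg (by
      have : (0 : ℝ) ≤ z := Nat.cast_nonneg z
      linarith)
    linarith
  have hx0 : (0 : ℝ) ≤ x := Nat.cast_nonneg x
  -- the second part
  have s2 : ∑ d ∈ dd V z D₀, ∑ E ∈ EE U z (x / ∏ v, d v),
        (if rs z (fun v => d v * E v) = U then 0 else wt N (∏ v, d v * E v)) ≤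
      C₂ * x * (Real.log x) ^ (-(1 / (N : ℝ))) * (1 + Real.log (z + 1)) ^ K₂ := by
    have h := e3_index U z x D₀ (fun D => if rs z D = U then (0 : ℝ) else wt N (∏ v, D v))
    rw [← h]
    exact hK₂ z x D₀ (by omega)
  -- the first part
  have s1 : ∑ d ∈ dd V z D₀, (if supp d ⊆ U then 0 else
        |∑ E ∈ EE U z (x / ∏ v, d v), EIIIb_T φ e N c d E|) ≤
      C₁ * x * (Real.log x) ^ (-(1 / (N : ℝ))) * (1 + Real.log D₀) ^ (Fintype.card V + 1) *
        (1 + Real.log (z + 1)) ^ 3 := by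
    have t1 : ∑ d ∈ dd V z D₀, (if supp d ⊆ U then 0 else
        |∑ E ∈ EE U z (x / ∏ v, d v), EIIIb_T φ e N c d E|) ≤
        ∑ d ∈ dd V z D₀, C₁ * x * (Real.log x) ^ (-(1 / (N : ℝ))) * (1 + Real.log D₀) *
          (1 + Real.log (z + 1)) ^ 3 * (1 / ((∏ v, d v : ℕ) : ℝ)) := by
      refine Finset.sum_le_sum fun d hd => ?_
      by_cases hs : supp d ⊆ U
      · rw [if_pos hs]
        have : 0 ≤ 1 / ((∏ v, d v : ℕ) : ℝ) := by positivity
        have hB3 : 0 ≤ (1 + Real.log ((z : ℝ) + 1)) ^ 3 := pow_nonneg (by linarith) 3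
        exact mul_nonneg (mul_nonneg (mul_nonneg (mul_nonneg (mul_nonneg hC₁.le hx0) hL)
          (by linarith)) hB3) this
      · rw [if_neg hs]
        exact hK₁ z x D₀ hx hD hDx d hd hs
    refine t1.trans ?_
    rw [← Finset.mul_sum]
    have t2 := EIIIb_sum_inv (V := V) z D₀
    have hB3 : 0 ≤ (1 + Real.log ((z : ℝ) + 1)) ^ 3 := pow_nonneg (by linarith) 3
    refine (mul_le_mul_of_nonneg_left t2 (mul_nonneg (mul_nonneg (mul_nonneg
      (mul_nonneg hC₁.le hx0) hL) (by linarith)) hB3)).trans (le_of_eq ?_)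
    rw [pow_succ]
    ring
  refine (add_le_add s1 s2).trans ?_
  generalize (Real.log x) ^ (-(1 / (N : ℝ))) = L at hL ⊢
  generalize 1 + Real.log ((z : ℝ) + 1) = B at hB ⊢
  generalize 1 + Real.log D₀ = A at hA ⊢
  have p1 : A ^ (Fintype.card V + 1) ≤ A ^ ((Fintype.card V + 1) + 3 + K₂) :=
    pow_le_pow_right₀ hA (by omega)
  have p2 : B ^ 3 ≤ B ^ ((Fintype.card V + 1) + 3 + K₂) := pow_le_pow_right₀ hB (by omega)
  have p3 : B ^ K₂ ≤ B ^ ((Fintype.card V + 1) + 3 + K₂) := pow_le_pow_right₀ hB (by omega)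
  have p4 : 1 ≤ A ^ ((Fintype.card V + 1) + 3 + K₂) := one_le_pow₀ hA
  have pA : 0 ≤ A ^ ((Fintype.card V + 1) + 3 + K₂) := by linarith
  have pB : 0 ≤ B ^ ((Fintype.card V + 1) + 3 + K₂) := by
    have := one_le_pow₀ (n := (Fintype.card V + 1) + 3 + K₂) hB
    linarith
  have pB3 : 0 ≤ B ^ 3 := pow_nonneg (by linarith) 3
  have q1 : C₁ * x * L * A ^ (Fintype.card V + 1) * B ^ 3 ≤
      C₁ * x * L * (A ^ ((Fintype.card V + 1) + 3 + K₂) *
        B ^ ((Fintype.card V + 1) + 3 + K₂)) := by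
    rw [mul_assoc (C₁ * x * L)]
    exact mul_le_mul_of_nonneg_left (mul_le_mul p1 p2 pB3 pA)
      (mul_nonneg (mul_nonneg hC₁.le hx0) hL)
  have q2 : C₂ * x * L * B ^ K₂ ≤ C₂ * x * L * (A ^ ((Fintype.card V + 1) + 3 + K₂) *
        B ^ ((Fintype.card V + 1) + 3 + K₂)) := by
    refine mul_le_mul_of_nonneg_left ?_ (mul_nonneg (mul_nonneg hC₂.le hx0) hL)
    calc B ^ K₂ ≤ 1 * B ^ ((Fintype.card V + 1) + 3 + K₂) := by rw [one_mul]; exact p3
      _ ≤ _ := mul_le_mul_of_nonneg_right p4 pB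
  refine (add_le_add q1 q2).trans (le_of_eq ?_)
  ring

end PPA
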